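import Pool.Agent.Lib.MP_904526_an.C1

/-!
# C2 (est. 50 min): Fekete
a n = ∫ uu n is subadditive: integrate uu_sub, ∫ uu n (g^[m] x) = ∫ uu n (g preserves μ). Mathlib:
Subadditive, Subadditive.tendsto_lim (bounded below: |a n| ≤ n log M), Subadditive.lim_le_div.
limExp_facts: Λ is the limit of a n / n, hence equal to lim = inf, so Λ n ≤ a n for n ≥ 1 and
a N ≤ (Λ+ε) N for large N. limExp_exists: Λ = lim, and δ ≤ a n / n passes to the limit.
-/

open Set Filter Topology MeasureTheory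

namespace MD

variable {g : E ≃ₜ E} {D L : E → E →L[ℝ] E} {P : E → E} {q J M : ℝ} {K : Set E}

theorem c2_shift (h : Sys g D L P q J M K) (μ : Measure E) [IsProbabilityMeasure μ]
    (hg : MeasurePreserving g μ μ) (hK : μ Kᶜ = 0) (m n : ℕ) :
    Integrable (fun x => uu D g n (g^[m] x)) μ ∧
      ∫ x, uu D g n (g^[m] x) ∂μ = ∫ x, uu D g n x ∂μ := by
  have hm := hg.iterate m
  have hmeas : AEStronglyMeasurable (uu D g n) (Measure.map (g^[m]) μ) :=
    (uu_meas h n).aestronglyMeasurable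
  constructor
  · have h1 : Integrable (uu D g n) (Measure.map (g^[m]) μ) := by
      rw [hm.map_eq]; exact uu_int h μ hK n
    exact (integrable_map_measure hmeas hm.measurable.aemeasurable).1 h1
  · rw [← integral_map hm.measurable.aemeasurable hmeas, hm.map_eq]

theorem c2_sub (h : Sys g D L P q J M K) (μ : Measure E) [IsProbabilityMeasure μ]
    (hg : MeasurePreserving g μ μ) (hK : μ Kᶜ = 0) :
    Subadditive fun n : ℕ => ∫ x, uu D g n x ∂μ := by
  intro m n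
  obtain ⟨h1, h2⟩ := c2_shift h μ hg hK m n
  show ∫ x, uu D g (m + n) x ∂μ ≤ ∫ x, uu D g m x ∂μ + ∫ x, uu D g n x ∂μ
  rw [← h2, ← integral_add (uu_int h μ hK m) h1]
  exact integral_mono (uu_int h μ hK _) ((uu_int h μ hK m).add h1) fun x => uu_sub h x m n

theorem c2_bd (h : Sys g D L P q J M K) (μ : Measure E) [IsProbabilityMeasure μ]
    (hK : μ Kᶜ = 0) (n : ℕ) : |∫ x, uu D g n x ∂μ| ≤ Real.log M * n := by
  have hae : ∀ᵐ x ∂μ, ‖uu D g n x‖ ≤ Real.log M * n := by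
    have : ∀ᵐ x ∂μ, x ∈ K := by
      rw [ae_iff]; exact hK
    filter_upwards [this] with x hx
    exact uu_bd h x hx n
  have := norm_integral_le_of_norm_le_const hae
  rwa [probReal_univ, mul_one] at this

theorem c2_bdd (h : Sys g D L P q J M K) (μ : Measure E) [IsProbabilityMeasure μ]
    (hK : μ Kᶜ = 0) : BddBelow (range fun n : ℕ => (∫ x, uu D g n x ∂μ) / n) := by
  have hM : 0 ≤ Real.log M := Real.log_nonneg h.hM
  refine ⟨-Real.log M, ?_⟩
  rintro _ ⟨n, rfl⟩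
  rcases Nat.eq_zero_or_pos n with hn | hn
  · subst hn
    simp only [Nat.cast_zero, div_zero]
    linarith
  · have hn' : (0 : ℝ) < n := by exact_mod_cast hn
    have h1 := (abs_le.1 (c2_bd h μ hK n)).1
    show -Real.log M ≤ (∫ x, uu D g n x ∂μ) / n
    rw [le_div_iff₀ hn']
    linarith

theorem limExp_facts (h : Sys g D L P q J M K) (μ : Measure E) [IsProbabilityMeasure μ]
    (hg : MeasurePreserving g μ μ) (hK : μ Kᶜ = 0) (Λ : ℝ) (hΛ : LimExp D g μ Λ) :
    (∀ n : ℕ, 1 ≤ n → Λ * n ≤ ∫ x, uu D g n x ∂μ) ∧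
      ∀ ε : ℝ, 0 < ε → ∃ N : ℕ, 1 ≤ N ∧ ∫ x, uu D g N x ∂μ ≤ (Λ + ε) * N := by
  have hs := c2_sub h μ hg hK
  have hb := c2_bdd h μ hK
  have hlim : hs.lim = Λ := tendsto_nhds_unique (hs.tendsto_lim hb) hΛ
  constructor
  · intro n hn
    have hn' : (0 : ℝ) < n := by exact_mod_cast hn
    have h1 := hs.lim_le_div hb (n := n) (by omega)
    rw [hlim, le_div_iff₀ hn'] at h1
    exact h1
  · intro ε hε
    have h1 : ∀ᶠ n : ℕ in atTop, (∫ x, uu D g n x ∂μ) / n < Λ + ε :=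
      hΛ.eventually (gt_mem_nhds (by linarith))
    obtain ⟨N, hN1, hN2⟩ := (h1.and (eventually_ge_atTop 1)).exists
    refine ⟨N, hN2, ?_⟩
    have hn' : (0 : ℝ) < N := by exact_mod_cast hN2
    rw [div_lt_iff₀ hn'] at hN1
    exact hN1.le

theorem limExp_exists (h : Sys g D L P q J M K) (μ : Measure E) [IsProbabilityMeasure μ]
    (hg : MeasurePreserving g μ μ) (hK : μ Kᶜ = 0) (δ : ℝ)
    (hδ : ∀ n : ℕ, 1 ≤ n → δ * n ≤ ∫ x, uu D g n x ∂μ) :
    ∃ Λ : ℝ, δ ≤ Λ ∧ LimExp D g μ Λ := by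
  have hs := c2_sub h μ hg hK
  have hb := c2_bdd h μ hK
  refine ⟨hs.lim, ?_, hs.tendsto_lim hb⟩
  refine ge_of_tendsto (hs.tendsto_lim hb) ?_
  filter_upwards [eventually_ge_atTop 1] with n hn
  have hn' : (0 : ℝ) < n := by exact_mod_cast hn
  rw [le_div_iff₀ hn']
  exact hδ n hn

end MD
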