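import Pool.Agent.Lib.MP_904526_an.F1

/-!
# F2 (est. 80 min): escape, and the invariant compact set
R = 3 + |c|, f = hen. V⁻ = {|y| ≥ max |x| R}: for p = (X,Y) ∈ V⁻, f.symm p = (Y, Y'),
|Y'| = |Y² + c - X| / |b| ≥ Y² - |c| - |Y| ≥ 2 |Y| (|b| < 1, |Y| ≥ R: Y² ≥ R |Y| ≥ (3+|c|)|Y| and
|c| ≤ |c||Y|), so f.symm p ∈ V⁻ with the second coordinate doubled: ‖f.symm^[n] p‖ → ∞.
km_of_freq: if y enters V⁻ at some time, the backward orbit tends to infinity, contradiction; if it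
never enters, then |Y_n| < max |X_n| R and X_(n+1) = Y_n, so |X_n|, |Y_n| ≤ max ‖y‖ R for all n.
km_bd: the same. Forward: V⁺ = {|X| ≥ max |Y| R}, f (X,Y) = (X²+c-bY, X), |X'| ≥ X² - |c| - |X|≥ 2|X|.
kk_of: a point whose forward orbit is never in V⁺ and backward orbit never in V⁻ has all iterates
outside V⁺ and V⁻ at the same time (iterates of iterates; an iterate f^[n] x, n > 0, has its backward
orbit through x: if f^[n] x ∈ V⁻ then its backward orbit stays in V⁻, in particular all backward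
iterates of x for n large, contradiction); a point outside V⁺ ∪ V⁻ has norm < R: if |X| ≥ R then
|X| < |Y| (not V⁺) so |Y| ≥ R and |Y| < |X| (not V⁻).
kk_ae: choose N with μ (closedBall 0 N) > 0 ... better: for a.e. x both orbits are frequently in some
ball: for each N, a.e. x in closedBall 0 N returns infinitely often under f and under f.symm
(MeasurePreserving.conservative, Conservative.ae_mem_imp_frequently_image_mem), and the balls cover.
-/

open Set Filter Topology MeasureTheory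

namespace MD

/-- points with bounded backward orbit -/
def KM (c b : ℝ) (hb : b ≠ 0) : Set E :=
  {y | ∃ B : ℝ, ∀ n : ℕ, ‖(hen c b hb).symm^[n] y‖ ≤ B}

/-- backward escape region -/
def Vm (c : ℝ) : Set E := {p | max |p.1| (3 + |c|) ≤ |p.2|}

/-- forward escape region -/
def Vp (c : ℝ) : Set E := {p | max |p.2| (3 + |c|) ≤ |p.1|}

theorem vm_step (c b : ℝ) (hb : b ≠ 0) (hb1 : |b| < 1) (p : E) (hp : p ∈ Vm c) :
    (hen c b hb).symm p ∈ Vm c ∧ 2 * |p.2| ≤ |((hen c b hb).symm p).2| := by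
  have hp' : max |p.1| (3 + |c|) ≤ |p.2| := hp
  have h1 : |p.1| ≤ |p.2| := (le_max_left _ _).trans hp'
  have h2 : 3 + |c| ≤ |p.2| := (le_max_right _ _).trans hp'
  have hc : 0 ≤ |c| := abs_nonneg c
  have hb0 : 0 < |b| := abs_pos.mpr hb
  have e : ((hen c b hb).symm p).2 = (p.2 ^ 2 + c - p.1) / b := by rw [hen_symm_apply]
  have e1 : ((hen c b hb).symm p).1 = p.2 := by rw [hen_symm_apply]
  have h3 : 2 * |p.2| ≤ |p.2 ^ 2 + c - p.1| := by
    have h4 : |p.2 ^ 2| - |c| - |p.1| ≤ |p.2 ^ 2 + c - p.1| := by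
      have a1 := abs_sub_abs_le_abs_sub (p.2 ^ 2 + c) p.1
      have a2 := abs_sub_abs_le_abs_sub (p.2 ^ 2) (-c)
      rw [abs_neg, sub_neg_eq_add] at a2
      linarith
    have h5 : |p.2 ^ 2| = |p.2| * |p.2| := by rw [abs_pow, sq]
    have h6 : (3 + |c|) * |p.2| ≤ |p.2| * |p.2| := by gcongr
    have h7 : |c| * 1 ≤ |c| * |p.2| := by
      apply mul_le_mul_of_nonneg_left _ hc
      linarith
    nlinarith
  have h8 : 2 * |p.2| ≤ |((hen c b hb).symm p).2| := by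
    rw [e, abs_div, le_div_iff₀ hb0]
    have : 2 * |p.2| * |b| ≤ 2 * |p.2| * 1 := by
      apply mul_le_mul_of_nonneg_left hb1.le
      positivity
    linarith
  refine ⟨?_, h8⟩
  show max |((hen c b hb).symm p).1| (3 + |c|) ≤ |((hen c b hb).symm p).2|
  rw [e1]
  refine max_le ?_ ?_ <;> linarith

theorem vp_step (c b : ℝ) (hb : b ≠ 0) (hb1 : |b| < 1) (p : E) (hp : p ∈ Vp c) :
    hen c b hb p ∈ Vp c ∧ 2 * |p.1| ≤ |(hen c b hb p).1| := by
  have hp' : max |p.2| (3 + |c|) ≤ |p.1| := hp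
  have h1 : |p.2| ≤ |p.1| := (le_max_left _ _).trans hp'
  have h2 : 3 + |c| ≤ |p.1| := (le_max_right _ _).trans hp'
  have hc : 0 ≤ |c| := abs_nonneg c
  have e : (hen c b hb p).1 = p.1 ^ 2 + c - b * p.2 := by rw [hen_apply]
  have e1 : (hen c b hb p).2 = p.1 := by rw [hen_apply]
  have h3 : 2 * |p.1| ≤ |p.1 ^ 2 + c - b * p.2| := by
    have h4 : |p.1 ^ 2| - |c| - |b * p.2| ≤ |p.1 ^ 2 + c - b * p.2| := by
      have a1 := abs_sub_abs_le_abs_sub (p.1 ^ 2 + c) (b * p.2)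
      have a2 := abs_sub_abs_le_abs_sub (p.1 ^ 2) (-c)
      rw [abs_neg, sub_neg_eq_add] at a2
      linarith
    have h5 : |p.1 ^ 2| = |p.1| * |p.1| := by rw [abs_pow, sq]
    have h6 : (3 + |c|) * |p.1| ≤ |p.1| * |p.1| := by gcongr
    have h7 : |c| * 1 ≤ |c| * |p.1| := by
      apply mul_le_mul_of_nonneg_left _ hc
      linarith
    have h8 : |b * p.2| ≤ |p.1| := by
      rw [abs_mul]
      calc |b| * |p.2| ≤ 1 * |p.1| := by gcongr
        _ = |p.1| := one_mul _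
    nlinarith
  have h8 : 2 * |p.1| ≤ |(hen c b hb p).1| := by
    rw [e]; exact h3
  refine ⟨?_, h8⟩
  show max |(hen c b hb p).2| (3 + |c|) ≤ |(hen c b hb p).1|
  rw [e1]
  refine max_le ?_ ?_ <;> linarith

theorem vm_iter (c b : ℝ) (hb : b ≠ 0) (hb1 : |b| < 1) (p : E) (hp : p ∈ Vm c) (n : ℕ) :
    (hen c b hb).symm^[n] p ∈ Vm c ∧ 2 ^ n ≤ ‖(hen c b hb).symm^[n] p‖ := by
  have h : ∀ n : ℕ, (hen c b hb).symm^[n] p ∈ Vm c ∧ 2 ^ n ≤ |((hen c b hb).symm^[n] p).2| := by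
    intro n
    induction n with
    | zero =>
      refine ⟨hp, ?_⟩
      have hp' : max |p.1| (3 + |c|) ≤ |p.2| := hp
      have h2 : 3 + |c| ≤ |p.2| := (le_max_right _ _).trans hp'
      have hc : 0 ≤ |c| := abs_nonneg c
      show (2 : ℝ) ^ 0 ≤ |p.2|
      rw [pow_zero]
      linarith
    | succ n ih =>
      rw [Function.iterate_succ_apply']
      obtain ⟨h1, h2⟩ := vm_step c b hb hb1 _ ih.1
      refine ⟨h1, ?_⟩
      rw [pow_succ]
      linarith [ih.2]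
  exact ⟨(h n).1, (h n).2.trans (norm_snd_le ((hen c b hb).symm^[n] p))⟩

theorem vp_iter (c b : ℝ) (hb : b ≠ 0) (hb1 : |b| < 1) (p : E) (hp : p ∈ Vp c) (n : ℕ) :
    (hen c b hb)^[n] p ∈ Vp c ∧ 2 ^ n ≤ ‖(hen c b hb)^[n] p‖ := by
  have h : ∀ n : ℕ, (hen c b hb)^[n] p ∈ Vp c ∧ 2 ^ n ≤ |((hen c b hb)^[n] p).1| := by
    intro n
    induction n with
    | zero =>
      refine ⟨hp, ?_⟩
      have hp' : max |p.2| (3 + |c|) ≤ |p.1| := hp
      have h2 : 3 + |c| ≤ |p.1| := (le_max_right _ _).trans hp'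
      have hc : 0 ≤ |c| := abs_nonneg c
      show (2 : ℝ) ^ 0 ≤ |p.1|
      rw [pow_zero]
      linarith
    | succ n ih =>
      rw [Function.iterate_succ_apply']
      obtain ⟨h1, h2⟩ := vp_step c b hb hb1 _ ih.1
      refine ⟨h1, ?_⟩
      rw [pow_succ]
      linarith [ih.2]
  exact ⟨(h n).1, (h n).2.trans (norm_fst_le ((hen c b hb)^[n] p))⟩

/-- a sequence which grows like `2 ^ n` is not frequently bounded -/
theorem not_freq (u : ℕ → ℝ) (m : ℕ) (hu : ∀ n, 2 ^ n ≤ u (n + m)) (B : ℝ)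
    (h : ∃ᶠ n : ℕ in atTop, u n ≤ B) : False := by
  obtain ⟨N, hN⟩ := pow_unbounded_of_one_lt B (show (1 : ℝ) < 2 by norm_num)
  obtain ⟨n, hn, hle⟩ := (frequently_atTop.1 h) (N + m)
  obtain ⟨k, rfl⟩ := Nat.exists_eq_add_of_le hn
  have h1 := hu (N + k)
  have h2 : (2 : ℝ) ^ N ≤ 2 ^ (N + k) := pow_le_pow_right₀ (by norm_num) (Nat.le_add_right _ _)
  rw [show N + k + m = N + m + k by ring] at h1
  linarith

theorem symm_iter (f : E ≃ₜ E) (n j : ℕ) (y : E) : f.symm^[j + n] (f^[n] y) = f.symm^[j] y := by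
  rw [Function.iterate_add_apply]
  congr 1
  have h : Function.LeftInverse f.symm f := f.symm_apply_apply
  exact h.iterate n y

theorem iter_symm (f : E ≃ₜ E) (n j : ℕ) (y : E) : f^[j + n] (f.symm^[n] y) = f^[j] y := by
  rw [Function.iterate_add_apply]
  congr 1
  have h : Function.LeftInverse f f.symm := f.apply_symm_apply
  exact h.iterate n y

theorem not_vm_back (c b : ℝ) (hb : b ≠ 0) (hb1 : |b| < 1) (y : E)
    (h : ∃ B : ℝ, ∃ᶠ n : ℕ in atTop, ‖(hen c b hb).symm^[n] y‖ ≤ B) (m : ℕ) :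
    (hen c b hb).symm^[m] y ∉ Vm c := by
  intro hm
  obtain ⟨B, hB⟩ := h
  refine not_freq (fun n => ‖(hen c b hb).symm^[n] y‖) m (fun n => ?_) B hB
  have := (vm_iter c b hb hb1 _ hm n).2
  rwa [← Function.iterate_add_apply] at this

theorem not_vm_forw (c b : ℝ) (hb : b ≠ 0) (hb1 : |b| < 1) (y : E)
    (h : ∃ B : ℝ, ∃ᶠ n : ℕ in atTop, ‖(hen c b hb).symm^[n] y‖ ≤ B) (m : ℕ) :
    (hen c b hb)^[m] y ∉ Vm c := by
  intro hm
  obtain ⟨B, hB⟩ := h
  refine not_freq (fun n => ‖(hen c b hb).symm^[n] y‖) 0 (fun n => ?_) B hB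
  have h1 := (vm_iter c b hb hb1 _ hm (n + m)).2
  rw [symm_iter] at h1
  have h2 : (2 : ℝ) ^ n ≤ 2 ^ (n + m) := pow_le_pow_right₀ (by norm_num) (Nat.le_add_right _ _)
  exact h2.trans h1

theorem not_vp_forw (c b : ℝ) (hb : b ≠ 0) (hb1 : |b| < 1) (y : E)
    (h : ∃ B : ℝ, ∃ᶠ n : ℕ in atTop, ‖(hen c b hb)^[n] y‖ ≤ B) (m : ℕ) :
    (hen c b hb)^[m] y ∉ Vp c := by
  intro hm
  obtain ⟨B, hB⟩ := h
  refine not_freq (fun n => ‖(hen c b hb)^[n] y‖) m (fun n => ?_) B hB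
  have := (vp_iter c b hb hb1 _ hm n).2
  rwa [← Function.iterate_add_apply] at this

theorem not_vp_back (c b : ℝ) (hb : b ≠ 0) (hb1 : |b| < 1) (y : E)
    (h : ∃ B : ℝ, ∃ᶠ n : ℕ in atTop, ‖(hen c b hb)^[n] y‖ ≤ B) (m : ℕ) :
    (hen c b hb).symm^[m] y ∉ Vp c := by
  intro hm
  obtain ⟨B, hB⟩ := h
  refine not_freq (fun n => ‖(hen c b hb)^[n] y‖) 0 (fun n => ?_) B hB
  have h1 := (vp_iter c b hb hb1 _ hm (n + m)).2
  rw [iter_symm] at h1
  have h2 : (2 : ℝ) ^ n ≤ 2 ^ (n + m) := pow_le_pow_right₀ (by norm_num) (Nat.le_add_right _ _)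
  exact h2.trans h1

theorem back_bd (c b : ℝ) (hb : b ≠ 0) (hb1 : |b| < 1) (y : E)
    (h : ∃ B : ℝ, ∃ᶠ n : ℕ in atTop, ‖(hen c b hb).symm^[n] y‖ ≤ B) (n : ℕ) :
    ‖(hen c b hb).symm^[n] y‖ ≤ max ‖y‖ (3 + |c|) := by
  induction n with
  | zero => exact le_max_left _ _
  | succ n ih =>
    have h1 : (hen c b hb).symm^[n + 1] y ∉ Vm c := not_vm_back c b hb hb1 y h (n + 1)
    rw [Function.iterate_succ_apply'] at h1 ⊢
    set p := (hen c b hb).symm^[n] y with hp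
    have h2 : ¬ max |((hen c b hb).symm p).1| (3 + |c|) ≤ |((hen c b hb).symm p).2| := h1
    have e1 : ((hen c b hb).symm p).1 = p.2 := by rw [hen_symm_apply]
    have h3 : |p.2| ≤ ‖p‖ := norm_snd_le p
    rw [e1, not_le] at h2
    have h4 : max |p.2| (3 + |c|) ≤ max ‖y‖ (3 + |c|) :=
      max_le (h3.trans ih) (le_max_right _ _)
    rw [Prod.norm_def, Real.norm_eq_abs, Real.norm_eq_abs, e1]
    exact max_le ((le_max_left _ _).trans h4) (h2.le.trans h4)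

theorem km_of_freq (c b : ℝ) (hb : b ≠ 0) (hb1 : |b| < 1) (y : E)
    (h : ∃ B : ℝ, ∃ᶠ n : ℕ in atTop, ‖(hen c b hb).symm^[n] y‖ ≤ B) : y ∈ KM c b hb :=
  ⟨_, back_bd c b hb hb1 y h⟩

theorem km_bd (c b : ℝ) (hb : b ≠ 0) (hb1 : |b| < 1) (y : E) (h : y ∈ KM c b hb) (n : ℕ) :
    ‖(hen c b hb).symm^[n] y‖ ≤ max ‖y‖ (3 + |c|) := by
  obtain ⟨B, hB⟩ := h
  exact back_bd c b hb hb1 y ⟨B, (Eventually.of_forall hB).frequently⟩ n

theorem out_lt (c : ℝ) (p : E) (h1 : p ∉ Vm c) (h2 : p ∉ Vp c) : ‖p‖ ≤ 3 + |c| := by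
  have h1' : |p.2| < max |p.1| (3 + |c|) := not_le.1 h1
  have h2' : |p.1| < max |p.2| (3 + |c|) := not_le.1 h2
  have h3 : |p.1| < 3 + |c| := by
    by_contra hcon
    rw [not_lt] at hcon
    rw [max_eq_left hcon] at h1'
    rcases lt_max_iff.1 h2' with h | h
    · exact absurd h (not_lt.2 h1'.le)
    · exact absurd h (not_lt.2 hcon)
  rw [max_eq_right h3.le] at h1'
  rw [Prod.norm_def, Real.norm_eq_abs, Real.norm_eq_abs]
  exact max_le h3.le h1'.le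

theorem kk_of (c b : ℝ) (hb : b ≠ 0) (hb1 : |b| < 1) (y : E)
    (h : ∃ B : ℝ, ∃ᶠ n : ℕ in atTop, ‖(hen c b hb).symm^[n] y‖ ≤ B)
    (h' : ∃ B : ℝ, ∃ᶠ n : ℕ in atTop, ‖(hen c b hb)^[n] y‖ ≤ B) : y ∈ KK c b hb := fun n =>
  ⟨out_lt c _ (not_vm_forw c b hb hb1 y h n) (not_vp_forw c b hb hb1 y h' n),
    out_lt c _ (not_vm_back c b hb hb1 y h n) (not_vp_back c b hb hb1 y h' n)⟩

theorem kk_ae (c b : ℝ) (hb : b ≠ 0) (hb1 : |b| < 1) (μ : Measure E) [IsProbabilityMeasure μ]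
    (hμ : MeasurePreserving (hen c b hb) μ μ) : μ (KK c b hb)ᶜ = 0 := by
  have hμ' : MeasurePreserving (hen c b hb).symm μ μ := hμ.symm (hen c b hb).toMeasurableEquiv
  have h1 : ∀ᵐ x ∂μ, ∀ N : ℕ, x ∈ Metric.closedBall (0 : E) N →
      ∃ᶠ n : ℕ in atTop, (hen c b hb)^[n] x ∈ Metric.closedBall (0 : E) N := by
    rw [ae_all_iff]
    intro N
    exact hμ.conservative.ae_mem_imp_frequently_image_mem
      Metric.isClosed_closedBall.measurableSet.nullMeasurableSet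
  have h2 : ∀ᵐ x ∂μ, ∀ N : ℕ, x ∈ Metric.closedBall (0 : E) N →
      ∃ᶠ n : ℕ in atTop, (hen c b hb).symm^[n] x ∈ Metric.closedBall (0 : E) N := by
    rw [ae_all_iff]
    intro N
    exact hμ'.conservative.ae_mem_imp_frequently_image_mem
      Metric.isClosed_closedBall.measurableSet.nullMeasurableSet
  have h3 : ∀ᵐ x ∂μ, x ∈ KK c b hb := by
    filter_upwards [h1, h2] with x hx1 hx2
    obtain ⟨N, hN⟩ := exists_nat_ge ‖x‖
    have hxN : x ∈ Metric.closedBall (0 : E) N := by rwa [mem_closedBall_zero_iff]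
    refine kk_of c b hb hb1 x ⟨N, (hx2 N hxN).mono fun n hn => ?_⟩
      ⟨N, (hx1 N hxN).mono fun n hn => ?_⟩
    · rwa [mem_closedBall_zero_iff] at hn
    · rwa [mem_closedBall_zero_iff] at hn
  rwa [ae_iff] at h3

end MD
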