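import Pool.Agent.Lib.MP_904526_an.Defs

/-!
# G1 (est. 90 min): bounded sides of the stable curves lie in the set KM
1. For a.e. x: for all n, f.symm^[n] x is a good point (he, hc; f.symm preserves μ), so by induction
   f.symm^[n] (γ x t) = γ (f.symm^[n] x) (m_n t) for all t, with m_n ≠ 0 (he at f.symm^[n+1] x:
   f (γ (f.symm y) t) = γ y (m t)). A bounded side (σ) of x is mapped by f.symm^[n] onto a side of
   f.symm^[n] x, which is bounded (continuous image of a bounded set in the proper space E).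
2. For σ = 1, -1 let ρ_σ x = ⨆ over rational t > 0 of ENNReal.ofReal ‖γ x (σ t)‖ (AEMeasurable). If
   γ x is continuous, the side is bounded iff ρ_σ x < ⊤, and then ‖γ x t‖ ≤ ρ_σ x on the side
   (density of the rationals).
   R x = max (if ρ_1 x = ⊤ then 0 else ρ_1 x) (if ρ_{-1} x = ⊤ then 0 else ρ_{-1} x): AEMeasurable, < ⊤.
3. For N : ℕ the set {x | R x ≤ N} is null measurable, so a.e. point of it returns to it infinitely
   often under f.symm (MeasurePreserving.conservative for f.symm,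
   Conservative.ae_mem_imp_frequently_image_mem). The union over N is everything. So for a.e. x there
   is N with R (f.symm^[n] x) ≤ N frequently.
4. If the side σ of x is bounded and 0 < σ t, then f.symm^[n] (γ x t) is on a bounded side of
   f.symm^[n] x, so its norm is ≤ R (f.symm^[n] x) ≤ N frequently: hKM.
-/

open Set Filter Topology MeasureTheory

namespace MD

/-- the side σ of the curve is bounded by N (tested at rational parameters) -/
def g1_B (γ : E → ℝ → E) (σ : ℝ) (N : ℕ) : Set E :=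
  {x | ∀ r : ℚ, 0 < (r : ℝ) → ‖γ x (σ * r)‖ ≤ N}

/-- a bounded side is bounded by N -/
def g1_T (γ : E → ℝ → E) (N : ℕ) : Set E :=
  ((⋃ k, g1_B γ 1 k)ᶜ ∪ g1_B γ 1 N) ∩ ((⋃ k, g1_B γ (-1) k)ᶜ ∪ g1_B γ (-1) N)

theorem g1_B_null (μ : Measure E) (γ : E → ℝ → E) (hm : ∀ t, AEMeasurable (fun x => γ x t) μ)
    (σ : ℝ) (N : ℕ) : NullMeasurableSet (g1_B γ σ N) μ := by
  have e : g1_B γ σ N = ⋂ r : ℚ, {x | 0 < (r : ℝ) → ‖γ x (σ * r)‖ ≤ N} := by
    ext x; simp [g1_B]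
  rw [e]
  refine NullMeasurableSet.iInter fun r => ?_
  by_cases hr : 0 < (r : ℝ)
  · have e2 : {x : E | 0 < (r : ℝ) → ‖γ x (σ * r)‖ ≤ N} = {x | ‖γ x (σ * r)‖ ≤ N} := by
      ext x; simp [hr]
    rw [e2]
    exact nullMeasurableSet_le (hm _).norm aemeasurable_const
  · have e2 : {x : E | 0 < (r : ℝ) → ‖γ x (σ * r)‖ ≤ N} = univ := by
      ext x; simp [hr]
    rw [e2]
    exact nullMeasurableSet_univ

theorem g1_T_null (μ : Measure E) (γ : E → ℝ → E) (hm : ∀ t, AEMeasurable (fun x => γ x t) μ)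
    (N : ℕ) : NullMeasurableSet (g1_T γ N) μ := by
  have h1 := g1_B_null μ γ hm 1
  have h2 := g1_B_null μ γ hm (-1)
  exact (((NullMeasurableSet.iUnion h1).compl).union (h1 N)).inter
    (((NullMeasurableSet.iUnion h2).compl).union (h2 N))

theorem g1_B_mono (γ : E → ℝ → E) (σ : ℝ) {N N' : ℕ} (h : N ≤ N') :
    g1_B γ σ N ⊆ g1_B γ σ N' := by
  intro x hx r hr
  refine (hx r hr).trans ?_
  exact_mod_cast h

theorem g1_T_cover (γ : E → ℝ → E) (x : E) : ∃ N, x ∈ g1_T γ N := by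
  have h1 : ∀ σ : ℝ, ∃ N, ∀ N', N ≤ N' → x ∈ (⋃ k, g1_B γ σ k)ᶜ ∪ g1_B γ σ N' := by
    intro σ
    by_cases hx : x ∈ ⋃ k, g1_B γ σ k
    · obtain ⟨k, hk⟩ := mem_iUnion.1 hx
      exact ⟨k, fun N' hN' => Or.inr (g1_B_mono γ σ hN' hk)⟩
    · exact ⟨0, fun N' _ => Or.inl hx⟩
  obtain ⟨N1, hN1⟩ := h1 1
  obtain ⟨N2, hN2⟩ := h1 (-1)
  exact ⟨max N1 N2, hN1 _ (le_max_left _ _), hN2 _ (le_max_right _ _)⟩

theorem g1_dense (γ : E → ℝ → E) (x : E) (hc : Continuous (γ x)) (σ : ℝ)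
    (hσ : σ = 1 ∨ σ = -1) (N : ℕ) (hx : x ∈ g1_B γ σ N) (t : ℝ) (ht : 0 < σ * t) :
    ‖γ x t‖ ≤ N := by
  have hss : σ * σ = 1 := by rcases hσ with rfl | rfl <;> norm_num
  by_contra hneg
  push Not at hneg
  have hopen : IsOpen ({s : ℝ | (N : ℝ) < ‖γ x (σ * s)‖} ∩ Ioi 0) := by
    apply IsOpen.inter _ isOpen_Ioi
    exact isOpen_lt continuous_const (hc.comp (continuous_const.mul continuous_id)).norm
  have hne : ({s : ℝ | (N : ℝ) < ‖γ x (σ * s)‖} ∩ Ioi 0).Nonempty := by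
    refine ⟨σ * t, ?_, ht⟩
    show (N : ℝ) < ‖γ x (σ * (σ * t))‖
    rw [← mul_assoc, hss, one_mul]
    exact hneg
  obtain ⟨r, hr1, hr2⟩ := (Rat.denseRange_cast (𝕜 := ℝ)).exists_mem_open hopen hne
  have := hx r hr2
  have h3 : (N : ℝ) < ‖γ x (σ * r)‖ := hr1
  linarith

theorem g1_bdd (γ : E → ℝ → E) (x : E) (σ : ℝ) (hσ : σ = 1 ∨ σ = -1)
    (hb : Bornology.IsBounded (γ x '' {t : ℝ | 0 < σ * t})) : x ∈ ⋃ k, g1_B γ σ k := by
  have hss : σ * σ = 1 := by rcases hσ with rfl | rfl <;> norm_num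
  obtain ⟨R, hR⟩ := hb.exists_norm_le
  obtain ⟨N, hN⟩ := exists_nat_ge R
  refine mem_iUnion.2 ⟨N, fun r hr => ?_⟩
  refine (hR _ ⟨σ * r, ?_, rfl⟩).trans hN
  show 0 < σ * (σ * r)
  rw [← mul_assoc, hss, one_mul]
  exact hr

theorem g1_image_bdd {s : Set E} (hs : Bornology.IsBounded s) {F : E → E} (hF : Continuous F) :
    Bornology.IsBounded (F '' s) :=
  (hs.isCompact_closure.image hF).isBounded.subset (image_mono subset_closure)

theorem bdd_side (f : E ≃ₜ E) (μ : Measure E) [IsProbabilityMeasure μ]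
    (hf : MeasurePreserving f μ μ) (γ : E → ℝ → E)
    (hm : ∀ t, AEMeasurable (fun x => γ x t) μ) (hc : ∀ᵐ x ∂μ, Continuous (γ x))
    (he : ∀ᵐ x ∂μ, ∃ m : ℝ, m ≠ 0 ∧ ∀ t, f (γ x t) = γ (f x) (m * t)) (KM : Set E)
    (hKM : ∀ y : E, (∃ B : ℝ, ∃ᶠ n : ℕ in atTop, ‖f.symm^[n] y‖ ≤ B) → y ∈ KM) :
    ∀ᵐ x ∂μ, ∀ σ : ℝ, (σ = 1 ∨ σ = -1) →
      Bornology.IsBounded (γ x '' {t : ℝ | 0 < σ * t}) → ∀ t : ℝ, 0 < σ * t → γ x t ∈ KM := by
  have hf' : MeasurePreserving f.symm μ μ := hf.symm f.toMeasurableEquiv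
  have hgood1 : ∀ᵐ x ∂μ, ∀ n : ℕ, Continuous (γ (f.symm^[n] x)) := by
    rw [ae_all_iff]
    intro n
    exact (hf'.iterate n).quasiMeasurePreserving.ae hc
  have hgood2 : ∀ᵐ x ∂μ, ∀ n : ℕ, ∃ m : ℝ, m ≠ 0 ∧
      ∀ t, f (γ (f.symm^[n] x) t) = γ (f (f.symm^[n] x)) (m * t) := by
    rw [ae_all_iff]
    intro n
    exact (hf'.iterate n).quasiMeasurePreserving.ae he
  have hrec : ∀ᵐ x ∂μ, ∀ N : ℕ, x ∈ g1_T γ N → ∃ᶠ n : ℕ in atTop, f.symm^[n] x ∈ g1_T γ N := by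
    rw [ae_all_iff]
    intro N
    exact hf'.conservative.ae_mem_imp_frequently_image_mem (g1_T_null μ γ hm N)
  filter_upwards [hgood1, hgood2, hrec] with x hx1 hx2 hx3 σ hσ hb t ht
  apply hKM
  -- the curve is mapped to the curve of the preimage
  have hmap : ∀ n : ℕ, ∃ m : ℝ, m ≠ 0 ∧ ∀ t, f.symm^[n] (γ x t) = γ (f.symm^[n] x) (m * t) := by
    intro n
    induction n with
    | zero => exact ⟨1, one_ne_zero, fun t => by simp⟩
    | succ n ih =>
      obtain ⟨m, hm0, hmt⟩ := ih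
      obtain ⟨m', hm0', hmt'⟩ := hx2 (n + 1)
      refine ⟨m / m', div_ne_zero hm0 hm0', fun t => ?_⟩
      have e1 : f (f.symm^[n + 1] x) = f.symm^[n] x := by
        rw [Function.iterate_succ_apply', Homeomorph.apply_symm_apply]
      rw [Function.iterate_succ_apply', hmt t]
      apply f.injective
      rw [Homeomorph.apply_symm_apply, hmt', e1]
      congr 1
      field_simp
  obtain ⟨N, hN⟩ := g1_T_cover γ x
  refine ⟨N, (hx3 N hN).mono fun n hn => ?_⟩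
  obtain ⟨m, hm0, hmt⟩ := hmap n
  -- the sign of the side of the preimage
  obtain ⟨σ', hσ', hσm⟩ : ∃ σ' : ℝ, (σ' = 1 ∨ σ' = -1) ∧ ∀ s : ℝ, 0 < σ' * (m * s) ↔ 0 < σ * s := by
    have hss : σ * σ = 1 := by rcases hσ with rfl | rfl <;> norm_num
    rcases lt_or_gt_of_ne hm0 with h | h
    · refine ⟨-σ, ?_, fun s => ?_⟩
      · rcases hσ with rfl | rfl
        · exact Or.inr rfl
        · exact Or.inl (by norm_num)
      · have e : -σ * (m * s) = (-m) * (σ * s) := by ring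
        rw [e]
        exact mul_pos_iff_of_pos_left (by linarith)
    · refine ⟨σ, hσ, fun s => ?_⟩
      have e : σ * (m * s) = m * (σ * s) := by ring
      rw [e]
      exact mul_pos_iff_of_pos_left h
  have hbn : Bornology.IsBounded (γ (f.symm^[n] x) '' {s : ℝ | 0 < σ' * s}) := by
    refine (g1_image_bdd hb (f.symm.continuous.iterate n)).subset ?_
    rintro _ ⟨s, hs, rfl⟩
    refine ⟨γ x (s / m), ⟨s / m, ?_, rfl⟩, ?_⟩
    · show 0 < σ * (s / m)
      rw [← hσm, mul_div_cancel₀ _ hm0]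
      exact hs
    · rw [hmt, mul_div_cancel₀ _ hm0]
  have hmem := g1_bdd γ _ σ' hσ' hbn
  have hBN : f.symm^[n] x ∈ g1_B γ σ' N := by
    rcases hσ' with rfl | rfl
    · exact hn.1.resolve_left (fun h => h hmem)
    · exact hn.2.resolve_left (fun h => h hmem)
  rw [hmt]
  exact g1_dense γ _ (hx1 n) σ' hσ' N hBN _ ((hσm t).2 ht)

end MD
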