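import Pool.Agent.Lib.MP_904526_an.N2

/-!
# N3: the stable curve is an immersed curve of class C^1
-/

open Set Filter Topology MeasureTheory

namespace MD

variable {g : E ≃ₜ E} {D L : E → E →L[ℝ] E} {P : E → E} {q J M : ℝ} {K : Set E}

section abstract

/-- approximate strict derivatives with errors tending to zero give a strict derivative -/
theorem n3_limit (c : ℝ → E) (t0 : ℝ) (d : ℕ → E) (e : ℕ → ℝ) (k0 : ℕ)
    (he : Tendsto e atTop (𝓝 0))
    (h : ∀ k, k0 ≤ k → ∀ η : ℝ, 0 < η → ∀ᶠ p : ℝ × ℝ in 𝓝 (t0, t0),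
      ‖c p.1 - c p.2 - (p.1 - p.2) • d k‖ ≤ (e k + η) * |p.1 - p.2|) :
    ∃ d0 : E, ∀ η : ℝ, 0 < η → ∀ᶠ p : ℝ × ℝ in 𝓝 (t0, t0),
      ‖c p.1 - c p.2 - (p.1 - p.2) • d0‖ ≤ η * |p.1 - p.2| := by
  have hne : ∀ S : Set (ℝ × ℝ), S ∈ 𝓝 (t0, t0) → ∃ p ∈ S, p.1 ≠ p.2 := by
    intro S hS
    have h1 : Tendsto (fun s : ℝ => ((t0 + s, t0) : ℝ × ℝ)) (𝓝[≠] 0) (𝓝 (t0, t0)) := by
      have h2 : Continuous (fun s : ℝ => ((t0 + s, t0) : ℝ × ℝ)) := by fun_prop
      have h3 := h2.tendsto 0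
      simp only [add_zero] at h3
      exact h3.mono_left nhdsWithin_le_nhds
    obtain ⟨s, hs1, hs2⟩ := ((h1.eventually hS).and self_mem_nhdsWithin).exists
    refine ⟨_, hs1, ?_⟩
    show t0 + s ≠ t0
    intro h4
    apply hs2
    show s = 0
    linarith
  have hcau : ∀ k l, k0 ≤ k → k0 ≤ l → ‖d k - d l‖ ≤ e k + e l := by
    intro k l hk hl
    apply le_of_forall_pos_le_add
    intro η hη
    obtain ⟨p, ⟨hp1, hp2⟩, hp3⟩ := hne _ ((h k hk (η / 2) (by linarith)).and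
      (h l hl (η / 2) (by linarith)))
    have h0 : 0 < |p.1 - p.2| := abs_pos.2 (sub_ne_zero.2 hp3)
    have h1 : (p.1 - p.2) • (d k - d l) = (c p.1 - c p.2 - (p.1 - p.2) • d l)
        - (c p.1 - c p.2 - (p.1 - p.2) • d k) := by
      rw [smul_sub]; abel
    have h2 : |p.1 - p.2| * ‖d k - d l‖ ≤ |p.1 - p.2| * (e k + e l + η) := by
      calc |p.1 - p.2| * ‖d k - d l‖ = ‖(p.1 - p.2) • (d k - d l)‖ := by
            rw [norm_smul, Real.norm_eq_abs]
        _ ≤ ‖c p.1 - c p.2 - (p.1 - p.2) • d l‖ + ‖c p.1 - c p.2 - (p.1 - p.2) • d k‖ := by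
            rw [h1]; exact norm_sub_le _ _
        _ ≤ (e l + η / 2) * |p.1 - p.2| + (e k + η / 2) * |p.1 - p.2| := add_le_add hp2 hp1
        _ = _ := by ring
    exact le_of_mul_le_mul_left h2 h0
  have hC : CauchySeq d := by
    rw [Metric.cauchySeq_iff]
    intro δ hδ
    obtain ⟨N, hN⟩ := (he.eventually (gt_mem_nhds (by linarith : (0 : ℝ) < δ / 2))).exists_forall_of_atTop
    refine ⟨max N k0, fun m hm n hn => ?_⟩
    rw [dist_eq_norm]
    have h1 := hcau m n (le_trans (le_max_right _ _) hm) (le_trans (le_max_right _ _) hn)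
    have h2 := hN m (le_trans (le_max_left _ _) hm)
    have h3 := hN n (le_trans (le_max_left _ _) hn)
    linarith
  obtain ⟨d0, hd0⟩ := cauchySeq_tendsto_of_complete hC
  have hd : ∀ k, k0 ≤ k → ‖d k - d0‖ ≤ e k := by
    intro k hk
    have h1 : Tendsto (fun l => ‖d k - d l‖) atTop (𝓝 ‖d k - d0‖) :=
      (tendsto_const_nhds.sub hd0).norm
    have h2 : Tendsto (fun l => e k + e l) atTop (𝓝 (e k + 0)) :=
      tendsto_const_nhds.add he
    rw [add_zero] at h2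
    refine le_of_tendsto_of_tendsto h1 h2 ?_
    filter_upwards [eventually_ge_atTop k0] with l hl
    exact hcau k l hk hl
  refine ⟨d0, fun η hη => ?_⟩
  obtain ⟨k, hk1, hk2⟩ := ((he.eventually (gt_mem_nhds (by linarith : (0 : ℝ) < η / 4))).and
    (eventually_ge_atTop k0)).exists
  filter_upwards [h k hk2 (η / 2) (by linarith)] with p hp
  have h1 : c p.1 - c p.2 - (p.1 - p.2) • d0
      = (c p.1 - c p.2 - (p.1 - p.2) • d k) + (p.1 - p.2) • (d k - d0) := by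
    rw [smul_sub]; abel
  rw [h1]
  refine (norm_add_le _ _).trans ?_
  rw [norm_smul, Real.norm_eq_abs]
  have h2 := hd k hk2
  have h3 := abs_nonneg (p.1 - p.2)
  nlinarith [mul_le_mul_of_nonneg_left h2 h3]

/-- strict derivatives everywhere, all non-zero: an immersion of class C^1 -/
theorem n3_c1 (c : ℝ → E)
    (h : ∀ t0 : ℝ, ∃ d0 : E, d0 ≠ 0 ∧ ∀ η : ℝ, 0 < η → ∀ᶠ p : ℝ × ℝ in 𝓝 (t0, t0),
      ‖c p.1 - c p.2 - (p.1 - p.2) • d0‖ ≤ η * |p.1 - p.2|) :
    ContDiff ℝ 1 c ∧ ∀ t, deriv c t ≠ 0 := by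
  choose d hd0 hd using h
  have hder : ∀ t, HasDerivAt c (d t) t := by
    intro t
    rw [hasDerivAt_iff_isLittleO, Asymptotics.isLittleO_iff]
    intro η hη
    have h1 := hd t η hη
    have h2 : Tendsto (fun s : ℝ => ((s, t) : ℝ × ℝ)) (𝓝 t) (𝓝 (t, t)) := by
      have : Continuous (fun s : ℝ => ((s, t) : ℝ × ℝ)) := by fun_prop
      exact this.tendsto t
    filter_upwards [h2.eventually h1] with s hs
    rw [Real.norm_eq_abs]
    exact hs
  have hdd : deriv c = d := by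
    ext1 t
    exact (hder t).deriv
  refine ⟨?_, fun t => by rw [hdd]; exact hd0 t⟩
  rw [contDiff_one_iff_deriv]
  refine ⟨fun t => (hder t).differentiableAt, ?_⟩
  rw [hdd, Metric.continuous_iff]
  intro t0 η hη
  have h1 := hd t0 (η / 2) (by linarith)
  rw [nhds_prod_eq] at h1
  obtain ⟨δ, hδ, hball⟩ : ∃ δ > 0, ∀ s s' : ℝ, dist s t0 < δ → dist s' t0 < δ →
      ‖c s - c s' - (s - s') • d t0‖ ≤ (η / 2) * |s - s'| := by
    rw [← nhds_prod_eq, Metric.eventually_nhds_iff] at h1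
    obtain ⟨δ, hδ, h2⟩ := h1
    refine ⟨δ, hδ, fun s s' hs hs' => ?_⟩
    exact h2 (y := (s, s')) (by
      rw [Prod.dist_eq]
      exact max_lt hs hs')
  refine ⟨δ, hδ, fun t ht => ?_⟩
  have h3 : HasDerivAt (fun s => c s - s • d t0) (d t - (1 : ℝ) • d t0) t :=
    (hder t).sub ((hasDerivAt_id t).smul_const (d t0))
  rw [one_smul] at h3
  have h4 : ‖d t - d t0‖ ≤ η / 2 := by
    refine h3.le_of_lip' (by linarith) ?_
    have h5 : ∀ᶠ s in 𝓝 t, dist s t0 < δ := by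
      have h6 : IsOpen {s : ℝ | dist s t0 < δ} :=
        isOpen_lt (continuous_id.dist continuous_const) continuous_const
      exact h6.mem_nhds ht
    filter_upwards [h5] with s hs
    have h7 := hball s t hs ht
    rw [Real.norm_eq_abs]
    refine le_trans (le_of_eq ?_) h7
    congr 1
    rw [sub_smul]
    abel
  rw [dist_eq_norm]
  linarith

end abstract

theorem n3_leaf (h : Sys g D L P q J M K) (x : E) (C χ ε : ℝ)
    (ht : Tame (fun k => L (g^[k] x)) P (fun k => coc D g k x (Sd D g x)) q C χ ε) (t0 : ℝ) :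
    ∃ d0 : E, d0 ≠ 0 ∧ ∀ η : ℝ, 0 < η → ∀ᶠ p : ℝ × ℝ in 𝓝 (t0, t0),
      ‖leaf D L P g x p.1 - leaf D L P g x p.2 - (p.1 - p.2) • d0‖ ≤ η * |p.1 - p.2| := by
  have hq := ht.hq
  have hC0 : 0 < C := by linarith [ht.hC]
  have hε := ht.hε
  have hχ := ht.hχ
  have hK1 := K1_pos ht
  set c := leaf D L P g x with hc
  set v : ℕ → E := fun k => coc D g k x (Sd D g x) with hv
  set LL : ℕ → E →L[ℝ] E := fun k => L (g^[k] x) with hLL
  have hcc : Continuous c := (leaf_basic h x C χ ε ht).2.1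
  set y := c t0 with hy
  -- the iterates of the points of the curve
  have horb : ∀ k t, g^[k] (c t) = g^[k] x + Gam LL P v k t := fun k t =>
    gam_orb h x v C χ ε ht t k
  obtain ⟨Y, hY⟩ := gam_decay ht t0
  have hY0 : 0 ≤ Y := by
    have h1 := (norm_nonneg _).trans (hY 0)
    rw [wt_zero, mul_one] at h1
    exact h1
  -- products of the inverse derivatives along the orbit of y
  obtain ⟨C', hC'⟩ := n1_gron ht (fun i => L (g^[i] y)) (2 * q * Y) (by positivity) (by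
    intro i
    have h1 := n2_diff h (g^[i] x) (g^[i] y)
    rw [← Function.iterate_succ_apply' g i y, ← Function.iterate_succ_apply' g i x] at h1
    have h2 := horb (i + 1) t0
    rw [← hy] at h2
    rw [h2, add_sub_cancel_left] at h1
    have h3 := hY (i + 1)
    calc ‖L (g^[i] y) - L (g^[i] x)‖ ≤ 2 * q * ‖Gam LL P v (i + 1) t0‖ := h1
      _ ≤ 2 * q * (Y * wt (χ - ε) (i + 1)) := mul_le_mul_of_nonneg_left h3 (by positivity)
      _ = _ := by ring)
  set H : ℕ → E →L[ℝ] E := fun k => Bp (fun i => L (g^[i] y)) 0 k with hH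
  set T : ℝ := |t0| + 1 with hT
  have hT0 : 0 ≤ T := by positivity
  set B0 : ℝ := 8 * q * (C * T) * C * K1 C χ ε with hB0
  have hB00 : 0 ≤ B0 := by positivity
  set b : ℕ → ℝ := fun k => B0 * wt (2 * χ - 3 * ε) k with hb
  have hb0 : ∀ k, 0 ≤ b k := fun k => mul_nonneg hB00 (wt_pos _ _).le
  obtain ⟨k0, hk0⟩ : ∃ k0 : ℕ, 8 * q * (C * T) * K1 C χ ε * wt (χ - 2 * ε) k0 ≤ 1 := by
    have h1 := (wt_tendsto (by linarith : 0 < χ - 2 * ε)).const_mul
      (8 * q * (C * T) * K1 C χ ε)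
    rw [mul_zero] at h1
    obtain ⟨i0, h2⟩ := (h1.eventually (gt_mem_nhds one_pos)).exists
    exact ⟨i0, h2.le⟩
  have hdiff : ∀ k, k0 ≤ k → ∀ t t', |t| ≤ T → |t'| ≤ T →
      ‖Gam LL P v k t - Gam LL P v k t' - (t - t') • v k‖ ≤ b k * |t - t'| := by
    intro k hk t t' h1 h2
    have h3 := l4_diff ht T hT0 k0 hk0 t t' h1 h2 k hk
    refine h3.trans (le_of_eq ?_)
    have h4 : wt (χ - 2 * ε) k * wt (χ - ε) k = wt (2 * χ - 3 * ε) k := by
      rw [wt_mul]; congr 1; ring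
    calc 8 * q * (C * T) * (C * |t - t'|) * K1 C χ ε * wt (χ - 2 * ε) k * wt (χ - ε) k
        = B0 * |t - t'| * (wt (χ - 2 * ε) k * wt (χ - ε) k) := by rw [hB0]; ring
      _ = _ := by rw [h4, hb]; ring
  have hnear : ∀ᶠ p : ℝ × ℝ in 𝓝 (t0, t0), |p.1| ≤ T ∧ |p.2| ≤ T := by
    have h1 : Continuous (fun p : ℝ × ℝ => |p.1|) := by fun_prop
    have h2 : Continuous (fun p : ℝ × ℝ => |p.2|) := by fun_prop
    have h3 := (h1.tendsto (t0, t0)).eventually (gt_mem_nhds (by simp [hT] : |t0| < T))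
    have h4 := (h2.tendsto (t0, t0)).eventually (gt_mem_nhds (by simp [hT] : |t0| < T))
    filter_upwards [h3, h4] with p h5 h6
    exact ⟨h5.le, h6.le⟩
  -- the two points at time k
  have hz : ∀ k p, g^[k] (c p) = g^[k] x + Gam LL P v k p := fun k p => horb k p
  have hsub : ∀ k (t t' : ℝ), g^[k] (c t) - g^[k] (c t')
      = Gam LL P v k t - Gam LL P v k t' := by
    intro k t t'
    rw [horb, horb]; abel
  have hinv : ∀ k z, g.symm^[k] (g^[k] z) = z := fun k z =>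
    (Function.LeftInverse.iterate g.symm_apply_apply k) z
  have hkey : ∀ k, k0 ≤ k → ∀ η : ℝ, 0 < η → ∀ᶠ p : ℝ × ℝ in 𝓝 (t0, t0),
      ‖c p.1 - c p.2 - H k (g^[k] (c p.1) - g^[k] (c p.2))‖
        ≤ η * ‖g^[k] (c p.1) - g^[k] (c p.2)‖ := by
    intro k hk η hη
    have h1 := n2_iter h y k
    rw [hasStrictFDerivAt_iff_isLittleO, Asymptotics.isLittleO_iff] at h1
    have h2 := h1 hη
    have h3 : Tendsto (fun p : ℝ × ℝ => ((g^[k] (c p.1), g^[k] (c p.2)) : E × E)) (𝓝 (t0, t0))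
        (𝓝 (g^[k] y, g^[k] y)) := by
      have hg : Continuous (g^[k]) := g.continuous.iterate k
      have h4 : Continuous (fun p : ℝ × ℝ => ((g^[k] (c p.1), g^[k] (c p.2)) : E × E)) :=
        (hg.comp (hcc.comp continuous_fst)).prodMk (hg.comp (hcc.comp continuous_snd))
      exact h4.tendsto (t0, t0)
    filter_upwards [h3.eventually h2] with p hp
    simp only [hinv] at hp
    exact hp
  have happ : ∀ k, k0 ≤ k → ∀ η : ℝ, 0 < η → ∀ᶠ p : ℝ × ℝ in 𝓝 (t0, t0),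
      ‖c p.1 - c p.2 - (p.1 - p.2) • H k (v k)‖ ≤ (‖H k‖ * b k + η) * |p.1 - p.2| := by
    intro k hk η hη
    have hpos : 0 < ‖v k‖ + b k + 1 := by
      have := norm_nonneg (v k)
      have := hb0 k
      linarith
    filter_upwards [hkey k hk (η / (‖v k‖ + b k + 1)) (by positivity), hnear] with p hp hp2
    rw [hsub] at hp
    set G := Gam LL P v k p.1 - Gam LL P v k p.2 with hG
    have h1 := hdiff k hk p.1 p.2 hp2.1 hp2.2
    rw [← hG] at h1
    have h2 : ‖G‖ ≤ (‖v k‖ + b k) * |p.1 - p.2| := by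
      have h3 : ‖G‖ ≤ ‖G - (p.1 - p.2) • v k‖ + ‖(p.1 - p.2) • v k‖ := by
        have := norm_add_le (G - (p.1 - p.2) • v k) ((p.1 - p.2) • v k)
        rwa [sub_add_cancel] at this
      rw [norm_smul, Real.norm_eq_abs] at h3
      nlinarith
    have h4 : c p.1 - c p.2 - (p.1 - p.2) • H k (v k)
        = (c p.1 - c p.2 - H k G) + H k (G - (p.1 - p.2) • v k) := by
      have e1 : H k (G - (p.1 - p.2) • v k) = H k G - (p.1 - p.2) • H k (v k) := by
        rw [(H k).map_sub G ((p.1 - p.2) • v k), map_smul]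
      rw [e1]
      abel
    rw [h4]
    refine (norm_add_le _ _).trans ?_
    have h5 : ‖H k (G - (p.1 - p.2) • v k)‖ ≤ ‖H k‖ * (b k * |p.1 - p.2|) :=
      ((H k).le_opNorm _).trans (mul_le_mul_of_nonneg_left h1 (norm_nonneg _))
    have h6 : η / (‖v k‖ + b k + 1) * ‖G‖ ≤ η * |p.1 - p.2| := by
      have h7 : η / (‖v k‖ + b k + 1) * ‖G‖
          ≤ η / (‖v k‖ + b k + 1) * ((‖v k‖ + b k + 1) * |p.1 - p.2|) := by
        apply mul_le_mul_of_nonneg_left _ (by positivity)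
        have := abs_nonneg (p.1 - p.2)
        nlinarith
      refine h7.trans (le_of_eq ?_)
      field_simp
    calc _ ≤ η / (‖v k‖ + b k + 1) * ‖G‖ + ‖H k‖ * (b k * |p.1 - p.2|) := add_le_add hp h5
      _ ≤ η * |p.1 - p.2| + ‖H k‖ * (b k * |p.1 - p.2|) := by linarith
      _ = _ := by ring
  have he : Tendsto (fun k => ‖H k‖ * b k) atTop (𝓝 0) := by
    have h1 : Tendsto (fun k : ℕ => C' * B0 * wt (χ - 4 * ε) k) atTop (𝓝 0) := by
      have := (wt_tendsto (by linarith : 0 < χ - 4 * ε)).const_mul (C' * B0)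
      simpa using this
    refine squeeze_zero (fun k => mul_nonneg (norm_nonneg _) (hb0 k)) (fun k => ?_) h1
    have h2 := hC' k
    calc ‖H k‖ * b k ≤ (C' * Real.exp ((χ + ε) * k)) * (B0 * wt (2 * χ - 3 * ε) k) := by
          apply mul_le_mul_of_nonneg_right h2 (hb0 k)
      _ = C' * B0 * (Real.exp ((χ + ε) * k) * wt (2 * χ - 3 * ε) k) := by ring
      _ = _ := by
          congr 1
          unfold wt
          rw [← Real.exp_add]
          congr 1
          ring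
  obtain ⟨d0, hd0⟩ := n3_limit c t0 (fun k => H k (v k)) (fun k => ‖H k‖ * b k) k0 he happ
  refine ⟨d0, ?_, hd0⟩
  -- the derivative does not vanish
  rintro rfl
  obtain ⟨k, hk1, hk2⟩ : ∃ k, k0 ≤ k ∧ b k < ‖v k‖ := by
    have h1 : Tendsto (fun k : ℕ => C * B0 * wt (χ - 4 * ε) k) atTop (𝓝 0) := by
      have := (wt_tendsto (by linarith : 0 < χ - 4 * ε)).const_mul (C * B0)
      simpa using this
    obtain ⟨k, h2, h3⟩ := ((h1.eventually (gt_mem_nhds one_pos)).and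
      (eventually_ge_atTop k0)).exists
    refine ⟨k, h3, ?_⟩
    have h4 := ht.vlow k
    have h5 : wt (2 * χ - 3 * ε) k = wt (χ - 4 * ε) k * wt (χ + ε) k := by
      rw [wt_mul]; congr 1; ring
    have h6 := wt_pos (χ + ε) k
    have h7 : C * b k < C * ‖v k‖ := by
      calc C * b k = (C * B0 * wt (χ - 4 * ε) k) * wt (χ + ε) k := by
            rw [hb]; simp only; rw [h5]; ring
        _ < 1 * wt (χ + ε) k := mul_lt_mul_of_pos_right h2 h6
        _ ≤ C * ‖v k‖ := by rw [one_mul]; exact h4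
    exact lt_of_mul_lt_mul_left h7 hC0.le
  set N : ℝ := ‖coc D g k y‖ with hN
  have hNpos : 0 < N := coc_pos h k y
  have hlow : ∀ u : E, ‖u‖ ≤ N * ‖H k u‖ := by
    intro u
    have h1 := (coc_inv h k y u).2
    calc ‖u‖ = ‖coc D g k y (H k u)‖ := by rw [h1]
      _ ≤ N * ‖H k u‖ := (coc D g k y).le_opNorm _
  set m : ℝ := ‖v k‖ - b k with hm
  have hmpos : 0 < m := by linarith
  have hne : ∀ S : Set (ℝ × ℝ), S ∈ 𝓝 (t0, t0) → ∃ p ∈ S, p.1 ≠ p.2 := by
    intro S hS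
    have h1 : Tendsto (fun s : ℝ => ((t0 + s, t0) : ℝ × ℝ)) (𝓝[≠] 0) (𝓝 (t0, t0)) := by
      have h2 : Continuous (fun s : ℝ => ((t0 + s, t0) : ℝ × ℝ)) := by fun_prop
      have h3 := h2.tendsto 0
      simp only [add_zero] at h3
      exact h3.mono_left nhdsWithin_le_nhds
    obtain ⟨s, hs1, hs2⟩ := ((h1.eventually hS).and self_mem_nhdsWithin).exists
    refine ⟨_, hs1, ?_⟩
    show t0 + s ≠ t0
    intro h4
    apply hs2
    show s = 0
    linarith
  obtain ⟨p, ⟨⟨hp1, hp2⟩, hp3⟩, hp4⟩ := hne _ (((hkey k hk1 (1 / (4 * N)) (by positivity)).and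
    hnear).and (hd0 (m / (4 * N)) (by positivity)))
  have h0 : 0 < |p.1 - p.2| := abs_pos.2 (sub_ne_zero.2 hp4)
  rw [hsub] at hp1
  set G := Gam LL P v k p.1 - Gam LL P v k p.2 with hG
  have h1 := hdiff k hk1 p.1 p.2 hp2.1 hp2.2
  rw [← hG] at h1
  have h2 : m * |p.1 - p.2| ≤ ‖G‖ := by
    have h3 : ‖(p.1 - p.2) • v k‖ ≤ ‖G‖ + ‖G - (p.1 - p.2) • v k‖ := by
      have := norm_sub_le G (G - (p.1 - p.2) • v k)
      rwa [sub_sub_cancel] at this
    rw [norm_smul, Real.norm_eq_abs] at h3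
    nlinarith
  have h4 := hlow G
  have h5 : ‖H k G‖ ≤ ‖c p.1 - c p.2‖ + ‖c p.1 - c p.2 - H k G‖ := by
    have := norm_sub_le (c p.1 - c p.2) (c p.1 - c p.2 - H k G)
    rwa [sub_sub_cancel] at this
  rw [smul_zero, sub_zero] at hp3
  have h6 : ‖G‖ ≤ N * (m / (4 * N) * |p.1 - p.2| + 1 / (4 * N) * ‖G‖) := by
    refine h4.trans (mul_le_mul_of_nonneg_left ?_ hNpos.le)
    linarith
  have h7 : N * (m / (4 * N) * |p.1 - p.2| + 1 / (4 * N) * ‖G‖)
      = (m * |p.1 - p.2| + ‖G‖) / 4 := by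
    field_simp
  rw [h7] at h6
  have h8 : 0 < m * |p.1 - p.2| := by positivity
  linarith

theorem leaf_c1 (h : Sys g D L P q J M K) (x : E) (C χ ε : ℝ)
    (ht : Tame (fun k => L (g^[k] x)) P (fun k => coc D g k x (Sd D g x)) q C χ ε) :
    ContDiff ℝ 1 (leaf D L P g x) ∧ ∀ t, deriv (leaf D L P g x) t ≠ 0 :=
  n3_c1 _ (n3_leaf h x C χ ε ht)

end MD
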