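import Pool.Agent.Lib.MP_904526_an.Defs

/-!
# L1: algebra of the backward products and the geometric sum
-/

open Set Filter Topology MeasureTheory

namespace MD

variable {L : ℕ → E →L[ℝ] E} {P : E → E} {v : ℕ → E} {q C χ ε : ℝ}

theorem wt_pos (α : ℝ) (k : ℕ) : 0 < wt α k := Real.exp_pos _

theorem wt_zero (α : ℝ) : wt α 0 = 1 := by
  simp [wt]

theorem wt_add (α : ℝ) (k l : ℕ) : wt α (k + l) = wt α k * wt α l := by
  unfold wt
  rw [← Real.exp_add]
  congr 1
  push_cast
  ring

theorem wt_anti {α : ℝ} (hα : 0 ≤ α) {k l : ℕ} (hkl : k ≤ l) : wt α l ≤ wt α k := by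
  unfold wt
  apply Real.exp_le_exp.2
  have : (k : ℝ) ≤ l := by exact_mod_cast hkl
  nlinarith

theorem wt_mono {α β : ℝ} (h : α ≤ β) (k : ℕ) : wt β k ≤ wt α k := by
  unfold wt
  apply Real.exp_le_exp.2
  have : (0 : ℝ) ≤ k := Nat.cast_nonneg k
  nlinarith

theorem wt_mul (α β : ℝ) (k : ℕ) : wt α k * wt β k = wt (α + β) k := by
  unfold wt
  rw [← Real.exp_add]
  congr 1
  ring

theorem wt_tendsto {α : ℝ} (hα : 0 < α) : Tendsto (wt α) atTop (𝓝 0) := by
  unfold wt
  have h1 : Tendsto (fun k : ℕ => α * (k : ℝ)) atTop atTop :=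
    tendsto_natCast_atTop_atTop.const_mul_atTop hα
  have h2 := Real.tendsto_exp_neg_atTop_nhds_zero.comp h1
  refine h2.congr fun k => ?_
  simp [Function.comp]

theorem Bp_succ' (k j : ℕ) (w : E) : Bp L k (j + 1) w = L k (Bp L (k + 1) j w) := by
  induction j generalizing w with
  | zero => simp [Bp]
  | succ j ih =>
    have h1 : Bp L k (j + 1 + 1) w = Bp L k (j + 1) (L (k + (j + 1)) w) := rfl
    have h2 : Bp L (k + 1) (j + 1) w = Bp L (k + 1) j (L (k + 1 + j) w) := rfl
    rw [h1, ih, h2, show k + (j + 1) = k + 1 + j by ring]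

theorem Bp_add (k i j : ℕ) (w : E) : Bp L k (i + j) w = Bp L k i (Bp L (k + i) j w) := by
  induction j generalizing w with
  | zero => simp [Bp]
  | succ j ih =>
    have h1 : Bp L k (i + (j + 1)) w = Bp L k (i + j) (L (k + (i + j)) w) := rfl
    have h2 : Bp L (k + i) (j + 1) w = Bp L (k + i) j (L (k + i + j) w) := rfl
    rw [h1, ih, h2, show k + (i + j) = k + i + j by ring]

theorem Hb_succ' (k j : ℕ) (w : E) :
    Hb L P k (j + 1) w = L k (Hb L P (k + 1) j w) + P (Hb L P (k + 1) j w) := by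
  induction j generalizing w with
  | zero => simp [Hb]
  | succ j ih =>
    have h1 : Hb L P k (j + 1 + 1) w
        = Hb L P k (j + 1) (L (k + (j + 1)) w + P w) := rfl
    have h2 : Hb L P (k + 1) (j + 1) w = Hb L P (k + 1) j (L (k + 1 + j) w + P w) := rfl
    rw [h1, ih, h2, show k + (j + 1) = k + 1 + j by ring]

theorem Hb_add (k i j : ℕ) (w : E) : Hb L P k (i + j) w = Hb L P k i (Hb L P (k + i) j w) := by
  induction j generalizing w with
  | zero => simp [Hb]
  | succ j ih =>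
    have h1 : Hb L P k (i + (j + 1)) w = Hb L P k (i + j) (L (k + (i + j)) w + P w) := rfl
    have h2 : Hb L P (k + i) (j + 1) w = Hb L P (k + i) j (L (k + i + j) w + P w) := rfl
    rw [h1, ih, h2, show k + (i + j) = k + i + j by ring]

theorem Hb_zero (hP : P 0 = 0) (k j : ℕ) : Hb L P k j 0 = 0 := by
  induction j with
  | zero => rfl
  | succ j ih =>
    show Hb L P k j (L (k + j) 0 + P 0) = 0
    rw [map_zero, hP, add_zero, ih]

theorem P_cont (h : Tame L P v q C χ ε) : Continuous P := by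
  rw [continuous_iff_continuousAt]
  intro x
  rw [ContinuousAt, tendsto_iff_norm_sub_tendsto_zero]
  have h1 : Tendsto (fun y : E => q * (‖y‖ + ‖x‖) * ‖y - x‖) (𝓝 x) (𝓝 0) := by
    have h2 : Continuous (fun y : E => q * (‖y‖ + ‖x‖) * ‖y - x‖) := by fun_prop
    have h3 := h2.tendsto x
    simpa using h3
  exact squeeze_zero (fun y => norm_nonneg _) (fun y => h.Pl y x) h1

theorem Hb_cont (hP : Continuous P) (k j : ℕ) : Continuous (Hb L P k j) := by
  induction j with
  | zero => exact continuous_id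
  | succ j ih =>
    show Continuous (fun w => Hb L P k j (L (k + j) w + P w))
    exact ih.comp ((L (k + j)).continuous.add hP)

theorem P_sq (h : Tame L P v q C χ ε) (w : E) : ‖P w‖ ≤ q * ‖w‖ ^ 2 := by
  have := h.Pl w 0
  rw [h.P0] at this
  simp only [sub_zero, norm_zero, add_zero] at this
  nlinarith

theorem Bp_v (h : Tame L P v q C χ ε) (k j : ℕ) : Bp L k j (v (k + j)) = v k := by
  induction j with
  | zero => rfl
  | succ j ih =>
    show Bp L k j (L (k + j) (v (k + j + 1))) = v k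
    rw [h.vrec, ih]

theorem l1_rho (h : Tame L P v q C χ ε) : 0 < 1 - Real.exp (-(χ - 3 * ε)) := by
  have h1 : 0 < χ - 3 * ε := by linarith [h.hε, h.hχ]
  have h2 : Real.exp (-(χ - 3 * ε)) < 1 := by
    rw [Real.exp_lt_one_iff]
    linarith
  linarith

theorem K1_pos (h : Tame L P v q C χ ε) : 0 < K1 C χ ε := by
  unfold K1
  exact div_pos (by linarith [h.hC]) (l1_rho h)

/-- variation of constants along a piece of orbit -/
theorem rep (w : ℕ → E) (k m : ℕ)
    (hrec : ∀ i, k ≤ i → i < k + m → w i = L i (w (i + 1)) + P (w (i + 1))) :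
    w k = Bp L k m (w (k + m)) + ∑ j ∈ Finset.range m, Bp L k j (P (w (k + j + 1))) := by
  induction m with
  | zero => simp [Bp]
  | succ m ih =>
    have h1 := ih (fun i hi1 hi2 => hrec i hi1 (by omega))
    have h2 := hrec (k + m) (by omega) (by omega)
    have h3 : Bp L k (m + 1) (w (k + (m + 1))) = Bp L k m (L (k + m) (w (k + m + 1))) := rfl
    rw [Finset.sum_range_succ, h3]
    conv_lhs => rw [h1]
    rw [h2, map_add]
    abel

theorem sum_bd (h : Tame L P v q C χ ε) (k m : ℕ) :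
    ∑ j ∈ Finset.range m, ‖Bp L k j‖ * wt (χ - ε) (k + j + 1) ^ 2
      ≤ K1 C χ ε * wt (χ - 2 * ε) k * wt (χ - ε) k := by
  have hρ := l1_rho h
  have hC0 : 0 < C := by linarith [h.hC]
  set r := Real.exp (-(χ - 3 * ε)) with hr
  have hr0 : 0 < r := Real.exp_pos _
  have hterm : ∀ j ∈ Finset.range m, ‖Bp L k j‖ * wt (χ - ε) (k + j + 1) ^ 2
      ≤ (C * (wt (χ - 2 * ε) k * wt (χ - ε) k)) * r ^ j := by
    intro j _
    have h1 := h.bp k j
    have h2 : wt (χ - ε) (k + j + 1) ^ 2 = Real.exp (-(2 * (χ - ε)) * ((k:ℝ) + j + 1)) := by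
      unfold wt
      rw [← Real.exp_nat_mul]
      congr 1
      push_cast
      ring
    have h3 : r ^ j = Real.exp (-(χ - 3 * ε) * j) := by
      rw [hr, ← Real.exp_nat_mul]
      congr 1
      ring
    have h4 : wt (χ - 2 * ε) k * wt (χ - ε) k = Real.exp (-(2 * χ - 3 * ε) * k) := by
      rw [wt_mul]
      unfold wt
      congr 1
      ring
    rw [h2, h3, h4]
    calc ‖Bp L k j‖ * Real.exp (-(2 * (χ - ε)) * ((k:ℝ) + j + 1))
        ≤ (C * Real.exp ((χ + ε) * j + ε * k)) *
            Real.exp (-(2 * (χ - ε)) * ((k:ℝ) + j + 1)) :=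
          mul_le_mul_of_nonneg_right h1 (Real.exp_pos _).le
      _ = C * Real.exp ((χ + ε) * j + ε * k + -(2 * (χ - ε)) * ((k:ℝ) + j + 1)) := by
          rw [mul_assoc, ← Real.exp_add]
      _ ≤ C * Real.exp (-(2 * χ - 3 * ε) * k + -(χ - 3 * ε) * j) := by
          apply mul_le_mul_of_nonneg_left _ hC0.le
          apply Real.exp_le_exp.2
          have : 0 ≤ χ - ε := by linarith [h.hε, h.hχ]
          nlinarith
      _ = C * Real.exp (-(2 * χ - 3 * ε) * k) * Real.exp (-(χ - 3 * ε) * j) := by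
          rw [Real.exp_add, mul_assoc]
  refine (Finset.sum_le_sum hterm).trans ?_
  rw [← Finset.mul_sum]
  have hgeo : ∑ j ∈ Finset.range m, r ^ j ≤ 1 / (1 - r) := by
    have h1 := mul_neg_geom_sum r m
    rw [le_div_iff₀ hρ, mul_comm, h1]
    have : 0 ≤ r ^ m := by positivity
    linarith
  have hp : 0 ≤ C * (wt (χ - 2 * ε) k * wt (χ - ε) k) := by
    have := wt_pos (χ - 2 * ε) k
    have := wt_pos (χ - ε) k
    positivity
  refine (mul_le_mul_of_nonneg_left hgeo hp).trans (le_of_eq ?_)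
  unfold K1
  rw [← hr]
  field_simp

/-- what the end point at time n contributes -/
theorem end_bd (h : Tame L P v q C χ ε) (k n : ℕ) (hkn : k ≤ n) (w : E) (Z η : ℝ)
    (hZ : 0 ≤ Z) (hw : ‖w‖ ≤ Z * wt (χ + ε + η) n) :
    ‖Bp L k (n - k) w‖ ≤ (C * Z * wt η n) * wt (χ - ε) k := by
  have hC0 : 0 < C := by linarith [h.hC]
  obtain ⟨m, rfl⟩ := Nat.exists_eq_add_of_le hkn
  rw [Nat.add_sub_cancel_left]
  have h1 := h.bp k m
  calc ‖Bp L k m w‖ ≤ ‖Bp L k m‖ * ‖w‖ := (Bp L k m).le_opNorm w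
    _ ≤ (C * Real.exp ((χ + ε) * m + ε * k)) * (Z * wt (χ + ε + η) (k + m)) := by
        apply mul_le_mul h1 hw (norm_nonneg _)
        positivity
    _ = C * Z * (Real.exp ((χ + ε) * m + ε * k) * wt (χ + ε + η) (k + m)) := by ring
    _ ≤ C * Z * (wt η (k + m) * wt (χ - ε) k) := by
        apply mul_le_mul_of_nonneg_left _ (by positivity)
        unfold wt
        rw [← Real.exp_add, ← Real.exp_add]
        apply Real.exp_le_exp.2
        push_cast
        have h2 : (0 : ℝ) ≤ k := Nat.cast_nonneg k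
        have := h.hε
        nlinarith
    _ = _ := by ring

end MD
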