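import Pool.Agent.Lib.MP_904526_an.C1

/-!
# F1 (est. 90 min): the Henon map is a system, and so is its inverse
K = {x | ∀ n, ‖f^[n] x‖ ≤ R ∧ ‖f.symm^[n] x‖ ≤ R}, R = 3 + |c|: closed and bounded (E is proper),
invariant. Bounds of ‖Dh‖, ‖Lh‖ on K: opNorm_le_bound. Determinants: dt (Dh b p) =
(2 p.1) * 0 - 1 * (-b) ... = b, dt (Lh b p) = 1/b. Continuity of Dh, Lh in p (they are affine in p
with values in the normed space of linear maps: e.g. Dh b p = p.1 • A + B with fixed A, B).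
henon_fderiv: HasFDerivAt (henon c b) (Dh b p) p, then the chain rule for iterates: induction on n,
coc_succ.
-/

open Set Filter Topology MeasureTheory

namespace MD

def henon (c b : ℝ) (p : ℝ × ℝ) : ℝ × ℝ := (p.1 ^ 2 + c - b * p.2, p.1)

noncomputable def hen (c b : ℝ) (hb : b ≠ 0) : E ≃ₜ E where
  toFun := henon c b
  invFun := fun p => (p.2, (p.2 ^ 2 + c - p.1) / b)
  left_inv := by
    intro p
    ext
    · simp [henon]
    · simp only [henon]
      field_simp
      ring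
  right_inv := by
    intro p
    ext
    · simp only [henon]
      field_simp
      ring
    · simp [henon]
  continuous_toFun := by
    unfold henon
    fun_prop
  continuous_invFun := by
    fun_prop

noncomputable def Dh (b : ℝ) (p : E) : E →L[ℝ] E :=
  LinearMap.toContinuousLinearMap
    { toFun := fun w : E => ((2 * p.1 * w.1 - b * w.2, w.1) : E)
      map_add' := by intro u v; ext <;> simp; ring
      map_smul' := by intro a u; ext <;> simp; ring }

noncomputable def Lh (b : ℝ) (p : E) : E →L[ℝ] E :=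
  LinearMap.toContinuousLinearMap
    { toFun := fun w : E => ((w.2, (2 * p.1 * w.2 - w.1) / b) : E)
      map_add' := by intro u v; ext <;> simp; ring
      map_smul' := by intro a u; ext <;> simp; ring }

noncomputable def Ph (b : ℝ) (w : E) : E := (0, w.2 ^ 2 / b)

def Qh (w : E) : E := (w.1 ^ 2, 0)

def KK (c b : ℝ) (hb : b ≠ 0) : Set E :=
  {x | ∀ n : ℕ, ‖(hen c b hb)^[n] x‖ ≤ 3 + |c| ∧ ‖(hen c b hb).symm^[n] x‖ ≤ 3 + |c|}

theorem Dh_apply (b : ℝ) (p w : E) : Dh b p w = ((2 * p.1 * w.1 - b * w.2, w.1) : E) := rfl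

theorem Lh_apply (b : ℝ) (p w : E) : Lh b p w = ((w.2, (2 * p.1 * w.2 - w.1) / b) : E) := rfl

theorem hen_apply (c b : ℝ) (hb : b ≠ 0) (p : E) :
    hen c b hb p = ((p.1 ^ 2 + c - b * p.2, p.1) : E) := rfl

theorem hen_symm_apply (c b : ℝ) (hb : b ≠ 0) (p : E) :
    (hen c b hb).symm p = ((p.2, (p.2 ^ 2 + c - p.1) / b) : E) := rfl

theorem Dh_cont (b : ℝ) : Continuous (Dh b) := by
  have h : Dh b = fun p : E => p.1 • ((2 : ℝ) • ((ContinuousLinearMap.fst ℝ ℝ ℝ).prod
      (0 : ℝ × ℝ →L[ℝ] ℝ))) + ((-b) • ContinuousLinearMap.snd ℝ ℝ ℝ).prod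
      (ContinuousLinearMap.fst ℝ ℝ ℝ) := by
    funext p
    refine ContinuousLinearMap.ext fun w => ?_
    rw [Dh_apply]
    ext
    · simp; ring
    · simp
  rw [h]
  fun_prop

theorem Lh_cont (b : ℝ) : Continuous (Lh b) := by
  have h : Lh b = fun p : E => p.1 • ((2 / b : ℝ) • ((0 : ℝ × ℝ →L[ℝ] ℝ).prod
      (ContinuousLinearMap.snd ℝ ℝ ℝ))) + (ContinuousLinearMap.snd ℝ ℝ ℝ).prod
      ((-(1 / b)) • ContinuousLinearMap.fst ℝ ℝ ℝ) := by
    funext p
    refine ContinuousLinearMap.ext fun w => ?_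
    rw [Lh_apply]
    ext
    · simp
    · simp; ring
  rw [h]
  fun_prop

theorem Dh_dt (b : ℝ) (p : E) : dt (Dh b p) = b := by
  simp [dt, wg, Dh_apply]

theorem Lh_dt (b : ℝ) (p : E) : dt (Lh b p) = 1 / b := by
  simp only [dt, wg, Lh_apply]
  ring

theorem Lh_Dh (b : ℝ) (hb : b ≠ 0) (p v : E) : Lh b p (Dh b p v) = v := by
  rw [Dh_apply, Lh_apply]
  ext
  · rfl
  · simp only
    field_simp
    ring

theorem Dh_Lh (b : ℝ) (hb : b ≠ 0) (p v : E) : Dh b p (Lh b p v) = v := by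
  rw [Dh_apply, Lh_apply]
  ext
  · simp only
    field_simp
    ring
  · rfl

theorem kk_inv (c b : ℝ) (hb : b ≠ 0) (x : E) :
    hen c b hb x ∈ KK c b hb ↔ x ∈ KK c b hb := by
  have e1 : ∀ n : ℕ, (hen c b hb)^[n] (hen c b hb x) = (hen c b hb)^[n + 1] x := fun n =>
    (Function.iterate_succ_apply _ n x).symm
  have e2 : ∀ n : ℕ, (hen c b hb).symm^[n + 1] (hen c b hb x) = (hen c b hb).symm^[n] x := by
    intro n
    rw [Function.iterate_succ_apply, Homeomorph.symm_apply_apply]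
  constructor
  · intro h n
    have h2 := (h (n + 1)).2
    rw [e2] at h2
    refine ⟨?_, h2⟩
    cases n with
    | zero => exact h2
    | succ m =>
      have h1 := (h m).1
      rw [e1] at h1
      exact h1
  · intro h n
    have h1 := (h (n + 1)).1
    rw [← e1] at h1
    refine ⟨h1, ?_⟩
    cases n with
    | zero => exact h1
    | succ m =>
      rw [e2]
      exact (h m).2

theorem kk_compact (c b : ℝ) (hb : b ≠ 0) : IsCompact (KK c b hb) := by
  refine Metric.isCompact_of_isClosed_isBounded ?_ ?_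
  · have h : KK c b hb = ⋂ n : ℕ, ({x | ‖(hen c b hb)^[n] x‖ ≤ 3 + |c|} ∩
        {x | ‖(hen c b hb).symm^[n] x‖ ≤ 3 + |c|}) := by
      ext x
      simp [KK]
    rw [h]
    refine isClosed_iInter fun n => IsClosed.inter ?_ ?_
    · exact isClosed_le (((hen c b hb).continuous.iterate n).norm) continuous_const
    · exact isClosed_le (((hen c b hb).symm.continuous.iterate n).norm) continuous_const
  · refine (Metric.isBounded_closedBall (x := (0 : E)) (r := 3 + |c|)).subset ?_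
    intro x hx
    rw [mem_closedBall_zero_iff]
    exact (hx 0).1

theorem bound_on (K : Set E) (hK : IsCompact K) (D L : E → E →L[ℝ] E) (hD : Continuous D)
    (hL : Continuous L) : ∃ M : ℝ, 1 ≤ M ∧ ∀ x ∈ K, ‖D x‖ ≤ M ∧ ‖L x‖ ≤ M := by
  obtain ⟨C1, h1⟩ := hK.exists_bound_of_continuousOn hD.continuousOn
  obtain ⟨C2, h2⟩ := hK.exists_bound_of_continuousOn hL.continuousOn
  refine ⟨max 1 (max C1 C2), le_max_left _ _, fun x hx => ⟨?_, ?_⟩⟩
  · exact (h1 x hx).trans ((le_max_left _ _).trans (le_max_right _ _))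
  · exact (h2 x hx).trans ((le_max_right _ _).trans (le_max_right _ _))

theorem sq_lip (a a' : ℝ) : |a ^ 2 - a' ^ 2| ≤ (|a| + |a'|) * |a - a'| := by
  rw [show a ^ 2 - a' ^ 2 = (a + a') * (a - a') by ring, abs_mul]
  exact mul_le_mul_of_nonneg_right (abs_add_le a a') (abs_nonneg _)

theorem hen_sys (c b : ℝ) (hb : b ≠ 0) :
    ∃ M : ℝ, Sys (hen c b hb) (Dh b) (Lh b) (Ph b) (1 / |b|) |b| M (KK c b hb) := by
  obtain ⟨M, hM1, hM⟩ := bound_on (KK c b hb) (kk_compact c b hb) (Dh b) (Lh b) (Dh_cont b)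
    (Lh_cont b)
  have hb' : 0 < |b| := abs_pos.mpr hb
  refine ⟨M, ⟨by positivity, hb', hM1, ?_, ?_, Dh_cont b, Lh_cont b, Lh_Dh b hb, Dh_Lh b hb, ?_,
    fun x => by rw [Dh_dt], kk_compact c b hb, kk_inv c b hb, hM⟩⟩
  · simp [Ph]
  · intro w w'
    have e : Ph b w - Ph b w' = ((0, (w.2 ^ 2 - w'.2 ^ 2) / b) : E) := by
      ext
      · simp [Ph]
      · simp only [Ph, Prod.snd_sub]
        ring
    rw [e, Prod.norm_mk, norm_zero, max_eq_right (norm_nonneg _), Real.norm_eq_abs, abs_div]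
    have h1 := sq_lip w.2 w'.2
    have h2 : |w.2| ≤ ‖w‖ := norm_snd_le w
    have h3 : |w'.2| ≤ ‖w'‖ := norm_snd_le w'
    have h4 : |w.2 - w'.2| ≤ ‖w - w'‖ := norm_snd_le (w - w')
    have h5 : (|w.2| + |w'.2|) * |w.2 - w'.2| ≤ (‖w‖ + ‖w'‖) * ‖w - w'‖ := by
      gcongr
    calc |w.2 ^ 2 - w'.2 ^ 2| / |b| ≤ (‖w‖ + ‖w'‖) * ‖w - w'‖ / |b| := by
          gcongr
          exact h1.trans h5
      _ = 1 / |b| * (‖w‖ + ‖w'‖) * ‖w - w'‖ := by ring
  · intro x w
    rw [hen_symm_apply, hen_apply, Lh_apply]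
    ext
    · simp [Ph]
    · simp only [Ph, Prod.fst_add, Prod.snd_add]
      field_simp
      ring

theorem hen_sys' (c b : ℝ) (hb : b ≠ 0) :
    ∃ M : ℝ, Sys (hen c b hb).symm (fun y => Lh b ((hen c b hb).symm y))
      (fun y => Dh b ((hen c b hb).symm y)) Qh 1 (1 / |b|) M (KK c b hb) := by
  have hc1 : Continuous (fun y => Lh b ((hen c b hb).symm y)) :=
    (Lh_cont b).comp (hen c b hb).symm.continuous
  have hc2 : Continuous (fun y => Dh b ((hen c b hb).symm y)) :=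
    (Dh_cont b).comp (hen c b hb).symm.continuous
  obtain ⟨M, hM1, hM⟩ := bound_on (KK c b hb) (kk_compact c b hb) _ _ hc1 hc2
  have hb' : 0 < |b| := abs_pos.mpr hb
  refine ⟨M, ⟨one_pos, by positivity, hM1, ?_, ?_, hc1, hc2, fun x v => Dh_Lh b hb _ v,
    fun x v => Lh_Dh b hb _ v, ?_, fun x => ?_, kk_compact c b hb, ?_, hM⟩⟩
  · simp [Qh]
  · intro w w'
    have e : Qh w - Qh w' = ((w.1 ^ 2 - w'.1 ^ 2, 0) : E) := by
      ext
      · simp [Qh]
      · simp [Qh]
    rw [e, Prod.norm_mk, norm_zero, max_eq_left (norm_nonneg _), Real.norm_eq_abs]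
    have h1 := sq_lip w.1 w'.1
    have h2 : |w.1| ≤ ‖w‖ := norm_fst_le w
    have h3 : |w'.1| ≤ ‖w'‖ := norm_fst_le w'
    have h4 : |w.1 - w'.1| ≤ ‖w - w'‖ := norm_fst_le (w - w')
    have h5 : (|w.1| + |w'.1|) * |w.1 - w'.1| ≤ (‖w‖ + ‖w'‖) * ‖w - w'‖ := by
      gcongr
    rw [one_mul]
    exact h1.trans h5
  · intro y w
    obtain ⟨x, rfl⟩ := (hen c b hb).surjective y
    rw [Homeomorph.symm_symm, Homeomorph.symm_apply_apply, hen_apply, hen_apply, Dh_apply]
    ext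
    · simp only [Qh, Prod.fst_add, Prod.snd_add]
      ring
    · simp [Qh]
  · rw [Lh_dt, abs_div, abs_one]
  · intro y
    rw [← kk_inv c b hb ((hen c b hb).symm y), Homeomorph.apply_symm_apply]

theorem henon_hasFDerivAt (c b : ℝ) (p : E) : HasFDerivAt (henon c b) (Dh b p) p := by
  have h1 : HasFDerivAt (fun p : E => p.1) (ContinuousLinearMap.fst ℝ ℝ ℝ) p := hasFDerivAt_fst
  have h2 : HasFDerivAt (fun p : E => p.2) (ContinuousLinearMap.snd ℝ ℝ ℝ) p := hasFDerivAt_snd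
  have h3 := (((h1.pow 2).add_const c).sub (h2.const_mul b)).prodMk h1
  refine h3.congr_fderiv ?_
  refine ContinuousLinearMap.ext fun w => ?_
  rw [Dh_apply]
  ext
  · simp
  · simp

theorem henon_fderiv (c b : ℝ) (hb : b ≠ 0) (n : ℕ) (x : E) :
    fderiv ℝ ((henon c b)^[n]) x = coc (Dh b) (hen c b hb) n x := by
  have h : ∀ n : ℕ, HasFDerivAt ((henon c b)^[n]) (coc (Dh b) (hen c b hb) n x) x := by
    intro n
    induction n with
    | zero =>
      rw [coc_zero]
      exact hasFDerivAt_id x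
    | succ n ih =>
      rw [coc_succ, Function.iterate_succ']
      exact (henon_hasFDerivAt c b ((henon c b)^[n] x)).comp x ih
  exact (h n).fderiv

end MD
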