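import Pool.Agent.Lib.MP_904526_an.A2

/-!
# A3 (est. 60 min): uniqueness of the contracted direction; Reg implies Tame
dir_unique: if ‖Fp D 0 n p‖ ≤ Y wt (Λ - log J - η) n for some η < (2Λ - log J)/2... precisely:
J^n |wg p s| = |wg (A n p) (A n s)| ≤ 2 ‖A n p‖ ‖A n s‖ ≤ 2 Y C exp (-(2χ - η - ε) n) with
χ = Λ - log J, J^n = exp (n log J), so |wg p s| ≤ C'' exp (-(log J + 2χ - η - ε) n) and
log J + 2χ = 2Λ - log J. So wg p s = 0 when η + ε < 2Λ - log J, hence p = t • s (smul_of_wg).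
tame_of_reg: bp: Bp L k j is the inverse of Fp D k j (Bp_Fp), so ‖Bp L k j‖ ≤ 2 ‖Fp D k j‖ / J^j
(inv_norm_le, Fp_dt) ≤ 2 C exp ((Λ+ε) j + ε k) exp (-j log J). vup: hypothesis hsd. vlow:
1 = ‖s‖ = ‖Bp L 0 k (v k)‖ ≤ C exp ((χ+ε) k) ‖v k‖. vrec: L k (D k (..)) = .. (Fp D 0 (k+1) =
D (0+k) ∘ Fp D 0 k). uniq: p k = Fp D 0 k (p 0), then dir_unique with η = ε.
-/

open Set Filter Topology MeasureTheory

namespace MD

theorem a3_pow {J : ℝ} (hJ : 0 < J) (n : ℕ) : J ^ n = wt (-Real.log J) n := by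
  unfold wt
  rw [neg_neg, mul_comm, Real.exp_nat_mul, Real.exp_log hJ]

theorem a3_wt_mul (α β : ℝ) (k : ℕ) : wt α k * wt β k = wt (α + β) k := by
  unfold wt
  rw [← Real.exp_add]
  congr 1
  ring

theorem a3_wt_tendsto {α : ℝ} (hα : 0 < α) : Tendsto (wt α) atTop (𝓝 0) := by
  have h1 : Tendsto (fun n : ℕ => Real.exp (-α) ^ n) atTop (𝓝 0) :=
    tendsto_pow_atTop_nhds_zero_of_lt_one (Real.exp_pos _).le
      (by rw [Real.exp_lt_one_iff]; linarith)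
  refine h1.congr ?_
  intro n
  unfold wt
  rw [← Real.exp_nat_mul, mul_comm]

theorem dir_unique {D L : ℕ → E →L[ℝ] E} {J Λ : ℝ} (h : Reg D L J Λ) (hJ : 0 < J) (s p : E)
    (hs : ‖s‖ = 1) (ε Y C : ℝ) (hε : 2 * ε < 2 * Λ - Real.log J)
    (h1 : ∀ n : ℕ, ‖Fp D 0 n s‖ ≤ C * wt (Λ - Real.log J - ε) n)
    (h2 : ∀ n : ℕ, ‖Fp D 0 n p‖ ≤ Y * wt (Λ - Real.log J - ε) n) : ∃ t : ℝ, p = t • s := by
  have hpos : 0 < 2 * Λ - Real.log J - 2 * ε := by linarith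
  have hb : ∀ n : ℕ, |wg p s| ≤ 2 * Y * C * wt (2 * Λ - Real.log J - 2 * ε) n := by
    intro n
    have e1 : |wg (Fp D 0 n p) (Fp D 0 n s)| = J ^ n * |wg p s| := by
      rw [wg_map, abs_mul, Fp_dt h 0 n]
    have e2 := wg_le (Fp D 0 n p) (Fp D 0 n s)
    rw [e1] at e2
    have e3 : ‖Fp D 0 n p‖ * ‖Fp D 0 n s‖
        ≤ (Y * wt (Λ - Real.log J - ε) n) * (C * wt (Λ - Real.log J - ε) n) :=
      mul_le_mul (h2 n) (h1 n) (norm_nonneg _) ((norm_nonneg _).trans (h2 n))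
    have e4 : wt (-Real.log J) n * wt (Real.log J) n = 1 := by
      rw [a3_wt_mul]
      simp [wt]
    have e5 : wt (Λ - Real.log J - ε) n * wt (Λ - Real.log J - ε) n * wt (Real.log J) n
        = wt (2 * Λ - Real.log J - 2 * ε) n := by
      rw [a3_wt_mul, a3_wt_mul]
      congr 1
      ring
    have e6 : J ^ n * |wg p s| ≤ 2 * Y * C *
        (wt (Λ - Real.log J - ε) n * wt (Λ - Real.log J - ε) n) := by
      calc J ^ n * |wg p s| ≤ 2 * ‖Fp D 0 n p‖ * ‖Fp D 0 n s‖ := e2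
        _ = 2 * (‖Fp D 0 n p‖ * ‖Fp D 0 n s‖) := by ring
        _ ≤ 2 * ((Y * wt (Λ - Real.log J - ε) n) * (C * wt (Λ - Real.log J - ε) n)) := by
            linarith
        _ = _ := by ring
    have e7 := mul_le_mul_of_nonneg_right e6 (Real.exp_pos (-(Real.log J) * n)).le
    change _ * wt (Real.log J) n ≤ _ * wt (Real.log J) n at e7
    rw [a3_pow hJ] at e7
    calc |wg p s| = wt (-Real.log J) n * |wg p s| * wt (Real.log J) n := by
          rw [mul_right_comm, e4, one_mul]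
      _ ≤ _ := e7
      _ = 2 * Y * C * (wt (Λ - Real.log J - ε) n * wt (Λ - Real.log J - ε) n
            * wt (Real.log J) n) := by ring
      _ = _ := by rw [e5]
  have hlim := (a3_wt_tendsto hpos).const_mul (2 * Y * C)
  rw [mul_zero] at hlim
  have h0 : |wg p s| ≤ 0 := ge_of_tendsto hlim (Eventually.of_forall hb)
  have h3 : wg p s = 0 := abs_nonpos_iff.1 h0
  refine smul_of_wg s p hs ?_
  have : wg s p = - wg p s := by
    unfold wg
    ring
  rw [this, h3, neg_zero]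

theorem tame_of_reg {D L : ℕ → E →L[ℝ] E} {J Λ : ℝ} {P : E → E} {q : ℝ} (h : Reg D L J Λ)
    (hJ : 0 < J) (hq : 0 < q) (hP0 : P 0 = 0)
    (hPl : ∀ w w', ‖P w - P w'‖ ≤ q * (‖w‖ + ‖w'‖) * ‖w - w'‖) (s : E) (hs : ‖s‖ = 1)
    (hsd : ∀ ε : ℝ, 0 < ε → ∃ C : ℝ, ∀ n : ℕ, ‖Fp D 0 n s‖ ≤ C * wt (Λ - Real.log J - ε) n)
    (ε : ℝ) (hε : 0 < ε) (hε2 : 5 * ε ≤ Λ - Real.log J) (hε3 : 2 * ε < 2 * Λ - Real.log J) :
    ∃ C : ℝ, Tame L P (fun k => Fp D 0 k s) q C (Λ - Real.log J) ε := by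
  obtain ⟨C1, hC1⟩ := h.up ε hε
  obtain ⟨C2, hC2⟩ := hsd ε hε
  set C : ℝ := max 1 (max (2 * C1) C2) with hCdef
  have hC1' : 1 ≤ C := le_max_left _ _
  have hC2' : 2 * C1 ≤ C := (le_max_left _ _).trans (le_max_right _ _)
  have hC3' : C2 ≤ C := (le_max_right _ _).trans (le_max_right _ _)
  have hbp : ∀ k j : ℕ, ‖Bp L k j‖ ≤ C * Real.exp ((Λ - Real.log J + ε) * j + ε * k) := by
    intro k j
    have h1 := inv_norm_le (Fp D k j) (Bp L k j) (fun v => (Bp_Fp h k j v).2)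
      (fun v => (Bp_Fp h k j v).1)
    rw [Fp_dt h k j] at h1
    have hJj : 0 < J ^ j := pow_pos hJ j
    refine h1.trans ?_
    rw [div_le_iff₀ hJj]
    have h2 := hC1 k j
    have h3 : Real.exp ((Λ - Real.log J + ε) * j + ε * k) * J ^ j
        = Real.exp ((Λ + ε) * j + ε * k) := by
      rw [a3_pow hJ]
      unfold wt
      rw [← Real.exp_add]
      congr 1
      ring
    calc 2 * ‖Fp D k j‖ ≤ 2 * (C1 * Real.exp ((Λ + ε) * j + ε * k)) := by linarith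
      _ = (2 * C1) * Real.exp ((Λ + ε) * j + ε * k) := by ring
      _ ≤ C * Real.exp ((Λ + ε) * j + ε * k) :=
          mul_le_mul_of_nonneg_right hC2' (Real.exp_pos _).le
      _ = _ := by rw [mul_assoc, h3]
  refine ⟨C, hq, hC1', hε, hε2, hP0, hPl, hbp, ?_, ?_, ?_, ?_⟩
  · intro k
    exact (hC2 k).trans (mul_le_mul_of_nonneg_right hC3' (Real.exp_pos _).le)
  · intro k
    have h1 : ‖s‖ ≤ ‖Bp L 0 k‖ * ‖Fp D 0 k s‖ := by
      have := (Bp L 0 k).le_opNorm (Fp D 0 k s)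
      rwa [(Bp_Fp h 0 k s).1] at this
    rw [hs] at h1
    have h2 := mul_le_mul_of_nonneg_right (hbp 0 k) (norm_nonneg (Fp D 0 k s))
    have h3 : (1 : ℝ) ≤ C * Real.exp ((Λ - Real.log J + ε) * k + ε * (0 : ℕ)) * ‖Fp D 0 k s‖ :=
      h1.trans h2
    have h4 := mul_le_mul_of_nonneg_left h3 (Real.exp_pos (-(Λ - Real.log J + ε) * k)).le
    have h5 : Real.exp (-(Λ - Real.log J + ε) * k)
        * Real.exp ((Λ - Real.log J + ε) * k + ε * (0 : ℕ)) = 1 := by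
      rw [← Real.exp_add, Real.exp_eq_one_iff]
      push_cast
      ring
    calc wt (Λ - Real.log J + ε) k = Real.exp (-(Λ - Real.log J + ε) * k) * 1 := by
          rw [mul_one]; rfl
      _ ≤ _ := h4
      _ = (Real.exp (-(Λ - Real.log J + ε) * k)
        * Real.exp ((Λ - Real.log J + ε) * k + ε * (0 : ℕ))) * (C * ‖Fp D 0 k s‖) := by ring
      _ = _ := by rw [h5, one_mul]
  · intro k
    change L k (D (0 + k) (Fp D 0 k s)) = Fp D 0 k s
    rw [zero_add]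
    exact h.left k _
  · intro p hp hY
    obtain ⟨Y, hY⟩ := hY
    have hp' : ∀ k, p k = Fp D 0 k (p 0) := by
      intro k
      induction k with
      | zero => rfl
      | succ k ih =>
        change p (k + 1) = D (0 + k) (Fp D 0 k (p 0))
        rw [zero_add, ← ih, ← hp k, h.right]
    obtain ⟨t, ht⟩ := dir_unique h hJ s (p 0) hs ε Y C2 hε3 hC2 (fun n => by
      rw [← hp' n]; exact hY n)
    refine ⟨t, fun k => ?_⟩
    rw [hp' k, ht, map_smul]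

end MD
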