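import Pool.Agent.Lib.MP_904526_an.C3
import Pool.Agent.Lib.MP_904526_an.A3

/-!
# C5 (est. 80 min): the contracted direction is measurable, invariant, contracted
sd_meas: x ↦ sg (fun n => coc D g n x) n is measurable for every n (induction, cd_meas composed with
the continuous coc, Measurable.ite with measurableSet_le); it converges a.e. (reg_ae and dir_exists,
note that Fp (fun k => D (g^[k] x)) 0 = fun n => coc D g n x, rfl), so
aemeasurable_of_tendsto_metrizable_ae.
sd_ae: Sd D g x = the limit s of dir_exists (Tendsto.limUnder_eq). Equivariance: x and g x are both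
regular for a.e. x (g preserves μ: hg.quasiMeasurePreserving.ae / MeasurePreserving... tendsto_ae).
The vector p = D x (Sd x) satisfies coc n (g x) p = coc (n+1) x (Sd x), so it decays like wt, and
dir_unique at g x (with small ε) gives p = m • Sd (g x); m ≠ 0 since D x is injective.
-/

open Set Filter Topology MeasureTheory

namespace MD

variable {g : E ≃ₜ E} {D L : E → E →L[ℝ] E} {P : E → E} {q J M : ℝ} {K : Set E}

theorem c5_sg_meas (h : Sys g D L P q J M K) (n : ℕ) :
    Measurable (fun x => sg (fun k => coc D g k x) n) := by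
  induction n with
  | zero => exact cd_meas.comp (coc_cont h 0).measurable
  | succ n ih =>
    have h1 : Measurable (fun x => cd (coc D g (n + 1) x)) :=
      cd_meas.comp (coc_cont h (n + 1)).measurable
    exact Measurable.ite (measurableSet_le (h1.sub ih).norm (h1.add ih).norm) h1 h1.neg

theorem sd_meas (h : Sys g D L P q J M K) (μ : Measure E) [IsProbabilityMeasure μ]
    (hg : Ergodic g μ) (hK : μ Kᶜ = 0) (Λ : ℝ) (hΛ : LimExp D g μ Λ)
    (h2 : Real.log J < 2 * Λ) : AEMeasurable (Sd D g) μ := by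
  refine aemeasurable_of_tendsto_metrizable_ae atTop
    (fun n => (c5_sg_meas h n).aemeasurable) ?_
  filter_upwards [reg_ae h μ hg hK Λ hΛ] with x hx
  obtain ⟨s, _, hs, _⟩ := dir_exists hx h.hJ h2
  have e : Sd D g x = s := hs.limUnder_eq
  rw [e]
  exact hs

theorem sd_ae (h : Sys g D L P q J M K) (μ : Measure E) [IsProbabilityMeasure μ]
    (hg : Ergodic g μ) (hK : μ Kᶜ = 0) (Λ : ℝ) (hΛ : LimExp D g μ Λ)
    (h2 : Real.log J < 2 * Λ) (h3 : Real.log J < Λ) :
    ∀ᵐ x ∂μ, ‖Sd D g x‖ = 1 ∧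
      (∀ ε : ℝ, 0 < ε → ∃ C : ℝ, ∀ n : ℕ,
        ‖coc D g n x (Sd D g x)‖ ≤ C * wt (Λ - Real.log J - ε) n) ∧
      ∃ m : ℝ, m ≠ 0 ∧ D x (Sd D g x) = m • Sd D g (g x) := by
  have hr := reg_ae h μ hg hK Λ hΛ
  have hr' := hg.toMeasurePreserving.quasiMeasurePreserving.ae hr
  filter_upwards [hr, hr'] with x hx hx'
  obtain ⟨s, hs1, hs2, hs3⟩ := dir_exists hx h.hJ h2
  obtain ⟨s', hs1', hs2', hs3'⟩ := dir_exists hx' h.hJ h2
  have e : Sd D g x = s := hs2.limUnder_eq
  have e' : Sd D g (g x) = s' := hs2'.limUnder_eq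
  rw [e, e']
  refine ⟨hs1, hs3, ?_⟩
  obtain ⟨C, hC⟩ := hs3 ((2 * Λ - Real.log J) / 4) (by linarith)
  obtain ⟨C', hC'⟩ := hs3' ((2 * Λ - Real.log J) / 4) (by linarith)
  have hone : ∀ v, coc D g 1 x v = D x v := by
    intro v
    have := coc_succ (D := D) (g := g) 0 x
    rw [zero_add] at this
    rw [this]
    rfl
  obtain ⟨m, hm⟩ := dir_unique hx' h.hJ s' (D x s) hs1' ((2 * Λ - Real.log J) / 4)
    (C * wt (Λ - Real.log J - (2 * Λ - Real.log J) / 4) 1) C' (by linarith) hC' (by
      intro n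
      have h5 : Fp (fun k => D (g^[k] (g x))) 0 n (D x s) = coc D g (1 + n) x s := by
        rw [coc_add, ContinuousLinearMap.comp_apply, hone]
        rfl
      rw [h5]
      have h6 : ‖coc D g (1 + n) x s‖
        ≤ C * wt (Λ - Real.log J - (2 * Λ - Real.log J) / 4) (1 + n) := hC (1 + n)
      refine h6.trans (le_of_eq ?_)
      unfold wt
      rw [mul_assoc, ← Real.exp_add]
      congr 2
      push_cast
      ring)
  refine ⟨m, ?_, hm⟩
  intro hm0
  rw [hm0, zero_smul] at hm
  have h7 := h.left x s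
  rw [hm, map_zero] at h7
  rw [← h7, norm_zero] at hs1
  exact zero_ne_one hs1

end MD
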