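import Pool.Agent.Lib.MP_904526_an.L6

/-!
# L7: the bootstrap
-/

open Set Filter Topology MeasureTheory

namespace MD

theorem boot {D L : ℕ → E →L[ℝ] E} {J Λ : ℝ} {P : E → E} {q : ℝ} (h : Reg D L J Λ)
    (hJ : 0 < J) (hΛ : 0 < Λ) (hχ : Real.log J < Λ) (hq : 0 < q)
    (hPs : ∀ w, ‖P w‖ ≤ q * ‖w‖ ^ 2) (s : E) (hs : ‖s‖ = 1)
    (hsd : ∀ ε : ℝ, 0 < ε → ∃ C : ℝ, ∀ n : ℕ, ‖Fp D 0 n s‖ ≤ C * wt (Λ - Real.log J - ε) n)
    (w : ℕ → E) (hrec : ∀ i, w i = L i (w (i + 1)) + P (w (i + 1))) (κ C : ℝ) (hκ : 0 < κ)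
    (hw : ∀ k, ‖w k‖ ≤ C * wt κ k) (ε₀ : ℝ) (hε₀ : 0 < ε₀) :
    ∃ C' : ℝ, ∀ k, ‖w k‖ ≤ C' * wt (Λ - Real.log J - ε₀) k := by
  have hnn : ∀ {κ' C' : ℝ}, (∀ k, ‖w k‖ ≤ C' * wt κ' k) → 0 ≤ C' := by
    intro κ' C' h'
    have := h' 0
    rw [wt_zero, mul_one] at this
    exact (norm_nonneg _).trans this
  rcases le_or_gt (Λ - Real.log J - ε₀) κ with hc | hc
  · exact ⟨C, fun k => (hw k).trans (mul_le_mul_of_nonneg_left (wt_mono hc k) (hnn hw))⟩
  set ε : ℝ := min (κ / 20) (min (ε₀ / 4) (min (Λ / 2) ((Λ - Real.log J) / 4))) with hεd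
  have h1 : ε ≤ κ / 20 := min_le_left _ _
  have h2 : ε ≤ ε₀ / 4 := (min_le_right _ _).trans (min_le_left _ _)
  have h3 : ε ≤ Λ / 2 := (min_le_right _ _).trans ((min_le_right _ _).trans (min_le_left _ _))
  have h4 : ε ≤ (Λ - Real.log J) / 4 :=
    (min_le_right _ _).trans ((min_le_right _ _).trans (min_le_right _ _))
  have hε : 0 < ε := by
    rw [hεd]
    refine lt_min (by linarith) (lt_min (by linarith) (lt_min (by linarith) (by linarith)))
  have main : ∀ m : ℕ, ∃ C' : ℝ, ∀ k,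
      ‖w k‖ ≤ C' * wt (min ((3 / 2 : ℝ) ^ m * κ) (Λ - Real.log J - ε₀)) k := by
    intro m
    induction m with
    | zero =>
      refine ⟨C, fun k => (hw k).trans (mul_le_mul_of_nonneg_left (wt_mono ?_ k) (hnn hw))⟩
      rw [pow_zero, one_mul]
      exact min_le_left _ _
    | succ m ih =>
      obtain ⟨C', hC'⟩ := ih
      set μ := min ((3 / 2 : ℝ) ^ m * κ) (Λ - Real.log J - ε₀) with hμ
      have hp : (1 : ℝ) ≤ (3 / 2 : ℝ) ^ m := one_le_pow₀ (by norm_num)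
      have hμκ : κ ≤ μ := by
        refine le_min ?_ hc.le
        nlinarith
      obtain ⟨C'', hC''⟩ := boot_step h hJ hΛ hχ hq hPs s hs hsd w hrec μ C' (by linarith) hC' ε hε
        (by linarith) (by linarith)
      refine ⟨C'', fun k => (hC'' k).trans (mul_le_mul_of_nonneg_left (wt_mono ?_ k) (hnn hC''))⟩
      have e0 : min ((3 / 2 : ℝ) ^ (m + 1) * κ) (Λ - Real.log J - ε₀) ≤ (3 / 2) * μ := by
        rcases min_choice ((3 / 2 : ℝ) ^ m * κ) (Λ - Real.log J - ε₀) with c | c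
        · rw [hμ, c]
          refine (min_le_left _ _).trans ?_
          rw [pow_succ]
          linarith
        · rw [hμ, c]
          refine (min_le_right _ _).trans ?_
          linarith
      have e1 : min ((3 / 2 : ℝ) ^ (m + 1) * κ) (Λ - Real.log J - ε₀) ≤
          Λ - Real.log J - ε₀ := min_le_right _ _
      refine le_min ?_ ?_
      · linarith
      · linarith
  obtain ⟨m, hm⟩ := pow_unbounded_of_one_lt ((Λ - Real.log J - ε₀) / κ)
    (by norm_num : (1 : ℝ) < 3 / 2)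
  obtain ⟨C', hC'⟩ := main m
  refine ⟨C', fun k => ?_⟩
  have := hC' k
  rwa [min_eq_right] at this
  rw [div_lt_iff₀ hκ] at hm
  exact hm.le

end MD
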