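import Pool.Agent.Lib.MP_904526_an.M1

/-!
# M3 (est. 50 min): equivariance of the stable curves
With Lx k = L (g^[k] x) and vx k = coc k x (Sd x): Lx (1 + k) is the sequence of g x, so
Hb Lx P 1 n = Hb (L of g x) P 0 n (prove: Hb depends only on the values L (k+j); a general lemma
Hb L P (i+k) n = Hb (fun j => L (i+j)) P k n by induction), and vx (1+n) = coc n (g x) (D x (Sd x)) =
m • v(g x) n. So Gam x 1 t = Gam (g x) 0 (m t) (same sequences, or tendsto_nhds_unique with
gam_tendsto), and g (leaf x t) = g x + Gam x 1 t by gam_orb, k = 1.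
-/

open Set Filter Topology MeasureTheory

namespace MD

variable {g : E ≃ₜ E} {D L : E → E →L[ℝ] E} {P : E → E} {q J M : ℝ} {K : Set E}

theorem m3_hb (L : ℕ → E →L[ℝ] E) (L' : ℕ → E →L[ℝ] E) (P : E → E) (k k' : ℕ)
    (hL : ∀ j, L (k + j) = L' (k' + j)) (n : ℕ) : Hb L P k n = Hb L' P k' n := by
  induction n with
  | zero => rfl
  | succ n ih =>
    funext w
    show Hb L P k n (L (k + n) w + P w) = Hb L' P k' n (L' (k' + n) w + P w)
    rw [ih, hL]

theorem m3_coc (D : E → E →L[ℝ] E) (g : E ≃ₜ E) (x : E) (n : ℕ) (v : E) :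
    coc D g (1 + n) x v = coc D g n (g x) (D x v) := by
  rw [coc_add 1 n x]
  have h1 : coc D g 1 x = (D x).comp (coc D g 0 x) := coc_succ 0 x
  rw [h1, coc_zero]
  rfl

theorem leaf_equi (h : Sys g D L P q J M K) (x : E) (C C' χ ε : ℝ)
    (ht : Tame (fun k => L (g^[k] x)) P (fun k => coc D g k x (Sd D g x)) q C χ ε)
    (ht' : Tame (fun k => L (g^[k] (g x))) P
      (fun k => coc D g k (g x) (Sd D g (g x))) q C' χ ε)
    (m : ℝ) (hm : D x (Sd D g x) = m • Sd D g (g x)) (t : ℝ) :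
    g (leaf D L P g x t) = leaf D L P g (g x) (m * t) := by
  have h1 := gam_orb h x _ C χ ε ht t 1
  have h2 : g (leaf D L P g x t) = g x +
      Gam (fun k => L (g^[k] x)) P (fun k => coc D g k x (Sd D g x)) 1 t := h1
  rw [h2]
  unfold leaf
  congr 1
  unfold Gam
  congr 1
  funext n
  have h3 : Hb (fun k => L (g^[k] x)) P 1 n = Hb (fun k => L (g^[k] (g x))) P 0 n := by
    apply m3_hb
    intro j
    show L (g^[1 + j] x) = L (g^[0 + j] (g x))
    rw [Nat.add_comm 1 j, Nat.zero_add, Function.iterate_succ_apply]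
  rw [h3]
  congr 1
  show t • coc D g (1 + n) x (Sd D g x) = (m * t) • coc D g (0 + n) (g x) (Sd D g (g x))
  rw [m3_coc, hm, Nat.zero_add, map_smul, smul_smul, mul_comm]

end MD
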