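import Pool.Agent.Lib.MP_904526_an.M2
import Pool.Agent.Lib.MP_904526_an.M3
import Pool.Agent.Lib.MP_904526_an.C5
import Pool.Agent.Lib.MP_904526_an.L7

/-!
# M4 (est. 90 min): almost everywhere statements for the stable curves
tame_ae: reg_ae, sd_ae and tame_of_reg (Fp (fun k => D (g^[k] x)) 0 k = coc D g k x, rfl).
leaf_meas: x + Hb (..) P 0 n (t • coc n x (Sd x)) = g.symm^[n] (g^[n] x + t • coc n x (Sd x))
(induction with Sys.ex), which is AEMeasurable (sd_meas, coc_cont; (A, s) ↦ A s is continuous), and it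
tends to leaf x t a.e. (gam_tendsto): aemeasurable_of_tendsto_metrizable_ae.
leaf_ae: combine leaf_basic, leaf_loc (A₀ = 2C), leaf_equi (Tame at x and g x: g preserves μ).
leaf_full: (→) rng. (←) boot (w k = g^[k] y - g^[k] x, orb_rec; P_sq or Pl with w' = 0) gives the rate
Λ - log J - ε, then rng.
-/

open Set Filter Topology MeasureTheory

namespace MD

variable {g : E ≃ₜ E} {D L : E → E →L[ℝ] E} {P : E → E} {q J M : ℝ} {K : Set E}

theorem tame_ae (h : Sys g D L P q J M K) (μ : Measure E) [IsProbabilityMeasure μ]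
    (hg : Ergodic g μ) (hK : μ Kᶜ = 0) (Λ : ℝ) (hΛ : LimExp D g μ Λ) (ε : ℝ) (hε : 0 < ε)
    (hε2 : 5 * ε ≤ Λ - Real.log J) (hε3 : 2 * ε < 2 * Λ - Real.log J) :
    ∀ᵐ x ∂μ, ∃ C : ℝ, Tame (fun k => L (g^[k] x)) P (fun k => coc D g k x (Sd D g x)) q C
      (Λ - Real.log J) ε := by
  filter_upwards [reg_ae h μ hg hK Λ hΛ,
    sd_ae h μ hg hK Λ hΛ (by linarith) (by linarith)] with x hx hs
  obtain ⟨hs1, hs2, _⟩ := hs
  exact tame_of_reg hx h.hJ h.hq h.P0 h.Pl (Sd D g x) hs1 hs2 ε hε hε2 hε3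

theorem m4_hb (h : Sys g D L P q J M K) (x : E) (n : ℕ) (w : E) :
    x + Hb (fun k => L (g^[k] x)) P 0 n w = g.symm^[n] (g^[n] x + w) := by
  induction n generalizing w with
  | zero => simp [Hb]
  | succ n ih =>
    have e1 : Hb (fun k => L (g^[k] x)) P 0 (n + 1) w
        = Hb (fun k => L (g^[k] x)) P 0 n (L (g^[n] x) w + P w) := by
      change Hb (fun k => L (g^[k] x)) P 0 n (L (g^[0 + n] x) w + P w) = _
      rw [zero_add]
    rw [e1, ih, Function.iterate_succ_apply, Function.iterate_succ_apply', h.ex, add_assoc]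

theorem leaf_meas (h : Sys g D L P q J M K) (μ : Measure E) [IsProbabilityMeasure μ]
    (hg : Ergodic g μ) (hK : μ Kᶜ = 0) (Λ : ℝ) (hΛ : LimExp D g μ Λ) (ε : ℝ) (hε : 0 < ε)
    (hε2 : 5 * ε ≤ Λ - Real.log J) (hε3 : 2 * ε < 2 * Λ - Real.log J) (t : ℝ) :
    AEMeasurable (fun x => leaf D L P g x t) μ := by
  have hsm := sd_meas h μ hg hK Λ hΛ (by linarith)
  have hf : ∀ n : ℕ, AEMeasurable
      (fun x => g.symm^[n] (g^[n] x + t • coc D g n x (Sd D g x))) μ := by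
    intro n
    have h1 : Continuous (fun z : E × (E →L[ℝ] E) × E =>
        g.symm^[n] (z.1 + t • z.2.1 z.2.2)) := by
      have h2 : Continuous (fun z : (E →L[ℝ] E) × E => z.1 z.2) := by
        fun_prop
      have h3 : Continuous (fun z : E × (E →L[ℝ] E) × E => z.1 + t • z.2.1 z.2.2) :=
        continuous_fst.add ((h2.comp continuous_snd).const_smul t)
      exact (g.symm.continuous.iterate n).comp h3
    have h4 : AEMeasurable (fun x => (g^[n] x, coc D g n x, Sd D g x)) μ :=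
      ((g.continuous.iterate n).measurable.aemeasurable).prodMk
        (((coc_cont h n).measurable.aemeasurable).prodMk hsm)
    exact h1.measurable.comp_aemeasurable h4
  refine aemeasurable_of_tendsto_metrizable_ae atTop hf ?_
  filter_upwards [tame_ae h μ hg hK Λ hΛ ε hε hε2 hε3] with x hx
  obtain ⟨C, hC⟩ := hx
  have h1 := (gam_tendsto hC 0 t).const_add x
  refine h1.congr ?_
  intro n
  rw [← m4_hb h x n, zero_add]

theorem leaf_ae (h : Sys g D L P q J M K) (μ : Measure E) [IsProbabilityMeasure μ]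
    (hg : Ergodic g μ) (hK : μ Kᶜ = 0) (Λ : ℝ) (hΛ : LimExp D g μ Λ) (ε : ℝ) (hε : 0 < ε)
    (hε2 : 5 * ε ≤ Λ - Real.log J) (hε3 : 2 * ε < 2 * Λ - Real.log J) :
    ∀ᵐ x ∂μ, LeafAt g (leaf D L P g) (Sd D g) (Λ - Real.log J - ε) x := by
  have ht := tame_ae h μ hg hK Λ hΛ ε hε hε2 hε3
  have ht' := hg.toMeasurePreserving.quasiMeasurePreserving.ae ht
  filter_upwards [ht, ht', sd_ae h μ hg hK Λ hΛ (by linarith) (by linarith)] with x hx hx' hs
  obtain ⟨C, hC⟩ := hx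
  obtain ⟨C', hC'⟩ := hx'
  obtain ⟨hs1, _, m, hm0, hm⟩ := hs
  obtain ⟨hb1, hb2, hb3, hb4⟩ := leaf_basic h x C (Λ - Real.log J) ε hC
  refine ⟨hb1, hb2, hb3, hb4, ⟨m, hm0, fun t => ?_⟩, ⟨2 * C, ?_, fun A hA δ hδ => ?_⟩⟩
  · exact leaf_equi h x C C' (Λ - Real.log J) ε hC hC' m hm t
  · have := hC.hC
    linarith
  · exact leaf_loc h x C (Λ - Real.log J) ε hC hs1 A hA δ hδ

theorem leaf_full (h : Sys g D L P q J M K) (μ : Measure E) [IsProbabilityMeasure μ]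
    (hg : Ergodic g μ) (hK : μ Kᶜ = 0) (Λ : ℝ) (hΛ : LimExp D g μ Λ) (ε : ℝ) (hε : 0 < ε)
    (hε2 : 5 * ε ≤ Λ - Real.log J) (hε3 : 2 * ε < 2 * Λ - Real.log J) (hpos : 0 < Λ) :
    ∀ᵐ x ∂μ, ∀ y, y ∈ range (leaf D L P g x) ↔
      ∃ κ : ℝ, 0 < κ ∧ ∃ C : ℝ, ∀ k : ℕ, ‖g^[k] y - g^[k] x‖ ≤ C * wt κ k := by
  filter_upwards [leaf_ae h μ hg hK Λ hΛ ε hε hε2 hε3, reg_ae h μ hg hK Λ hΛ,
    sd_ae h μ hg hK Λ hΛ (by linarith) (by linarith)] with x hx hr hs y
  obtain ⟨hs1, hs2, _⟩ := hs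
  rw [hx.rng y]
  constructor
  · rintro ⟨Y, hY⟩
    exact ⟨Λ - Real.log J - ε, by linarith, Y, hY⟩
  · rintro ⟨κ, hκ, C, hC⟩
    exact boot hr h.hJ hpos (by linarith) h.hq
      (fun w => by
        have := h.Pl w 0
        rw [h.P0, sub_zero, sub_zero, norm_zero, add_zero] at this
        calc ‖P w‖ ≤ q * ‖w‖ * ‖w‖ := this
          _ = q * ‖w‖ ^ 2 := by ring)
      (Sd D g x) hs1 hs2 (fun k => g^[k] y - g^[k] x) (fun i => orb_rec h x y i) κ C hκ hC ε hε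

end MD
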