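import Pool.Agent.Lib.MP_904526_an.F2

/-!
# F3 (est. 80 min): no domain is bounded by points with bounded backward orbits
Let Dm be open, nonempty, bounded, frontier Dm ⊆ KM. g = f.symm, g^[n] is a homeomorphism, so
frontier (g^[n] '' Dm) = g^[n] '' frontier Dm ⊆ closedBall 0 R' (km_bd; frontier Dm is bounded), R'
independent of n. g^[n] '' Dm is open and bounded (contained in the compact image of the closure).
Claim: an open bounded set V with frontier ⊆ closedBall 0 R' is contained in closedBall 0 R': if z ∈ V,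
‖z‖ > R', the set {s ≥ 1 | s z ∉ V} is nonempty (V bounded), its infimum s* gives s* z ∈ frontier V,
with norm > R'. (Or: the complement of the closed ball is connected / the ray is connected:
IsPreconnected.inter_frontier_nonempty.)
Area: volume (f.symm '' V) = |b|⁻¹ volume V for V measurable: MeasureTheory.lintegral_abs_det_fderiv
or addHaar_image: lintegral_abs_det_fderiv_eq_addHaar_image with det of the derivative Lh = 1/b
(the derivative of f.symm at y is Lh b (f.symm y)), or by Fubini: f = linear ∘ shear. So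
volume (g^[n] '' Dm) = |b|^(-n) volume Dm → ∞, but ≤ volume (closedBall 0 R') < ∞, volume Dm > 0.
-/

open Set Filter Topology MeasureTheory

namespace MD

/-- a bounded open set is contained in every ball which contains its frontier -/
theorem f3_fill (V : Set E) (ho : IsOpen V) (hb : Bornology.IsBounded V) (R : ℝ)
    (h : frontier V ⊆ Metric.closedBall 0 R) : V ⊆ Metric.closedBall 0 R := by
  intro z hz
  by_contra hcon
  have hzR : R < ‖z‖ := by
    rw [mem_closedBall_zero_iff] at hcon
    exact not_le.1 hcon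
  have hz0 : 0 < ‖z‖ := by
    rcases (norm_nonneg z).eq_or_lt with h0 | h0
    · -- R is negative: the frontier is empty
      exfalso
      have hf : frontier V = ∅ := by
        apply Set.eq_empty_of_forall_notMem
        intro y hy
        have := mem_closedBall_zero_iff.1 (h hy)
        linarith [norm_nonneg y]
      rcases frontier_eq_empty_iff.1 hf with h1 | h1
      · rw [h1] at hz; exact hz
      · have h2 : ¬ Bornology.IsBounded (univ : Set E) := by
          intro h3
          obtain ⟨B, hB⟩ := h3.exists_norm_le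
          have h4 := hB (((|B| + 1 : ℝ), (0 : ℝ)) : E) trivial
          rw [Prod.norm_def] at h4
          have h5 : ‖(|B| + 1 : ℝ)‖ ≤ B := (le_max_left _ _).trans h4
          rw [Real.norm_of_nonneg (by positivity)] at h5
          linarith [le_abs_self B]
        rw [h1] at hb
        exact h2 hb
    · exact h0
  obtain ⟨B, hB⟩ := hb.closure.exists_norm_le
  have hB0 : ‖z‖ ≤ B := hB z (subset_closure hz)
  let T : ℝ := B / ‖z‖ + 1
  have hT : 1 ≤ T := by
    have : 0 ≤ B / ‖z‖ := div_nonneg (hz0.le.trans hB0) hz0.le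
    show 1 ≤ B / ‖z‖ + 1
    linarith
  have hTz : B < ‖T • z‖ := by
    rw [norm_smul, Real.norm_of_nonneg (by linarith)]
    show B < (B / ‖z‖ + 1) * ‖z‖
    rw [add_mul, div_mul_cancel₀ _ hz0.ne']
    linarith
  have hpre : IsPreconnected ((fun s : ℝ => s • z) '' Icc 1 T) :=
    isPreconnected_Icc.image _ (continuous_id.smul continuous_const).continuousOn
  have hcov : (fun s : ℝ => s • z) '' Icc 1 T ⊆ V ∪ (closure V)ᶜ := by
    rintro _ ⟨s, hs, rfl⟩
    by_contra hn
    rw [mem_union, not_or, mem_compl_iff, not_not] at hn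
    have hfr : s • z ∈ frontier V := by
      rw [ho.frontier_eq]
      exact ⟨hn.2, hn.1⟩
    have h1 := mem_closedBall_zero_iff.1 (h hfr)
    rw [norm_smul, Real.norm_of_nonneg (by linarith [hs.1])] at h1
    have h2 : ‖z‖ ≤ s * ‖z‖ := by nlinarith [hs.1]
    linarith
  obtain ⟨y, _, hy1, hy2⟩ := hpre V (closure V)ᶜ ho isClosed_closure.isOpen_compl hcov
    ⟨z, ⟨1, ⟨le_rfl, hT⟩, one_smul ℝ z⟩, hz⟩
    ⟨T • z, ⟨T, ⟨hT, le_rfl⟩, rfl⟩, fun hc => absurd (hB _ hc) (not_le.2 hTz)⟩
  exact hy2 (subset_closure hy1)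

/-- the derivative of the inverse Henon map -/
noncomputable def f3_der (b : ℝ) (x : ℝ × ℝ) : ℝ × ℝ →L[ℝ] ℝ × ℝ :=
  (Matrix.toLin (.finTwoProd ℝ) (.finTwoProd ℝ)
    !![(0 : ℝ), 1; -(1 / b), 2 * x.2 / b]).toContinuousLinearMap

theorem f3_hasFDerivAt (c b : ℝ) (hb : b ≠ 0) (x : E) :
    HasFDerivAt (fun p : ℝ × ℝ => (p.2, (p.2 ^ 2 + c - p.1) / b)) (f3_der b x) x := by
  unfold f3_der
  rw [Matrix.toLin_finTwoProd_toContinuousLinearMap]
  have h1 : HasFDerivAt (fun p : ℝ × ℝ => p.2) (ContinuousLinearMap.snd ℝ ℝ ℝ) x :=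
    hasFDerivAt_snd
  have h2 : HasFDerivAt (fun p : ℝ × ℝ => p.1) (ContinuousLinearMap.fst ℝ ℝ ℝ) x :=
    hasFDerivAt_fst
  have h3 : HasFDerivAt (fun p : ℝ × ℝ => (p.2 ^ 2 + c - p.1) / b)
      (b⁻¹ • ((2 * x.2) • ContinuousLinearMap.snd ℝ ℝ ℝ - ContinuousLinearMap.fst ℝ ℝ ℝ)) x := by
    have h4 : HasFDerivAt (fun p : ℝ × ℝ => p.2 ^ 2) ((2 * x.2) • ContinuousLinearMap.snd ℝ ℝ ℝ) x := by
      have := h1.pow 2
      simpa using this
    have h5 := ((h4.add_const c).sub h2).const_mul b⁻¹
    refine h5.congr_of_eventuallyEq (Filter.Eventually.of_forall fun p => ?_)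
    show (p.2 ^ 2 + c - p.1) / b = b⁻¹ * (p.2 ^ 2 + c - p.1)
    rw [div_eq_inv_mul]
  refine (h1.prodMk h3).congr_fderiv ?_
  apply ContinuousLinearMap.ext
  intro w
  refine Prod.ext ?_ ?_
  · simp
  · simp
    ring

theorem f3_det (b : ℝ) (x : ℝ × ℝ) : (f3_der b x).det = 1 / b := by
  unfold f3_der
  simp only [LinearMap.det_toContinuousLinearMap, LinearMap.det_toLin, Matrix.det_fin_two_of]
  ring

theorem f3_area (c b : ℝ) (hb : b ≠ 0) (V : Set E) (hV : IsOpen V) :
    volume ((hen c b hb).symm '' V) = ENNReal.ofReal (|b|⁻¹) * volume V := by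
  have h1 := lintegral_abs_det_fderiv_eq_addHaar_image (μ := (volume : Measure (ℝ × ℝ)))
    (f := fun p : ℝ × ℝ => (p.2, (p.2 ^ 2 + c - p.1) / b)) (f' := f3_der b) (s := V)
    hV.measurableSet (fun x _ => (f3_hasFDerivAt c b hb x).hasFDerivWithinAt)
    ((hen c b hb).symm.injective.injOn)
  have h2 : (fun p : ℝ × ℝ => (p.2, (p.2 ^ 2 + c - p.1) / b)) '' V = (hen c b hb).symm '' V := rfl
  rw [h2] at h1
  rw [← h1]
  have h3 : ∀ x, ENNReal.ofReal |(f3_der b x).det| = ENNReal.ofReal (|b|⁻¹) := by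
    intro x
    rw [f3_det, abs_div, abs_one, one_div]
  simp_rw [h3]
  rw [setLIntegral_const]

theorem no_frontier (c b : ℝ) (hb : b ≠ 0) (hb1 : |b| < 1) (Dm : Set E) (ho : IsOpen Dm)
    (hne : Dm.Nonempty) (hbd : Bornology.IsBounded Dm) : ¬ frontier Dm ⊆ KM c b hb := by
  intro hK
  set g := (hen c b hb).symm with hg
  obtain ⟨R0, hR0⟩ := hbd.closure.exists_norm_le
  set R' := max R0 (3 + |c|) with hR'
  have key : ∀ n : ℕ, IsOpen (g^[n] '' Dm) ∧ Bornology.IsBounded (g^[n] '' Dm) ∧
      frontier (g^[n] '' Dm) = g^[n] '' frontier Dm ∧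
      volume (g^[n] '' Dm) = ENNReal.ofReal (|b|⁻¹) ^ n * volume Dm := by
    intro n
    induction n with
    | zero =>
      refine ⟨?_, ?_, ?_, ?_⟩
      · simpa using ho
      · simpa using hbd
      · simp
      · simp
    | succ n ih =>
      obtain ⟨i1, i2, i3, i4⟩ := ih
      have e : ∀ S : Set E, g^[n + 1] '' S = g '' (g^[n] '' S) := by
        intro S
        rw [Function.iterate_succ', image_comp]
      refine ⟨?_, ?_, ?_, ?_⟩
      · rw [e]; exact g.isOpenMap _ i1
      · rw [e]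
        exact ((i2.isCompact_closure.image g.continuous).isBounded).subset
          (image_mono subset_closure)
      · rw [e, e, ← g.image_frontier, i3]
      · rw [e, f3_area c b hb _ i1, i4, pow_succ']
        ring
  have hsub : ∀ n : ℕ, g^[n] '' Dm ⊆ Metric.closedBall 0 R' := by
    intro n
    obtain ⟨i1, i2, i3, _⟩ := key n
    refine f3_fill _ i1 i2 R' ?_
    rw [i3]
    rintro _ ⟨y, hy, rfl⟩
    rw [mem_closedBall_zero_iff]
    have h1 := km_bd c b hb hb1 y (hK hy) n
    have h2 : ‖y‖ ≤ R0 := hR0 y (frontier_subset_closure hy)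
    exact h1.trans (max_le_max h2 le_rfl)
  have hfin : volume (Metric.closedBall (0 : E) R') < ⊤ :=
    (isCompact_closedBall 0 R').measure_lt_top
  have hpos : 0 < volume Dm := ho.measure_pos volume hne
  have hle : ∀ n : ℕ, ENNReal.ofReal (|b|⁻¹) ^ n * volume Dm ≤ volume (Metric.closedBall (0 : E) R') := by
    intro n
    rw [← (key n).2.2.2]
    exact measure_mono (hsub n)
  have hb0 : 0 < |b| := abs_pos.2 hb
  have hb2 : 1 < |b|⁻¹ := (one_lt_inv₀ hb0).2 hb1
  have hDfin : volume Dm ≠ ⊤ := by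
    have := hle 0
    rw [pow_zero, one_mul] at this
    exact ne_top_of_le_ne_top hfin.ne this
  have hv : 0 < (volume Dm).toReal := ENNReal.toReal_pos hpos.ne' hDfin
  obtain ⟨n, hn⟩ := pow_unbounded_of_one_lt
    ((volume (Metric.closedBall (0 : E) R')).toReal / (volume Dm).toReal) hb2
  have h1 := ENNReal.toReal_mono hfin.ne (hle n)
  rw [ENNReal.toReal_mul, ENNReal.toReal_pow, ENNReal.toReal_ofReal (by positivity)] at h1
  rw [div_lt_iff₀ hv] at hn
  linarith

end MD
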