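import Pool.Agent.Lib.MP_904526_an.C4
import Pool.Agent.Lib.MP_904526_an.L1

/-!
# G2 (est. 80 min): transversality of the two contracted directions
For N : ℕ let F_N = {x | wg (S x) (U x) = 0 ∧ ∀ n, ‖coc D g n x (S x)‖ ≤ N wt η n ∧
∀ n, ‖coc D' g.symm n x (U x)‖ ≤ N wt η n} (D' y = L (g.symm y)): null measurable (coc_cont for both
systems, S, U AEMeasurable). If μ F_N ≠ 0, by recurrence (Conservative.ae_mem_imp_frequently_image_mem,
hg.conservative) there is a point x ∈ F_N, good (hS at all g^[n] x, hunit at all g^[n] x, g preserves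
μ), with y = g^[n] x ∈ F_N for n as large as we wish. coc n x (S x) = c • S y with c real (hS
iterated), |c| = ‖coc n x (S x)‖ ≤ N wt η n, and S y = ± U y (smul_of_wg, unit vectors). By coc_symm
coc D' g.symm n y (coc D g n x (S x)) = S x, so 1 = ‖S x‖ = |c| ‖coc D' g.symm n y (U y)‖ ≤
N² wt (2η) n: contradiction for n large. So all F_N are null, and their union contains every good
point with wg (S x) (U x) = 0.
-/

open Set Filter Topology MeasureTheory

namespace MD

variable {g : E ≃ₜ E} {D L : E → E →L[ℝ] E} {P P' : E → E} {q q' J J' M M' : ℝ} {K : Set E}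

theorem g2_meas (h : Sys g D L P q J M K) (μ : Measure E) (n : ℕ) (S : E → E)
    (hS : AEMeasurable S μ) : AEMeasurable (fun x => coc D g n x (S x)) μ := by
  have h1 : Continuous (fun x => coc D g n x ((1, 0) : E)) :=
    (coc_cont h n).clm_apply continuous_const
  have h2 : Continuous (fun x => coc D g n x ((0, 1) : E)) :=
    (coc_cont h n).clm_apply continuous_const
  have e : (fun x => coc D g n x (S x)) = fun x =>
      (S x).1 • coc D g n x ((1, 0) : E) + (S x).2 • coc D g n x ((0, 1) : E) := by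
    funext x
    rw [← map_smul, ← map_smul, ← map_add]
    congr 1
    ext <;> simp
  rw [e]
  exact ((measurable_fst.comp_aemeasurable hS).smul h1.measurable.aemeasurable).add
    ((measurable_snd.comp_aemeasurable hS).smul h2.measurable.aemeasurable)

theorem transv (h : Sys g D L P q J M K)
    (h' : Sys g.symm (fun y => L (g.symm y)) (fun y => D (g.symm y)) P' q' J' M' K)
    (μ : Measure E) [IsProbabilityMeasure μ] (hg : MeasurePreserving g μ μ) (S U : E → E)
    (hSm : AEMeasurable S μ) (hUm : AEMeasurable U μ)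
    (hS1 : ∀ᵐ x ∂μ, ‖S x‖ = 1) (hU1 : ∀ᵐ x ∂μ, ‖U x‖ = 1)
    (hS : ∀ᵐ x ∂μ, ∃ m : ℝ, D x (S x) = m • S (g x)) (η : ℝ) (hη : 0 < η)
    (hSd : ∀ᵐ x ∂μ, ∃ C : ℝ, ∀ n : ℕ, ‖coc D g n x (S x)‖ ≤ C * wt η n)
    (hUd : ∀ᵐ x ∂μ, ∃ C : ℝ, ∀ n : ℕ,
      ‖coc (fun y => L (g.symm y)) g.symm n x (U x)‖ ≤ C * wt η n) :
    ∀ᵐ x ∂μ, wg (S x) (U x) ≠ 0 := by
  set F : ℕ → Set E := fun N => {x | wg (S x) (U x) = 0} ∩
    ((⋂ n : ℕ, {x | ‖coc D g n x (S x)‖ ≤ N * wt η n}) ∩
      ⋂ n : ℕ, {x | ‖coc (fun y => L (g.symm y)) g.symm n x (U x)‖ ≤ N * wt η n}) with hF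
  have hFm : ∀ N, NullMeasurableSet (F N) μ := by
    intro N
    refine NullMeasurableSet.inter ?_ (NullMeasurableSet.inter ?_ ?_)
    · have hw : AEMeasurable (fun x => wg (S x) (U x)) μ := by
        unfold wg
        exact ((measurable_fst.comp_aemeasurable hSm).mul
          (measurable_snd.comp_aemeasurable hUm)).sub
          ((measurable_snd.comp_aemeasurable hSm).mul (measurable_fst.comp_aemeasurable hUm))
      exact nullMeasurableSet_eq_fun hw aemeasurable_const
    · exact NullMeasurableSet.iInter fun n =>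
        nullMeasurableSet_le (g2_meas h μ n S hSm).norm aemeasurable_const
    · exact NullMeasurableSet.iInter fun n =>
        nullMeasurableSet_le (g2_meas h' μ n U hUm).norm aemeasurable_const
  have hrec : ∀ᵐ x ∂μ, ∀ N : ℕ, x ∈ F N → ∃ᶠ n : ℕ in atTop, g^[n] x ∈ F N := by
    rw [ae_all_iff]
    intro N
    exact hg.conservative.ae_mem_imp_frequently_image_mem (hFm N)
  have hall : ∀ p : E → Prop, (∀ᵐ x ∂μ, p x) → ∀ᵐ x ∂μ, ∀ n : ℕ, p (g^[n] x) := by
    intro p hp
    rw [ae_all_iff]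
    intro n
    exact (hg.iterate n).quasiMeasurePreserving.ae hp
  filter_upwards [hrec, hall _ hS1, hall _ hU1, hall _ hS, hSd, hUd] with x hx1 hx2 hx3 hx4 hx5 hx6
  intro hw0
  obtain ⟨C1, hC1⟩ := hx5
  obtain ⟨C2, hC2⟩ := hx6
  obtain ⟨N, hN⟩ := exists_nat_ge (max C1 C2)
  have hwp : ∀ n, 0 < wt η n := fun n => wt_pos η n
  have hxF : x ∈ F N := by
    refine ⟨hw0, mem_iInter.2 fun n => ?_, mem_iInter.2 fun n => ?_⟩
    · refine (hC1 n).trans ?_
      exact mul_le_mul_of_nonneg_right ((le_max_left _ _).trans hN) (hwp n).le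
    · refine (hC2 n).trans ?_
      exact mul_le_mul_of_nonneg_right ((le_max_right _ _).trans hN) (hwp n).le
  have htend : Tendsto (fun n : ℕ => (N * wt η n) * (N * wt η n)) atTop (𝓝 0) := by
    have h1 := (wt_tendsto hη).const_mul (N : ℝ)
    have h2 := h1.mul h1
    simpa using h2
  have hev : ∀ᶠ n : ℕ in atTop, (N * wt η n) * (N * wt η n) < 1 :=
    htend.eventually (gt_mem_nhds one_pos)
  obtain ⟨n, hnF, hn1⟩ := ((hx1 N hxF).and_eventually hev).exists
  have hcoc : ∀ k : ℕ, ∃ c : ℝ, coc D g k x (S x) = c • S (g^[k] x) := by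
    intro k
    induction k with
    | zero => exact ⟨1, by simp [coc_zero]⟩
    | succ k ih =>
      obtain ⟨c, hc⟩ := ih
      obtain ⟨m, hm⟩ := hx4 k
      refine ⟨c * m, ?_⟩
      rw [coc_succ, ContinuousLinearMap.comp_apply, hc, map_smul, hm,
        Function.iterate_succ_apply', smul_smul]
  obtain ⟨c, hc⟩ := hcoc n
  have hcn : |c| ≤ N * wt η n := by
    have h1 := mem_iInter.1 hxF.2.1 n
    have h2 : ‖coc D g n x (S x)‖ ≤ N * wt η n := h1
    rw [hc, norm_smul, hx2 n, mul_one, Real.norm_eq_abs] at h2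
    exact h2
  have hU : ‖coc (fun y => L (g.symm y)) g.symm n (g^[n] x) (U (g^[n] x))‖ ≤ N * wt η n :=
    mem_iInter.1 hnF.2.2 n
  have hwy : wg (S (g^[n] x)) (U (g^[n] x)) = 0 := hnF.1
  obtain ⟨t, ht⟩ := smul_of_wg (U (g^[n] x)) (S (g^[n] x)) (hx3 n) (by
    have e : wg (U (g^[n] x)) (S (g^[n] x)) = - wg (S (g^[n] x)) (U (g^[n] x)) := by
      simp [wg]; ring
    rw [e, hwy, neg_zero])
  have ht1 : |t| = 1 := by
    have h1 := hx2 n
    rw [ht, norm_smul, hx3 n, mul_one, Real.norm_eq_abs] at h1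
    exact h1
  have hback := (coc_symm h n x (S x)).1
  rw [hc, ht, map_smul, map_smul] at hback
  have h1 : (1 : ℝ) = |c| * ‖coc (fun y => L (g.symm y)) g.symm n (g^[n] x) (U (g^[n] x))‖ := by
    have h2 := hx2 0
    simp only [Function.iterate_zero, id_eq] at h2
    rw [← hback, norm_smul, norm_smul, Real.norm_eq_abs, Real.norm_eq_abs, ht1, one_mul] at h2
    exact h2.symm
  have h3 : |c| * ‖coc (fun y => L (g.symm y)) g.symm n (g^[n] x) (U (g^[n] x))‖
      ≤ (N * wt η n) * (N * wt η n) :=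
    mul_le_mul hcn hU (norm_nonneg _) (mul_nonneg (Nat.cast_nonneg _) (hwp n).le)
  linarith

end MD
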