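import Pool.Agent.Lib.MP_904526_an.A1

/-!
# G4: the box lemma
-/

open Set Filter Topology MeasureTheory

namespace MD

theorem g4_lt {f g : ℝ → ℝ} (hf : Continuous f) (hg : Continuous g)
    (hne : (∃ a, f a = g a) → f = g) (h : f 0 < g 0) (a : ℝ) : f a < g a := by
  by_contra hc
  have hc := not_lt.1 hc
  obtain ⟨c, hc2⟩ := intermediate_value_univ₂ hf hg h.le hc
  have := hne ⟨c, hc2⟩
  rw [this] at h
  exact lt_irrefl _ h

theorem g4_wg_smul (s u : E) (a b : ℝ) : wg (a • s + b • u) u = a * wg s u := by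
  simp only [wg, Prod.fst_add, Prod.snd_add, Prod.smul_fst, Prod.smul_snd, smul_eq_mul]
  ring

theorem g4_wg_smul' (s u : E) (a b : ℝ) : wg s (a • s + b • u) = b * wg s u := by
  simp only [wg, Prod.fst_add, Prod.snd_add, Prod.smul_fst, Prod.smul_snd, smul_eq_mul]
  ring

theorem g4_al_cont (x0 u0 : E) (w0 : ℝ) : Continuous (fun z : E => wg (z - x0) u0 / w0) := by
  unfold wg
  fun_prop

theorem g4_be_cont (x0 s0 : E) (w0 : ℝ) : Continuous (fun z : E => wg s0 (z - x0) / w0) := by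
  unfold wg
  fun_prop

/-- the fixed point of the composition lies to the left -/
theorem g4_le {f g : ℝ → ℝ} (hf : LipschitzWith (1 / 4) f) (hg : LipschitzWith (1 / 4) g)
    {a0 b0 a : ℝ} (h1 : f a0 = b0) (h2 : g b0 = a0) (h3 : g (f a) ≤ a) : a0 ≤ a := by
  by_contra hc
  have hc := not_le.1 hc
  have d1 := hf.dist_le_mul a a0
  have d2 := hg.dist_le_mul (f a) (f a0)
  rw [h1, h2] at d2
  rw [h1] at d1
  rw [Real.dist_eq] at d1 d2
  rw [Real.dist_eq] at d1 d2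
  have e1 : ((1 / 4 : NNReal) : ℝ) = 1 / 4 := by norm_num
  rw [e1] at d1 d2
  have e2 : |a - a0| = a0 - a := by rw [abs_sub_comm]; exact abs_of_pos (by linarith)
  rw [e2] at d1
  have d3 := (abs_le.1 d2).1
  linarith

theorem g4_core (KM : Set E)
    (hKM : ∀ Dm : Set E, IsOpen Dm → Dm.Nonempty → Bornology.IsBounded Dm →
      ¬ frontier Dm ⊆ KM)
    (x0 s0 u0 : E) (hw : wg s0 u0 ≠ 0) (ρ : ℝ) (hρ : 0 < ρ) (f1 f2 g1 g2 g3 : ℝ → ℝ)
    (a1 b1 a2 b2 : ℝ)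
    (hf1 : LipschitzWith (1 / 4) f1) (hf2 : LipschitzWith (1 / 4) f2)
    (hg1 : LipschitzWith (1 / 4) g1) (hg2 : LipschitzWith (1 / 4) g2)
    (hg3 : LipschitzWith (1 / 4) g3)
    (f1b : ∀ a, |f1 a| ≤ ρ / 2) (f2b : ∀ a, |f2 a| ≤ ρ / 2)
    (g1b : ∀ a, |g1 a| ≤ ρ / 2) (g3b : ∀ a, |g3 a| ≤ ρ / 2)
    (h1 : f1 a1 = b1) (h1' : g1 b1 = a1) (h2 : f2 a2 = b2) (h2' : g2 b2 = a2)
    (hf1K : ∀ a, a1 ≤ a → |a| ≤ ρ → x0 + a • s0 + (f1 a) • u0 ∈ KM)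
    (hf2K : ∀ a, a2 ≤ a → |a| ≤ ρ → x0 + a • s0 + (f2 a) • u0 ∈ KM)
    (hg1K : ∀ b, |b| ≤ ρ → x0 + (g1 b) • s0 + b • u0 ∈ KM)
    (hg2K : ∀ b, |b| ≤ ρ → x0 + (g2 b) • s0 + b • u0 ∈ KM)
    (hg3K : ∀ b, |b| ≤ ρ → x0 + (g3 b) • s0 + b • u0 ∈ KM)
    (hf : ∀ a, f1 a < f2 a) (h13 : ∀ b, g1 b < g3 b) (h23 : ∀ b, g2 b < g3 b) : False := by
  set al : E → ℝ := fun z => wg (z - x0) u0 / wg s0 u0 with hal
  set be : E → ℝ := fun z => wg s0 (z - x0) / wg s0 u0 with hbe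
  have alc : Continuous al := g4_al_cont x0 u0 _
  have bec : Continuous be := g4_be_cont x0 s0 _
  have hz : ∀ z : E, x0 + al z • s0 + be z • u0 = z := by
    intro z
    have := decomp s0 u0 (z - x0) hw
    rw [add_assoc, ← this]
    abel
  have hal2 : ∀ a b : ℝ, al (x0 + a • s0 + b • u0) = a := by
    intro a b
    show wg (x0 + a • s0 + b • u0 - x0) u0 / wg s0 u0 = a
    rw [show x0 + a • s0 + b • u0 - x0 = a • s0 + b • u0 by abel, g4_wg_smul]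
    field_simp
  have hbe2 : ∀ a b : ℝ, be (x0 + a • s0 + b • u0) = b := by
    intro a b
    show wg s0 (x0 + a • s0 + b • u0 - x0) / wg s0 u0 = b
    rw [show x0 + a • s0 + b • u0 - x0 = a • s0 + b • u0 by abel, g4_wg_smul']
    field_simp
  have cf1 := hf1.continuous
  have cf2 := hf2.continuous
  have cg1 := hg1.continuous
  have cg2 := hg2.continuous
  have cg3 := hg3.continuous
  set Dm : Set E := {z | g1 (be z) < al z ∧ g2 (be z) < al z ∧ al z < g3 (be z) ∧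
    f1 (al z) < be z ∧ be z < f2 (al z)} with hDm
  set Cm : Set E := {z | g1 (be z) ≤ al z ∧ g2 (be z) ≤ al z ∧ al z ≤ g3 (be z) ∧
    f1 (al z) ≤ be z ∧ be z ≤ f2 (al z)} with hCm
  have hopen : IsOpen Dm := by
    refine (isOpen_lt (cg1.comp bec) alc).inter ((isOpen_lt (cg2.comp bec) alc).inter
      ((isOpen_lt alc (cg3.comp bec)).inter ((isOpen_lt (cf1.comp alc) bec).inter
        (isOpen_lt bec (cf2.comp alc)))))
  have hclosed : IsClosed Cm := by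
    refine (isClosed_le (cg1.comp bec) alc).inter ((isClosed_le (cg2.comp bec) alc).inter
      ((isClosed_le alc (cg3.comp bec)).inter ((isClosed_le (cf1.comp alc) bec).inter
        (isClosed_le bec (cf2.comp alc)))))
  have hDC : Dm ⊆ Cm := fun z hz => ⟨hz.1.le, hz.2.1.le, hz.2.2.1.le, hz.2.2.2.1.le, hz.2.2.2.2.le⟩
  have hclos : closure Dm ⊆ Cm := closure_minimal hDC hclosed
  have hCa : ∀ z ∈ Cm, |al z| ≤ ρ / 2 := by
    intro z hz
    have := (abs_le.1 (g1b (be z))).1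
    have := (abs_le.1 (g3b (be z))).2
    exact abs_le.2 ⟨by linarith [hz.1], by linarith [hz.2.2.1]⟩
  have hCb : ∀ z ∈ Cm, |be z| ≤ ρ / 2 := by
    intro z hz
    have := (abs_le.1 (f1b (al z))).1
    have := (abs_le.1 (f2b (al z))).2
    exact abs_le.2 ⟨by linarith [hz.2.2.2.1], by linarith [hz.2.2.2.2]⟩
  apply hKM Dm hopen
  · -- nonempty
    set fm : ℝ → ℝ := fun a => (f1 a + f2 a) / 2 with hfm
    set gm : ℝ → ℝ := fun b => (max (g1 b) (g2 b) + g3 b) / 2 with hgm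
    have cfm : Continuous fm := by fun_prop
    have cgm : Continuous gm := by fun_prop
    have gmb : ∀ b, |gm b| ≤ ρ / 2 := by
      intro b
      have e1 := (abs_le.1 (g1b b)).1
      have e2 := (abs_le.1 (g3b b)).1
      have e3 := (abs_le.1 (g3b b)).2
      have e4 : g1 b ≤ max (g1 b) (g2 b) := le_max_left _ _
      have e5 : max (g1 b) (g2 b) ≤ g3 b := max_le (h13 b).le (h23 b).le
      apply abs_le.2
      show -(ρ / 2) ≤ (max (g1 b) (g2 b) + g3 b) / 2 ∧ (max (g1 b) (g2 b) + g3 b) / 2 ≤ ρ / 2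
      constructor <;> linarith
    obtain ⟨a, ha⟩ := intermediate_value_univ₂ (a := -ρ) (b := ρ) (f := fun a : ℝ => a)
      (g := fun a : ℝ => gm (fm a)) continuous_id (cgm.comp cfm)
      (by have := (abs_le.1 (gmb (fm (-ρ)))).1; show -ρ ≤ gm (fm (-ρ)); linarith)
      (by have := (abs_le.1 (gmb (fm ρ))).2; show gm (fm ρ) ≤ ρ; linarith)
    have ha : a = gm (fm a) := ha
    refine ⟨x0 + a • s0 + (fm a) • u0, ?_⟩
    show g1 (be (x0 + a • s0 + (fm a) • u0)) < al (x0 + a • s0 + (fm a) • u0) ∧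
      g2 (be (x0 + a • s0 + (fm a) • u0)) < al (x0 + a • s0 + (fm a) • u0) ∧
      al (x0 + a • s0 + (fm a) • u0) < g3 (be (x0 + a • s0 + (fm a) • u0)) ∧
      f1 (al (x0 + a • s0 + (fm a) • u0)) < be (x0 + a • s0 + (fm a) • u0) ∧
      be (x0 + a • s0 + (fm a) • u0) < f2 (al (x0 + a • s0 + (fm a) • u0))
    rw [hal2, hbe2]
    have e1 : fm a = (f1 a + f2 a) / 2 := rfl
    have e2 : gm (fm a) = (max (g1 (fm a)) (g2 (fm a)) + g3 (fm a)) / 2 := rfl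
    have e3 := hf a
    have e4 : max (g1 (fm a)) (g2 (fm a)) < g3 (fm a) := max_lt (h13 _) (h23 _)
    have e5 : g1 (fm a) ≤ max (g1 (fm a)) (g2 (fm a)) := le_max_left _ _
    have e6 : g2 (fm a) ≤ max (g1 (fm a)) (g2 (fm a)) := le_max_right _ _
    refine ⟨by linarith, by linarith, by linarith, by linarith, by linarith⟩
  · -- bounded
    rw [isBounded_iff_forall_norm_le]
    refine ⟨‖x0‖ + ρ / 2 * ‖s0‖ + ρ / 2 * ‖u0‖, ?_⟩
    intro z hzD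
    have hzC := hDC hzD
    rw [← hz z]
    have n1 : ‖al z • s0‖ ≤ ρ / 2 * ‖s0‖ := by
      rw [norm_smul]
      exact mul_le_mul_of_nonneg_right (hCa z hzC) (norm_nonneg _)
    have n2 : ‖be z • u0‖ ≤ ρ / 2 * ‖u0‖ := by
      rw [norm_smul]
      exact mul_le_mul_of_nonneg_right (hCb z hzC) (norm_nonneg _)
    calc ‖x0 + al z • s0 + be z • u0‖ ≤ ‖x0 + al z • s0‖ + ‖be z • u0‖ := norm_add_le _ _
      _ ≤ ‖x0‖ + ‖al z • s0‖ + ‖be z • u0‖ := by gcongr; exact norm_add_le _ _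
      _ ≤ _ := by gcongr
  · -- frontier
    intro z hzf
    rw [hopen.frontier_eq] at hzf
    have hzC := hclos hzf.1
    have hzD : z ∉ Dm := hzf.2
    have ha := hCa z hzC
    have hb := hCb z hzC
    have ha' : |al z| ≤ ρ := by linarith
    have hb' : |be z| ≤ ρ := by linarith
    rcases hzC.1.lt_or_eq with c1 | c1
    swap
    · have := hg1K (be z) hb'
      rwa [c1, hz] at this
    rcases hzC.2.1.lt_or_eq with c2 | c2
    swap
    · have := hg2K (be z) hb'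
      rwa [c2, hz] at this
    rcases hzC.2.2.1.lt_or_eq with c3 | c3
    swap
    · have := hg3K (be z) hb'
      rwa [← c3, hz] at this
    rcases hzC.2.2.2.1.lt_or_eq with c4 | c4
    swap
    · have h3 : a1 ≤ al z := g4_le hf1 hg1 h1 h1' (by rw [c4]; exact hzC.1)
      have := hf1K (al z) h3 ha'
      rwa [c4, hz] at this
    rcases hzC.2.2.2.2.lt_or_eq with c5 | c5
    swap
    · have h3 : a2 ≤ al z := g4_le hf2 hg2 h2 h2' (by rw [← c5]; exact hzC.2.1)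
      have := hf2K (al z) h3 ha'
      rwa [← c5, hz] at this
    exact absurd ⟨c1, c2, c3, c4, c5⟩ hzD

theorem box (KM : Set E)
    (hKM : ∀ Dm : Set E, IsOpen Dm → Dm.Nonempty → Bornology.IsBounded Dm →
      ¬ frontier Dm ⊆ KM)
    (N : Set E) (x0 s0 u0 : E) (hw : wg s0 u0 ≠ 0) (ρ : ℝ) (hρ : 0 < ρ) (φ ψ : E → ℝ → ℝ)
    (hφ : ∀ x ∈ N, LipschitzWith (1 / 4) (φ x)) (hψ : ∀ x ∈ N, LipschitzWith (1 / 4) (ψ x))
    (hφb : ∀ x ∈ N, ∀ a, |φ x a| ≤ ρ / 2) (hψb : ∀ x ∈ N, ∀ a, |ψ x a| ≤ ρ / 2)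
    (hφx : ∀ x ∈ N, φ x (wg (x - x0) u0 / wg s0 u0) = wg s0 (x - x0) / wg s0 u0)
    (hψx : ∀ x ∈ N, ψ x (wg s0 (x - x0) / wg s0 u0) = wg (x - x0) u0 / wg s0 u0)
    (hφK : ∀ x ∈ N, ∀ a, wg (x - x0) u0 / wg s0 u0 ≤ a → |a| ≤ ρ →
      x0 + a • s0 + (φ x a) • u0 ∈ KM)
    (hψK : ∀ x ∈ N, ∀ b, |b| ≤ ρ → x0 + (ψ x b) • s0 + b • u0 ∈ KM)
    (hφn : ∀ x ∈ N, ∀ y ∈ N, (∃ a, φ x a = φ y a) → φ x = φ y)
    (hψn : ∀ x ∈ N, ∀ y ∈ N, (∃ a, ψ x a = ψ y a) → ψ x = ψ y) :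
    ∃ p q : ℝ, ∀ x ∈ N, ψ x 0 = p ∨ φ x 0 = q := by
  have core : ∀ x1 ∈ N, ∀ x2 ∈ N, ∀ x3 ∈ N, φ x1 0 < φ x2 0 → ψ x1 0 < ψ x3 0 →
      ψ x2 0 < ψ x3 0 → False := by
    intro x1 h1 x2 h2 x3 h3 k1 k2 k3
    exact g4_core KM hKM x0 s0 u0 hw ρ hρ (φ x1) (φ x2) (ψ x1) (ψ x2) (ψ x3)
      _ _ _ _ (hφ x1 h1) (hφ x2 h2) (hψ x1 h1) (hψ x2 h2) (hψ x3 h3)
      (hφb x1 h1) (hφb x2 h2) (hψb x1 h1) (hψb x3 h3)
      (hφx x1 h1) (hψx x1 h1) (hφx x2 h2) (hψx x2 h2)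
      (hφK x1 h1) (hφK x2 h2) (hψK x1 h1) (hψK x2 h2) (hψK x3 h3)
      (g4_lt (hφ x1 h1).continuous (hφ x2 h2).continuous (hφn x1 h1 x2 h2) k1)
      (g4_lt (hψ x1 h1).continuous (hψ x3 h3).continuous (hψn x1 h1 x3 h3) k2)
      (g4_lt (hψ x2 h2).continuous (hψ x3 h3).continuous (hψn x2 h2 x3 h3) k3)
  have core2 : ∀ x1 ∈ N, ∀ x2 ∈ N, ∀ x3 ∈ N, ψ x1 0 < ψ x3 0 →
      ψ x2 0 < ψ x3 0 → φ x1 0 = φ x2 0 := by
    intro x1 h1 x2 h2 x3 h3 k2 k3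
    rcases lt_trichotomy (φ x1 0) (φ x2 0) with c | c | c
    · exact (core x1 h1 x2 h2 x3 h3 c k2 k3).elim
    · exact c
    · exact (core x2 h2 x1 h1 x3 h3 c k3 k2).elim
  by_cases hmax : ∃ xs ∈ N, ∀ x ∈ N, ψ x 0 ≤ ψ xs 0
  · obtain ⟨xs, hxs, hxs2⟩ := hmax
    by_cases hex : ∃ x' ∈ N, ψ x' 0 ≠ ψ xs 0
    · obtain ⟨x', hx', hx'2⟩ := hex
      refine ⟨ψ xs 0, φ x' 0, fun x hx => ?_⟩
      by_cases hx2 : ψ x 0 = ψ xs 0
      · exact Or.inl hx2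
      · right
        exact core2 x hx x' hx' xs hxs (lt_of_le_of_ne (hxs2 x hx) hx2)
          (lt_of_le_of_ne (hxs2 x' hx') hx'2)
    · refine ⟨ψ xs 0, 0, fun x hx => Or.inl ?_⟩
      by_contra hc
      exact hex ⟨x, hx, hc⟩
  · rcases N.eq_empty_or_nonempty with hN | ⟨x', hx'⟩
    · refine ⟨0, 0, fun x hx => ?_⟩
      rw [hN] at hx
      exact hx.elim
    · refine ⟨0, φ x' 0, fun x hx => Or.inr ?_⟩
      have hup : ∀ xs ∈ N, ∃ y ∈ N, ψ xs 0 < ψ y 0 := by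
        intro xs hxs
        by_contra hc
        push Not at hc
        exact hmax ⟨xs, hxs, hc⟩
      rcases le_total (ψ x 0) (ψ x' 0) with c | c
      · obtain ⟨y, hy, hy2⟩ := hup x' hx'
        exact core2 x hx x' hx' y hy (lt_of_le_of_lt c hy2) hy2
      · obtain ⟨y, hy, hy2⟩ := hup x hx
        exact core2 x hx x' hx' y hy hy2 (lt_of_le_of_lt c hy2)

end MD
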