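import Pool.Agent.Lib.MP_904526_an.Defs

/-!
# G5: a set contracted to a point has measure zero
-/

open Set Filter Topology MeasureTheory

namespace MD

theorem g5_iter (g : E ≃ₜ E) (μ : Measure E) (hg : MeasurePreserving g μ μ) (k : ℕ) :
    MeasurePreserving (g^[k]) μ μ := hg.iterate k

theorem atom (g : E ≃ₜ E) (μ : Measure E) [IsProbabilityMeasure μ] (hna : ∀ x, μ {x} = 0)
    (hg : MeasurePreserving g μ μ) (S : Set E) (z : E) (c : ℕ → ℝ)
    (hc : Tendsto c atTop (𝓝 0)) (h : ∀ x ∈ S, ∀ k : ℕ, ‖g^[k] x - g^[k] z‖ ≤ c k) :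
    μ S = 0 := by
  by_contra hS
  have hm : 0 < μ S := pos_iff_ne_zero.2 hS
  -- the balls have large measure
  have hball : ∀ k : ℕ, μ S ≤ μ (Metric.closedBall (g^[k] z) (c k)) := by
    intro k
    have h1 : S ⊆ g^[k] ⁻¹' (Metric.closedBall (g^[k] z) (c k)) := by
      intro x hx
      rw [mem_preimage, Metric.mem_closedBall, dist_eq_norm]
      exact h x hx k
    refine (measure_mono h1).trans (le_of_eq ?_)
    exact (hg.iterate k).measure_preimage Metric.isClosed_closedBall.measurableSet.nullMeasurableSet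
  -- a big ball with small complement
  have hR : ∃ R : ℝ, μ (Metric.closedBall (0 : E) R)ᶜ < μ S := by
    have h1 : Tendsto (fun n : ℕ => μ (Metric.closedBall (0 : E) n)ᶜ) atTop
        (𝓝 (μ (⋂ n : ℕ, (Metric.closedBall (0 : E) n)ᶜ))) := by
      apply tendsto_measure_iInter_atTop
      · intro n
        exact Metric.isClosed_closedBall.measurableSet.compl.nullMeasurableSet
      · intro m n hmn
        apply compl_subset_compl.2
        apply Metric.closedBall_subset_closedBall
        exact_mod_cast hmn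
      · exact ⟨0, measure_ne_top _ _⟩
    have h2 : (⋂ n : ℕ, (Metric.closedBall (0 : E) n)ᶜ) = ∅ := by
      rw [← compl_iUnion]
      have : (⋃ n : ℕ, Metric.closedBall (0 : E) n) = univ := by
        rw [eq_univ_iff_forall]
        intro x
        obtain ⟨n, hn⟩ := exists_nat_ge ‖x‖
        exact mem_iUnion.2 ⟨n, by simpa using hn⟩
      rw [this, compl_univ]
    rw [h2, measure_empty] at h1
    obtain ⟨n, hn⟩ := (h1.eventually (gt_mem_nhds hm)).exists
    exact ⟨n, hn⟩
  obtain ⟨R, hR⟩ := hR
  obtain ⟨B, hB⟩ := hc.bddAbove_range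
  have hBk : ∀ k, c k ≤ B := fun k => hB ⟨k, rfl⟩
  have hz : ∀ k : ℕ, g^[k] z ∈ Metric.closedBall (0 : E) (R + B) := by
    intro k
    by_contra hk
    have hdis : Metric.closedBall (g^[k] z) (c k) ⊆ (Metric.closedBall (0 : E) R)ᶜ := by
      intro y hy hy'
      apply hk
      rw [Metric.mem_closedBall] at *
      calc dist (g^[k] z) 0 ≤ dist (g^[k] z) y + dist y 0 := dist_triangle _ _ _
        _ ≤ B + R := by
            rw [dist_comm]
            exact add_le_add (hy.trans (hBk k)) hy'
        _ = R + B := by ring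
    exact absurd ((hball k).trans (measure_mono hdis)) (not_le.2 hR)
  obtain ⟨a, -, φ, hφ, hlim⟩ := (isCompact_closedBall (0 : E) (R + B)).tendsto_subseq hz
  have hsub : ∀ r : ℝ, 0 < r → μ S ≤ μ (Metric.closedBall a r) := by
    intro r hr
    have h1 : ∀ᶠ k in atTop, dist (g^[φ k] z) a < r / 2 :=
      (Metric.tendsto_nhds.1 hlim) (r / 2) (by linarith)
    have h2 : ∀ᶠ k in atTop, c (φ k) < r / 2 :=
      (hc.comp hφ.tendsto_atTop).eventually (gt_mem_nhds (by linarith : (0 : ℝ) < r / 2))
    obtain ⟨k, hk1, hk2⟩ := (h1.and h2).exists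
    refine (hball (φ k)).trans (measure_mono ?_)
    intro y hy
    rw [Metric.mem_closedBall] at *
    calc dist y a ≤ dist y (g^[φ k] z) + dist (g^[φ k] z) a := dist_triangle _ _ _
      _ ≤ r := by linarith
  have h1 : Tendsto (fun n : ℕ => μ (Metric.closedBall a (1 / ((n : ℝ) + 1)))) atTop
      (𝓝 (μ (⋂ n : ℕ, Metric.closedBall a (1 / ((n : ℝ) + 1))))) := by
    apply tendsto_measure_iInter_atTop
    · intro n
      exact Metric.isClosed_closedBall.measurableSet.nullMeasurableSet
    · intro m n hmn
      apply Metric.closedBall_subset_closedBall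
      exact Nat.one_div_le_one_div hmn
    · exact ⟨0, measure_ne_top _ _⟩
  have h2 : (⋂ n : ℕ, Metric.closedBall a (1 / ((n : ℝ) + 1))) = {a} := by
    ext y
    rw [mem_iInter, mem_singleton_iff]
    constructor
    · intro hy
      have h3 : dist y a ≤ 0 := by
        apply ge_of_tendsto' tendsto_one_div_add_atTop_nhds_zero_nat
        intro n
        exact hy n
      exact dist_le_zero.1 h3
    · rintro rfl n
      rw [Metric.mem_closedBall, dist_self]
      positivity
  rw [h2, hna a] at h1
  have h3 : μ S ≤ 0 := by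
    apply ge_of_tendsto' h1
    intro n
    exact hsub _ (by positivity)
  exact hS (le_antisymm h3 zero_le)

end MD
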