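import Pool.Agent.Lib.MP_904526_an.Defs

/-!
# G6 (est. 80 min): pigeonhole (uniform constants on a set of positive outer measure)
Bad is covered by countably many pieces: σ ∈ {1, -1}; κ = 1/(n+1) with κ ≤ |wg (S x) (U x)|;
A : ℕ with A ≥ both A₀ of LeafAt.loc; δ := κ/160; r = 1/(j+1) ≤ both r₀; and (x, S x, U x) in one of
countably many sets of diameter small (cover E × E × E, separable, by countably many balls of radius
min δ (δ r) / 2 depending on the previous indices). One piece N has μ N ≠ 0 (measure_iUnion_null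
applied repeatedly, or contrapositive of outer measure countable subadditivity). Pick any x* ∈ N
(nonempty since μ N ≠ 0), x0 = x*, s0 = S x*, u0 = U x* (unit by LocAt.unit), |wg s0 u0| ≥ κ ≥ 80 δ.
-/

open Set Filter Topology MeasureTheory

namespace MD

/-- one piece -/
def g6Piece (f : E ≃ₜ E) (Bad KM : Set E) (γs γu : E → ℝ → E) (S U : E → E) (α α' : ℝ)
    (σ κ A δ r : ℝ) (c : E × E × E) : Set E :=
  {x | x ∈ Bad ∧ κ ≤ |wg (S x) (U x)| ∧ LocAt f (γs x) (S x) α A δ r x ∧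
    LocAt f.symm (γu x) (U x) α' A δ r x ∧ (∀ t : ℝ, 0 < σ * t → γs x t ∈ KM) ∧
    dist (x, S x, U x) c < min δ (δ * r) / 2}

theorem pieces (f : E ≃ₜ E) (μ : Measure E) (Bad KM : Set E) (hBad : μ Bad ≠ 0)
    (γs γu : E → ℝ → E) (S U : E → E) (α α' : ℝ)
    (hs : ∀ x ∈ Bad, LeafAt f γs S α x) (hu : ∀ x ∈ Bad, LeafAt f.symm γu U α' x)
    (hw : ∀ x ∈ Bad, wg (S x) (U x) ≠ 0)
    (hσ : ∀ x ∈ Bad, ∃ σ : ℝ, (σ = 1 ∨ σ = -1) ∧ ∀ t : ℝ, 0 < σ * t → γs x t ∈ KM) :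
    ∃ N : Set E, N ⊆ Bad ∧ μ N ≠ 0 ∧ ∃ σ : ℝ, (σ = 1 ∨ σ = -1) ∧
      ∃ A δ r : ℝ, ∃ x0 s0 u0 : E, 1 ≤ A ∧ 0 < δ ∧ 0 < r ∧ ‖s0‖ = 1 ∧ ‖u0‖ = 1 ∧
        80 * δ ≤ |wg s0 u0| ∧ ∀ x ∈ N, LocAt f (γs x) (S x) α A δ r x ∧
          LocAt f.symm (γu x) (U x) α' A δ r x ∧ ‖S x - s0‖ ≤ δ ∧ ‖U x - u0‖ ≤ δ ∧
          ‖x - x0‖ ≤ δ * r ∧ ∀ t : ℝ, 0 < σ * t → γs x t ∈ KM := by
  classical
  set sgn : Bool → ℝ := fun b => if b = true then 1 else -1 with hsgn
  set ka : ℕ → ℝ := fun n => 1 / ((n : ℝ) + 1) with hka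
  set F : Bool × ℕ × ℕ × ℕ × ℕ → Set E := fun i =>
    g6Piece f Bad KM γs γu S U α α' (sgn i.1) (ka i.2.1) ((i.2.2.1 : ℝ) + 1)
      (ka i.2.1 / 160) (ka i.2.2.2.1) (TopologicalSpace.denseSeq (E × E × E) i.2.2.2.2) with hF
  have hka0 : ∀ n, 0 < ka n := fun n => by
    simp only [hka]
    positivity
  have hcov : Bad ⊆ ⋃ i, F i := by
    intro x hx
    obtain ⟨σ, hσ1, hσ2⟩ := hσ x hx
    obtain ⟨b, hb⟩ : ∃ b, sgn b = σ := by
      rcases hσ1 with rfl | rfl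
      · exact ⟨true, by simp [hsgn]⟩
      · exact ⟨false, by simp [hsgn]⟩
    obtain ⟨n, hn⟩ := exists_nat_one_div_lt (abs_pos.2 (hw x hx))
    obtain ⟨A₀, hA₀, hA⟩ := (hs x hx).loc
    obtain ⟨A₁, hA₁, hA'⟩ := (hu x hx).loc
    obtain ⟨a, ha⟩ := exists_nat_ge (max A₀ A₁)
    have ha0 : A₀ ≤ (a : ℝ) + 1 := by
      have := le_max_left A₀ A₁
      linarith
    have ha1 : A₁ ≤ (a : ℝ) + 1 := by
      have := le_max_right A₀ A₁
      linarith
    have hδ : 0 < ka n / 160 := by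
      have := hka0 n
      positivity
    obtain ⟨r₀, hr₀, hr⟩ := hA _ ha0 _ hδ
    obtain ⟨r₁, hr₁, hr'⟩ := hA' _ ha1 _ hδ
    obtain ⟨j, hj⟩ := exists_nat_one_div_lt (lt_min hr₀ hr₁)
    have hj0 : ka j ≤ r₀ := (hj.trans_le (min_le_left _ _)).le
    have hj1 : ka j ≤ r₁ := (hj.trans_le (min_le_right _ _)).le
    have hε : 0 < min (ka n / 160) (ka n / 160 * ka j) / 2 := by
      have h1 := hka0 j
      have h2 : 0 < ka n / 160 * ka j := mul_pos hδ h1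
      have h3 := lt_min hδ h2
      linarith
    obtain ⟨m, hm⟩ := (TopologicalSpace.denseRange_denseSeq (E × E × E)).exists_dist_lt
      (x, S x, U x) hε
    refine Set.mem_iUnion.2 ⟨(b, n, a, j, m), hx, hn.le, hr _ (hka0 j) hj0, hr' _ (hka0 j) hj1, ?_, hm⟩
    rw [hb]
    exact hσ2
  obtain ⟨i, hi⟩ : ∃ i, μ (F i) ≠ 0 := by
    by_contra hcon
    push Not at hcon
    exact hBad (measure_mono_null hcov (measure_iUnion_null hcon))
  have hne : (F i).Nonempty := by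
    rw [Set.nonempty_iff_ne_empty]
    intro h
    rw [h] at hi
    exact hi measure_empty
  obtain ⟨y, hy⟩ := hne
  have hδ : 0 < ka i.2.1 / 160 := by
    have := hka0 i.2.1
    positivity
  have hr := hka0 i.2.2.2.1
  refine ⟨F i, fun x hx => hx.1, hi, sgn i.1, ?_, (i.2.2.1 : ℝ) + 1, ka i.2.1 / 160,
    ka i.2.2.2.1, y, S y, U y, ?_, hδ, hr, hy.2.2.1.unit, hy.2.2.2.1.unit, ?_, ?_⟩
  · simp only [hsgn]
    split_ifs
    · exact Or.inl rfl
    · exact Or.inr rfl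
  · have : (0 : ℝ) ≤ (i.2.2.1 : ℝ) := Nat.cast_nonneg _
    linarith
  · have h1 : ka i.2.1 ≤ |wg (S y) (U y)| := hy.2.1
    have h2 := hka0 i.2.1
    linarith
  · intro x hx
    have h1 := hx.2.2.2.2.2
    have h2 := hy.2.2.2.2.2
    have h3 : dist (x, S x, U x) (y, S y, U y) ≤ min (ka i.2.1 / 160) (ka i.2.1 / 160 * ka i.2.2.2.1) := by
      have h4 := dist_triangle_right (x, S x, U x) (y, S y, U y)
        (TopologicalSpace.denseSeq (E × E × E) i.2.2.2.2)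
      linarith
    have h5 : dist x y ≤ dist (x, S x, U x) (y, S y, U y) := le_max_left _ _
    have h6 : dist (S x) (S y) ≤ dist (x, S x, U x) (y, S y, U y) :=
      (le_max_left _ _).trans (le_max_right _ _)
    have h7 : dist (U x) (U y) ≤ dist (x, S x, U x) (y, S y, U y) :=
      (le_max_right _ _).trans (le_max_right _ _)
    rw [dist_eq_norm] at h5 h6 h7
    exact ⟨hx.2.2.1, hx.2.2.2.1, (h6.trans h3).trans (min_le_left _ _),
      (h7.trans h3).trans (min_le_left _ _), (h5.trans h3).trans (min_le_right _ _), hx.2.2.2.2.1⟩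

end MD
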