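import Pool.Agent.Lib.MP_904526_an.G3
import Pool.Agent.Lib.MP_904526_an.G4
import Pool.Agent.Lib.MP_904526_an.G5
import Pool.Agent.Lib.MP_904526_an.G6
import Pool.Agent.Lib.MP_904526_an.L1

open Set Filter Topology MeasureTheory

namespace MD

theorem LocAt.flip {g : E ≃ₜ E} {c : ℝ → E} {s : E} {α A δ r : ℝ} {x : E}
    (h : LocAt g c s α A δ r x) (σ : ℝ) (hσ : σ = 1 ∨ σ = -1) :
    LocAt g (fun t => c (σ * t)) (σ • s) α A δ r x := by
  have hab : |σ| = 1 := by rcases hσ with rfl | rfl <;> simp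
  have hss : σ * σ = 1 := by rcases hσ with rfl | rfl <;> norm_num
  refine ⟨?_, ?_, ?_, ?_, ?_⟩
  · rw [norm_smul, h.unit, Real.norm_eq_abs, hab, mul_one]
  · simpa using h.zero
  · intro t t' ht ht'
    have h1 := h.lin (σ * t) (σ * t') (by rw [abs_mul, hab, one_mul]; exact ht)
      (by rw [abs_mul, hab, one_mul]; exact ht')
    have h2 : (t - t') • σ • s = (σ * t - σ * t') • s := by
      rw [smul_smul]; congr 1; ring
    rw [h2]
    have h3 : |σ * t - σ * t'| = |t - t'| := by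
      rw [← mul_sub, abs_mul, hab, one_mul]
    rw [h3] at h1
    exact h1
  · intro t ht k
    have h1 := h.near (σ * t) (by rw [abs_mul, hab, one_mul]; exact ht) k
    rw [abs_mul, hab, one_mul] at h1
    exact h1
  · intro y hy1 hy2
    obtain ⟨t, ht, hty⟩ := h.cap y hy1 hy2
    refine ⟨σ * t, by rw [abs_mul, hab, one_mul]; exact ht, ?_⟩
    show c (σ * (σ * t)) = y
    rw [← mul_assoc, hss, one_mul]
    exact hty

theorem contra (f : E ≃ₜ E) (μ : Measure E) [IsProbabilityMeasure μ] (hna : ∀ x, μ {x} = 0)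
    (hf : MeasurePreserving f μ μ) (KM : Set E)
    (hKM : ∀ Dm : Set E, IsOpen Dm → Dm.Nonempty → Bornology.IsBounded Dm →
      ¬ frontier Dm ⊆ KM) (Bad : Set E)
    (γs γu : E → ℝ → E) (S U : E → E) (α α' : ℝ) (hα : 0 < α) (hα' : 0 < α')
    (hs : ∀ x ∈ Bad, LeafAt f γs S α x) (hu : ∀ x ∈ Bad, LeafAt f.symm γu U α' x)
    (hw : ∀ x ∈ Bad, wg (S x) (U x) ≠ 0)
    (hσ : ∀ x ∈ Bad, ∃ σ : ℝ, (σ = 1 ∨ σ = -1) ∧ ∀ t : ℝ, 0 < σ * t → γs x t ∈ KM)
    (hγu : ∀ x ∈ Bad, ∀ t : ℝ, γu x t ∈ KM) : μ Bad = 0 := by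
  by_contra hBad
  obtain ⟨N, hNB, hN0, σ, hσ1, A, δ, r, x0, s0, u0, hA, hδ, hr, hs0, hu0, hδw, hN⟩ :=
    pieces f μ Bad KM hBad γs γu S U α α' hs hu hw hσ
  have hab : |σ| = 1 := by rcases hσ1 with rfl | rfl <;> simp
  have hss : σ * σ = 1 := by rcases hσ1 with rfl | rfl <;> norm_num
  have hwσ : wg (σ • s0) u0 = σ * wg s0 u0 := by simp [wg]; ring
  have hwσ' : wg u0 (σ • s0) = -(σ * wg s0 u0) := by simp [wg]; ring
  have hw0 : wg s0 u0 ≠ 0 := by
    intro h0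
    rw [h0, abs_zero] at hδw
    linarith
  have hσ0 : σ ≠ 0 := by
    rintro rfl
    simp at hab
  obtain ⟨φ, hφ1, hφ2, hφ3, hφ4, hφ5⟩ := graphs f (fun x t => γs x (σ * t)) (fun x => σ • S x)
    α A δ r N x0 (σ • s0) u0 hr hA hδ (by rw [norm_smul, Real.norm_eq_abs, hab, hs0, one_mul])
    hu0 (by rw [hwσ, abs_mul, hab, one_mul]; exact hδw)
    (fun x hx => (hN x hx).1.flip σ hσ1)
    (fun x hx => by
      rw [← smul_sub, norm_smul, Real.norm_eq_abs, hab, one_mul]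
      exact (hN x hx).2.2.1)
    (fun x hx => (hN x hx).2.2.2.2.1)
  obtain ⟨ψ, hψ1, hψ2, hψ3, hψ4, hψ5⟩ := graphs f.symm γu U
    α' A δ r N x0 u0 (σ • s0) hr hA hδ hu0
    (by rw [norm_smul, Real.norm_eq_abs, hab, hs0, one_mul])
    (by rw [hwσ', abs_neg, abs_mul, hab, one_mul]; exact hδw)
    (fun x hx => (hN x hx).2.1)
    (fun x hx => (hN x hx).2.2.2.1)
    (fun x hx => (hN x hx).2.2.2.2.1)
  have hbe : ∀ x : E, wg (x - x0) (σ • s0) / wg u0 (σ • s0)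
      = wg (σ • s0) (x - x0) / wg (σ • s0) u0 := by
    intro x
    have e1 : wg (x - x0) (σ • s0) = - wg (σ • s0) (x - x0) := by simp [wg]; ring
    rw [hwσ', hwσ, e1, neg_div_neg_eq]
  have hal : ∀ x : E, wg u0 (x - x0) / wg u0 (σ • s0)
      = wg (x - x0) u0 / wg (σ • s0) u0 := by
    intro x
    have e1 : wg u0 (x - x0) = - wg (x - x0) u0 := by simp [wg]; ring
    rw [hwσ', hwσ, e1, neg_div_neg_eq]
  obtain ⟨p, q, hpq⟩ := box KM hKM N x0 (σ • s0) u0 (by rw [hwσ]; exact mul_ne_zero hσ0 hw0)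
    (r / 4) (by linarith) φ ψ hφ1 hψ1
    (fun x hx a => by have := hφ2 x hx a; linarith)
    (fun x hx a => by have := hψ2 x hx a; linarith)
    hφ4
    (fun x hx => by
      have h1 := hψ4 x hx
      rw [hbe, hal] at h1
      exact h1)
    (fun x hx a ha1 ha2 => by
      obtain ⟨t, ht1, ht2, ht3⟩ := hφ3 x hx a ha2
      rw [← ht2]
      rcases (ht3 ha1).eq_or_lt with h0 | h0
      · show γs x (σ * t) ∈ KM
        rw [← h0, mul_zero, (hs x (hNB hx)).zero, ← (hu x (hNB hx)).zero]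
        exact hγu x (hNB hx) 0
      · apply (hN x hx).2.2.2.2.2
        rw [← mul_assoc, hss, one_mul]
        exact h0)
    (fun x hx b hb => by
      obtain ⟨t, ht1, ht2, ht3⟩ := hψ3 x hx b hb
      have h1 : x0 + ψ x b • σ • s0 + b • u0 = γu x t := by
        rw [ht2]; abel
      rw [h1]
      exact hγu x (hNB hx) t)
    hφ5 hψ5
  have hwt : ∀ β : ℝ, 0 < β → Tendsto (fun k : ℕ => A * r * wt β k) atTop (𝓝 0) := by
    intro β hβ
    have := (wt_tendsto hβ).const_mul (A * r)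
    simpa using this
  have hr4 : |(0 : ℝ)| ≤ r / 4 := by rw [abs_zero]; linarith
  have h1 : μ {x ∈ N | φ x 0 = q} = 0 := by
    refine atom f μ hna hf _ (x0 + (0 : ℝ) • (σ • s0) + q • u0) _ (hwt α hα) ?_
    rintro x ⟨hx, hxq⟩ k
    obtain ⟨t, ht1, ht2, ht3⟩ := hφ3 x hx 0 hr4
    rw [hxq] at ht2
    rw [← ht2, norm_sub_rev]
    have h2 := ((hN x hx).1.flip σ hσ1).near t ht1 k
    refine h2.trans ?_
    have h3 := (wt_pos α k).le
    gcongr
  have h2 : μ {x ∈ N | ψ x 0 = p} = 0 := by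
    refine atom f.symm μ hna (hf.symm f.toMeasurableEquiv) _
      (x0 + (0 : ℝ) • u0 + p • (σ • s0)) _ (hwt α' hα') ?_
    rintro x ⟨hx, hxq⟩ k
    obtain ⟨t, ht1, ht2, ht3⟩ := hψ3 x hx 0 hr4
    rw [hxq] at ht2
    rw [← ht2, norm_sub_rev]
    have h2 := (hN x hx).2.1.near t ht1 k
    refine h2.trans ?_
    have h3 := (wt_pos α' k).le
    gcongr
  apply hN0
  refine measure_mono_null (t := {x ∈ N | φ x 0 = q} ∪ {x ∈ N | ψ x 0 = p}) ?_
    (measure_union_null h1 h2)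
  intro x hx
  rcases hpq x hx with h | h
  · exact Or.inr ⟨hx, h⟩
  · exact Or.inl ⟨hx, h⟩

end MD
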