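import Pool.Agent.Lib.MP_904526_an.M4
import Pool.Agent.Lib.MP_904526_an.F3
import Pool.Agent.Lib.MP_904526_an.G1
import Pool.Agent.Lib.MP_904526_an.G2
import Pool.Agent.Lib.MP_904526_an.G7
import Pool.Agent.Lib.MP_904526_an.N3

open Set Filter Topology MeasureTheory

namespace MD

theorem ergodic_symm (f : E ≃ₜ E) (μ : Measure E) (hf : Ergodic f μ) : Ergodic f.symm μ := by
  have hmp : MeasurePreserving f.symm μ μ := hf.toMeasurePreserving.symm f.toMeasurableEquiv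
  refine ⟨hmp, ⟨?_⟩⟩
  intro s hs h
  have h1 : f ⁻¹' s = s := by
    conv_lhs => rw [← h]
    ext x
    simp
  exact hf.toPreErgodic.aeconst_set hs h1

theorem main (c b : ℝ) (hb0 : b ≠ 0) (hb1 : |b| < 1) (μ : Measure (ℝ × ℝ))
    [IsProbabilityMeasure μ] (hμ : Ergodic (henon c b) μ) (hna : ∀ x, μ {x} = 0)
    (hpos : ∃ δ : ℝ, 0 < δ ∧ ∀ n : ℕ, 1 ≤ n →
      δ * n ≤ ∫ x, Real.log ‖fderiv ℝ ((henon c b)^[n]) x‖ ∂μ) :
    ∀ᵐ x ∂μ, ∃ γ : ℝ → ℝ × ℝ, ContDiff ℝ 1 γ ∧ (∀ t, deriv γ t ≠ 0) ∧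
      Function.Injective γ ∧ γ 0 = x ∧
      range γ = {y | ∃ κ : ℝ, 0 < κ ∧ ∃ C : ℝ, ∀ n : ℕ,
        dist ((henon c b)^[n] y) ((henon c b)^[n] x) ≤ C * Real.exp (-κ * n)} ∧
      ¬ Bornology.IsBounded (γ '' Ioi 0) ∧ ¬ Bornology.IsBounded (γ '' Iio 0) := by
  obtain ⟨δ, hδ, hpos⟩ := hpos
  set f : E ≃ₜ E := hen c b hb0 with hf
  have hfe : Ergodic f μ := hμ
  have hfp : MeasurePreserving f μ μ := hfe.toMeasurePreserving
  have hse : Ergodic f.symm μ := ergodic_symm f μ hfe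
  have hsp : MeasurePreserving f.symm μ μ := hse.toMeasurePreserving
  obtain ⟨M, h⟩ := hen_sys c b hb0
  obtain ⟨M', h'⟩ := hen_sys' c b hb0
  rw [← hf] at h h'
  have hK : μ (KK c b hb0)ᶜ = 0 := kk_ae c b hb0 hb1 μ hfp
  have habs : 0 < |b| := abs_pos.mpr hb0
  have hlog : Real.log |b| < 0 := Real.log_neg habs hb1
  obtain ⟨Λ, hδΛ, hΛ⟩ := limExp_exists h μ hfp hK δ (fun n hn => by
    have h1 := hpos n hn
    refine h1.trans (le_of_eq ?_)
    refine integral_congr_ae (Eventually.of_forall fun x => ?_)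
    show Real.log ‖fderiv ℝ ((henon c b)^[n]) x‖ = Real.log ‖coc (Dh b) f n x‖
    rw [henon_fderiv c b hb0 n x])
  have hΛ0 : 0 < Λ := lt_of_lt_of_le hδ hδΛ
  have hΛ' := limExp_symm h h' μ hfp hK Λ hΛ
  have hJ' : Real.log (1 / |b|) = - Real.log |b| := by
    rw [one_div, Real.log_inv]
  have hε : 0 < Λ / 10 := by linarith
  have hE := leaf_ae h μ hfe hK Λ hΛ (Λ / 10) hε (by linarith) (by linarith)
  have hE' := leaf_ae h' μ hse hK (Λ - Real.log |b|) hΛ' (Λ / 10) hε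
    (by rw [hJ']; linarith) (by rw [hJ']; linarith)
  have hT := tame_ae h μ hfe hK Λ hΛ (Λ / 10) hε (by linarith) (by linarith)
  have hF := leaf_full h μ hfe hK Λ hΛ (Λ / 10) hε (by linarith) (by linarith) hΛ0
  have hmeas := leaf_meas h μ hfe hK Λ hΛ (Λ / 10) hε (by linarith) (by linarith)
  have hSm := sd_meas h μ hfe hK Λ hΛ (by linarith)
  have hUm := sd_meas h' μ hse hK (Λ - Real.log |b|) hΛ' (by rw [hJ']; linarith)
  have hSa := sd_ae h μ hfe hK Λ hΛ (by linarith) (by linarith)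
  have hUa := sd_ae h' μ hse hK (Λ - Real.log |b|) hΛ' (by rw [hJ']; linarith)
    (by rw [hJ']; linarith)
  have hside := bdd_side f μ hfp (leaf (Dh b) (Lh b) (Ph b) f) hmeas
    (hE.mono fun x hx => hx.cont) (hE.mono fun x hx => hx.equi) (KM c b hb0)
    (fun y hy => km_of_freq c b hb0 hb1 y hy)
  have hwg := transv h h' μ hfp (Sd (Dh b) f)
    (Sd (fun y => Lh b (f.symm y)) f.symm) hSm hUm (hSa.mono fun x hx => hx.1)
    (hUa.mono fun x hx => hx.1)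
    (hSa.mono fun x hx => by obtain ⟨m, -, hm⟩ := hx.2.2; exact ⟨m, hm⟩) (Λ / 2)
    (by linarith)
    (hSa.mono fun x hx => by
      obtain ⟨C, hC⟩ := hx.2.1 (Λ - Real.log |b| - Λ / 2) (by linarith)
      refine ⟨C, fun n => ?_⟩
      have := hC n
      rwa [show Λ - Real.log |b| - (Λ - Real.log |b| - Λ / 2) = Λ / 2 by ring] at this)
    (hUa.mono fun x hx => by
      obtain ⟨C, hC⟩ := hx.2.1 (Λ / 2) (by linarith)
      refine ⟨C, fun n => ?_⟩
      have := hC n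
      rwa [hJ', show Λ - Real.log |b| - -Real.log |b| - Λ / 2 = Λ / 2 by ring] at this)
  have hKae : ∀ᵐ x ∂μ, x ∈ KK c b hb0 := hK
  set γs := leaf (Dh b) (Lh b) (Ph b) f with hγs
  set γu := leaf (fun y => Lh b (f.symm y)) (fun y => Dh b (f.symm y)) Qh f.symm with hγu
  set S := Sd (Dh b) f with hS
  set U := Sd (fun y => Lh b (f.symm y)) f.symm with hU
  set Good : E → Prop := fun x =>
    LeafAt f γs S (Λ - Real.log |b| - Λ / 10) x ∧
    LeafAt f.symm γu U (Λ - Real.log |b| - Real.log (1 / |b|) - Λ / 10) x ∧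
    wg (S x) (U x) ≠ 0 ∧
    (∀ σ : ℝ, (σ = 1 ∨ σ = -1) →
      Bornology.IsBounded (γs x '' {t : ℝ | 0 < σ * t}) → ∀ t : ℝ, 0 < σ * t → γs x t ∈ KM c b hb0) ∧
    x ∈ KK c b hb0 with hGood
  have hG : ∀ᵐ x ∂μ, Good x := by
    filter_upwards [hE, hE', hwg, hside, hKae] with x h1 h2 h3 h4 h5
    exact ⟨h1, h2, h3, h4, h5⟩
  have hbad : μ {x | Good x ∧ ∃ σ : ℝ, (σ = 1 ∨ σ = -1) ∧
      Bornology.IsBounded (γs x '' {t : ℝ | 0 < σ * t})} = 0 := by
    refine contra f μ hna hfp (KM c b hb0) (no_frontier c b hb0 hb1) _ γs γu S U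
      (Λ - Real.log |b| - Λ / 10) (Λ - Real.log |b| - Real.log (1 / |b|) - Λ / 10)
      (by linarith) (by rw [hJ']; linarith) (fun x hx => hx.1.1) (fun x hx => hx.1.2.1)
      (fun x hx => hx.1.2.2.1) ?_ ?_
    · rintro x ⟨hx, σ, hσ, hb⟩
      exact ⟨σ, hσ, hx.2.2.2.1 σ hσ hb⟩
    · rintro x ⟨hx, -⟩ t
      obtain ⟨Y, hY⟩ := (hx.2.1.rng (γu x t)).1 ⟨t, rfl⟩
      refine ⟨|Y| + (3 + |c|), fun n => ?_⟩
      have h1 := hY n
      have h2 := (hx.2.2.2.2 n).2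
      have h3 : wt (Λ - Real.log |b| - Real.log (1 / |b|) - Λ / 10) n ≤ 1 := by
        unfold wt
        rw [Real.exp_le_one_iff, hJ']
        have : (0:ℝ) ≤ n := Nat.cast_nonneg n
        nlinarith
      have h4 := (wt_pos (Λ - Real.log |b| - Real.log (1 / |b|) - Λ / 10) n).le
      have h5 : ‖f.symm^[n] (γu x t)‖ ≤ ‖f.symm^[n] (γu x t) - f.symm^[n] x‖ + ‖f.symm^[n] x‖ := by
        have := norm_add_le (f.symm^[n] (γu x t) - f.symm^[n] x) (f.symm^[n] x)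
        simpa using this
      have h6 : Y * wt (Λ - Real.log |b| - Real.log (1 / |b|) - Λ / 10) n ≤ |Y| := by
        have := le_abs_self Y
        have h7 := abs_nonneg Y
        nlinarith
      linarith
  have hnb : ∀ᵐ x ∂μ, ¬ (Good x ∧ ∃ σ : ℝ, (σ = 1 ∨ σ = -1) ∧
      Bornology.IsBounded (γs x '' {t : ℝ | 0 < σ * t})) := by
    rw [ae_iff]
    simpa only [not_not] using hbad
  filter_upwards [hG, hnb, hF, hT] with x hx hnx hfull htame
  obtain ⟨C, hC⟩ := htame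
  obtain ⟨hc1, hc2⟩ := leaf_c1 h x C _ _ hC
  refine ⟨γs x, hc1, hc2, hx.1.inj, hx.1.zero, ?_, ?_, ?_⟩
  · ext y
    rw [hfull y]
    rfl
  · intro hb
    apply hnx
    refine ⟨hx, 1, Or.inl rfl, ?_⟩
    have : {t : ℝ | 0 < 1 * t} = Ioi 0 := by ext t; simp
    rw [this]
    exact hb
  · intro hb
    apply hnx
    refine ⟨hx, -1, Or.inr rfl, ?_⟩
    have : {t : ℝ | 0 < -1 * t} = Iio 0 := by ext t; simp
    rw [this]
    exact hb

end MD
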