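import Mathlib

open Set Filter Topology MeasureTheory

namespace MD

/-- the plane with the sup norm -/
abbrev E := ℝ × ℝ

/-- signed area of the parallelogram spanned by two vectors -/
def wg (u v : E) : ℝ := u.1 * v.2 - u.2 * v.1

/-- determinant of a linear map of the plane -/
def dt (A : E →L[ℝ] E) : ℝ := wg (A (1, 0)) (A (0, 1))

/-- forward products: Fp D n k = D (n+k-1) ∘ ... ∘ D n (k factors) -/
noncomputable def Fp (D : ℕ → E →L[ℝ] E) (n : ℕ) : ℕ → E →L[ℝ] E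
  | 0 => ContinuousLinearMap.id ℝ E
  | k + 1 => (D (n + k)).comp (Fp D n k)

/-- backward products: Bp L k j = L k ∘ ... ∘ L (k+j-1) (j factors) -/
noncomputable def Bp (L : ℕ → E →L[ℝ] E) (k : ℕ) : ℕ → E →L[ℝ] E
  | 0 => ContinuousLinearMap.id ℝ E
  | j + 1 => (Bp L k j).comp (L (k + j))

/-- nonlinear backward products: Hb L P k j = h k ∘ ... ∘ h (k+j-1), h i w = L i w + P w -/
noncomputable def Hb (L : ℕ → E →L[ℝ] E) (P : E → E) (k : ℕ) : ℕ → E → E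
  | 0 => fun w => w
  | j + 1 => fun w => Hb L P k j (L (k + j) w + P w)

/-- the stable curve at time k (in coordinates centred at the orbit) -/
noncomputable def Gam (L : ℕ → E →L[ℝ] E) (P : E → E) (v : ℕ → E) (k : ℕ) (t : ℝ) : E :=
  limUnder atTop (fun n : ℕ => Hb L P k n (t • v (k + n)))

/-- a unit vector which is almost most contracted by A -/
noncomputable def cd (A : E →L[ℝ] E) : E :=
  if ‖((-(A (0, 1)).1, (A (1, 0)).1) : E)‖ ≤ ‖(((A (0, 1)).2, -(A (1, 0)).2) : E)‖ then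
    ‖(((A (0, 1)).2, -(A (1, 0)).2) : E)‖⁻¹ • (((A (0, 1)).2, -(A (1, 0)).2) : E)
  else
    ‖((-(A (0, 1)).1, (A (1, 0)).1) : E)‖⁻¹ • ((-(A (0, 1)).1, (A (1, 0)).1) : E)

/-- the vectors cd (A n) with consistent signs -/
noncomputable def sg (A : ℕ → E →L[ℝ] E) : ℕ → E
  | 0 => cd (A 0)
  | n + 1 => if ‖cd (A (n + 1)) - sg A n‖ ≤ ‖cd (A (n + 1)) + sg A n‖ then cd (A (n + 1))
      else -cd (A (n + 1))

/-- the most contracted direction -/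
noncomputable def sdir (A : ℕ → E →L[ℝ] E) : E := limUnder atTop (sg A)

/-- exponential weight -/
noncomputable def wt (α : ℝ) (k : ℕ) : ℝ := Real.exp (-α * k)

/-- a regular sequence of linear maps of the plane: constant determinant J, top exponent Λ,
tempered upper bounds -/
structure Reg (D L : ℕ → E →L[ℝ] E) (J Λ : ℝ) : Prop where
  left : ∀ k v, L k (D k v) = v
  right : ∀ k v, D k (L k v) = v
  det : ∀ k, |dt (D k)| = J
  bdd : ∃ M : ℝ, ∀ k, ‖D k‖ ≤ M ∧ ‖L k‖ ≤ M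
  up : ∀ ε : ℝ, 0 < ε → ∃ C : ℝ, ∀ n k : ℕ, ‖Fp D n k‖ ≤ C * Real.exp ((Λ + ε) * k + ε * n)
  low : ∀ ε : ℝ, 0 < ε → ∃ c : ℝ, 0 < c ∧ ∀ n : ℕ, c * Real.exp ((Λ - ε) * n) ≤ ‖Fp D 0 n‖

/-- everything the stable manifold theorem needs, with constants; L k are the inverse
derivatives, P is the quadratic part of the inverse map, v the contracted vectors -/
structure Tame (L : ℕ → E →L[ℝ] E) (P : E → E) (v : ℕ → E) (q C χ ε : ℝ) : Prop where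
  hq : 0 < q
  hC : 1 ≤ C
  hε : 0 < ε
  hχ : 5 * ε ≤ χ
  P0 : P 0 = 0
  Pl : ∀ w w', ‖P w - P w'‖ ≤ q * (‖w‖ + ‖w'‖) * ‖w - w'‖
  bp : ∀ k j : ℕ, ‖Bp L k j‖ ≤ C * Real.exp ((χ + ε) * j + ε * k)
  vup : ∀ k : ℕ, ‖v k‖ ≤ C * wt (χ - ε) k
  vlow : ∀ k : ℕ, wt (χ + ε) k ≤ C * ‖v k‖
  vrec : ∀ k, L k (v (k + 1)) = v k
  uniq : ∀ p : ℕ → E, (∀ k, L k (p (k + 1)) = p k) →
    (∃ Y : ℝ, ∀ k, ‖p k‖ ≤ Y * wt (χ - ε) k) → ∃ t : ℝ, ∀ k, p k = t • v k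

/-- the constant of the geometric sums -/
noncomputable def K1 (C χ ε : ℝ) : ℝ := C / (1 - Real.exp (-(χ - 3 * ε)))

/-- a homeomorphism g of the plane with derivative D x (inverse L x), constant Jacobian ±J,
whose INVERSE is quadratic: g⁻¹ (g x + w) = x + L x w + P w; K compact invariant -/
structure Sys (g : E ≃ₜ E) (D L : E → E →L[ℝ] E) (P : E → E) (q J M : ℝ) (K : Set E) :
    Prop where
  hq : 0 < q
  hJ : 0 < J
  hM : 1 ≤ M
  P0 : P 0 = 0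
  Pl : ∀ w w', ‖P w - P w'‖ ≤ q * (‖w‖ + ‖w'‖) * ‖w - w'‖
  Dc : Continuous D
  Lc : Continuous L
  left : ∀ x v, L x (D x v) = v
  right : ∀ x v, D x (L x v) = v
  ex : ∀ x w, g.symm (g x + w) = x + L x w + P w
  det : ∀ x, |dt (D x)| = J
  Kc : IsCompact K
  Kinv : ∀ x, g x ∈ K ↔ x ∈ K
  bd : ∀ x ∈ K, ‖D x‖ ≤ M ∧ ‖L x‖ ≤ M

/-- the derivative cocycle: coc D g n x = D (g^(n-1) x) ∘ ... ∘ D x -/
noncomputable def coc (D : E → E →L[ℝ] E) (g : E ≃ₜ E) (n : ℕ) (x : E) : E →L[ℝ] E :=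
  Fp (fun k => D (g^[k] x)) 0 n

/-- the logarithm of the norm of the cocycle -/
noncomputable def uu (D : E → E →L[ℝ] E) (g : E ≃ₜ E) (n : ℕ) (x : E) : ℝ :=
  Real.log ‖coc D g n x‖

/-- Λ is the top exponent -/
def LimExp (D : E → E →L[ℝ] E) (g : E ≃ₜ E) (μ : Measure E) (Λ : ℝ) : Prop :=
  Tendsto (fun n : ℕ => (∫ x, uu D g n x ∂μ) / n) atTop (𝓝 Λ)

/-- the contracted direction at x -/
noncomputable def Sd (D : E → E →L[ℝ] E) (g : E ≃ₜ E) (x : E) : E :=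
  sdir (fun n => coc D g n x)

/-- the stable curve of x -/
noncomputable def leaf (D L : E → E →L[ℝ] E) (P : E → E) (g : E ≃ₜ E) (x : E) (t : ℝ) : E :=
  x + Gam (fun k => L (g^[k] x)) P (fun k => coc D g k x (Sd D g x)) 0 t

/-- local description of the curve c through x, at scale r -/
structure LocAt (g : E ≃ₜ E) (c : ℝ → E) (s : E) (α A δ r : ℝ) (x : E) : Prop where
  unit : ‖s‖ = 1
  zero : c 0 = x
  lin : ∀ t t' : ℝ, |t| ≤ r → |t'| ≤ r → ‖c t - c t' - (t - t') • s‖ ≤ δ * |t - t'|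
  near : ∀ t : ℝ, |t| ≤ r → ∀ k : ℕ, ‖g^[k] (c t) - g^[k] x‖ ≤ A * |t| * wt α k
  cap : ∀ y : E, (∀ k : ℕ, ‖g^[k] y - g^[k] x‖ ≤ 3 * A * r * wt α k) → ‖y - x‖ ≤ r / 2 →
    ∃ t : ℝ, |t| ≤ r ∧ c t = y

/-- global description of the curve c through x -/
structure LeafAt (g : E ≃ₜ E) (γ : E → ℝ → E) (S : E → E) (α : ℝ) (x : E) : Prop where
  zero : γ x 0 = x
  cont : Continuous (γ x)
  inj : Function.Injective (γ x)
  rng : ∀ y, y ∈ range (γ x) ↔ ∃ Y : ℝ, ∀ k : ℕ, ‖g^[k] y - g^[k] x‖ ≤ Y * wt α k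
  equi : ∃ m : ℝ, m ≠ 0 ∧ ∀ t, g (γ x t) = γ (g x) (m * t)
  loc : ∃ A₀ : ℝ, 1 ≤ A₀ ∧ ∀ A : ℝ, A₀ ≤ A → ∀ δ : ℝ, 0 < δ → ∃ r₀ : ℝ, 0 < r₀ ∧
    ∀ r : ℝ, 0 < r → r ≤ r₀ → LocAt g (γ x) (S x) α A δ r x

end MD
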