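import Pool.Agent.Lib.MP_904526_an.Defs

/-!
# A1: linear algebra of the plane with the sup norm
-/

open Set Filter Topology MeasureTheory

namespace MD

theorem a1_fst (u : E) : |u.1| ≤ ‖u‖ := norm_fst_le u

theorem a1_snd (u : E) : |u.2| ≤ ‖u‖ := norm_snd_le u

theorem a1_norm (u : E) : ‖u‖ = max |u.1| |u.2| := rfl

theorem wg_le (u v : E) : |wg u v| ≤ 2 * ‖u‖ * ‖v‖ := by
  have h1 := a1_fst u
  have h2 := a1_snd u
  have h3 := a1_fst v
  have h4 := a1_snd v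
  have hu := norm_nonneg u
  have hv := norm_nonneg v
  calc |wg u v| ≤ |u.1 * v.2| + |u.2 * v.1| := by
        unfold wg
        exact abs_sub _ _
    _ = |u.1| * |v.2| + |u.2| * |v.1| := by rw [abs_mul, abs_mul]
    _ ≤ ‖u‖ * ‖v‖ + ‖u‖ * ‖v‖ := by
        apply add_le_add
        · exact mul_le_mul h1 h4 (abs_nonneg _) hu
        · exact mul_le_mul h2 h3 (abs_nonneg _) hu
    _ = _ := by ring

theorem a1_expand (A : E →L[ℝ] E) (v : E) : A v = v.1 • A (1, 0) + v.2 • A (0, 1) := by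
  rw [← map_smul, ← map_smul, ← map_add]
  congr 1
  ext <;> simp

theorem wg_map (A : E →L[ℝ] E) (u v : E) : wg (A u) (A v) = dt A * wg u v := by
  rw [a1_expand A u, a1_expand A v]
  simp only [dt, wg, Prod.fst_add, Prod.snd_add, Prod.smul_fst, Prod.smul_snd, smul_eq_mul]
  ring

theorem dt_comp (A B : E →L[ℝ] E) : dt (A.comp B) = dt A * dt B := by
  show wg (A (B (1, 0))) (A (B (0, 1))) = dt A * dt B
  rw [wg_map]
  rfl

theorem dt_id : dt (ContinuousLinearMap.id ℝ E) = 1 := by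
  simp [dt, wg]

theorem a1_e1 : ‖((1, 0) : E)‖ = 1 := by
  simp

theorem a1_e2 : ‖((0, 1) : E)‖ = 1 := by
  simp

theorem a1_A1 (A : E →L[ℝ] E) : ‖A (1, 0)‖ ≤ ‖A‖ := by
  have := A.le_opNorm (1, 0)
  rwa [a1_e1, mul_one] at this

theorem a1_A2 (A : E →L[ℝ] E) : ‖A (0, 1)‖ ≤ ‖A‖ := by
  have := A.le_opNorm (0, 1)
  rwa [a1_e2, mul_one] at this

theorem dt_le (A : E →L[ℝ] E) : |dt A| ≤ 2 * ‖A‖ ^ 2 := by
  have h1 := wg_le (A (1, 0)) (A (0, 1))
  have h2 := a1_A1 A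
  have h3 := a1_A2 A
  have h4 := norm_nonneg (A (1, 0))
  have h5 := norm_nonneg (A (0, 1))
  have h6 := norm_nonneg A
  have h7 : ‖A (1, 0)‖ * ‖A (0, 1)‖ ≤ ‖A‖ * ‖A‖ := mul_le_mul h2 h3 h5 h6
  unfold dt
  nlinarith

theorem a1_near (a a' : ℝ) (ha : |a| ≤ 1) (ha' : |a'| ≤ 1) :
    min (max |1 - a'| |a - 1|) (max |1 + a'| |a + 1|) ≤ 2 * |1 - a * a'| := by
  rw [abs_le] at ha ha'
  rcases le_total 0 a with h0 | h0 <;> rcases le_total 0 a' with h1 | h1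
  · apply (min_le_left _ _).trans
    rw [abs_of_nonneg (by linarith : (0:ℝ) ≤ 1 - a'), abs_of_nonpos (by linarith : a - 1 ≤ 0),
      abs_of_nonneg (by nlinarith : (0:ℝ) ≤ 1 - a * a')]
    apply max_le <;> nlinarith
  · apply (min_le_left _ _).trans
    rw [abs_of_nonneg (by linarith : (0:ℝ) ≤ 1 - a'), abs_of_nonpos (by linarith : a - 1 ≤ 0),
      abs_of_nonneg (by nlinarith : (0:ℝ) ≤ 1 - a * a')]
    apply max_le <;> nlinarith
  · apply (min_le_left _ _).trans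
    rw [abs_of_nonneg (by linarith : (0:ℝ) ≤ 1 - a'), abs_of_nonpos (by linarith : a - 1 ≤ 0),
      abs_of_nonneg (by nlinarith : (0:ℝ) ≤ 1 - a * a')]
    apply max_le <;> nlinarith
  · apply (min_le_right _ _).trans
    rw [abs_of_nonneg (by linarith : (0:ℝ) ≤ 1 + a'), abs_of_nonneg (by linarith : 0 ≤ a + 1),
      abs_of_nonneg (by nlinarith : (0:ℝ) ≤ 1 - a * a')]
    apply max_le <;> nlinarith

theorem a1_unit (u : E) (hu : ‖u‖ = 1) :
    (∃ σ a : ℝ, (σ = 1 ∨ σ = -1) ∧ |a| ≤ 1 ∧ u = (σ, σ * a)) ∨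
    (∃ σ a : ℝ, (σ = 1 ∨ σ = -1) ∧ |a| ≤ 1 ∧ u = (σ * a, σ)) := by
  obtain ⟨x, y⟩ := u
  rw [a1_norm] at hu
  simp only at hu
  rcases le_total |x| |y| with h | h
  · right
    rw [max_eq_right h] at hu
    rcases abs_choice y with hy | hy
    · refine ⟨1, x, Or.inl rfl, by linarith, ?_⟩
      rw [hy] at hu
      simp [hu]
    · refine ⟨-1, -x, Or.inr rfl, by rw [abs_neg]; linarith, ?_⟩
      rw [hy] at hu
      have : y = -1 := by linarith
      simp [this]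
  · left
    rw [max_eq_left h] at hu
    rcases abs_choice x with hx | hx
    · refine ⟨1, y, Or.inl rfl, by linarith, ?_⟩
      rw [hx] at hu
      simp [hu]
    · refine ⟨-1, -y, Or.inr rfl, by rw [abs_neg]; linarith, ?_⟩
      rw [hx] at hu
      have : x = -1 := by linarith
      simp [this]

theorem a1_same (a b σ τ : ℝ) (hσ : σ = 1 ∨ σ = -1) (hτ : τ = 1 ∨ τ = -1) :
    min (max |σ - τ| |σ * a - τ * b|) (max |σ + τ| |σ * a + τ * b|)
      ≤ 2 * |σ * (τ * b) - σ * a * τ| := by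
  have key : |a - b| ≤ 2 * |a - b| := by linarith [abs_nonneg (a - b)]
  rcases hσ with rfl | rfl <;> rcases hτ with rfl | rfl
  · apply (min_le_left _ _).trans
    rw [show (1:ℝ) - 1 = 0 by ring, abs_zero, one_mul, one_mul, one_mul, mul_one,
      abs_sub_comm b a, max_eq_right (abs_nonneg _)]
    exact key
  · apply (min_le_right _ _).trans
    rw [show (1:ℝ) + -1 = 0 by ring, abs_zero, show (1:ℝ) * a + -1 * b = a - b by ring,
      show (1:ℝ) * (-1 * b) - 1 * a * -1 = a - b by ring, max_eq_right (abs_nonneg _)]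
    exact key
  · apply (min_le_right _ _).trans
    rw [show (-1:ℝ) + 1 = 0 by ring, abs_zero, show (-1:ℝ) * a + 1 * b = -(a - b) by ring,
      show (-1:ℝ) * (1 * b) - -1 * a * 1 = a - b by ring, abs_neg,
      max_eq_right (abs_nonneg _)]
    exact key
  · apply (min_le_left _ _).trans
    rw [show (-1:ℝ) - -1 = 0 by ring, abs_zero, show (-1:ℝ) * a - -1 * b = -(a - b) by ring,
      show (-1:ℝ) * (-1 * b) - -1 * a * -1 = -(a - b) by ring, abs_neg,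
      max_eq_right (abs_nonneg _)]
    exact key

theorem a1_cross (a b σ τ : ℝ) (ha : |a| ≤ 1) (hb : |b| ≤ 1) (hσ : σ = 1 ∨ σ = -1)
    (hτ : τ = 1 ∨ τ = -1) :
    min (max |σ - τ * b| |σ * a - τ|) (max |σ + τ * b| |σ * a + τ|)
      ≤ 2 * |σ * τ - σ * a * (τ * b)| := by
  have key := a1_near a b ha hb
  rcases hσ with rfl | rfl <;> rcases hτ with rfl | rfl
  · rw [one_mul, one_mul, mul_one]
    exact key
  · rw [show (1:ℝ) - -1 * b = 1 + b by ring, show (1:ℝ) * a - -1 = a + 1 by ring,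
      show (1:ℝ) + -1 * b = 1 - b by ring, show (1:ℝ) * a + -1 = a - 1 by ring,
      show (1:ℝ) * -1 - 1 * a * (-1 * b) = -(1 - a * b) by ring, abs_neg, min_comm]
    exact key
  · rw [show (-1:ℝ) - 1 * b = -(1 + b) by ring, show (-1:ℝ) * a - 1 = -(a + 1) by ring,
      show (-1:ℝ) + 1 * b = -(1 - b) by ring, show (-1:ℝ) * a + 1 = -(a - 1) by ring,
      show (-1:ℝ) * 1 - -1 * a * (1 * b) = -(1 - a * b) by ring, abs_neg, abs_neg, abs_neg,
      abs_neg, abs_neg, min_comm]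
    exact key
  · rw [show (-1:ℝ) - -1 * b = -(1 - b) by ring, show (-1:ℝ) * a - -1 = -(a - 1) by ring,
      show (-1:ℝ) + -1 * b = -(1 + b) by ring, show (-1:ℝ) * a + -1 = -(a + 1) by ring,
      show (-1:ℝ) * -1 - -1 * a * (-1 * b) = (1 - a * b) by ring, abs_neg, abs_neg, abs_neg,
      abs_neg]
    exact key

theorem near_of_wg (u v : E) (hu : ‖u‖ = 1) (hv : ‖v‖ = 1) :
    min ‖u - v‖ ‖u + v‖ ≤ 2 * |wg u v| := by
  rcases a1_unit u hu with ⟨σ, a, hσ, ha, rfl⟩ | ⟨σ, a, hσ, ha, rfl⟩ <;>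
  rcases a1_unit v hv with ⟨τ, b, hτ, hb, rfl⟩ | ⟨τ, b, hτ, hb, rfl⟩
  · exact a1_same a b σ τ hσ hτ
  · exact a1_cross a b σ τ ha hb hσ hτ
  · have h := a1_cross b a τ σ hb ha hτ hσ
    have e1 : ‖((σ * a, σ) : E) - (τ, τ * b)‖ = max |τ - σ * a| |τ * b - σ| := by
      rw [norm_sub_rev]; rfl
    have e2 : ‖((σ * a, σ) : E) + (τ, τ * b)‖ = max |τ + σ * a| |τ * b + σ| := by
      rw [add_comm]; rfl
    have e3 : |wg ((σ * a, σ) : E) (τ, τ * b)| = |τ * σ - τ * b * (σ * a)| := by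
      rw [← abs_neg]
      congr 1
      simp [wg]
      ring
    rw [e1, e2, e3]
    exact h
  · have h := a1_same a b σ τ hσ hτ
    have e1 : ‖((σ * a, σ) : E) - (τ * b, τ)‖ = max |σ - τ| |σ * a - τ * b| := by
      rw [max_comm]; rfl
    have e2 : ‖((σ * a, σ) : E) + (τ * b, τ)‖ = max |σ + τ| |σ * a + τ * b| := by
      rw [max_comm]; rfl
    have e3 : |wg ((σ * a, σ) : E) (τ * b, τ)| = |σ * (τ * b) - σ * a * τ| := by
      rw [← abs_neg]
      congr 1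
      simp [wg]
    rw [e1, e2, e3]
    exact h

theorem a1_sq (s : E) (hs : ‖s‖ = 1) : 1 ≤ s.1 ^ 2 + s.2 ^ 2 := by
  rw [a1_norm] at hs
  rcases max_choice |s.1| |s.2| with h | h
  · rw [h] at hs
    have : s.1 ^ 2 = 1 := by rw [← sq_abs, hs]; norm_num
    nlinarith [sq_nonneg s.2]
  · rw [h] at hs
    have : s.2 ^ 2 = 1 := by rw [← sq_abs, hs]; norm_num
    nlinarith [sq_nonneg s.1]

/-- decomposition in the basis (s, u) -/
theorem decomp (s u z : E) (h : wg s u ≠ 0) :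
    z = (wg z u / wg s u) • s + (wg s z / wg s u) • u := by
  obtain ⟨s1, s2⟩ := s
  obtain ⟨u1, u2⟩ := u
  obtain ⟨z1, z2⟩ := z
  simp only [wg] at h ⊢
  ext
  · simp only [Prod.fst_add, Prod.smul_fst, smul_eq_mul]
    rw [div_mul_eq_mul_div, div_mul_eq_mul_div, ← add_div, eq_div_iff h]
    ring
  · simp only [Prod.snd_add, Prod.smul_snd, smul_eq_mul]
    rw [div_mul_eq_mul_div, div_mul_eq_mul_div, ← add_div, eq_div_iff h]
    ring

/-- a complementary vector of size at most 1 -/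
theorem compl_vec (s : E) (hs : ‖s‖ = 1) :
    ∃ n : E, ‖n‖ ≤ 1 ∧ ∀ w : E, w = wg w n • s + wg s w • n := by
  have h1 := a1_sq s hs
  have h0 : (0 : ℝ) < s.1 ^ 2 + s.2 ^ 2 := by linarith
  have hs1 := a1_fst s
  have hs2 := a1_snd s
  rw [hs] at hs1 hs2
  refine ⟨(-s.2 / (s.1 ^ 2 + s.2 ^ 2), s.1 / (s.1 ^ 2 + s.2 ^ 2)), ?_, ?_⟩
  · rw [a1_norm]
    apply max_le
    · show |-s.2 / (s.1 ^ 2 + s.2 ^ 2)| ≤ 1
      rw [abs_div, abs_neg, abs_of_pos h0, div_le_one h0]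
      linarith
    · show |s.1 / (s.1 ^ 2 + s.2 ^ 2)| ≤ 1
      rw [abs_div, abs_of_pos h0, div_le_one h0]
      linarith
  · intro w
    have hwg : wg s (-s.2 / (s.1 ^ 2 + s.2 ^ 2), s.1 / (s.1 ^ 2 + s.2 ^ 2)) = 1 := by
      simp only [wg]
      field_simp
      ring
    have := decomp s (-s.2 / (s.1 ^ 2 + s.2 ^ 2), s.1 / (s.1 ^ 2 + s.2 ^ 2)) w
      (by rw [hwg]; norm_num)
    rw [hwg, div_one, div_one] at this
    exact this

theorem smul_of_wg (u v : E) (hu : ‖u‖ = 1) (h : wg u v = 0) : ∃ t : ℝ, v = t • u := by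
  obtain ⟨n, -, hn⟩ := compl_vec u hu
  refine ⟨wg v n, ?_⟩
  have := hn v
  rw [h, zero_smul, add_zero] at this
  exact this

theorem dt_ne (A B : E →L[ℝ] E) (h1 : ∀ v, A (B v) = v) : dt A ≠ 0 := by
  intro h
  have h2 : dt (A.comp B) = 1 := by
    simp [dt, wg, h1]
  rw [dt_comp, h, zero_mul] at h2
  norm_num at h2

theorem a1_inv (A B : E →L[ℝ] E) (h1 : ∀ v, A (B v) = v) (h2 : ∀ v, B (A v) = v) (w : E) :
    B w = (dt A)⁻¹ • (w.1 • (((A (0, 1)).2, -(A (1, 0)).2) : E)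
      + w.2 • ((-(A (0, 1)).1, (A (1, 0)).1) : E)) := by
  have hA := dt_ne A B h1
  have key : A ((dt A)⁻¹ • (w.1 • (((A (0, 1)).2, -(A (1, 0)).2) : E)
      + w.2 • ((-(A (0, 1)).1, (A (1, 0)).1) : E))) = w := by
    rw [map_smul, map_add, map_smul, map_smul,
      a1_expand A (((A (0, 1)).2, -(A (1, 0)).2) : E),
      a1_expand A ((-(A (0, 1)).1, (A (1, 0)).1) : E)]
    have hd : dt A = (A (1, 0)).1 * (A (0, 1)).2 - (A (1, 0)).2 * (A (0, 1)).1 := rfl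
    ext
    · simp only [Prod.fst_add, Prod.smul_fst, smul_eq_mul]
      rw [hd] at hA ⊢
      field_simp
      ring
    · simp only [Prod.snd_add, Prod.smul_snd, smul_eq_mul]
      rw [hd] at hA ⊢
      field_simp
      ring
  rw [← key, h2]
  rw [key]

theorem inv_norm_le (A B : E →L[ℝ] E) (h1 : ∀ v, A (B v) = v) (h2 : ∀ v, B (A v) = v) :
    ‖B‖ ≤ 2 * ‖A‖ / |dt A| := by
  have hA := dt_ne A B h1
  have hd : 0 < |dt A| := abs_pos.2 hA
  apply ContinuousLinearMap.opNorm_le_bound _ (by positivity)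
  intro w
  rw [a1_inv A B h1 h2 w, norm_smul, norm_inv, Real.norm_eq_abs]
  have hw1 := a1_fst w
  have hw2 := a1_snd w
  have hA1 := a1_A1 A
  have hA2 := a1_A2 A
  have n1 : ‖(((A (0, 1)).2, -(A (1, 0)).2) : E)‖ ≤ ‖A‖ := by
    rw [a1_norm]
    apply max_le
    · exact (a1_snd _).trans hA2
    · show |-(A (1, 0)).2| ≤ ‖A‖
      rw [abs_neg]
      exact (a1_snd _).trans hA1
  have n2 : ‖((-(A (0, 1)).1, (A (1, 0)).1) : E)‖ ≤ ‖A‖ := by
    rw [a1_norm]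
    apply max_le
    · show |-(A (0, 1)).1| ≤ ‖A‖
      rw [abs_neg]
      exact (a1_fst _).trans hA2
    · exact (a1_fst _).trans hA1
  have hsum : ‖w.1 • (((A (0, 1)).2, -(A (1, 0)).2) : E)
      + w.2 • ((-(A (0, 1)).1, (A (1, 0)).1) : E)‖ ≤ 2 * ‖A‖ * ‖w‖ := by
    calc _ ≤ ‖w.1 • (((A (0, 1)).2, -(A (1, 0)).2) : E)‖
          + ‖w.2 • ((-(A (0, 1)).1, (A (1, 0)).1) : E)‖ := norm_add_le _ _
      _ = |w.1| * ‖(((A (0, 1)).2, -(A (1, 0)).2) : E)‖
          + |w.2| * ‖((-(A (0, 1)).1, (A (1, 0)).1) : E)‖ := by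
            rw [norm_smul, norm_smul]; rfl
      _ ≤ ‖w‖ * ‖A‖ + ‖w‖ * ‖A‖ := by
            apply add_le_add
            · exact mul_le_mul hw1 n1 (norm_nonneg _) (norm_nonneg _)
            · exact mul_le_mul hw2 n2 (norm_nonneg _) (norm_nonneg _)
      _ = _ := by ring
  calc |dt A|⁻¹ * _ ≤ |dt A|⁻¹ * (2 * ‖A‖ * ‖w‖) :=
        mul_le_mul_of_nonneg_left hsum (by positivity)
    _ = _ := by
        field_simp

theorem norm_le_cd (A : E →L[ℝ] E) (hA : dt A ≠ 0) : 0 < ‖A‖ := by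
  rw [norm_pos_iff]
  rintro rfl
  apply hA
  simp [dt, wg]

theorem a1_Aw1 (A : E →L[ℝ] E) : A (((A (0, 1)).2, -(A (1, 0)).2) : E) = (dt A, 0) := by
  rw [a1_expand A (((A (0, 1)).2, -(A (1, 0)).2) : E)]
  have hd : dt A = (A (1, 0)).1 * (A (0, 1)).2 - (A (1, 0)).2 * (A (0, 1)).1 := rfl
  ext
  · simp only [Prod.fst_add, Prod.smul_fst, smul_eq_mul]
    rw [hd]
    ring
  · simp only [Prod.snd_add, Prod.smul_snd, smul_eq_mul]
    ring

theorem a1_Aw2 (A : E →L[ℝ] E) : A ((-(A (0, 1)).1, (A (1, 0)).1) : E) = (0, dt A) := by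
  rw [a1_expand A ((-(A (0, 1)).1, (A (1, 0)).1) : E)]
  have hd : dt A = (A (1, 0)).1 * (A (0, 1)).2 - (A (1, 0)).2 * (A (0, 1)).1 := rfl
  ext
  · simp only [Prod.fst_add, Prod.smul_fst, smul_eq_mul]
    ring
  · simp only [Prod.snd_add, Prod.smul_snd, smul_eq_mul]
    rw [hd]
    ring

theorem a1_opn (A : E →L[ℝ] E) (w1 : ℝ)
    (h1 : ‖(((A (0, 1)).2, -(A (1, 0)).2) : E)‖ ≤ w1)
    (h2 : ‖((-(A (0, 1)).1, (A (1, 0)).1) : E)‖ ≤ w1) : ‖A‖ ≤ 2 * w1 := by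
  have h0 : 0 ≤ w1 := (norm_nonneg _).trans h1
  apply ContinuousLinearMap.opNorm_le_bound _ (by positivity)
  intro w
  have b1 : |(A (0, 1)).2| ≤ w1 := (a1_fst _).trans h1
  have b2 : |(A (1, 0)).2| ≤ w1 := by
    have := (a1_snd (((A (0, 1)).2, -(A (1, 0)).2) : E)).trans h1
    simpa using this
  have b3 : |(A (0, 1)).1| ≤ w1 := by
    have := (a1_fst ((-(A (0, 1)).1, (A (1, 0)).1) : E)).trans h2
    simpa using this
  have b4 : |(A (1, 0)).1| ≤ w1 := (a1_snd _).trans h2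
  have c1 : ‖A (1, 0)‖ ≤ w1 := by rw [a1_norm]; exact max_le b4 b2
  have c2 : ‖A (0, 1)‖ ≤ w1 := by rw [a1_norm]; exact max_le b3 b1
  rw [a1_expand A w]
  calc ‖w.1 • A (1, 0) + w.2 • A (0, 1)‖ ≤ ‖w.1 • A (1, 0)‖ + ‖w.2 • A (0, 1)‖ :=
        norm_add_le _ _
    _ = |w.1| * ‖A (1, 0)‖ + |w.2| * ‖A (0, 1)‖ := by rw [norm_smul, norm_smul]; rfl
    _ ≤ ‖w‖ * w1 + ‖w‖ * w1 := by
        apply add_le_add
        · exact mul_le_mul (a1_fst w) c1 (norm_nonneg _) (norm_nonneg _)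
        · exact mul_le_mul (a1_snd w) c2 (norm_nonneg _) (norm_nonneg _)
    _ = _ := by ring

theorem cd_norm (A : E →L[ℝ] E) (hA : dt A ≠ 0) : ‖cd A‖ = 1 := by
  have hpos := norm_le_cd A hA
  unfold cd
  split_ifs with h
  · have h1 := a1_opn A _ le_rfl h
    have h2 : 0 < ‖(((A (0, 1)).2, -(A (1, 0)).2) : E)‖ := by linarith
    rw [norm_smul, norm_inv, norm_norm]
    exact inv_mul_cancel₀ h2.ne'
  · have h1 := a1_opn A _ (le_of_not_ge h) le_rfl
    have h2 : 0 < ‖((-(A (0, 1)).1, (A (1, 0)).1) : E)‖ := by linarith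
    rw [norm_smul, norm_inv, norm_norm]
    exact inv_mul_cancel₀ h2.ne'

theorem cd_le (A : E →L[ℝ] E) (hA : dt A ≠ 0) : ‖A (cd A)‖ ≤ 2 * |dt A| / ‖A‖ := by
  have hpos := norm_le_cd A hA
  have hd : 0 ≤ |dt A| := abs_nonneg _
  unfold cd
  split_ifs with h
  · have h1 := a1_opn A _ le_rfl h
    have h2 : 0 < ‖(((A (0, 1)).2, -(A (1, 0)).2) : E)‖ := by linarith
    rw [map_smul, norm_smul, norm_inv, norm_norm, a1_Aw1]
    have h3 : ‖((dt A, 0) : E)‖ = |dt A| := by simp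
    rw [h3, le_div_iff₀ hpos, inv_mul_eq_div, div_mul_eq_mul_div, div_le_iff₀ h2]
    nlinarith
  · have h1 := a1_opn A _ (le_of_not_ge h) le_rfl
    have h2 : 0 < ‖((-(A (0, 1)).1, (A (1, 0)).1) : E)‖ := by linarith
    rw [map_smul, norm_smul, norm_inv, norm_norm, a1_Aw2]
    have h3 : ‖((0, dt A) : E)‖ = |dt A| := by simp
    rw [h3, le_div_iff₀ hpos, inv_mul_eq_div, div_mul_eq_mul_div, div_le_iff₀ h2]
    nlinarith

theorem cd_meas : Measurable (cd : (E →L[ℝ] E) → E) := by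
  have e1 : Continuous (fun A : E →L[ℝ] E => A (1, 0)) :=
    (ContinuousLinearMap.apply ℝ E ((1, 0) : E)).continuous
  have e2 : Continuous (fun A : E →L[ℝ] E => A (0, 1)) :=
    (ContinuousLinearMap.apply ℝ E ((0, 1) : E)).continuous
  have w1 : Continuous (fun A : E →L[ℝ] E => (((A (0, 1)).2, -(A (1, 0)).2) : E)) := by
    fun_prop
  have w2 : Continuous (fun A : E →L[ℝ] E => ((-(A (0, 1)).1, (A (1, 0)).1) : E)) := by
    fun_prop
  unfold cd
  refine Measurable.ite ?_ ?_ ?_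
  · exact measurableSet_le w2.norm.measurable w1.norm.measurable
  · exact w1.norm.measurable.inv.smul w1.measurable
  · exact w2.norm.measurable.inv.smul w2.measurable

end MD
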