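import Pool.Agent.Lib.MP_904526_an.A1

/-!
# A2: existence of the contracted direction (Oseledets for one regular sequence)
-/

open Set Filter Topology MeasureTheory

namespace MD

theorem Fp_dt {D L : ℕ → E →L[ℝ] E} {J Λ : ℝ} (h : Reg D L J Λ) (n k : ℕ) :
    |dt (Fp D n k)| = J ^ k := by
  induction k with
  | zero => simp [Fp, dt_id]
  | succ k ih =>
    simp only [Fp]
    rw [dt_comp, abs_mul, ih, h.det, pow_succ]
    ring

/-- Bp L n k is the inverse of Fp D n k -/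
theorem Bp_Fp {D L : ℕ → E →L[ℝ] E} {J Λ : ℝ} (h : Reg D L J Λ) (n k : ℕ) (v : E) :
    Bp L n k (Fp D n k v) = v ∧ Fp D n k (Bp L n k v) = v := by
  induction k generalizing v with
  | zero => simp [Fp, Bp]
  | succ k ih =>
    constructor
    · simp only [Fp, Bp, ContinuousLinearMap.comp_apply]
      rw [h.left]
      exact (ih v).1
    · simp only [Fp, Bp, ContinuousLinearMap.comp_apply]
      rw [(ih _).2, h.right]

theorem a2_sg (A : ℕ → E →L[ℝ] E) (n : ℕ) : sg A n = cd (A n) ∨ sg A n = -cd (A n) := by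
  cases n with
  | zero => left; rfl
  | succ n =>
    simp only [sg]
    split_ifs
    · left; rfl
    · right; rfl

theorem a2_sg_step (A : ℕ → E →L[ℝ] E) (h1 : ∀ n, ‖cd (A n)‖ = 1) (n : ℕ) :
    ‖sg A (n + 1) - sg A n‖ ≤ 2 * |wg (cd (A n)) (cd (A (n + 1)))| := by
  have hn : ‖sg A n‖ = 1 := by
    rcases a2_sg A n with h | h <;> rw [h]
    · exact h1 n
    · rw [norm_neg]; exact h1 n
  have key := near_of_wg (cd (A (n + 1))) (sg A n) (h1 (n + 1)) hn
  have hw : |wg (cd (A (n + 1))) (sg A n)| = |wg (cd (A n)) (cd (A (n + 1)))| := by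
    rcases a2_sg A n with h | h <;> rw [h]
    · simp only [wg]
      rw [← abs_neg]
      congr 1
      ring
    · simp only [wg, Prod.fst_neg, Prod.snd_neg]
      congr 1
      ring
  rw [hw] at key
  refine le_trans ?_ key
  have hs : sg A (n + 1) = if ‖cd (A (n + 1)) - sg A n‖ ≤ ‖cd (A (n + 1)) + sg A n‖ then
      cd (A (n + 1)) else -cd (A (n + 1)) := rfl
  rw [hs]
  split_ifs with hc
  · rw [min_eq_left hc]
  · push Not at hc
    rw [min_eq_right hc.le]
    have : -cd (A (n + 1)) - sg A n = -(cd (A (n + 1)) + sg A n) := by abel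
    rw [this, norm_neg]

/-- the estimates at a given small scale -/
theorem a2_scale {D L : ℕ → E →L[ℝ] E} {J Λ : ℝ} (h : Reg D L J Λ) (hJ : 0 < J)
    (ε : ℝ) (hε : 0 < ε) :
    ∃ C : ℝ, 0 ≤ C ∧ (∀ n : ℕ, ‖sg (Fp D 0) (n + 1) - sg (Fp D 0) n‖ ≤
        C * Real.exp (Real.log J - 2 * Λ + 2 * ε) ^ n) ∧
      (∀ n : ℕ, ‖Fp D 0 n (sg (Fp D 0) n)‖ ≤ C * Real.exp ((Real.log J - Λ + ε) * n)) ∧
      (∀ n : ℕ, ‖Fp D 0 n‖ ≤ C * Real.exp ((Λ + ε) * n)) := by
  obtain ⟨M, hM⟩ := h.bdd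
  have hM0 : 0 ≤ M := le_trans (norm_nonneg _) (hM 0).1
  obtain ⟨C0, hC0⟩ := h.up ε hε
  obtain ⟨c, hc, hlow⟩ := h.low ε hε
  have hdt : ∀ n, dt (Fp D 0 n) ≠ 0 := by
    intro n hn
    have := Fp_dt h 0 n
    rw [hn, abs_zero] at this
    have := pow_pos hJ n
    linarith
  have hcd1 : ∀ n, ‖cd (Fp D 0 n)‖ = 1 := fun n => cd_norm _ (hdt n)
  have hApos : ∀ n, 0 < ‖Fp D 0 n‖ := fun n => norm_le_cd _ (hdt n)
  have hAcd : ∀ n, ‖Fp D 0 n (cd (Fp D 0 n))‖ ≤ 2 * J ^ n / ‖Fp D 0 n‖ := by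
    intro n
    have := cd_le _ (hdt n)
    rwa [Fp_dt h] at this
  have hAsg : ∀ n, ‖Fp D 0 n (sg (Fp D 0) n)‖ ≤ 2 * J ^ n / ‖Fp D 0 n‖ := by
    intro n
    rcases a2_sg (Fp D 0) n with h1 | h1 <;> rw [h1]
    · exact hAcd n
    · rw [map_neg, norm_neg]; exact hAcd n
  have hJexp : ∀ n : ℕ, J ^ n = Real.exp (Real.log J * n) := by
    intro n
    rw [mul_comm, Real.exp_nat_mul, Real.exp_log hJ]
  have hup0 : ∀ n : ℕ, ‖Fp D 0 n‖ ≤ C0 * Real.exp ((Λ + ε) * n) := by
    intro n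
    have := hC0 0 n
    simpa using this
  have hC0' : 0 ≤ C0 := by
    have := hup0 0
    have h2 := hApos 0
    simp only [Nat.cast_zero, mul_zero, Real.exp_zero, mul_one] at this
    linarith
  set C1 : ℝ := 2 * (8 * M * J / (c ^ 2 * Real.exp (Λ - ε))) with hC1
  have hC1' : 0 ≤ C1 := by
    rw [hC1]; positivity
  refine ⟨max C1 (max (2 / c) C0), le_max_of_le_left hC1', ?_, ?_, ?_⟩
  · intro n
    have hstep := a2_sg_step (Fp D 0) hcd1 n
    -- bound of the wedge
    have hw : |wg (cd (Fp D 0 n)) (cd (Fp D 0 (n + 1)))| ≤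
        8 * M * J ^ (n + 1) / (‖Fp D 0 n‖ * ‖Fp D 0 (n + 1)‖) := by
      have e1 := wg_map (Fp D 0 n) (cd (Fp D 0 n)) (cd (Fp D 0 (n + 1)))
      have e2 := wg_le (Fp D 0 n (cd (Fp D 0 n))) (Fp D 0 n (cd (Fp D 0 (n + 1))))
      rw [e1, abs_mul, Fp_dt h] at e2
      have e3 : ‖Fp D 0 n (cd (Fp D 0 (n + 1)))‖ ≤ M * (2 * J ^ (n + 1) / ‖Fp D 0 (n + 1)‖) := by
        have e4 : Fp D 0 n (cd (Fp D 0 (n + 1))) =
            L (0 + n) (Fp D 0 (n + 1) (cd (Fp D 0 (n + 1)))) := by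
          simp only [Fp, ContinuousLinearMap.comp_apply]
          rw [h.left]
        rw [e4]
        refine le_trans ((L (0 + n)).le_opNorm _) ?_
        exact mul_le_mul (hM _).2 (hAcd (n + 1)) (norm_nonneg _) hM0
      have e5 : 2 * ‖Fp D 0 n (cd (Fp D 0 n))‖ * ‖Fp D 0 n (cd (Fp D 0 (n + 1)))‖ ≤
          2 * (2 * J ^ n / ‖Fp D 0 n‖) * (M * (2 * J ^ (n + 1) / ‖Fp D 0 (n + 1)‖)) := by
        have e6 := hAcd n
        gcongr
      have hJn : 0 < J ^ n := pow_pos hJ n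
      have e7 : J ^ n * |wg (cd (Fp D 0 n)) (cd (Fp D 0 (n + 1)))| ≤
          J ^ n * (8 * M * J ^ (n + 1) / (‖Fp D 0 n‖ * ‖Fp D 0 (n + 1)‖)) := by
        refine le_trans (le_trans e2 e5) (le_of_eq ?_)
        have := (hApos n).ne'
        have := (hApos (n + 1)).ne'
        field_simp
        ring
      exact le_of_mul_le_mul_left e7 hJn
    have hprod : c ^ 2 * (Real.exp (Λ - ε) * Real.exp (2 * (Λ - ε) * n)) ≤
        ‖Fp D 0 n‖ * ‖Fp D 0 (n + 1)‖ := by
      have f1 := hlow n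
      have f2 := hlow (n + 1)
      have f3 : c ^ 2 * (Real.exp (Λ - ε) * Real.exp (2 * (Λ - ε) * n)) =
          (c * Real.exp ((Λ - ε) * n)) * (c * Real.exp ((Λ - ε) * ((n + 1 : ℕ) : ℝ))) := by
        have : Real.exp ((Λ - ε) * n) * Real.exp ((Λ - ε) * ((n + 1 : ℕ) : ℝ)) =
            Real.exp (Λ - ε) * Real.exp (2 * (Λ - ε) * n) := by
          rw [← Real.exp_add, ← Real.exp_add]
          congr 1
          push_cast
          ring
        rw [← this]; ring
      rw [f3]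
      exact mul_le_mul f1 f2 (by positivity) (norm_nonneg _)
    have hw2 : 8 * M * J ^ (n + 1) / (‖Fp D 0 n‖ * ‖Fp D 0 (n + 1)‖) ≤
        8 * M * J ^ (n + 1) / (c ^ 2 * (Real.exp (Λ - ε) * Real.exp (2 * (Λ - ε) * n))) := by
      apply div_le_div_of_nonneg_left _ _ hprod
      · positivity
      · positivity
    have hfin : 2 * (8 * M * J ^ (n + 1) /
        (c ^ 2 * (Real.exp (Λ - ε) * Real.exp (2 * (Λ - ε) * n)))) =
        C1 * Real.exp (Real.log J - 2 * Λ + 2 * ε) ^ n := by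
      rw [← Real.exp_nat_mul, hC1, pow_succ, hJexp n]
      have : Real.exp (n * (Real.log J - 2 * Λ + 2 * ε)) =
          Real.exp (Real.log J * n) / Real.exp (2 * (Λ - ε) * n) := by
        rw [← Real.exp_sub]
        congr 1
        ring
      rw [this]
      field_simp
    calc ‖sg (Fp D 0) (n + 1) - sg (Fp D 0) n‖
        ≤ 2 * |wg (cd (Fp D 0 n)) (cd (Fp D 0 (n + 1)))| := hstep
      _ ≤ 2 * (8 * M * J ^ (n + 1) /
          (c ^ 2 * (Real.exp (Λ - ε) * Real.exp (2 * (Λ - ε) * n)))) := by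
          linarith [le_trans hw hw2]
      _ = C1 * Real.exp (Real.log J - 2 * Λ + 2 * ε) ^ n := hfin
      _ ≤ _ := by
          apply mul_le_mul_of_nonneg_right (le_max_left _ _)
          positivity
  · intro n
    have f1 := hlow n
    have hpos : 0 < c * Real.exp ((Λ - ε) * n) := by positivity
    calc ‖Fp D 0 n (sg (Fp D 0) n)‖ ≤ 2 * J ^ n / ‖Fp D 0 n‖ := hAsg n
      _ ≤ 2 * J ^ n / (c * Real.exp ((Λ - ε) * n)) := by
          apply div_le_div_of_nonneg_left _ hpos f1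
          positivity
      _ = (2 / c) * Real.exp ((Real.log J - Λ + ε) * n) := by
          have : Real.exp ((Real.log J - Λ + ε) * n) =
              Real.exp (Real.log J * n) / Real.exp ((Λ - ε) * n) := by
            rw [← Real.exp_sub]
            congr 1
            ring
          rw [this, hJexp n]
          field_simp
      _ ≤ _ := by
          apply mul_le_mul_of_nonneg_right _ (by positivity)
          exact le_max_of_le_right (le_max_left _ _)
  · intro n
    refine le_trans (hup0 n) ?_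
    apply mul_le_mul_of_nonneg_right _ (by positivity)
    exact le_max_of_le_right (le_max_right _ _)

theorem dir_exists {D L : ℕ → E →L[ℝ] E} {J Λ : ℝ} (h : Reg D L J Λ) (hJ : 0 < J)
    (hΛ : Real.log J < 2 * Λ) :
    ∃ s : E, ‖s‖ = 1 ∧ Tendsto (sg (Fp D 0)) atTop (𝓝 s) ∧
      ∀ ε : ℝ, 0 < ε → ∃ C : ℝ, ∀ n : ℕ,
        ‖Fp D 0 n s‖ ≤ C * wt (Λ - Real.log J - ε) n := by
  have hdt : ∀ n, dt (Fp D 0 n) ≠ 0 := by
    intro n hn
    have := Fp_dt h 0 n
    rw [hn, abs_zero] at this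
    have := pow_pos hJ n
    linarith
  have hsg1 : ∀ n, ‖sg (Fp D 0) n‖ = 1 := by
    intro n
    rcases a2_sg (Fp D 0) n with h1 | h1 <;> rw [h1]
    · exact cd_norm _ (hdt n)
    · rw [norm_neg]; exact cd_norm _ (hdt n)
  have hgap : 0 < (2 * Λ - Real.log J) / 8 := by linarith
  -- convergence
  obtain ⟨C, hC, h1, -, -⟩ := a2_scale h hJ _ hgap
  have hr : Real.exp (Real.log J - 2 * Λ + 2 * ((2 * Λ - Real.log J) / 8)) < 1 := by
    rw [Real.exp_lt_one_iff]
    linarith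
  have hcau : CauchySeq (sg (Fp D 0)) := by
    apply cauchySeq_of_le_geometric _ C hr
    intro n
    rw [dist_comm, dist_eq_norm]
    exact h1 n
  obtain ⟨s, hs⟩ := cauchySeq_tendsto_of_complete hcau
  refine ⟨s, ?_, hs, ?_⟩
  · have := hs.norm
    have h2 : Tendsto (fun n => ‖sg (Fp D 0) n‖) atTop (𝓝 1) := by
      simp [hsg1]
    exact tendsto_nhds_unique this h2
  · intro ε hε
    set ε' : ℝ := min (ε / 3) ((2 * Λ - Real.log J) / 8) with hε'
    have hε'pos : 0 < ε' := lt_min (by linarith) hgap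
    have hε'1 : 3 * ε' ≤ ε := by
      have := min_le_left (ε / 3) ((2 * Λ - Real.log J) / 8)
      rw [← hε'] at this
      linarith
    have hε'2 : ε' ≤ (2 * Λ - Real.log J) / 8 := by
      have := min_le_right (ε / 3) ((2 * Λ - Real.log J) / 8)
      rwa [← hε'] at this
    obtain ⟨C', hC', g1, g2, g3⟩ := a2_scale h hJ ε' hε'pos
    set r : ℝ := Real.exp (Real.log J - 2 * Λ + 2 * ε') with hrdef
    have hr1 : r < 1 := by
      rw [hrdef, Real.exp_lt_one_iff]
      linarith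
    have hr0 : 0 < r := Real.exp_pos _
    have hd : ∀ n, ‖s - sg (Fp D 0) n‖ ≤ C' * r ^ n / (1 - r) := by
      intro n
      have := dist_le_of_le_geometric_of_tendsto r C' hr1
        (f := sg (Fp D 0)) (a := s) (fun n => by
          rw [dist_comm, dist_eq_norm]; exact g1 n) hs n
      rw [dist_comm, dist_eq_norm] at this
      exact this
    refine ⟨C' + C' * (C' / (1 - r)), fun n => ?_⟩
    have h1r : 0 < 1 - r := by linarith
    have e0 : Fp D 0 n s = Fp D 0 n (sg (Fp D 0) n) + Fp D 0 n (s - sg (Fp D 0) n) := by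
      rw [← map_add]; congr 1; abel
    have e1 : ‖Fp D 0 n (s - sg (Fp D 0) n)‖ ≤
        (C' * Real.exp ((Λ + ε') * n)) * (C' * r ^ n / (1 - r)) := by
      refine le_trans ((Fp D 0 n).le_opNorm _) ?_
      exact mul_le_mul (g3 n) (hd n) (norm_nonneg _) (by positivity)
    have e2 : (C' * Real.exp ((Λ + ε') * n)) * (C' * r ^ n / (1 - r)) =
        C' * (C' / (1 - r)) * Real.exp ((Real.log J - Λ + 3 * ε') * n) := by
      have : Real.exp ((Real.log J - Λ + 3 * ε') * n) = Real.exp ((Λ + ε') * n) * r ^ n := by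
        rw [hrdef, ← Real.exp_nat_mul, ← Real.exp_add]
        congr 1
        ring
      rw [this]; ring
    have hn0 : (0 : ℝ) ≤ n := Nat.cast_nonneg n
    have e3 : Real.exp ((Real.log J - Λ + 3 * ε') * n) ≤ wt (Λ - Real.log J - ε) n := by
      unfold wt
      apply Real.exp_le_exp.mpr
      nlinarith
    have e4 : Real.exp ((Real.log J - Λ + ε') * n) ≤ wt (Λ - Real.log J - ε) n := by
      unfold wt
      apply Real.exp_le_exp.mpr
      nlinarith
    calc ‖Fp D 0 n s‖ ≤ ‖Fp D 0 n (sg (Fp D 0) n)‖ + ‖Fp D 0 n (s - sg (Fp D 0) n)‖ := by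
          rw [e0]; exact norm_add_le _ _
      _ ≤ C' * Real.exp ((Real.log J - Λ + ε') * n) +
          C' * (C' / (1 - r)) * Real.exp ((Real.log J - Λ + 3 * ε') * n) := by
          rw [← e2]; exact add_le_add (g2 n) e1
      _ ≤ C' * wt (Λ - Real.log J - ε) n + C' * (C' / (1 - r)) * wt (Λ - Real.log J - ε) n := by
          apply add_le_add
          · exact mul_le_mul_of_nonneg_left e4 hC'
          · exact mul_le_mul_of_nonneg_left e3 (by positivity)
      _ = _ := by ring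

end MD
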