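import Pool.Agent.Lib.MP_904526_an.Defs

/-!
# B1: the covering lemma of Katznelson and Weiss (deterministic)
-/

open Set Filter Topology MeasureTheory

namespace MD

theorem cov {X : Type*} (T : X → X) (u : ℕ → X → ℝ) (G B : Set X) (C a : ℝ) (N : ℕ)
    (hG : ∀ x ∈ G, T x ∈ G) (hN : 1 ≤ N) (ha : |a| ≤ C)
    (hsub : ∀ x ∈ G, ∀ m n : ℕ, u (m + n) x ≤ u m x + u n (T^[m] x))
    (hb : ∀ x ∈ G, ∀ n : ℕ, |u n x| ≤ C * n)
    (hB : ∀ x ∈ G, x ∉ B → ∃ n : ℕ, 1 ≤ n ∧ n ≤ N ∧ u n x ≤ a * n) :
    ∀ m : ℕ, ∀ x ∈ G, u m x ≤ a * m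
      + 2 * C * (∑ j ∈ Finset.range m, B.indicator (fun _ => (1 : ℝ)) (T^[j] x)) + 2 * C * N := by
  have hC : 0 ≤ C := (abs_nonneg a).trans ha
  have ha1 : a ≤ C := (le_abs_self a).trans ha
  have ha2 : -C ≤ a := (abs_le.1 ha).1
  have hGn : ∀ n : ℕ, ∀ x ∈ G, T^[n] x ∈ G := by
    intro n
    induction n with
    | zero => intro x hx; exact hx
    | succ n ih => intro x hx; rw [Function.iterate_succ_apply]; exact ih _ (hG x hx)
  have hi0 : ∀ x : X, 0 ≤ B.indicator (fun _ => (1 : ℝ)) x := fun x =>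
    Set.indicator_nonneg (fun _ _ => zero_le_one) x
  intro m
  induction m using Nat.strong_induction_on with
  | _ m ih =>
    intro x hx
    rcases le_or_gt m N with hm | hm
    · have h1 : u m x ≤ C * m := (le_abs_self _).trans (hb x hx m)
      have h2 : 0 ≤ ∑ j ∈ Finset.range m, B.indicator (fun _ => (1 : ℝ)) (T^[j] x) :=
        Finset.sum_nonneg (fun j _ => hi0 _)
      have h3 : (m : ℝ) ≤ N := by exact_mod_cast hm
      have h4 : (0 : ℝ) ≤ m := Nat.cast_nonneg m
      have h5 : 0 ≤ 2 * C * ∑ j ∈ Finset.range m, B.indicator (fun _ => (1 : ℝ)) (T^[j] x) := by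
        positivity
      nlinarith
    · by_cases hxB : x ∈ B
      · obtain ⟨k, rfl⟩ : ∃ k, m = 1 + k := ⟨m - 1, by omega⟩
        have h1 := hsub x hx 1 k
        have h2 := ih k (by omega) (T x) (hG x hx)
        have h3 : u 1 x ≤ C := by
          have := (le_abs_self _).trans (hb x hx 1)
          simpa using this
        have h4 : ∑ j ∈ Finset.range (1 + k), B.indicator (fun _ => (1 : ℝ)) (T^[j] x) =
            1 + ∑ j ∈ Finset.range k, B.indicator (fun _ => (1 : ℝ)) (T^[j] (T x)) := by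
          rw [add_comm 1 k, Finset.sum_range_succ', add_comm]
          congr 1
          · simp [hxB]
        rw [h4]
        rw [Function.iterate_one] at h1
        push_cast
        linarith
      · obtain ⟨n, hn1, hn2, hn3⟩ := hB x hx hxB
        obtain ⟨k, rfl⟩ : ∃ k, m = n + k := ⟨m - n, by omega⟩
        have h1 := hsub x hx n k
        have h2 := ih k (by omega) (T^[n] x) (hGn n x hx)
        have h4 : ∑ j ∈ Finset.range k, B.indicator (fun _ => (1 : ℝ)) (T^[j] (T^[n] x)) ≤
            ∑ j ∈ Finset.range (n + k), B.indicator (fun _ => (1 : ℝ)) (T^[j] x) := by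
          rw [Finset.sum_range_add]
          have h5 : 0 ≤ ∑ j ∈ Finset.range n, B.indicator (fun _ => (1 : ℝ)) (T^[j] x) :=
            Finset.sum_nonneg (fun j _ => hi0 _)
          have h6 : ∀ j, T^[j] (T^[n] x) = T^[n + j] x := by
            intro j
            rw [add_comm n j, Function.iterate_add_apply]
          simp only [h6]
          linarith
        have h7 := mul_le_mul_of_nonneg_left h4 (by linarith : 0 ≤ 2 * C)
        push_cast
        linarith

end MD
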