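import Pool.Agent.Lib.MP_904526_an.B1

/-!
# B2: Kingman's theorem, lower bound (Katznelson and Weiss)
-/

open Set Filter Topology MeasureTheory

namespace MD

/-- one implication of the invariance of `liminf u n / n < b` -/
theorem kw_shift {a a' C : ℝ} (haa : a < a') (p q : ℕ → ℝ)
    (h1 : ∀ n, |p (n + 1) - q n| ≤ C) (h2 : ∃ᶠ n : ℕ in atTop, p n < a * n) :
    ∃ᶠ n : ℕ in atTop, q n < a' * n := by
  rw [frequently_atTop] at h2 ⊢
  intro N
  obtain ⟨N1, hN1⟩ := exists_nat_gt ((a + C) / (a' - a))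
  obtain ⟨n, hn, hn2⟩ := h2 (N + N1 + 1)
  obtain ⟨m, rfl⟩ : ∃ m, n = m + 1 := ⟨n - 1, by omega⟩
  refine ⟨m, by omega, ?_⟩
  have h3 := h1 m
  rw [abs_le] at h3
  push_cast at hn2
  have h4 : (a + C) / (a' - a) < m := by
    have : (N1 : ℝ) ≤ m := by exact_mod_cast (by omega : N1 ≤ m)
    linarith
  rw [div_lt_iff₀ (by linarith)] at h4
  linarith [h3.1]

/-- the other implication -/
theorem kw_shift' {a a' C : ℝ} (haa : a < a') (p q : ℕ → ℝ)
    (h1 : ∀ n, |p (n + 1) - q n| ≤ C) (h2 : ∃ᶠ n : ℕ in atTop, q n < a * n) :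
    ∃ᶠ n : ℕ in atTop, p n < a' * n := by
  rw [frequently_atTop] at h2 ⊢
  intro N
  obtain ⟨N1, hN1⟩ := exists_nat_gt ((C - a') / (a' - a))
  obtain ⟨m, hm, hm2⟩ := h2 (N + N1)
  refine ⟨m + 1, by omega, ?_⟩
  have h3 := h1 m
  rw [abs_le] at h3
  push_cast
  have h4 : (C - a') / (a' - a) < m := by
    have : (N1 : ℝ) ≤ m := by exact_mod_cast (by omega : N1 ≤ m)
    linarith
  rw [div_lt_iff₀ (by linarith)] at h4
  linarith [h3.2]

theorem kw_lower {X : Type*} [MeasurableSpace X] (μ : Measure X) [IsProbabilityMeasure μ]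
    (T : X → X) (hT : Ergodic T μ) (u : ℕ → X → ℝ) (G : Set X) (C Λ : ℝ)
    (hG : ∀ x ∈ G, T x ∈ G) (hGm : MeasurableSet G) (hGμ : μ Gᶜ = 0)
    (hm : ∀ n, Measurable (u n))
    (hsub : ∀ x ∈ G, ∀ m n : ℕ, u (m + n) x ≤ u m x + u n (T^[m] x))
    (hb : ∀ x ∈ G, ∀ n : ℕ, |u n x| ≤ C * n)
    (hinv : ∀ x ∈ G, ∀ n : ℕ, |u (n + 1) x - u n (T x)| ≤ C)
    (hΛ : ∀ n : ℕ, 1 ≤ n → Λ * n ≤ ∫ x, u n x ∂μ) :
    ∀ ε : ℝ, 0 < ε → ∀ᵐ x ∂μ, ∀ᶠ n : ℕ in atTop, (Λ - ε) * n ≤ u n x := by
  intro ε hε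
  have hGae : ∀ᵐ x ∂μ, x ∈ G := by
    rw [ae_iff]
    exact hGμ
  obtain ⟨x0, hx0⟩ : ∃ x, x ∈ G := hGae.exists
  have hC : 0 ≤ C := (abs_nonneg _).trans (hinv x0 hx0 0)
  -- integrability
  have hint : ∀ n, Integrable (u n) μ := by
    intro n
    refine Integrable.of_bound (hm n).aestronglyMeasurable (C * n) ?_
    filter_upwards [hGae] with x hx
    rw [Real.norm_eq_abs]
    exact hb x hx n
  have hΛC : Λ ≤ C := by
    have h1 := hΛ 1 le_rfl
    have h2 : ∫ x, u 1 x ∂μ ≤ ∫ x, C ∂μ := by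
      apply integral_mono_ae (hint 1) (integrable_const _)
      filter_upwards [hGae] with x hx
      have := (le_abs_self _).trans (hb x hx 1)
      simpa using this
    rw [integral_const] at h2
    simp at h1 h2
    linarith
  set b : ℝ := Λ - ε / 2 with hbdef
  -- the invariant set
  set F : Set X := G ∩ {x | ∃ k : ℕ, ∃ᶠ n : ℕ in atTop, u n x < (b - 1 / (k + 1)) * n} with hF
  have hFm : MeasurableSet F := by
    apply hGm.inter
    have e : {x | ∃ k : ℕ, ∃ᶠ n : ℕ in atTop, u n x < (b - 1 / (k + 1)) * n} =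
        ⋃ k : ℕ, ⋂ N : ℕ, ⋃ n : ℕ, ⋃ (_ : N ≤ n), {x | u n x < (b - 1 / (k + 1)) * n} := by
      ext x
      simp only [mem_ofPred_eq, mem_iUnion, mem_iInter, frequently_atTop, exists_prop]
    rw [e]
    refine MeasurableSet.iUnion fun k => MeasurableSet.iInter fun N => MeasurableSet.iUnion fun n =>
      MeasurableSet.iUnion fun _ => measurableSet_lt (hm n) measurable_const
  have hk : ∀ k : ℕ, b - 1 / ((k : ℝ) + 1) < b - 1 / (((k + 1 : ℕ) : ℝ) + 1) := by
    intro k
    have h1 : (0 : ℝ) < (k : ℝ) + 1 := by positivity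
    have h2 : 1 / (((k + 1 : ℕ) : ℝ) + 1) < 1 / ((k : ℝ) + 1) := by
      apply one_div_lt_one_div_of_lt h1
      push_cast
      linarith
    linarith
  have hFinv : T ⁻¹' F =ᵐ[μ] F := by
    filter_upwards [hGae] with x hx
    apply propext
    constructor
    · rintro ⟨-, k, h⟩
      exact ⟨hx, k + 1, kw_shift' (hk k) (fun n => u n x) (fun n => u n (T x)) (hinv x hx) h⟩
    · rintro ⟨-, k, h⟩
      exact ⟨hG x hx, k + 1, kw_shift (hk k) (fun n => u n x) (fun n => u n (T x)) (hinv x hx) h⟩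
  rcases hT.quasiErgodic.ae_empty_or_univ₀ hFm.nullMeasurableSet hFinv with h | h
  · -- the good case
    obtain ⟨k, hk⟩ := exists_nat_one_div_lt (show 0 < ε / 2 by linarith)
    filter_upwards [hGae, h.mem_iff] with x hx hxF
    have h1 : x ∉ F := fun hx2 => (hxF.1 hx2)
    have h2 : ¬ ∃ᶠ n : ℕ in atTop, u n x < (b - 1 / ((k : ℝ) + 1)) * n := fun h3 => h1 ⟨hx, k, h3⟩
    rw [not_frequently] at h2
    filter_upwards [h2] with n hn
    rw [not_lt] at hn
    refine le_trans ?_ hn
    apply mul_le_mul_of_nonneg_right _ (Nat.cast_nonneg n)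
    linarith
  · -- the impossible case
    exfalso
    have hFae : ∀ᵐ x ∂μ, x ∈ F := by
      filter_upwards [h.mem_iff] with x hx
      exact hx.2 (mem_univ x)
    have hFn : ∀ x ∈ F, ∃ n : ℕ, 1 ≤ n ∧ u n x < b * n := by
      rintro x ⟨-, k, h⟩
      obtain ⟨n, hn, hn2⟩ := (frequently_atTop.1 h) 1
      refine ⟨n, hn, hn2.trans_le ?_⟩
      apply mul_le_mul_of_nonneg_right _ (Nat.cast_nonneg n)
      have : (0 : ℝ) ≤ 1 / ((k : ℝ) + 1) := by positivity
      linarith
    have hbC : -C ≤ b := by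
      obtain ⟨x, hx⟩ := hFae.exists
      obtain ⟨n, hn, hn2⟩ := hFn x hx
      have h1 := (abs_le.1 (hb x hx.1 n)).1
      have hn0 : (0 : ℝ) < n := by exact_mod_cast hn
      by_contra hcon
      push Not at hcon
      nlinarith
    have hbabs : |b| ≤ C := abs_le.2 ⟨hbC, by linarith⟩
    set B : ℕ → Set X := fun N => G ∩ ⋂ n : ℕ, ⋂ (_ : 1 ≤ n ∧ n ≤ N), {x | b * n < u n x} with hB
    have hBm : ∀ N, MeasurableSet (B N) := fun N =>
      hGm.inter (MeasurableSet.iInter fun n => MeasurableSet.iInter fun _ =>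
        measurableSet_lt measurable_const (hm n))
    have hBmem : ∀ N x, x ∈ B N ↔ x ∈ G ∧ ∀ n : ℕ, 1 ≤ n → n ≤ N → b * n < u n x := by
      intro N x
      simp only [hB, mem_inter_iff, mem_iInter, mem_ofPred_eq, and_imp]
    have hBanti : Antitone B := by
      intro N M hNM x hx
      rw [hBmem] at hx ⊢
      exact ⟨hx.1, fun n h1 h2 => hx.2 n h1 (h2.trans hNM)⟩
    have hBnull : μ (⋂ N, B N) = 0 := by
      rw [measure_eq_zero_iff_ae_notMem]
      filter_upwards [hFae] with x hx hcon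
      obtain ⟨n, hn, hn2⟩ := hFn x hx
      have h1 := ((hBmem n x).1 (mem_iInter.1 hcon n)).2 n hn le_rfl
      linarith
    have hlim : Tendsto (fun N => μ.real (B N)) atTop (𝓝 0) := by
      have h1 := tendsto_measure_iInter_atTop (μ := μ) (fun N => (hBm N).nullMeasurableSet) hBanti
        ⟨0, measure_ne_top _ _⟩
      rw [hBnull] at h1
      have h2 := (ENNReal.tendsto_toReal ENNReal.zero_ne_top).comp h1
      exact h2
    have hlim2 : Tendsto (fun N => 2 * C * μ.real (B N)) atTop (𝓝 (2 * C * 0)) :=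
      hlim.const_mul _
    rw [mul_zero] at hlim2
    have hΛb : 0 < Λ - b := by rw [hbdef]; linarith
    obtain ⟨N, hN1, hN2⟩ := ((hlim2.eventually_le_const (show 0 < (Λ - b) / 2 by linarith)).and
      (eventually_ge_atTop 1)).exists
    have hcov := cov T u G (B N) C b N hG hN2 hbabs hsub hb (fun x hx hxB => by
      rw [hBmem] at hxB
      push Not at hxB
      obtain ⟨n, h1, h2, h3⟩ := hxB hx
      exact ⟨n, h1, h2, h3⟩)
    have hindi : ∀ j : ℕ, Integrable (fun x => (B N).indicator (fun _ => (1 : ℝ)) (T^[j] x)) μ := by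
      intro j
      have hTj : MeasurePreserving T^[j] μ μ := hT.toMeasurePreserving.iterate j
      exact hTj.integrable_comp_of_integrable
        ((integrable_const (1 : ℝ)).indicator (hBm N))
    have hindv : ∀ j : ℕ, ∫ x, (B N).indicator (fun _ => (1 : ℝ)) (T^[j] x) ∂μ = μ.real (B N) := by
      intro j
      have hTj : MeasurePreserving T^[j] μ μ := hT.toMeasurePreserving.iterate j
      have e : (fun x => (B N).indicator (fun _ => (1 : ℝ)) (T^[j] x)) =
          (T^[j] ⁻¹' (B N)).indicator (fun _ => (1 : ℝ)) := by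
        ext x
        rfl
      rw [e, integral_indicator (hTj.measurable (hBm N)), setIntegral_const, smul_eq_mul, mul_one,
        measureReal_def, hTj.measure_preimage (hBm N).nullMeasurableSet, ← measureReal_def]
    have hfin : ∀ m : ℕ, 1 ≤ m → (Λ - b) / 2 * m ≤ 2 * C * N := by
      intro m hm1
      have h1 : ∫ x, u m x ∂μ ≤ ∫ x, (b * m + 2 * C * (∑ j ∈ Finset.range m,
          (B N).indicator (fun _ => (1 : ℝ)) (T^[j] x)) + 2 * C * N) ∂μ := by
        apply integral_mono_ae (hint m)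
        · apply Integrable.add _ (integrable_const _)
          apply Integrable.add (integrable_const _)
          apply Integrable.const_mul
          exact integrable_finsetSum _ (fun j _ => hindi j)
        · filter_upwards [hGae] with x hx
          exact hcov m x hx
      have h2 : ∫ x, (b * m + 2 * C * (∑ j ∈ Finset.range m,
          (B N).indicator (fun _ => (1 : ℝ)) (T^[j] x)) + 2 * C * N) ∂μ =
          b * m + 2 * C * (m * μ.real (B N)) + 2 * C * N := by
        have e2 : ∫ x, 2 * C * (∑ j ∈ Finset.range m,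
            (B N).indicator (fun _ => (1 : ℝ)) (T^[j] x)) ∂μ = 2 * C * (m * μ.real (B N)) := by
          rw [integral_const_mul, integral_finsetSum _ (fun j _ => hindi j)]
          simp only [hindv, Finset.sum_const, Finset.card_range, nsmul_eq_mul]
        rw [integral_add, integral_add, e2]
        · simp
        · exact integrable_const _
        · exact (integrable_finsetSum _ (fun j _ => hindi j)).const_mul _
        · apply Integrable.add (integrable_const _)
          exact (integrable_finsetSum _ (fun j _ => hindi j)).const_mul _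
        · exact integrable_const _
      have h3 := hΛ m hm1
      have hm0 : (0 : ℝ) ≤ m := Nat.cast_nonneg m
      have h4 : 2 * C * μ.real (B N) * m ≤ (Λ - b) / 2 * m := mul_le_mul_of_nonneg_right hN1 hm0
      rw [h2] at h1
      nlinarith
    obtain ⟨m, hm⟩ := exists_nat_gt (2 * C * N / ((Λ - b) / 2))
    have h5 := hfin (m + 1) (by omega)
    rw [div_lt_iff₀ (by linarith)] at hm
    push_cast at h5
    nlinarith

end MD
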