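import Pool.Agent.Lib.MP_904526_an.B2

/-!
# B3: Birkhoff's theorem for a bounded measurable function, ergodic case
-/

open Set Filter Topology MeasureTheory

namespace MD

theorem birkhoff {X : Type*} [MeasurableSpace X] (μ : Measure X) [IsProbabilityMeasure μ]
    (T : X → X) (hT : Ergodic T μ) (φ : X → ℝ) (G : Set X) (C : ℝ)
    (hG : ∀ x ∈ G, T x ∈ G) (hGm : MeasurableSet G) (hGμ : μ Gᶜ = 0)
    (hm : Measurable φ) (hb : ∀ x ∈ G, |φ x| ≤ C) :
    ∀ ε : ℝ, 0 < ε → ∀ᵐ x ∂μ, ∃ C' : ℝ, ∀ n : ℕ,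
      |(∑ j ∈ Finset.range n, φ (T^[j] x)) - n * ∫ x, φ x ∂μ| ≤ ε * n + C' := by
  intro ε hε
  have hGae : ∀ᵐ x ∂μ, x ∈ G := by
    rw [ae_iff]
    exact hGμ
  have hGn : ∀ n : ℕ, ∀ x ∈ G, T^[n] x ∈ G := by
    intro n
    induction n with
    | zero => intro x hx; exact hx
    | succ n ih => intro x hx; rw [Function.iterate_succ_apply]; exact ih _ (hG x hx)
  have hTm : Measurable T := hT.toMeasurePreserving.measurable
  have hint : Integrable φ μ := by
    refine Integrable.of_bound hm.aestronglyMeasurable C ?_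
    filter_upwards [hGae] with x hx
    rw [Real.norm_eq_abs]
    exact hb x hx
  have hj : ∀ j : ℕ, Integrable (fun x => φ (T^[j] x)) μ := fun j =>
    (hT.toMeasurePreserving.iterate j).integrable_comp_of_integrable hint
  have hji : ∀ j : ℕ, ∫ x, φ (T^[j] x) ∂μ = ∫ x, φ x ∂μ := by
    intro j
    have h1 := hT.toMeasurePreserving.iterate j
    have h2 := integral_map (μ := μ) h1.measurable.aemeasurable (f := φ) hm.aestronglyMeasurable
    rw [h1.map_eq] at h2
    exact h2.symm
  set S : ℕ → X → ℝ := fun n x => ∑ j ∈ Finset.range n, φ (T^[j] x) with hS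
  have hSm : ∀ n, Measurable (S n) := fun n =>
    Finset.measurable_sum _ (fun j _ => hm.comp (hTm.iterate j))
  have hSadd : ∀ x m n, S (m + n) x = S m x + S n (T^[m] x) := by
    intro x m n
    simp only [hS]
    rw [Finset.sum_range_add]
    congr 1
    apply Finset.sum_congr rfl
    intro j _
    rw [add_comm m j, Function.iterate_add_apply]
  have hSb : ∀ x ∈ G, ∀ n : ℕ, |S n x| ≤ C * n := by
    intro x hx n
    simp only [hS]
    refine (Finset.abs_sum_le_sum_abs _ _).trans ?_
    refine (Finset.sum_le_card_nsmul _ _ C (fun j _ => hb _ (hGn j x hx))).trans ?_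
    simp [mul_comm]
  have hSinv : ∀ x n, S (n + 1) x - S n (T x) = φ x := by
    intro x n
    rw [add_comm n 1, hSadd]
    simp [hS]
  have hSint : ∀ n : ℕ, ∫ x, S n x ∂μ = n * ∫ x, φ x ∂μ := by
    intro n
    simp only [hS]
    rw [integral_finsetSum _ (fun j _ => hj j)]
    simp only [hji, Finset.sum_const, Finset.card_range, nsmul_eq_mul]
  have h1 := kw_lower μ T hT S G C (∫ x, φ x ∂μ) hG hGm hGμ hSm
    (fun x _ m n => (hSadd x m n).le) hSb (fun x hx n => by rw [hSinv]; exact hb x hx)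
    (fun n _ => by rw [hSint, mul_comm]) ε hε
  have h2 := kw_lower μ T hT (fun n x => - S n x) G C (- ∫ x, φ x ∂μ) hG hGm hGμ
    (fun n => (hSm n).neg)
    (fun x _ m n => by rw [hSadd]; linarith)
    (fun x hx n => by rw [abs_neg]; exact hSb x hx n)
    (fun x hx n => by
      have h3 := hSinv x n
      have h4 : -S (n + 1) x - -S n (T x) = - φ x := by linarith
      rw [h4, abs_neg]; exact hb x hx)
    (fun n _ => by rw [integral_neg, hSint]; linarith) ε hε
  filter_upwards [h1, h2] with x hx1 hx2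
  obtain ⟨N, hN⟩ := eventually_atTop.1 (hx1.and hx2)
  set I := ∫ x, φ x ∂μ with hI
  refine ⟨∑ n ∈ Finset.range N, |S n x - n * I|, fun n => ?_⟩
  have h0 : 0 ≤ ∑ n ∈ Finset.range N, |S n x - n * I| := Finset.sum_nonneg (fun _ _ => abs_nonneg _)
  have hn0 : (0 : ℝ) ≤ n := Nat.cast_nonneg n
  by_cases hn : N ≤ n
  · obtain ⟨h3, h4⟩ := hN n hn
    have h5 : |S n x - n * I| ≤ ε * n := by
      rw [abs_le]
      constructor <;> linarith
    exact h5.trans (by linarith)
  · have h3 : |S n x - n * I| ≤ ∑ n ∈ Finset.range N, |S n x - n * I| :=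
      Finset.single_le_sum (f := fun n : ℕ => |S n x - n * I|) (fun _ _ => abs_nonneg _)
        (Finset.mem_range.2 (by omega))
    have h4 : 0 ≤ ε * n := by positivity
    exact h3.trans (by linarith)

end MD
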