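import Pool.Agent.Lib.MP_904526_an.Defs

/-!
# B4 (est. 50 min): subadditive sequences against averages (phases)
Let V k y = ∑ i < N, u (k - i) (T^[i] y) (natural subtraction). hinv iterated: |u k y - u (k-i) (T^[i]
y)| ≤ C i for i ≤ k; for i > k, u 0 = 0 (from hb) and |u k y| ≤ C k ≤ C i. So |N u k y - V k y| ≤ C N².
Claim: V k y ≤ ∑ j < k, u N (T^[j] y) + 2 C N² for all y ∈ G, induction on k. For k < N:
V k y ≤ N * C k ≤ C N² and the sum is ≥ - C N k ≥ - C N². For k ≥ N: V k y - V (k-1) (T y) =
u k y - u (k-N) (T^[N] y) ≤ u N y (telescoping of the index i; hsub with N + (k-N)), and the claim at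
(k-1, T y).
-/

open Set Filter Topology MeasureTheory

namespace MD

theorem b4_shift {X : Type*} (T : X → X) (u : ℕ → X → ℝ) (G : Set X) (C : ℝ)
    (hG : ∀ x ∈ G, T x ∈ G) (hinv : ∀ x ∈ G, ∀ n : ℕ, |u (n + 1) x - u n (T x)| ≤ C) :
    ∀ i : ℕ, ∀ k : ℕ, i ≤ k → ∀ y ∈ G, |u k y - u (k - i) (T^[i] y)| ≤ C * i := by
  intro i
  induction i with
  | zero =>
    intro k _ y _
    simp
  | succ i ih =>
    intro k hk y hy
    obtain ⟨m, rfl⟩ : ∃ m, k = m + 1 := ⟨k - 1, by omega⟩
    have h1 := hinv y hy m
    have h2 := ih m (by omega) (T y) (hG y hy)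
    have h3 : m + 1 - (i + 1) = m - i := by omega
    rw [h3, Function.iterate_succ_apply]
    have h4 : u (m + 1) y - u (m - i) (T^[i] (T y)) =
        (u (m + 1) y - u m (T y)) + (u m (T y) - u (m - i) (T^[i] (T y))) := by ring
    rw [h4]
    refine (abs_add_le _ _).trans ?_
    push_cast
    linarith

theorem b4_iter {X : Type*} (T : X → X) (G : Set X) (hG : ∀ x ∈ G, T x ∈ G) (i : ℕ) :
    ∀ y ∈ G, T^[i] y ∈ G := by
  induction i with
  | zero => intro y hy; exact hy
  | succ i ih =>
    intro y hy
    rw [Function.iterate_succ_apply]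
    exact ih _ (hG y hy)

theorem phases {X : Type*} (T : X → X) (u : ℕ → X → ℝ) (G : Set X) (C : ℝ) (N : ℕ) (hN : 1 ≤ N)
    (hC : 0 ≤ C) (hG : ∀ x ∈ G, T x ∈ G)
    (hsub : ∀ x ∈ G, ∀ m n : ℕ, u (m + n) x ≤ u m x + u n (T^[m] x))
    (hb : ∀ x ∈ G, ∀ n : ℕ, |u n x| ≤ C * n)
    (hinv : ∀ x ∈ G, ∀ n : ℕ, |u (n + 1) x - u n (T x)| ≤ C) :
    ∀ k : ℕ, ∀ x ∈ G, N * u k x ≤ (∑ j ∈ Finset.range k, u N (T^[j] x)) + 3 * C * N ^ 2 := by
  have hN0 : (1 : ℝ) ≤ N := by exact_mod_cast hN
  have key : ∀ k : ℕ, ∀ y ∈ G, (∑ i ∈ Finset.range N, u (k - i) (T^[i] y)) ≤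
      (∑ j ∈ Finset.range k, u N (T^[j] y)) + 2 * C * N ^ 2 := by
    intro k
    induction k with
    | zero =>
      intro y hy
      have h1 : ∀ i ∈ Finset.range N, u (0 - i) (T^[i] y) ≤ 0 := by
        intro i _
        have h2 := hb _ (b4_iter T G hG i y hy) (0 - i)
        simp only [Nat.zero_sub, Nat.cast_zero, mul_zero] at h2 ⊢
        exact (le_abs_self _).trans h2
      have h3 := Finset.sum_nonpos h1
      have h4 : 0 ≤ 2 * C * (N : ℝ) ^ 2 := by positivity
      simp only [Finset.range_zero, Finset.sum_empty]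
      linarith
    | succ k ih =>
      intro y hy
      by_cases hk : k + 1 < N
      · have hkN : ((k + 1 : ℕ) : ℝ) ≤ N := by exact_mod_cast hk.le
        have h1 : (∑ i ∈ Finset.range N, u (k + 1 - i) (T^[i] y)) ≤ N * (C * N) := by
          have h2 : ∀ i ∈ Finset.range N, u (k + 1 - i) (T^[i] y) ≤ C * N := by
            intro i _
            have h3 := hb _ (b4_iter T G hG i y hy) (k + 1 - i)
            have h4 : ((k + 1 - i : ℕ) : ℝ) ≤ N := by
              have : k + 1 - i ≤ N := by omega
              exact_mod_cast this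
            exact (le_abs_self _).trans (h3.trans (mul_le_mul_of_nonneg_left h4 hC))
          have h5 := Finset.sum_le_card_nsmul _ _ _ h2
          rw [Finset.card_range, nsmul_eq_mul] at h5
          exact h5
        have h6 : -((k + 1 : ℕ) * (C * N)) ≤ ∑ j ∈ Finset.range (k + 1), u N (T^[j] y) := by
          have h7 : ∀ j ∈ Finset.range (k + 1), -(C * N) ≤ u N (T^[j] y) := by
            intro j _
            exact neg_le_of_abs_le (hb _ (b4_iter T G hG j y hy) N)
          have h8 := Finset.card_nsmul_le_sum _ _ _ h7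
          rw [Finset.card_range, nsmul_eq_mul] at h8
          linarith
        have h9 : ((k + 1 : ℕ) : ℝ) * (C * N) ≤ N * (C * N) :=
          mul_le_mul_of_nonneg_right hkN (by positivity)
        nlinarith
      · have h1 : (∑ i ∈ Finset.range N, u (k + 1 - i) (T^[i] y)) -
            (∑ i ∈ Finset.range N, u (k - i) (T^[i] (T y))) =
            u (k + 1) y - u (k + 1 - N) (T^[N] y) := by
          rw [← Finset.sum_sub_distrib]
          have h2 : ∀ i ∈ Finset.range N, u (k + 1 - i) (T^[i] y) - u (k - i) (T^[i] (T y)) =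
              (fun i => u (k + 1 - i) (T^[i] y)) i - (fun i => u (k + 1 - i) (T^[i] y)) (i + 1) := by
            intro i _
            have h3 : k + 1 - (i + 1) = k - i := by omega
            simp only [h3, Function.iterate_succ_apply]
          rw [Finset.sum_congr rfl h2, Finset.sum_range_sub']
          simp
        have h4 : u (k + 1) y ≤ u N y + u (k + 1 - N) (T^[N] y) := by
          have h5 := hsub y hy N (k + 1 - N)
          have h6 : N + (k + 1 - N) = k + 1 := by omega
          rw [h6] at h5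
          exact h5
        have h7 := ih (T y) (hG y hy)
        rw [Finset.sum_range_succ']
        simp only [Function.iterate_zero, id_eq, Function.iterate_succ_apply]
        linarith
  intro k x hx
  have h1 : |∑ i ∈ Finset.range N, (u k x - u (k - i) (T^[i] x))| ≤ N * (C * N) := by
    refine (Finset.abs_sum_le_sum_abs _ _).trans ?_
    have h2 : ∀ i ∈ Finset.range N, |u k x - u (k - i) (T^[i] x)| ≤ C * N := by
      intro i hi
      have hi' : i < N := Finset.mem_range.1 hi
      have hiN : (i : ℝ) ≤ N := by exact_mod_cast hi'.le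
      by_cases hik : i ≤ k
      · exact (b4_shift T u G C hG hinv i k hik x hx).trans (mul_le_mul_of_nonneg_left hiN hC)
      · have h3 : k - i = 0 := by omega
        have h4 := hb _ (b4_iter T G hG i x hx) 0
        simp only [Nat.cast_zero, mul_zero] at h4
        have h5 : u 0 (T^[i] x) = 0 := abs_eq_zero.1 (le_antisymm h4 (abs_nonneg _))
        rw [h3, h5, sub_zero]
        have hkN : (k : ℝ) ≤ N := by
          have : k ≤ N := by omega
          exact_mod_cast this
        exact (hb x hx k).trans (mul_le_mul_of_nonneg_left hkN hC)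
    have h5 := Finset.sum_le_card_nsmul _ _ _ h2
    rw [Finset.card_range, nsmul_eq_mul] at h5
    exact h5
  rw [Finset.sum_sub_distrib, Finset.sum_const, Finset.card_range, nsmul_eq_mul] at h1
  have h2 := (abs_le.1 h1).2
  have h3 := key k x hx
  nlinarith

end MD
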