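import Pool.Agent.Lib.MP_904526_an.B3
import Pool.Agent.Lib.MP_904526_an.B4

/-!
# B5: tempered upper bound
-/

open Set Filter Topology MeasureTheory

namespace MD

theorem tempered {X : Type*} [MeasurableSpace X] (μ : Measure X) [IsProbabilityMeasure μ]
    (T : X → X) (hT : Ergodic T μ) (u : ℕ → X → ℝ) (G : Set X) (C Λ : ℝ)
    (hG : ∀ x ∈ G, T x ∈ G) (hGm : MeasurableSet G) (hGμ : μ Gᶜ = 0) (hC : 0 ≤ C)
    (hm : ∀ n, Measurable (u n))
    (hsub : ∀ x ∈ G, ∀ m n : ℕ, u (m + n) x ≤ u m x + u n (T^[m] x))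
    (hb : ∀ x ∈ G, ∀ n : ℕ, |u n x| ≤ C * n)
    (hinv : ∀ x ∈ G, ∀ n : ℕ, |u (n + 1) x - u n (T x)| ≤ C)
    (hΛ2 : ∀ ε : ℝ, 0 < ε → ∃ N : ℕ, 1 ≤ N ∧ ∫ x, u N x ∂μ ≤ (Λ + ε) * N) :
    ∀ ε : ℝ, 0 < ε → ∀ᵐ x ∂μ, ∃ C' : ℝ, ∀ n k : ℕ,
      u k (T^[n] x) ≤ (Λ + ε) * k + ε * n + C' := by
  intro ε hε
  have hGae : ∀ᵐ x ∂μ, x ∈ G := by
    rw [ae_iff]
    exact hGμ
  have hGn : ∀ n : ℕ, ∀ x ∈ G, T^[n] x ∈ G := by
    intro n
    induction n with
    | zero => intro x hx; exact hx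
    | succ n ih => intro x hx; rw [Function.iterate_succ_apply]; exact ih _ (hG x hx)
  obtain ⟨N, hN, hI⟩ := hΛ2 (ε / 2) (by linarith)
  have hN0 : (0 : ℝ) < N := by exact_mod_cast hN
  have hbir := birkhoff μ T hT (fun x => u N x / N) G C hG hGm hGμ ((hm N).div_const _)
    (fun x hx => by
      rw [abs_div, abs_of_pos hN0, div_le_iff₀ hN0]
      exact hb x hx N) (ε / 4) (by linarith)
  have hI' : ∫ x, u N x / N ∂μ ≤ Λ + ε / 2 := by
    rw [integral_div, div_le_iff₀ hN0]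
    exact hI
  filter_upwards [hGae, hbir] with x hx hbx
  obtain ⟨C0, hC0⟩ := hbx
  set I := ∫ x, u N x / N ∂μ with hIdef
  refine ⟨2 * C0 + 3 * C * N, fun n k => ?_⟩
  have h1 := phases T u G C N hN hC hG hsub hb hinv k (T^[n] x) (hGn n x hx)
  have h2 := hC0 n
  have h3 := hC0 (n + k)
  rw [Finset.sum_range_add] at h3
  have h4 : ∑ j ∈ Finset.range k, u N (T^[n + j] x) / N =
      (∑ j ∈ Finset.range k, u N (T^[j] (T^[n] x))) / N := by
    rw [Finset.sum_div]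
    apply Finset.sum_congr rfl
    intro j _
    rw [add_comm n j, Function.iterate_add_apply]
  rw [h4] at h3
  set s := ∑ j ∈ Finset.range k, u N (T^[j] (T^[n] x)) with hs
  set t := ∑ j ∈ Finset.range n, u N (T^[j] x) / N with ht
  have h5 : u k (T^[n] x) ≤ s / N + 3 * C * N := by
    have h6 : u k (T^[n] x) ≤ (s + 3 * C * N ^ 2) / N := by
      rw [le_div_iff₀ hN0]
      linarith
    refine h6.trans (le_of_eq ?_)
    field_simp
  rw [abs_le] at h2 h3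
  push_cast at h3
  have hk0 : (0 : ℝ) ≤ k := Nat.cast_nonneg k
  have hn0 : (0 : ℝ) ≤ n := Nat.cast_nonneg n
  have h7 : k * I ≤ k * (Λ + ε / 2) := mul_le_mul_of_nonneg_left hI' hk0
  have h8 : 0 ≤ ε * k := by positivity
  have h9 : 0 ≤ ε * n := by positivity
  nlinarith [h2.1, h3.2]

end MD
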