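import Pool.Agent.Lib.MP_904526_an.A1

/-!
# C1 (est. 60 min): basic facts on the derivative cocycle
coc D g n x = Fp (fun k => D (g^[k] x)) 0 n, so coc (n+1) x = D (g^[n] x) ∘ coc n x (Fp with
n replaced by 0 + n). coc_add by induction on n (g^[k] (g^[m] x) = g^[m+k] x). coc_inv: the inverse
of coc n x is Bp (fun k => L (g^[k] x)) 0 n. Bounds: ‖coc n x‖ ≤ M^n, and ‖v‖ ≤ M^n ‖coc n x v‖, so
‖coc n x‖ ≥ M^(-n); hence |uu n x| ≤ n log M on K. uu_inv: coc (n+1) x = coc n (g x) ∘ D x and
coc n (g x) = coc (n+1) x ∘ L x. K is invariant under g (Kinv).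
-/

open Set Filter Topology MeasureTheory

namespace MD

variable {g : E ≃ₜ E} {D L : E → E →L[ℝ] E} {P : E → E} {q J M : ℝ} {K : Set E}

theorem coc_zero (x : E) : coc D g 0 x = ContinuousLinearMap.id ℝ E := rfl

theorem coc_succ (n : ℕ) (x : E) : coc D g (n + 1) x = (D (g^[n] x)).comp (coc D g n x) := by
  simp only [coc, Fp, zero_add]

theorem coc_add (m n : ℕ) (x : E) :
    coc D g (m + n) x = (coc D g n (g^[m] x)).comp (coc D g m x) := by
  induction n with
  | zero =>
    rw [coc_zero, add_zero]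
    exact (ContinuousLinearMap.id_comp _).symm
  | succ n ih =>
    rw [← add_assoc, coc_succ, ih, coc_succ, ← Function.iterate_add_apply, add_comm n m,
      ContinuousLinearMap.comp_assoc]

theorem Fp_coc (n k : ℕ) (x : E) :
    Fp (fun i => D (g^[i] x)) n k = coc D g k (g^[n] x) := by
  induction k with
  | zero => rfl
  | succ k ih =>
    rw [coc_succ, ← ih, ← Function.iterate_add_apply, add_comm k n]
    rfl

theorem coc_cont (h : Sys g D L P q J M K) (n : ℕ) : Continuous (coc D g n) := by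
  induction n with
  | zero => exact continuous_const
  | succ n ih =>
    have e : coc D g (n + 1) = fun x => (D (g^[n] x)).comp (coc D g n x) :=
      funext fun x => coc_succ n x
    rw [e]
    exact (h.Dc.comp (g.continuous.iterate n)).clm_comp ih

theorem coc_dt (h : Sys g D L P q J M K) (n : ℕ) (x : E) : |dt (coc D g n x)| = J ^ n := by
  induction n with
  | zero => rw [coc_zero, dt_id, pow_zero, abs_one]
  | succ n ih => rw [coc_succ, dt_comp, abs_mul, h.det, ih, pow_succ']

theorem coc_inv (h : Sys g D L P q J M K) (n : ℕ) (x v : E) :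
    Bp (fun k => L (g^[k] x)) 0 n (coc D g n x v) = v ∧
      coc D g n x (Bp (fun k => L (g^[k] x)) 0 n v) = v := by
  induction n generalizing v with
  | zero => exact ⟨rfl, rfl⟩
  | succ n ih =>
    have e : ∀ w, Bp (fun k => L (g^[k] x)) 0 (n + 1) w =
        Bp (fun k => L (g^[k] x)) 0 n (L (g^[n] x) w) := by
      intro w
      simp only [Bp, zero_add, ContinuousLinearMap.comp_apply]
    constructor
    · rw [e, coc_succ, ContinuousLinearMap.comp_apply, h.left]
      exact (ih v).1
    · rw [e, coc_succ, ContinuousLinearMap.comp_apply, (ih _).2, h.right]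

theorem iter_mem (h : Sys g D L P q J M K) (x : E) (hx : x ∈ K) (n : ℕ) : g^[n] x ∈ K := by
  induction n with
  | zero => exact hx
  | succ n ih =>
    rw [Function.iterate_succ_apply']
    exact (h.Kinv _).2 ih

theorem c1_dt_ne (h : Sys g D L P q J M K) (n : ℕ) (x : E) : dt (coc D g n x) ≠ 0 := by
  intro h0
  have h1 := coc_dt h n x
  rw [h0, abs_zero] at h1
  exact (pow_pos h.hJ n).ne h1

theorem coc_pos (h : Sys g D L P q J M K) (n : ℕ) (x : E) : 0 < ‖coc D g n x‖ :=
  norm_le_cd _ (c1_dt_ne h n x)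

theorem uu_meas (h : Sys g D L P q J M K) (n : ℕ) : Measurable (uu D g n) :=
  Real.measurable_log.comp (coc_cont h n).norm.measurable

theorem uu_sub (h : Sys g D L P q J M K) (x : E) (m n : ℕ) :
    uu D g (m + n) x ≤ uu D g m x + uu D g n (g^[m] x) := by
  unfold uu
  rw [← Real.log_mul (coc_pos h m x).ne' (coc_pos h n _).ne']
  apply Real.log_le_log (coc_pos h _ _)
  rw [coc_add, mul_comm]
  exact ContinuousLinearMap.opNorm_comp_le _ _

theorem c1_up (h : Sys g D L P q J M K) (x : E) (hx : x ∈ K) (n : ℕ) : ‖coc D g n x‖ ≤ M ^ n := by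
  induction n with
  | zero =>
    rw [coc_zero, pow_zero]
    exact ContinuousLinearMap.norm_id_le
  | succ n ih =>
    rw [coc_succ, pow_succ']
    exact (ContinuousLinearMap.opNorm_comp_le _ _).trans (mul_le_mul (h.bd _ (iter_mem h x hx n)).1
      ih (norm_nonneg _) (by linarith [h.hM]))

theorem c1_Bp (h : Sys g D L P q J M K) (x : E) (hx : x ∈ K) (n : ℕ) :
    ‖Bp (fun k => L (g^[k] x)) 0 n‖ ≤ M ^ n := by
  induction n with
  | zero =>
    rw [pow_zero]
    exact ContinuousLinearMap.norm_id_le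
  | succ n ih =>
    rw [pow_succ]
    have e : Bp (fun k => L (g^[k] x)) 0 (n + 1) =
        (Bp (fun k => L (g^[k] x)) 0 n).comp (L (g^[n] x)) := by
      simp only [Bp, zero_add]
    rw [e]
    exact (ContinuousLinearMap.opNorm_comp_le _ _).trans (mul_le_mul ih
      (h.bd _ (iter_mem h x hx n)).2 (norm_nonneg _) (pow_nonneg (by linarith [h.hM]) n))

theorem c1_low (h : Sys g D L P q J M K) (x : E) (hx : x ∈ K) (n : ℕ) :
    1 ≤ M ^ n * ‖coc D g n x‖ := by
  have h1 : (Bp (fun k => L (g^[k] x)) 0 n).comp (coc D g n x) = ContinuousLinearMap.id ℝ E := by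
    ext1 <;> ext1 <;> simp [(coc_inv h n x _).1]
  have h2 : ‖ContinuousLinearMap.id ℝ E‖ = 1 := ContinuousLinearMap.norm_id
  rw [← h2, ← h1]
  exact (ContinuousLinearMap.opNorm_comp_le _ _).trans
    (mul_le_mul_of_nonneg_right (c1_Bp h x hx n) (norm_nonneg _))

theorem uu_bd (h : Sys g D L P q J M K) (x : E) (hx : x ∈ K) (n : ℕ) :
    |uu D g n x| ≤ Real.log M * n := by
  have hM : 0 < M := by linarith [h.hM]
  have hp := coc_pos h n x
  have h1 := Real.log_le_log hp (c1_up h x hx n)
  have h2 := Real.log_le_log one_pos (c1_low h x hx n)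
  rw [Real.log_mul (pow_pos hM n).ne' hp.ne', Real.log_one] at h2
  rw [Real.log_pow] at h1 h2
  unfold uu
  rw [abs_le]
  constructor <;> nlinarith

theorem uu_inv (h : Sys g D L P q J M K) (x : E) (hx : x ∈ K) (n : ℕ) :
    |uu D g (n + 1) x - uu D g n (g x)| ≤ Real.log M := by
  have hM : 0 < M := by linarith [h.hM]
  have hp := coc_pos h (n + 1) x
  have hp' := coc_pos h n (g x)
  have e1 : coc D g (n + 1) x = (coc D g n (g x)).comp (D x) := by
    rw [add_comm, coc_add 1 n x, coc_succ, coc_zero]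
    simp
  have e2 : coc D g n (g x) = (coc D g (n + 1) x).comp (L x) := by
    rw [e1]
    apply ContinuousLinearMap.ext
    intro v
    simp only [ContinuousLinearMap.comp_apply, h.right]
  have h1 : ‖coc D g (n + 1) x‖ ≤ ‖coc D g n (g x)‖ * M := by
    rw [e1]
    exact (ContinuousLinearMap.opNorm_comp_le _ _).trans
      (mul_le_mul_of_nonneg_left (h.bd x hx).1 (norm_nonneg _))
  have h2 : ‖coc D g n (g x)‖ ≤ ‖coc D g (n + 1) x‖ * M := by
    rw [e2]
    exact (ContinuousLinearMap.opNorm_comp_le _ _).trans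
      (mul_le_mul_of_nonneg_left (h.bd x hx).2 (norm_nonneg _))
  have h3 := Real.log_le_log hp h1
  have h4 := Real.log_le_log hp' h2
  rw [Real.log_mul hp'.ne' hM.ne'] at h3
  rw [Real.log_mul hp.ne' hM.ne'] at h4
  unfold uu
  rw [abs_le]
  constructor <;> linarith

theorem uu_int (h : Sys g D L P q J M K) (μ : Measure E) [IsProbabilityMeasure μ]
    (hK : μ Kᶜ = 0) (n : ℕ) : Integrable (uu D g n) μ := by
  refine Integrable.of_bound (uu_meas h n).aestronglyMeasurable (Real.log M * n) ?_
  have h1 : ∀ᵐ x ∂μ, x ∈ K := mem_ae_iff.2 hK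
  filter_upwards [h1] with x hx
  rw [Real.norm_eq_abs]
  exact uu_bd h x hx n

end MD
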