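import Pool.Agent.Lib.MP_904526_an.C2
import Pool.Agent.Lib.MP_904526_an.B5
import Pool.Agent.Lib.MP_904526_an.A2

/-!
# C3 (est. 60 min): almost every point is regular
Apply kw_lower and tempered to T = g, u = uu D g, G = K, C = log M (K is compact, hence closed and
measurable), for ε = 1/(m+1), all m (ae_all_iff). For x ∈ K with both conclusions: up with
C = exp C': ‖Fp .. n k‖ = ‖coc k (g^[n] x)‖ = exp (uu k (g^[n] x)) (Fp_coc, coc_pos). low: eventually
uu n x ≥ (Λ - ε) n, the finitely many other n by uu_bd: c = exp(-C'') .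
bdd: M (x ∈ K, iter_mem).
-/

open Set Filter Topology MeasureTheory

namespace MD

variable {g : E ≃ₜ E} {D L : E → E →L[ℝ] E} {P : E → E} {q J M : ℝ} {K : Set E}

theorem reg_ae (h : Sys g D L P q J M K) (μ : Measure E) [IsProbabilityMeasure μ]
    (hg : Ergodic g μ) (hK : μ Kᶜ = 0) (Λ : ℝ) (hΛ : LimExp D g μ Λ) :
    ∀ᵐ x ∂μ, Reg (fun k => D (g^[k] x)) (fun k => L (g^[k] x)) J Λ := by
  have hlM : 0 ≤ Real.log M := Real.log_nonneg h.hM
  have hKm : MeasurableSet K := h.Kc.measurableSet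
  obtain ⟨hF1, hF2⟩ := limExp_facts h μ hg.toMeasurePreserving hK Λ hΛ
  have hK0 : ∀ᵐ x ∂μ, x ∈ K := by
    rw [ae_iff]
    exact hK
  have hup := ae_all_iff.2 (fun m : ℕ => tempered μ g hg (uu D g) K (Real.log M) Λ
    (fun x hx => (h.Kinv x).2 hx) hKm hK hlM (uu_meas h) (fun x _ m n => uu_sub h x m n)
    (fun x hx n => uu_bd h x hx n) (fun x hx n => uu_inv h x hx n) hF2 (1 / ((m : ℝ) + 1))
    (by positivity))
  have hlow := ae_all_iff.2 (fun m : ℕ => kw_lower μ g hg (uu D g) K (Real.log M) Λ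
    (fun x hx => (h.Kinv x).2 hx) hKm hK (uu_meas h) (fun x _ m n => uu_sub h x m n)
    (fun x hx n => uu_bd h x hx n) (fun x hx n => uu_inv h x hx n) hF1 (1 / ((m : ℝ) + 1))
    (by positivity))
  filter_upwards [hK0, hup, hlow] with x hx h1 h2
  have hcoc : ∀ n y, ‖coc D g n y‖ = Real.exp (uu D g n y) := by
    intro n y
    unfold uu
    rw [Real.exp_log (coc_pos h n y)]
  refine ⟨fun k v => h.left _ v, fun k v => h.right _ v, fun k => h.det _,
    ⟨M, fun k => h.bd _ (iter_mem h x hx k)⟩, ?_, ?_⟩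
  · intro ε hε
    obtain ⟨m, hm⟩ := exists_nat_one_div_lt hε
    obtain ⟨C', hC'⟩ := h1 m
    refine ⟨Real.exp C', fun n k => ?_⟩
    rw [Fp_coc, hcoc, ← Real.exp_add, Real.exp_le_exp]
    have h3 := hC' n k
    have hk : (0 : ℝ) ≤ k := Nat.cast_nonneg k
    have hn : (0 : ℝ) ≤ n := Nat.cast_nonneg n
    have h4 : (1 / ((m : ℝ) + 1)) * k ≤ ε * k := mul_le_mul_of_nonneg_right hm.le hk
    have h5 : (1 / ((m : ℝ) + 1)) * n ≤ ε * n := mul_le_mul_of_nonneg_right hm.le hn
    linarith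
  · intro ε hε
    obtain ⟨m, hm⟩ := exists_nat_one_div_lt hε
    obtain ⟨N, hN⟩ := eventually_atTop.1 (h2 m)
    refine ⟨Real.exp (-(Real.log M * N + |Λ - ε| * N)), Real.exp_pos _, fun n => ?_⟩
    change _ ≤ ‖coc D g n x‖
    rw [hcoc, ← Real.exp_add, Real.exp_le_exp]
    have hn : (0 : ℝ) ≤ n := Nat.cast_nonneg n
    have hN0 : (0 : ℝ) ≤ N := Nat.cast_nonneg N
    by_cases hnN : N ≤ n
    · have h3 := hN n hnN
      have h5 : (1 / ((m : ℝ) + 1)) * n ≤ ε * n := mul_le_mul_of_nonneg_right hm.le hn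
      have h6 : 0 ≤ Real.log M * N + |Λ - ε| * N := by positivity
      linarith
    · push Not at hnN
      have hnN' : (n : ℝ) ≤ N := by exact_mod_cast hnN.le
      have h3 := neg_le_of_abs_le (uu_bd h x hx n)
      have h4 : Real.log M * n ≤ Real.log M * N := mul_le_mul_of_nonneg_left hnN' hlM
      have h5 : (Λ - ε) * n ≤ |Λ - ε| * N :=
        (mul_le_mul_of_nonneg_right (le_abs_self _) hn).trans
          (mul_le_mul_of_nonneg_left hnN' (abs_nonneg _))
      linarith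

end MD
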