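import Pool.Agent.Lib.MP_904526_an.C2

/-!
# C4 (est. 60 min): the exponent of the inverse system
Let D' y = L (g.symm y) (derivative of the inverse at y). coc D' g.symm n (g^[n] x) is the inverse of
coc D g n x: induction (the product L x ∘ L (g x) ∘ ... ∘ L (g^[n-1] x) = Bp .. 0 n). Hence
(inv_norm_le, twice) | log ‖coc D' g.symm n (g^[n] x)‖ - (log ‖coc D g n x‖ - n log J) | ≤ log 2 on
K: ‖A⁻¹‖ ≤ 2 ‖A‖ / |dt A| and ‖A‖ ≤ 2 ‖A⁻¹‖ / |dt A⁻¹| with |dt A| = J^n. Integrate, using that g^[n]
preserves μ: |∫ uu D' g.symm n - (∫ uu D g n - n log J)| ≤ log 2, divide by n.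
(h' : Sys for the inverse gives integrability.)
-/

open Set Filter Topology MeasureTheory

namespace MD

variable {g : E ≃ₜ E} {D L : E → E →L[ℝ] E} {P P' : E → E} {q q' J J' M M' : ℝ} {K : Set E}

/-- backward derivative cocycle = inverse of the forward one -/
theorem coc_symm (h : Sys g D L P q J M K) (n : ℕ) (x v : E) :
    coc (fun y => L (g.symm y)) g.symm n (g^[n] x) (coc D g n x v) = v ∧
      coc D g n x (coc (fun y => L (g.symm y)) g.symm n (g^[n] x) v) = v := by
  induction n generalizing v with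
  | zero => exact ⟨rfl, rfl⟩
  | succ n ih =>
    have e : ∀ w, coc (fun y => L (g.symm y)) g.symm (n + 1) (g^[n + 1] x) w =
        coc (fun y => L (g.symm y)) g.symm n (g^[n] x) (L (g^[n] x) w) := by
      intro w
      rw [add_comm n 1, coc_add 1 n, coc_succ, coc_zero, add_comm 1 n]
      simp only [ContinuousLinearMap.comp_apply, Function.iterate_zero, id_eq,
        Function.iterate_succ_apply', Homeomorph.symm_apply_apply,
        ContinuousLinearMap.id_apply]
    constructor
    · rw [e, coc_succ, ContinuousLinearMap.comp_apply, h.left]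
      exact (ih v).1
    · rw [e, coc_succ, ContinuousLinearMap.comp_apply, (ih _).2, h.right]

theorem c4_point (h : Sys g D L P q J M K) (n : ℕ) (x : E) :
    |uu (fun y => L (g.symm y)) g.symm n (g^[n] x) - (uu D g n x - n * Real.log J)| ≤
      Real.log 2 := by
  set A := coc D g n x with hA
  set B := coc (fun y => L (g.symm y)) g.symm n (g^[n] x) with hB
  have hAB : ∀ v, A (B v) = v := fun v => (coc_symm h n x v).2
  have hBA : ∀ v, B (A v) = v := fun v => (coc_symm h n x v).1
  have hJn : 0 < J ^ n := pow_pos h.hJ n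
  have h1 : |dt A| = J ^ n := coc_dt h n x
  have h2 : |dt B| * J ^ n = 1 := by
    rw [← h1, ← abs_mul, ← dt_comp]
    have e : B.comp A = ContinuousLinearMap.id ℝ E := ContinuousLinearMap.ext hBA
    rw [e, dt_id, abs_one]
  have hA0 : 0 < ‖A‖ := norm_le_cd A (dt_ne A B hAB)
  have hB0 : 0 < ‖B‖ := norm_le_cd B (dt_ne B A hBA)
  have h3 := inv_norm_le A B hAB hBA
  have h4 := inv_norm_le B A hBA hAB
  have h5 : ‖B‖ * J ^ n ≤ 2 * ‖A‖ := by
    rw [h1, le_div_iff₀ hJn] at h3
    exact h3
  have h6 : ‖A‖ ≤ 2 * ‖B‖ * J ^ n := by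
    have h7 : |dt B| = 1 / J ^ n := by
      rw [eq_div_iff hJn.ne']
      exact h2
    rw [h7] at h4
    calc ‖A‖ ≤ 2 * ‖B‖ / (1 / J ^ n) := h4
      _ = 2 * ‖B‖ * J ^ n := by rw [div_div_eq_mul_div, div_one]
  have h7 := Real.log_le_log (mul_pos hB0 hJn) h5
  have h8 := Real.log_le_log hA0 h6
  rw [Real.log_mul hB0.ne' hJn.ne', Real.log_mul two_ne_zero hA0.ne', Real.log_pow] at h7
  rw [Real.log_mul (mul_pos two_pos hB0).ne' hJn.ne', Real.log_mul two_ne_zero hB0.ne',
    Real.log_pow] at h8
  unfold uu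
  rw [← hA, ← hB, abs_le]
  constructor <;> linarith

theorem limExp_symm (h : Sys g D L P q J M K)
    (h' : Sys g.symm (fun y => L (g.symm y)) (fun y => D (g.symm y)) P' q' J' M' K)
    (μ : Measure E) [IsProbabilityMeasure μ]
    (hg : MeasurePreserving g μ μ) (hK : μ Kᶜ = 0) (Λ : ℝ) (hΛ : LimExp D g μ Λ) :
    LimExp (fun y => L (g.symm y)) g.symm μ (Λ - Real.log J) := by
  set e : ℕ → ℝ := fun n => (∫ x, uu (fun y => L (g.symm y)) g.symm n x ∂μ) -
    ((∫ x, uu D g n x ∂μ) - n * Real.log J) with he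
  have hb : ∀ n, |e n| ≤ Real.log 2 := by
    intro n
    have hm : MeasurePreserving (g^[n]) μ μ := hg.iterate n
    have h1 : ∫ x, uu (fun y => L (g.symm y)) g.symm n x ∂μ =
        ∫ x, uu (fun y => L (g.symm y)) g.symm n (g^[n] x) ∂μ := by
      conv_lhs => rw [← hm.map_eq]
      rw [integral_map hm.measurable.aemeasurable]
      rw [hm.map_eq]
      exact (uu_meas h' n).aestronglyMeasurable
    have i1 : Integrable (fun x => uu (fun y => L (g.symm y)) g.symm n (g^[n] x)) μ :=
      hm.integrable_comp_of_integrable (uu_int h' μ hK n)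
    have i2 : Integrable (uu D g n) μ := uu_int h μ hK n
    have i3 : Integrable (fun x => uu D g n x - n * Real.log J) μ := i2.sub (integrable_const _)
    have h2 : e n = ∫ x, (uu (fun y => L (g.symm y)) g.symm n (g^[n] x) -
        (uu D g n x - n * Real.log J)) ∂μ := by
      rw [integral_sub i1 i3, integral_sub i2 (integrable_const _),
        integral_const, he]
      simp only [probReal_univ, one_smul]
      rw [h1]
    rw [h2, ← Real.norm_eq_abs]
    refine (norm_integral_le_of_norm_le_const (C := Real.log 2)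
      (Eventually.of_forall fun x => ?_)).trans ?_
    · rw [Real.norm_eq_abs]
      exact c4_point h n x
    · rw [probReal_univ, mul_one]
  have h0 : Tendsto (fun n : ℕ => e n / n) atTop (𝓝 0) := by
    have h1 : Tendsto (fun n : ℕ => Real.log 2 / (n : ℝ)) atTop (𝓝 0) :=
      tendsto_const_div_atTop_nhds_zero_nat _
    refine squeeze_zero_norm (fun n => ?_) h1
    rw [Real.norm_eq_abs, abs_div, Nat.abs_cast]
    exact div_le_div_of_nonneg_right (hb n) (Nat.cast_nonneg n)
  have h1 : Tendsto (fun n : ℕ => (∫ x, uu D g n x ∂μ) / n - Real.log J + e n / n) atTop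
      (𝓝 (Λ - Real.log J + 0)) := (hΛ.sub tendsto_const_nhds).add h0
  rw [add_zero] at h1
  refine h1.congr' ?_
  filter_upwards [eventually_ge_atTop 1] with n hn
  have hn' : (n : ℝ) ≠ 0 := by positivity
  rw [he]
  field_simp
  ring

end MD
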