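import Pool.Agent.Lib.MP_904526_an.A1

/-!
# G3 (est. 120 min): local stable curves are graphs, which do not cross
Coordinates: al z = wg (z - x0) u0 / wg s0 u0, be z = wg s0 (z - x0) / wg s0 u0, so
z = x0 + al z • s0 + be z • u0 (decomp), |al z - al z'| ≤ 2 ‖z - z'‖ / |w0|, same for be, w0 = wg s0 u0.
Note δ ≤ |w0|/80 ≤ 1/40. For x ∈ N, |t|,|t'| ≤ r: ‖c x t - c x t' - (t - t') s0‖ ≤ 2 δ |t - t'|, hence
|al (c x t) - al (c x t') - (t - t')| ≤ (4δ/|w0|)|t-t'| ≤ |t - t'|/20 and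
|be (c x t) - be (c x t')| ≤ |t - t'|/20. al (c x 0) = al x, |al x|, |be x| ≤ 2δr/|w0| ≤ r/40.
So t ↦ al (c x t) is continuous and strictly increasing on [-r, r], its image contains
[al x - 0.95 r, al x + 0.95 r] ⊇ [-r/4, r/4] (IVT). For a ∈ [-r/4, r/4] let τ x a be the unique t with
al (c x t) = a, φ x a = be (c x (τ x a)); extend φ x to ℝ by φ x a = φ x (clamped a)
(max (-r/4) (min a (r/4))). |τ x a - τ x a'| ≤ |a - a'|/0.95, so φ x is Lipschitz with constant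
(1/20)/0.95 ≤ 1/4. |φ x a| ≤ |be x| + (1/19)(|a| + r/40) ≤ r/8. al x ≤ a implies 0 ≤ τ x a.
φ x (al x) = be x (τ = 0).
No crossing: let φ x a = φ y a for some a, replace a by its clamp. z = x0 + a s0 + (φ x a) u0 =
c x t₁ = c y t₂. For any a' in the box, z' = x0 + a' s0 + (φ y a') u0 = c y t₃. For all k,
‖g^k z' - g^k x‖ ≤ ‖g^k z' - g^k y‖ + ‖g^k y - g^k z‖ + ‖g^k z - g^k x‖ ≤ A (|t₃|+|t₂|+|t₁|) wt α k ≤
3 A r wt α k, and ‖z' - x‖ ≤ |a'| + |φ y a'| + δ r ≤ r/4 + r/8 + r/40 ≤ r/2. By cap for x: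
z' = c x t with |t| ≤ r, al z' = a', so t = τ x a' and φ x a' = be z' = φ y a'.
-/

open Set Filter Topology MeasureTheory

namespace MD

/-- clamp to [-ρ, ρ] -/
noncomputable def g3_cl (ρ a : ℝ) : ℝ := max (-ρ) (min a ρ)

theorem g3_cl_abs {ρ : ℝ} (hρ : 0 ≤ ρ) (a : ℝ) : |g3_cl ρ a| ≤ ρ := by
  unfold g3_cl
  rw [abs_le]
  constructor
  · exact le_max_left _ _
  · exact max_le (by linarith) (min_le_right _ _)

theorem g3_cl_of {ρ a : ℝ} (h : |a| ≤ ρ) : g3_cl ρ a = a := by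
  unfold g3_cl
  rw [abs_le] at h
  rw [min_eq_left h.2, max_eq_right h.1]

theorem g3_cl_lip (ρ a b : ℝ) : |g3_cl ρ a - g3_cl ρ b| ≤ |a - b| := by
  unfold g3_cl
  refine (abs_max_sub_max_le_max _ _ _ _).trans ?_
  refine max_le ?_ ?_
  · simp
  · refine (abs_min_sub_min_le_max _ _ _ _).trans ?_
    refine max_le le_rfl ?_
    simp

theorem g3_one (f h : ℝ → ℝ) (r : ℝ) (hr : 0 < r)
    (hf : ∀ t t', |t| ≤ r → |t'| ≤ r → |f t - f t' - (t - t')| ≤ |t - t'| / 20)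
    (hh : ∀ t t', |t| ≤ r → |t'| ≤ r → |h t - h t'| ≤ |t - t'| / 20)
    (hf0 : |f 0| ≤ r / 40) (hh0 : |h 0| ≤ r / 40) :
    ∃ φ : ℝ → ℝ, LipschitzWith (1 / 4) φ ∧ (∀ a, |φ a| ≤ r / 8) ∧
      (∀ a, φ a = φ (g3_cl (r / 4) a)) ∧
      (∀ a, |a| ≤ r / 4 → ∃ t, |t| ≤ r ∧ f t = a ∧ h t = φ a ∧ (f 0 ≤ a → 0 ≤ t)) ∧
      (∀ t, |t| ≤ r → |f t| ≤ r / 4 → φ (f t) = h t) := by
  have h0r : |(0 : ℝ)| ≤ r := by rw [abs_zero]; exact hr.le
  -- lower Lipschitz bound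
  have hlow : ∀ t t', |t| ≤ r → |t'| ≤ r → |t - t'| ≤ 20 / 19 * |f t - f t'| := by
    intro t t' ht ht'
    have h1 := hf t t' ht ht'
    have h2 : |t - t'| ≤ |f t - f t'| + |f t - f t' - (t - t')| := by
      have e : t - t' = (f t - f t') - (f t - f t' - (t - t')) := by ring
      calc |t - t'| = |(f t - f t') - (f t - f t' - (t - t'))| := by rw [← e]
        _ ≤ _ := abs_sub _ _
    linarith
  have hup : ∀ t t', |t| ≤ r → |t'| ≤ r → |f t - f t'| ≤ 2 * |t - t'| := by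
    intro t t' ht ht'
    have h1 := hf t t' ht ht'
    have h2 : |f t - f t'| ≤ |t - t'| + |f t - f t' - (t - t')| := by
      have e : f t - f t' = (t - t') + (f t - f t' - (t - t')) := by ring
      calc |f t - f t'| = |(t - t') + (f t - f t' - (t - t'))| := by rw [← e]
        _ ≤ _ := abs_add_le _ _
    have h3 := abs_nonneg (t - t')
    linarith
  have hcont : ContinuousOn f (Icc (-r) r) := by
    have : LipschitzOnWith 2 f (Icc (-r) r) := by
      apply LipschitzOnWith.of_dist_le_mul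
      intro t ht t' ht'
      rw [Real.dist_eq, Real.dist_eq]
      exact hup t t' (abs_le.2 ht) (abs_le.2 ht')
    exact this.continuousOn
  have hr' : |r| ≤ r := by rw [abs_of_pos hr]
  have hnr : |-r| ≤ r := by rw [abs_neg, abs_of_pos hr]
  have hfr : r / 4 ≤ f r := by
    have h1 := hf r 0 hr' h0r
    rw [sub_zero, abs_of_pos hr] at h1
    have h2 := (abs_le.1 h1).1
    have h3 := (abs_le.1 hf0).1
    linarith
  have hfnr : f (-r) ≤ -(r / 4) := by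
    have h1 := hf (-r) 0 hnr h0r
    rw [sub_zero, abs_neg, abs_of_pos hr] at h1
    have h2 := (abs_le.1 h1).2
    have h3 := (abs_le.1 hf0).2
    linarith
  have hex : ∀ a : ℝ, |a| ≤ r / 4 → ∃ t, |t| ≤ r ∧ f t = a := by
    intro a ha
    rw [abs_le] at ha
    have h1 : a ∈ f '' Icc (-r) r :=
      intermediate_value_Icc (by linarith) hcont ⟨by linarith [ha.1], by linarith [ha.2]⟩
    obtain ⟨t, ht, hta⟩ := h1
    exact ⟨t, abs_le.2 ht, hta⟩
  choose! τ hτ1 hτ2 using hex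
  have hcl : ∀ a, |g3_cl (r / 4) a| ≤ r / 4 := fun a => g3_cl_abs (by linarith) a
  have hτu : ∀ t, |t| ≤ r → |f t| ≤ r / 4 → τ (f t) = t := by
    intro t ht hft
    have h1 := hlow (τ (f t)) t (hτ1 _ hft) ht
    rw [hτ2 _ hft, sub_self, abs_zero, mul_zero] at h1
    have h2 : |τ (f t) - t| = 0 := le_antisymm h1 (abs_nonneg _)
    rw [abs_eq_zero] at h2
    linarith
  refine ⟨fun a => h (τ (g3_cl (r / 4) a)), ?_, ?_, ?_, ?_, ?_⟩
  · apply LipschitzWith.of_dist_le_mul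
    intro a b
    rw [Real.dist_eq, Real.dist_eq]
    have h1 := hh _ _ (hτ1 _ (hcl a)) (hτ1 _ (hcl b))
    have h2 := hlow _ _ (hτ1 _ (hcl a)) (hτ1 _ (hcl b))
    rw [hτ2 _ (hcl a), hτ2 _ (hcl b)] at h2
    have h3 := g3_cl_lip (r / 4) a b
    have h4 : ((1 / 4 : NNReal) : ℝ) = 1 / 4 := by norm_num
    rw [h4]
    have h5 := abs_nonneg (a - b)
    linarith
  · intro a
    show |h (τ (g3_cl (r / 4) a))| ≤ r / 8
    have h1 := hh _ 0 (hτ1 _ (hcl a)) h0r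
    have h2 := hlow _ 0 (hτ1 _ (hcl a)) h0r
    rw [hτ2 _ (hcl a)] at h2
    have h3 : |g3_cl (r / 4) a - f 0| ≤ r / 4 + r / 40 :=
      (abs_sub _ _).trans (add_le_add (hcl a) hf0)
    have h4 : |h (τ (g3_cl (r / 4) a))| ≤ |h (τ (g3_cl (r / 4) a)) - h 0| + |h 0| := by
      have e : h (τ (g3_cl (r / 4) a)) = (h (τ (g3_cl (r / 4) a)) - h 0) + h 0 := by ring
      calc |h (τ (g3_cl (r / 4) a))| = |(h (τ (g3_cl (r / 4) a)) - h 0) + h 0| := by rw [← e]
        _ ≤ _ := abs_add_le _ _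
    linarith
  · intro a
    show h (τ (g3_cl (r / 4) a)) = h (τ (g3_cl (r / 4) (g3_cl (r / 4) a)))
    rw [g3_cl_of (hcl a)]
  · intro a ha
    refine ⟨τ a, hτ1 a ha, hτ2 a ha, ?_, ?_⟩
    · show h (τ a) = h (τ (g3_cl (r / 4) a))
      rw [g3_cl_of ha]
    · intro h0
      by_contra hneg
      push Not at hneg
      have h1 := hf (τ a) 0 (hτ1 a ha) h0r
      rw [hτ2 a ha, sub_zero, abs_of_neg hneg] at h1
      have h2 := (abs_le.1 h1).2
      linarith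
  · intro t ht hft
    show h (τ (g3_cl (r / 4) (f t))) = h t
    rw [g3_cl_of hft, hτu t ht hft]

theorem g3_al (x0 s0 u0 : E) (a b : ℝ) :
    wg (x0 + a • s0 + b • u0 - x0) u0 = a * wg s0 u0 := by
  simp [wg]; ring

theorem g3_be (x0 s0 u0 : E) (a b : ℝ) :
    wg s0 (x0 + a • s0 + b • u0 - x0) = b * wg s0 u0 := by
  simp [wg]; ring

theorem graphs (g : E ≃ₜ E) (c : E → ℝ → E) (S : E → E) (α A δ r : ℝ) (N : Set E)
    (x0 s0 u0 : E) (hr : 0 < r) (hA : 1 ≤ A) (hδ : 0 < δ) (h1 : ‖s0‖ = 1) (h2 : ‖u0‖ = 1)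
    (hw : 80 * δ ≤ |wg s0 u0|)
    (hloc : ∀ x ∈ N, LocAt g (c x) (S x) α A δ r x)
    (hs : ∀ x ∈ N, ‖S x - s0‖ ≤ δ) (hx : ∀ x ∈ N, ‖x - x0‖ ≤ δ * r) :
    ∃ φ : E → ℝ → ℝ,
      (∀ x ∈ N, LipschitzWith (1 / 4) (φ x)) ∧
      (∀ x ∈ N, ∀ a, |φ x a| ≤ r / 8) ∧
      (∀ x ∈ N, ∀ a, |a| ≤ r / 4 → ∃ t : ℝ, |t| ≤ r ∧ c x t = x0 + a • s0 + (φ x a) • u0 ∧
        (wg (x - x0) u0 / wg s0 u0 ≤ a → 0 ≤ t)) ∧
      (∀ x ∈ N, φ x (wg (x - x0) u0 / wg s0 u0) = wg s0 (x - x0) / wg s0 u0) ∧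
      (∀ x ∈ N, ∀ y ∈ N, (∃ a, φ x a = φ y a) → φ x = φ y) := by
  have hw0 : 0 < |wg s0 u0| := by linarith
  have hwn : wg s0 u0 ≠ 0 := abs_pos.1 hw0
  have hδ1 : δ ≤ 1 / 40 := by
    have := wg_le s0 u0
    rw [h1, h2] at this
    linarith
  have hla : ∀ z : E, ∀ K : ℝ, ‖z‖ ≤ K * δ → |wg z u0 / wg s0 u0| ≤ K / 40 := by
    intro z K hK
    have h3 := wg_le z u0
    rw [h2, mul_one] at h3
    rw [abs_div, div_le_iff₀ hw0]
    have hK0 : 0 ≤ K := by
      by_contra hneg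
      push Not at hneg
      have := norm_nonneg z
      nlinarith
    nlinarith
  have hlb : ∀ z : E, ∀ K : ℝ, ‖z‖ ≤ K * δ → |wg s0 z / wg s0 u0| ≤ K / 40 := by
    intro z K hK
    have h3 := wg_le s0 z
    rw [h1, mul_one] at h3
    rw [abs_div, div_le_iff₀ hw0]
    have hK0 : 0 ≤ K := by
      by_contra hneg
      push Not at hneg
      have := norm_nonneg z
      nlinarith
    nlinarith
  have hlin : ∀ x ∈ N, ∀ t t' : ℝ, |t| ≤ r → |t'| ≤ r →
      ‖c x t - c x t' - (t - t') • s0‖ ≤ (2 * |t - t'|) * δ := by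
    intro x hxN t t' ht ht'
    have e1 := (hloc x hxN).lin t t' ht ht'
    have e2 : ‖(t - t') • (S x - s0)‖ ≤ |t - t'| * δ := by
      rw [norm_smul, Real.norm_eq_abs]
      exact mul_le_mul_of_nonneg_left (hs x hxN) (abs_nonneg _)
    have e3 : c x t - c x t' - (t - t') • s0
        = (c x t - c x t' - (t - t') • S x) + (t - t') • (S x - s0) := by
      rw [smul_sub]; abel
    rw [e3]
    refine (norm_add_le _ _).trans ?_
    linarith
  have hone : ∀ x ∈ N, ∃ φ : ℝ → ℝ, LipschitzWith (1 / 4) φ ∧ (∀ a, |φ a| ≤ r / 8) ∧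
      (∀ a, φ a = φ (g3_cl (r / 4) a)) ∧
      (∀ a, |a| ≤ r / 4 → ∃ t, |t| ≤ r ∧ wg (c x t - x0) u0 / wg s0 u0 = a ∧
        wg s0 (c x t - x0) / wg s0 u0 = φ a ∧ (wg (c x 0 - x0) u0 / wg s0 u0 ≤ a → 0 ≤ t)) ∧
      (∀ t, |t| ≤ r → |wg (c x t - x0) u0 / wg s0 u0| ≤ r / 4 →
        φ (wg (c x t - x0) u0 / wg s0 u0) = wg s0 (c x t - x0) / wg s0 u0) := by
    intro x hxN
    refine g3_one (fun t => wg (c x t - x0) u0 / wg s0 u0)
      (fun t => wg s0 (c x t - x0) / wg s0 u0) r hr ?_ ?_ ?_ ?_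
    · intro t t' ht ht'
      have e1 : wg (c x t - x0) u0 / wg s0 u0 - wg (c x t' - x0) u0 / wg s0 u0 - (t - t')
          = wg (c x t - c x t' - (t - t') • s0) u0 / wg s0 u0 := by
        field_simp
        simp [wg]; ring
      show |wg (c x t - x0) u0 / wg s0 u0 - wg (c x t' - x0) u0 / wg s0 u0 - (t - t')| ≤ _
      rw [e1]
      refine (hla _ _ (hlin x hxN t t' ht ht')).trans ?_
      linarith
    · intro t t' ht ht'
      have e1 : wg s0 (c x t - x0) / wg s0 u0 - wg s0 (c x t' - x0) / wg s0 u0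
          = wg s0 (c x t - c x t' - (t - t') • s0) / wg s0 u0 := by
        field_simp
        simp [wg]; ring
      show |wg s0 (c x t - x0) / wg s0 u0 - wg s0 (c x t' - x0) / wg s0 u0| ≤ _
      rw [e1]
      refine (hlb _ _ (hlin x hxN t t' ht ht')).trans ?_
      linarith
    · show |wg (c x 0 - x0) u0 / wg s0 u0| ≤ _
      rw [(hloc x hxN).zero]
      exact hla _ _ (by rw [mul_comm]; exact hx x hxN)
    · show |wg s0 (c x 0 - x0) / wg s0 u0| ≤ _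
      rw [(hloc x hxN).zero]
      exact hlb _ _ (by rw [mul_comm]; exact hx x hxN)
  choose! φ hφ1 hφ2 hφ3 hφ4 hφ5 using hone
  have hpt : ∀ x ∈ N, ∀ a, |a| ≤ r / 4 → ∃ t : ℝ, |t| ≤ r ∧
      c x t = x0 + a • s0 + (φ x a) • u0 ∧ (wg (x - x0) u0 / wg s0 u0 ≤ a → 0 ≤ t) := by
    intro x hxN a ha
    obtain ⟨t, ht1, ht2, ht3, ht4⟩ := hφ4 x hxN a ha
    refine ⟨t, ht1, ?_, ?_⟩
    · have e1 := decomp s0 u0 (c x t - x0) hwn
      rw [ht2, ht3] at e1
      rw [add_assoc, ← e1]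
      abel
    · intro h3
      apply ht4
      rw [(hloc x hxN).zero]
      exact h3
  refine ⟨φ, hφ1, hφ2, hpt, ?_, ?_⟩
  · intro x hxN
    have e1 := hφ5 x hxN 0 (by rw [abs_zero]; exact hr.le) (by
      rw [(hloc x hxN).zero]
      refine (hla (x - x0) r (by rw [mul_comm]; exact hx x hxN)).trans ?_
      linarith)
    rw [(hloc x hxN).zero] at e1
    exact e1
  · rintro x hxN y hyN ⟨a, ha⟩
    have ha0 : φ x (g3_cl (r / 4) a) = φ y (g3_cl (r / 4) a) := by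
      rw [← hφ3 x hxN a, ← hφ3 y hyN a, ha]
    have hcl : ∀ a, |g3_cl (r / 4) a| ≤ r / 4 := fun a => g3_cl_abs (by linarith) a
    obtain ⟨t1, ht1, hz1, -⟩ := hpt x hxN _ (hcl a)
    obtain ⟨t2, ht2, hz2, -⟩ := hpt y hyN _ (hcl a)
    have h12 : c x t1 = c y t2 := by rw [hz1, hz2, ha0]
    funext a'
    rw [hφ3 x hxN a', hφ3 y hyN a']
    set b := g3_cl (r / 4) a' with hb
    have hbr : |b| ≤ r / 4 := hcl a'
    obtain ⟨t3, ht3, hz3, -⟩ := hpt y hyN b hbr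
    have hcap := (hloc x hxN).cap (c y t3) (by
      intro k
      have n1 := (hloc x hxN).near t1 ht1 k
      have n2 := (hloc y hyN).near t2 ht2 k
      have n3 := (hloc y hyN).near t3 ht3 k
      have e1 : g^[k] (c y t3) - g^[k] x = (g^[k] (c y t3) - g^[k] y)
          + (g^[k] y - g^[k] (c y t2)) + (g^[k] (c x t1) - g^[k] x) := by
        rw [h12]; abel
      rw [e1]
      have hAw : 0 ≤ A * wt α k := mul_nonneg (by linarith) (Real.exp_pos _).le
      rw [norm_sub_rev] at n2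
      calc _ ≤ ‖g^[k] (c y t3) - g^[k] y‖ + ‖g^[k] y - g^[k] (c y t2)‖
            + ‖g^[k] (c x t1) - g^[k] x‖ := norm_add₃_le
        _ ≤ A * |t3| * wt α k + A * |t2| * wt α k + A * |t1| * wt α k := by linarith
        _ = (A * wt α k) * (|t3| + |t2| + |t1|) := by ring
        _ ≤ (A * wt α k) * (3 * r) := by
            apply mul_le_mul_of_nonneg_left _ hAw
            linarith
        _ = 3 * A * r * wt α k := by ring) (by
      rw [hz3]
      have e1 : x0 + b • s0 + φ y b • u0 - x = b • s0 + φ y b • u0 + (-(x - x0)) := by abel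
      rw [e1]
      have m1 : ‖b • s0‖ ≤ r / 4 := by
        rw [norm_smul, h1, mul_one, Real.norm_eq_abs]; exact hbr
      have m2 : ‖φ y b • u0‖ ≤ r / 8 := by
        rw [norm_smul, h2, mul_one, Real.norm_eq_abs]; exact hφ2 y hyN b
      have m3 : ‖-(x - x0)‖ ≤ r / 40 := by
        rw [norm_neg]
        refine (hx x hxN).trans ?_
        nlinarith
      refine (norm_add₃_le).trans ?_
      linarith)
    obtain ⟨t, ht, hct⟩ := hcap
    have f1 : wg (c x t - x0) u0 / wg s0 u0 = b := by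
      rw [hct, hz3, g3_al, mul_div_assoc, div_self hwn, mul_one]
    have f2 : wg s0 (c x t - x0) / wg s0 u0 = φ y b := by
      rw [hct, hz3, g3_be, mul_div_assoc, div_self hwn, mul_one]
    have f3 := hφ5 x hxN t ht (by rw [f1]; exact hbr)
    rw [f1, f2] at f3
    exact f3

end MD
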