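import Pool.Agent.Lib.MP_904526_an.L2

/-!
# L3 (est. 90 min): existence of the stable curve (the limit Gam)
For t and n put W n k = Hb L P k (n-k) (t • v n) for k ≤ n: an orbit on [0,n] (Hb_succ'), W n n = t v n.
smallness: there is k0 with 16 q C |t| K1 wt(χ-2ε) k0 ≤ 1 (wt_tendsto, χ - 2ε > 0).
cl0 with X = C |t|: hend: Bp L k (n-k) (t v n) = t v k (Bp_v) so ≤ |t| C a_k. So ‖W n k‖ ≤ 2 C |t| a_k
for k0 ≤ k ≤ n. cl1 for W (n+1) and W n on [k0,n], Y = 2 C |t|: the difference at n is P (t v (n+1)),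
‖.‖ ≤ q C² t² wt(χ-ε)(n+1)² ≤ q C² t² wt (χ + ε + (χ - 3ε)) n; end_bd with η = χ - 3ε:
X n = C³ q t² wt (χ-3ε) n. So ‖W (n+1) k - W n k‖ ≤ 2 X n a_k, summable: Cauchy for k ≥ k0.
For k < k0: Hb L P k n (t v (k+n)) = Hb L P k (k0-k) (Hb L P k0 (n-(k0-k)) (..)) (Hb_add) and
continuity (Hb_cont). Note the index: Gam is the limit over n of Hb L P k n (t v (k+n)) = W (k+n) k.
gam_small: (for X, k0) cl0 with hend from hX, then pass to the limit.
gam_diff: cl1 with Y = 2X, X' = C |t - t'|, then pass to the limit.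
-/

open Set Filter Topology MeasureTheory

namespace MD

variable {L : ℕ → E →L[ℝ] E} {P : E → E} {v : ℕ → E} {q C χ ε : ℝ}

/-- the approximating orbits -/
noncomputable def l3_W (L : ℕ → E →L[ℝ] E) (P : E → E) (v : ℕ → E) (t : ℝ) (n k : ℕ) : E :=
  Hb L P k (n - k) (t • v n)

theorem l3_W_self (t : ℝ) (n : ℕ) : l3_W L P v t n n = t • v n := by
  simp [l3_W, Hb]

theorem l3_W_rec (t : ℝ) (n i : ℕ) (hi : i < n) :
    l3_W L P v t n i = L i (l3_W L P v t n (i + 1)) + P (l3_W L P v t n (i + 1)) := by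
  unfold l3_W
  have e : n - i = (n - (i + 1)) + 1 := by omega
  rw [e, Hb_succ']

theorem l3_W_add (t : ℝ) (k n : ℕ) :
    l3_W L P v t (k + n) k = Hb L P k n (t • v (k + n)) := by
  unfold l3_W
  rw [Nat.add_sub_cancel_left]

theorem l3_Bp_t (h : Tame L P v q C χ ε) (t : ℝ) (k n : ℕ) (hkn : k ≤ n) :
    Bp L k (n - k) (t • v n) = t • v k := by
  have h1 := Bp_v h k (n - k)
  rw [Nat.add_sub_cancel' hkn] at h1
  rw [map_smul, h1]

theorem l3_vt (h : Tame L P v q C χ ε) (t : ℝ) (k : ℕ) :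
    ‖t • v k‖ ≤ (C * |t|) * wt (χ - ε) k := by
  rw [norm_smul, Real.norm_eq_abs]
  have := mul_le_mul_of_nonneg_left (h.vup k) (abs_nonneg t)
  calc |t| * ‖v k‖ ≤ |t| * (C * wt (χ - ε) k) := this
    _ = _ := by ring

theorem l3_C_pos (h : Tame L P v q C χ ε) : 0 < C := lt_of_lt_of_le one_pos h.hC

theorem l3_exists (h : Tame L P v q C χ ε) (A : ℝ) :
    ∃ k0 : ℕ, A * wt (χ - 2 * ε) k0 ≤ 1 := by
  have hpos : 0 < χ - 2 * ε := by have := h.hε; have := h.hχ; linarith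
  have h1 := (wt_tendsto hpos).const_mul A
  rw [mul_zero] at h1
  exact (h1.eventually (ge_mem_nhds one_pos)).exists

theorem l3_W_bd (h : Tame L P v q C χ ε) (t : ℝ) (k0 n : ℕ) (X : ℝ) (hX0 : 0 ≤ X)
    (hX : ∀ k, k0 ≤ k → ‖t • v k‖ ≤ X * wt (χ - ε) k)
    (hsm : 4 * q * X * K1 C χ ε * wt (χ - 2 * ε) k0 ≤ 1) :
    ∀ k, k0 ≤ k → k ≤ n → ‖l3_W L P v t n k‖ ≤ 2 * X * wt (χ - ε) k := by
  refine cl0 h (l3_W L P v t n) k0 n X hX0 ?_ ?_ hsm
  · intro i _ hi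
    exact l3_W_rec t n i hi
  · intro k hk hkn
    rw [l3_W_self, l3_Bp_t h t k n hkn]
    exact hX k hk

theorem l3_step (h : Tame L P v q C χ ε) (t : ℝ) (k0 n : ℕ)
    (hsm : 8 * q * (C * |t|) * K1 C χ ε * wt (χ - 2 * ε) k0 ≤ 1) :
    ∀ k, k0 ≤ k → k ≤ n → ‖l3_W L P v t (n + 1) k - l3_W L P v t n k‖
      ≤ 2 * (C * (q * (C * |t|) ^ 2) * wt (χ - 3 * ε) n) * wt (χ - ε) k := by
  intro k hk hkn
  have hq := h.hq
  have hC := l3_C_pos h
  have hK := K1_pos h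
  have hε := h.hε
  have hχ := h.hχ
  have hX0 : 0 ≤ C * |t| := mul_nonneg hC.le (abs_nonneg t)
  have hw0 := wt_pos (χ - 2 * ε) k0
  have hsm' : 4 * q * (C * |t|) * K1 C χ ε * wt (χ - 2 * ε) k0 ≤ 1 := by
    have : 0 ≤ q * (C * |t|) * K1 C χ ε * wt (χ - 2 * ε) k0 := by positivity
    nlinarith
  have hZ : 0 ≤ q * (C * |t|) ^ 2 := by positivity
  have hend : ∀ k, k0 ≤ k → k ≤ n →
      ‖Bp L k (n - k) (l3_W L P v t (n + 1) n - l3_W L P v t n n)‖
        ≤ (C * (q * (C * |t|) ^ 2) * wt (χ - 3 * ε) n) * wt (χ - ε) k := by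
    intro k hk hkn
    refine end_bd h k n hkn _ (q * (C * |t|) ^ 2) (χ - 3 * ε) hZ ?_
    have e1 : l3_W L P v t (n + 1) n = t • v n + P (t • v (n + 1)) := by
      rw [l3_W_rec t (n + 1) n (Nat.lt_succ_self n), l3_W_self, map_smul, h.vrec]
    rw [e1, l3_W_self, add_sub_cancel_left]
    refine (P_sq h _).trans ?_
    have h2 : ‖t • v (n + 1)‖ ≤ (C * |t|) * wt (χ - ε) n := by
      refine (l3_vt h t (n + 1)).trans ?_
      exact mul_le_mul_of_nonneg_left (wt_anti (by linarith) (Nat.le_succ n)) hX0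
    have h3 : ‖t • v (n + 1)‖ ^ 2 ≤ ((C * |t|) * wt (χ - ε) n) ^ 2 :=
      pow_le_pow_left₀ (norm_nonneg _) h2 2
    have h4 : ((C * |t|) * wt (χ - ε) n) ^ 2
        = (C * |t|) ^ 2 * wt (χ + ε + (χ - 3 * ε)) n := by
      rw [mul_pow, sq (wt (χ - ε) n), wt_mul]
      congr 2
      ring
    calc q * ‖t • v (n + 1)‖ ^ 2 ≤ q * (((C * |t|) * wt (χ - ε) n) ^ 2) :=
          mul_le_mul_of_nonneg_left h3 hq.le
      _ = _ := by rw [h4]; ring
  have hX1 : 0 ≤ C * (q * (C * |t|) ^ 2) * wt (χ - 3 * ε) n :=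
    mul_nonneg (mul_nonneg hC.le hZ) (wt_pos _ _).le
  have hmain := cl1 h (l3_W L P v t (n + 1)) (l3_W L P v t n) k0 n
    (C * (q * (C * |t|) ^ 2) * wt (χ - 3 * ε) n) (2 * (C * |t|)) hX1 (by positivity)
    (fun i _ hi => l3_W_rec t (n + 1) i (Nat.lt_succ_of_lt hi))
    (fun i _ hi => l3_W_rec t n i hi)
    (fun k hk hkn => l3_W_bd h t k0 (n + 1) _ hX0 (fun k _ => l3_vt h t k) hsm' k hk
      (Nat.le_succ_of_le hkn))
    (fun k hk hkn => l3_W_bd h t k0 n _ hX0 (fun k _ => l3_vt h t k) hsm' k hk hkn)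
    hend (by calc 4 * q * (2 * (C * |t|)) * K1 C χ ε * wt (χ - 2 * ε) k0
                = 8 * q * (C * |t|) * K1 C χ ε * wt (χ - 2 * ε) k0 := by ring
              _ ≤ 1 := hsm)
  exact (hmain k hk hkn).1

theorem l3_cauchy (h : Tame L P v q C χ ε) (t : ℝ) (k0 k : ℕ)
    (hsm : 8 * q * (C * |t|) * K1 C χ ε * wt (χ - 2 * ε) k0 ≤ 1) (hk : k0 ≤ k) :
    CauchySeq (fun n : ℕ => Hb L P k n (t • v (k + n))) := by
  have hε := h.hε
  have hχ := h.hχ
  have hC := l3_C_pos h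
  have hq := h.hq
  have hr : Real.exp (-(χ - 3 * ε)) < 1 := by
    rw [Real.exp_lt_one_iff]
    linarith
  refine cauchySeq_of_le_geometric (Real.exp (-(χ - 3 * ε)))
    (2 * (C * (q * (C * |t|) ^ 2)) * wt (χ - ε) k) hr ?_
  intro n
  rw [dist_comm, dist_eq_norm]
  have h1 := l3_step h t k0 (k + n) hsm k hk (Nat.le_add_right k n)
  rw [add_assoc, l3_W_add, l3_W_add] at h1
  refine h1.trans ?_
  have h2 : wt (χ - 3 * ε) (k + n) ≤ Real.exp (-(χ - 3 * ε)) ^ n := by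
    have h3 := wt_anti (α := χ - 3 * ε) (by linarith) (Nat.le_add_left n k)
    refine h3.trans (le_of_eq ?_)
    unfold wt
    rw [← Real.exp_nat_mul]
    congr 1
    ring
  have h4 : 0 ≤ 2 * (C * (q * (C * |t|) ^ 2)) * wt (χ - ε) k :=
    mul_nonneg (by positivity) (wt_pos _ _).le
  calc 2 * (C * (q * (C * |t|) ^ 2) * wt (χ - 3 * ε) (k + n)) * wt (χ - ε) k
      = (2 * (C * (q * (C * |t|) ^ 2)) * wt (χ - ε) k) * wt (χ - 3 * ε) (k + n) := by ring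
    _ ≤ _ := mul_le_mul_of_nonneg_left h2 h4

theorem l3_exists_k0 (h : Tame L P v q C χ ε) (t : ℝ) :
    ∃ k0 : ℕ, 8 * q * (C * |t|) * K1 C χ ε * wt (χ - 2 * ε) k0 ≤ 1 :=
  l3_exists h _

theorem l3_lim (h : Tame L P v q C χ ε) (k : ℕ) (t : ℝ) :
    ∃ x : E, Tendsto (fun n : ℕ => Hb L P k n (t • v (k + n))) atTop (𝓝 x) := by
  obtain ⟨k0, hk0⟩ := l3_exists_k0 h t
  by_cases hk : k0 ≤ k
  · exact cauchySeq_tendsto_of_complete (l3_cauchy h t k0 k hk0 hk)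
  · push Not at hk
    obtain ⟨x, hx⟩ := cauchySeq_tendsto_of_complete (l3_cauchy h t k0 k0 hk0 le_rfl)
    refine ⟨Hb L P k (k0 - k) x, ?_⟩
    rw [← tendsto_add_atTop_iff_nat (k0 - k)]
    have h1 : (fun n : ℕ => Hb L P k (n + (k0 - k)) (t • v (k + (n + (k0 - k)))))
        = fun n : ℕ => Hb L P k (k0 - k) (Hb L P k0 n (t • v (k0 + n))) := by
      funext n
      have e1 : n + (k0 - k) = (k0 - k) + n := add_comm _ _
      have e2 : k + (k0 - k) = k0 := by omega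
      have e3 : k + (n + (k0 - k)) = k0 + n := by omega
      rw [e3, e1, Hb_add, e2]
    rw [h1]
    exact ((Hb_cont (P_cont h) k (k0 - k)).tendsto x).comp hx

theorem gam_tendsto (h : Tame L P v q C χ ε) (k : ℕ) (t : ℝ) :
    Tendsto (fun n : ℕ => Hb L P k n (t • v (k + n))) atTop (𝓝 (Gam L P v k t)) := by
  unfold Gam
  exact tendsto_nhds_limUnder (l3_lim h k t)

theorem gam_hb (h : Tame L P v q C χ ε) (k j : ℕ) (t : ℝ) :
    Gam L P v k t = Hb L P k j (Gam L P v (k + j) t) := by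
  have h1 := gam_tendsto h k t
  rw [← tendsto_add_atTop_iff_nat j] at h1
  have h2 : (fun n : ℕ => Hb L P k (n + j) (t • v (k + (n + j))))
      = fun n : ℕ => Hb L P k j (Hb L P (k + j) n (t • v (k + j + n))) := by
    funext n
    have e1 : n + j = j + n := add_comm _ _
    have e3 : k + (j + n) = k + j + n := by omega
    rw [e1, Hb_add, e3]
  rw [h2] at h1
  exact tendsto_nhds_unique h1
    (((Hb_cont (P_cont h) k j).tendsto _).comp (gam_tendsto h (k + j) t))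

theorem gam_rec (h : Tame L P v q C χ ε) (k : ℕ) (t : ℝ) :
    Gam L P v k t = L k (Gam L P v (k + 1) t) + P (Gam L P v (k + 1) t) := by
  conv_lhs => rw [gam_hb h k 1 t]
  rfl

theorem gam_zero (h : Tame L P v q C χ ε) (k : ℕ) : Gam L P v k 0 = 0 := by
  have h1 := gam_tendsto h k 0
  have h2 : (fun n : ℕ => Hb L P k n ((0 : ℝ) • v (k + n))) = fun _ => (0 : E) := by
    funext n
    rw [zero_smul, Hb_zero h.P0]
  rw [h2] at h1
  exact (tendsto_nhds_unique h1 tendsto_const_nhds)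

theorem gam_small (h : Tame L P v q C χ ε) (k0 : ℕ) (t X : ℝ) (hX0 : 0 ≤ X)
    (hX : ∀ k, k0 ≤ k → ‖t • v k‖ ≤ X * wt (χ - ε) k)
    (hsm : 4 * q * X * K1 C χ ε * wt (χ - 2 * ε) k0 ≤ 1) :
    ∀ k, k0 ≤ k → ‖Gam L P v k t‖ ≤ 2 * X * wt (χ - ε) k := by
  intro k hk
  refine le_of_tendsto (gam_tendsto h k t).norm (Eventually.of_forall ?_)
  intro n
  have h1 := l3_W_bd h t k0 (k + n) X hX0 hX hsm k hk (Nat.le_add_right k n)
  rwa [l3_W_add] at h1

theorem gam_diff (h : Tame L P v q C χ ε) (k0 : ℕ) (t t' X : ℝ) (hX0 : 0 ≤ X)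
    (hX : ∀ k, k0 ≤ k → ‖t • v k‖ ≤ X * wt (χ - ε) k)
    (hX' : ∀ k, k0 ≤ k → ‖t' • v k‖ ≤ X * wt (χ - ε) k)
    (hsm : 8 * q * X * K1 C χ ε * wt (χ - 2 * ε) k0 ≤ 1) :
    ∀ k, k0 ≤ k → ‖Gam L P v k t - Gam L P v k t' - (t - t') • v k‖
      ≤ 8 * q * X * (C * |t - t'|) * K1 C χ ε * wt (χ - 2 * ε) k * wt (χ - ε) k := by
  intro k hk
  have hq := h.hq
  have hC := l3_C_pos h
  have hK := K1_pos h
  have hw0 := wt_pos (χ - 2 * ε) k0
  have hsm' : 4 * q * X * K1 C χ ε * wt (χ - 2 * ε) k0 ≤ 1 := by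
    have : 0 ≤ q * X * K1 C χ ε * wt (χ - 2 * ε) k0 := by positivity
    nlinarith
  refine le_of_tendsto (((gam_tendsto h k t).sub (gam_tendsto h k t')).sub_const
    ((t - t') • v k)).norm (Eventually.of_forall ?_)
  intro n
  have hend : ∀ j, k0 ≤ j → j ≤ k + n →
      ‖Bp L j (k + n - j) (l3_W L P v t (k + n) (k + n) - l3_W L P v t' (k + n) (k + n))‖
        ≤ (C * |t - t'|) * wt (χ - ε) j := by
    intro j _ hjn
    rw [l3_W_self, l3_W_self, ← sub_smul, l3_Bp_t h _ j (k + n) hjn]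
    exact l3_vt h (t - t') j
  have hmain := cl1 h (l3_W L P v t (k + n)) (l3_W L P v t' (k + n)) k0 (k + n)
    (C * |t - t'|) (2 * X) (by positivity) (by positivity)
    (fun i _ hi => l3_W_rec t (k + n) i hi)
    (fun i _ hi => l3_W_rec t' (k + n) i hi)
    (fun j hj hjn => l3_W_bd h t k0 (k + n) X hX0 hX hsm' j hj hjn)
    (fun j hj hjn => l3_W_bd h t' k0 (k + n) X hX0 hX' hsm' j hj hjn)
    hend (by calc 4 * q * (2 * X) * K1 C χ ε * wt (χ - 2 * ε) k0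
                = 8 * q * X * K1 C χ ε * wt (χ - 2 * ε) k0 := by ring
              _ ≤ 1 := hsm)
  have h2 := (hmain k hk (Nat.le_add_right k n)).2
  rw [l3_W_self, l3_W_self, ← sub_smul, l3_Bp_t h _ k (k + n) (Nat.le_add_right k n),
    l3_W_add, l3_W_add] at h2
  refine h2.trans (le_of_eq (by ring))

end MD
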