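import Pool.Agent.Lib.MP_904526_an.L3

/-!
# L4 (est. 60 min): Gam is continuous and injective in t, and decays
For T ≥ 0 there is k0 with 8 q (C T) K1 wt(χ-2ε) k0 ≤ 1; for |t| ≤ T the hypothesis of gam_small /
gam_diff holds with X = C T (vup). gam_diff gives that Gam k0 is Lipschitz on [-T, T], hence
continuous there; Gam 0 t = Hb L P 0 k0 (Gam k0 t) (gam_hb, Hb_cont). Since T is arbitrary, Gam 0 is
continuous. Injective: from Gam 0 t = Gam 0 t' get Gam k t = Gam k t' for all k (gam_rec, hinj), and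
gam_diff with vlow: |t - t'| wt (χ+ε) k / C ≤ |t - t'| ‖v k‖ ≤ 8 q C T C |t - t'| K1 wt (2χ - 3ε) k for all
large k; χ + ε < 2χ - 3ε, contradiction if t ≠ t' (k → ∞).
gam_decay: gam_small for k ≥ k0, finitely many k < k0 absorbed in the constant.
-/

open Set Filter Topology MeasureTheory

namespace MD

variable {L : ℕ → E →L[ℝ] E} {P : E → E} {v : ℕ → E} {q C χ ε : ℝ}

theorem l4_vt (h : Tame L P v q C χ ε) (T t : ℝ) (ht : |t| ≤ T) (k : ℕ) :
    ‖t • v k‖ ≤ (C * T) * wt (χ - ε) k :=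
  (l3_vt h t k).trans (mul_le_mul_of_nonneg_right
    (mul_le_mul_of_nonneg_left ht (l3_C_pos h).le) (wt_pos _ _).le)

theorem l4_diff (h : Tame L P v q C χ ε) (T : ℝ) (hT : 0 ≤ T) (k0 : ℕ)
    (hsm : 8 * q * (C * T) * K1 C χ ε * wt (χ - 2 * ε) k0 ≤ 1) (t t' : ℝ) (ht : |t| ≤ T)
    (ht' : |t'| ≤ T) (k : ℕ) (hk : k0 ≤ k) :
    ‖Gam L P v k t - Gam L P v k t' - (t - t') • v k‖
      ≤ 8 * q * (C * T) * (C * |t - t'|) * K1 C χ ε * wt (χ - 2 * ε) k * wt (χ - ε) k :=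
  gam_diff h k0 t t' (C * T) (mul_nonneg (l3_C_pos h).le hT) (fun k _ => l4_vt h T t ht k)
    (fun k _ => l4_vt h T t' ht' k) hsm k hk

theorem l4_contAt (h : Tame L P v q C χ ε) (T : ℝ) (hT : 0 ≤ T) (k0 : ℕ)
    (hsm : 8 * q * (C * T) * K1 C χ ε * wt (χ - 2 * ε) k0 ≤ 1) :
    ContinuousOn (Gam L P v k0) (Icc (-T) T) := by
  have hC := l3_C_pos h
  have hq := h.hq
  have hK := K1_pos h
  set B : ℝ := ‖v k0‖ + 8 * q * (C * T) * C * K1 C χ ε * wt (χ - 2 * ε) k0 * wt (χ - ε) k0 with hB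
  have hB0 : 0 ≤ B := by
    have h1 := wt_pos (χ - 2 * ε) k0
    have h2 := wt_pos (χ - ε) k0
    have h3 := norm_nonneg (v k0)
    have h4 : 0 ≤ 8 * q * (C * T) * C * K1 C χ ε * wt (χ - 2 * ε) k0 * wt (χ - ε) k0 := by
      positivity
    linarith
  have hL : LipschitzOnWith (Real.toNNReal B) (Gam L P v k0) (Icc (-T) T) := by
    refine LipschitzOnWith.of_dist_le_mul ?_
    intro t ht t' ht'
    rw [dist_eq_norm, dist_eq_norm, Real.norm_eq_abs]
    have h1 := l4_diff h T hT k0 hsm t t' (abs_le.2 ⟨ht.1, ht.2⟩) (abs_le.2 ⟨ht'.1, ht'.2⟩)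
      k0 le_rfl
    have h2 : ‖Gam L P v k0 t - Gam L P v k0 t'‖
        ≤ ‖Gam L P v k0 t - Gam L P v k0 t' - (t - t') • v k0‖ + ‖(t - t') • v k0‖ := by
      have := norm_add_le (Gam L P v k0 t - Gam L P v k0 t' - (t - t') • v k0) ((t - t') • v k0)
      rwa [sub_add_cancel] at this
    have h3 : ‖(t - t') • v k0‖ = |t - t'| * ‖v k0‖ := by rw [norm_smul, Real.norm_eq_abs]
    rw [Real.coe_toNNReal B hB0, hB]
    calc ‖Gam L P v k0 t - Gam L P v k0 t'‖
        ≤ 8 * q * (C * T) * (C * |t - t'|) * K1 C χ ε * wt (χ - 2 * ε) k0 * wt (χ - ε) k0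
          + |t - t'| * ‖v k0‖ := by linarith
      _ = _ := by ring
  exact hL.continuousOn

theorem gam_cont (h : Tame L P v q C χ ε) : Continuous (Gam L P v 0) := by
  rw [continuous_iff_continuousAt]
  intro t
  obtain ⟨k0, hk0⟩ := l3_exists h (8 * q * (C * (|t| + 1)) * K1 C χ ε)
  have h1 := l4_contAt h (|t| + 1) (by positivity) k0 hk0
  have h2 : ContinuousAt (Gam L P v k0) t := by
    refine h1.continuousAt (Icc_mem_nhds ?_ ?_)
    · have := neg_abs_le t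
      linarith
    · have := le_abs_self t
      linarith
  have h3 : Gam L P v 0 = fun s => Hb L P 0 k0 (Gam L P v k0 s) := by
    funext s
    have := gam_hb h 0 k0 s
    rwa [zero_add] at this
  rw [h3]
  exact ((Hb_cont (P_cont h) 0 k0).continuousAt).comp h2

theorem l4_wt_ne (h : Tame L P v q C χ ε) (B : ℝ) (k0 : ℕ) :
    ¬ ∀ k, k0 ≤ k → wt (χ + ε) k ≤ B * (wt (χ - 2 * ε) k * wt (χ - ε) k) := by
  intro hall
  have hε := h.hε
  have hχ := h.hχ
  have hpos : 0 < χ - 4 * ε := by linarith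
  have h1 := (wt_tendsto hpos).const_mul B
  rw [mul_zero] at h1
  obtain ⟨k, hk, hk0⟩ := ((h1.eventually (gt_mem_nhds one_pos)).and (eventually_ge_atTop k0)).exists
  have h2 := hall k hk0
  have h3 : wt (χ - 2 * ε) k * wt (χ - ε) k = wt (χ + ε) k * wt (χ - 4 * ε) k := by
    rw [wt_mul, wt_mul]
    congr 1
    ring
  rw [h3] at h2
  have h4 := wt_pos (χ + ε) k
  have h5 : B * (wt (χ + ε) k * wt (χ - 4 * ε) k) = wt (χ + ε) k * (B * wt (χ - 4 * ε) k) := by
    ring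
  rw [h5] at h2
  nlinarith

theorem gam_inj (h : Tame L P v q C χ ε)
    (hinj : ∀ k, Function.Injective (fun w => L k w + P w)) :
    Function.Injective (Gam L P v 0) := by
  intro t t' htt
  have hC := l3_C_pos h
  have hall : ∀ k, Gam L P v k t = Gam L P v k t' := by
    intro k
    induction k with
    | zero => exact htt
    | succ k ih =>
      rw [gam_rec h k t, gam_rec h k t'] at ih
      exact hinj k ih
  by_contra hne
  obtain ⟨k0, hk0⟩ := l3_exists h (8 * q * (C * (max |t| |t'|)) * K1 C χ ε)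
  have hpos : 0 < |t - t'| := abs_pos.2 (sub_ne_zero.2 hne)
  refine l4_wt_ne h (C * (8 * q * (C * (max |t| |t'|)) * C * K1 C χ ε)) k0 ?_
  intro k hk
  have h1 := l4_diff h (max |t| |t'|) (le_max_of_le_left (abs_nonneg t)) k0 hk0 t t'
    (le_max_left _ _) (le_max_right _ _) k hk
  rw [hall k, sub_self, zero_sub, norm_neg, norm_smul, Real.norm_eq_abs] at h1
  have h2 := h.vlow k
  have h3 : ‖v k‖ ≤ 8 * q * (C * (max |t| |t'|)) * C * K1 C χ ε
      * (wt (χ - 2 * ε) k * wt (χ - ε) k) := by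
    refine le_of_mul_le_mul_left ?_ hpos
    calc |t - t'| * ‖v k‖ ≤ _ := h1
      _ = _ := by ring
  calc wt (χ + ε) k ≤ C * ‖v k‖ := h2
    _ ≤ C * (8 * q * (C * (max |t| |t'|)) * C * K1 C χ ε
      * (wt (χ - 2 * ε) k * wt (χ - ε) k)) := mul_le_mul_of_nonneg_left h3 hC.le
    _ = _ := by ring

theorem l4_all (f : ℕ → ℝ) (α Y : ℝ) (hY : 0 ≤ Y) (k0 : ℕ) (hf : ∀ k, 0 ≤ f k)
    (h : ∀ k, k0 ≤ k → f k ≤ Y * wt α k) : ∃ Y' : ℝ, 0 ≤ Y' ∧ ∀ k, f k ≤ Y' * wt α k := by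
  refine ⟨Y + ∑ i ∈ Finset.range k0, f i / wt α i, ?_, ?_⟩
  · have : 0 ≤ ∑ i ∈ Finset.range k0, f i / wt α i :=
      Finset.sum_nonneg (fun i _ => div_nonneg (hf i) (wt_pos _ _).le)
    linarith
  · intro k
    have hS : 0 ≤ ∑ i ∈ Finset.range k0, f i / wt α i :=
      Finset.sum_nonneg (fun i _ => div_nonneg (hf i) (wt_pos _ _).le)
    by_cases hk : k0 ≤ k
    · refine (h k hk).trans (mul_le_mul_of_nonneg_right (by linarith) (wt_pos _ _).le)
    · push Not at hk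
      have h1 : f k / wt α k ≤ ∑ i ∈ Finset.range k0, f i / wt α i :=
        Finset.single_le_sum (f := fun i => f i / wt α i)
          (fun i _ => div_nonneg (hf i) (wt_pos _ _).le) (Finset.mem_range.2 hk)
      have h2 : f k = f k / wt α k * wt α k := by
        field_simp [(wt_pos α k).ne']
      rw [h2]
      exact mul_le_mul_of_nonneg_right (by linarith) (wt_pos _ _).le

theorem gam_decay (h : Tame L P v q C χ ε) (t : ℝ) :
    ∃ Y : ℝ, ∀ k : ℕ, ‖Gam L P v k t‖ ≤ Y * wt (χ - ε) k := by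
  obtain ⟨k0, hk0⟩ := l3_exists h (4 * q * (C * |t|) * K1 C χ ε)
  have hX0 : 0 ≤ C * |t| := mul_nonneg (l3_C_pos h).le (abs_nonneg t)
  obtain ⟨Y, _, hY⟩ := l4_all (fun k => ‖Gam L P v k t‖) (χ - ε) (2 * (C * |t|))
    (by linarith) k0 (fun k => norm_nonneg _)
    (gam_small h k0 t (C * |t|) hX0 (fun k _ => l3_vt h t k) hk0)
  exact ⟨Y, hY⟩

end MD
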