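import Pool.Agent.Lib.MP_904526_an.L4

/-!
# L5 (est. 120 min): every orbit with the right decay is on the stable curve
Let a = wt (χ-ε). There is Y' with ‖w k‖ ≤ Y' a_k for ALL k (finitely many k < k0).
1. For fixed k the sequence n ↦ Bp L k n (w (k+n)) is Cauchy: consecutive difference is
   -Bp L k n (P (w (k+n+1))), norm ≤ C exp((χ+ε)n + εk) q Y'² wt(χ-ε)(k+n+1)², summable in n (ratio
   exp(-(χ-3ε))). Limit p k. By rep and sum_bd, for all m, ‖w k - Bp L k m (w (k+m))‖ ≤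
   q Y² K1 wt(χ-2ε) k a_k for k ≥ k0 (constant Y' for all k), so ‖w k - p k‖ ≤ the same bound.
   L k (p (k+1)) = p k (Bp_succ' and continuity), ‖p k‖ ≤ Y'' a_k for all k.
2. Tame.uniq: p k = t • v k for all k. The bound on ‖t • v k0‖ = ‖p k0‖ follows.
3. For k ≥ k0: ‖t v k‖ = ‖p k‖ ≤ (Y + Y/32) a_k ≤ 2 Y a_k, so gam_small with X = 2Y: ‖Gam k t‖ ≤
   4 Y a_k for k ≥ k0; gam_diff (t' = 0, X = 2Y): ‖Gam k t - t v k‖ ≤ 16 q Y C |t| K1 wt(2χ-3ε) k.
4. Compare w and Gam · t on [k0, n] with cl1 (Y there = 4Y; smallness 16 q Y K1 .. ≤ 1): the end term: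
   ‖w n - Gam n t‖ ≤ ‖w n - p n‖ + ‖t v n - Gam n t‖ ≤ Z wt (2χ-3ε) n, 2χ - 3ε = χ + ε + (χ - 4ε);
   end_bd with η = χ - 4ε > 0: X = C Z wt (χ-4ε) n → 0. So w k = Gam k t for k ≥ k0.
5. For k < k0 by downward induction: both satisfy the same recursion (hrec, gam_rec).
(If it is convenient use max Y 0 etc.; hw with k = k0 gives Y ≥ 0.)
-/

open Set Filter Topology MeasureTheory

namespace MD

variable {L : ℕ → E →L[ℝ] E} {P : E → E} {v : ℕ → E} {q C χ ε : ℝ}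

theorem l5_term (h : Tame L P v q C χ ε) (w : ℕ → E) (k j : ℕ) (Y : ℝ)
    (hw : ‖w (k + j + 1)‖ ≤ Y * wt (χ - ε) (k + j + 1)) :
    ‖Bp L k j (P (w (k + j + 1)))‖
      ≤ q * Y ^ 2 * (‖Bp L k j‖ * wt (χ - ε) (k + j + 1) ^ 2) := by
  have hq := h.hq
  have h1 : ‖Bp L k j (P (w (k + j + 1)))‖ ≤ ‖Bp L k j‖ * ‖P (w (k + j + 1))‖ :=
    (Bp L k j).le_opNorm _
  have h2 : ‖P (w (k + j + 1))‖ ≤ q * (Y * wt (χ - ε) (k + j + 1)) ^ 2 :=
    (P_sq h _).trans (mul_le_mul_of_nonneg_left (pow_le_pow_left₀ (norm_nonneg _) hw 2) hq.le)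
  calc ‖Bp L k j (P (w (k + j + 1)))‖ ≤ ‖Bp L k j‖ * ‖P (w (k + j + 1))‖ := h1
    _ ≤ ‖Bp L k j‖ * (q * (Y * wt (χ - ε) (k + j + 1)) ^ 2) :=
        mul_le_mul_of_nonneg_left h2 (norm_nonneg _)
    _ = _ := by ring

theorem l5_sum (h : Tame L P v q C χ ε) (w : ℕ → E) (k : ℕ) (Y : ℝ)
    (hw : ∀ i, k ≤ i → ‖w i‖ ≤ Y * wt (χ - ε) i) (m : ℕ) :
    ∑ j ∈ Finset.range m, ‖Bp L k j (P (w (k + j + 1)))‖
      ≤ q * Y ^ 2 * K1 C χ ε * wt (χ - 2 * ε) k * wt (χ - ε) k := by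
  have hq := h.hq
  calc ∑ j ∈ Finset.range m, ‖Bp L k j (P (w (k + j + 1)))‖
      ≤ ∑ j ∈ Finset.range m, q * Y ^ 2 * (‖Bp L k j‖ * wt (χ - ε) (k + j + 1) ^ 2) :=
        Finset.sum_le_sum (fun j _ => l5_term h w k j Y (hw _ (by omega)))
    _ = q * Y ^ 2 * ∑ j ∈ Finset.range m, (‖Bp L k j‖ * wt (χ - ε) (k + j + 1) ^ 2) := by
        rw [Finset.mul_sum]
    _ ≤ q * Y ^ 2 * (K1 C χ ε * wt (χ - 2 * ε) k * wt (χ - ε) k) :=
        mul_le_mul_of_nonneg_left (sum_bd h k m) (by positivity)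
    _ = _ := by ring

theorem l5_summable (h : Tame L P v q C χ ε) (w : ℕ → E) (k : ℕ) (Y : ℝ)
    (hw : ∀ i, k ≤ i → ‖w i‖ ≤ Y * wt (χ - ε) i) :
    Summable (fun j => ‖Bp L k j (P (w (k + j + 1)))‖) :=
  summable_of_sum_range_le (fun _ => norm_nonneg _) (l5_sum h w k Y hw)

/-- the linear asymptotics of the orbit -/
noncomputable def l5_p (L : ℕ → E →L[ℝ] E) (P : E → E) (w : ℕ → E) (k : ℕ) : E :=
  w k - ∑' j, Bp L k j (P (w (k + j + 1)))

theorem l5_p_dist (h : Tame L P v q C χ ε) (w : ℕ → E) (k : ℕ) (Y : ℝ)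
    (hw : ∀ i, k ≤ i → ‖w i‖ ≤ Y * wt (χ - ε) i) :
    ‖w k - l5_p L P w k‖ ≤ q * Y ^ 2 * K1 C χ ε * wt (χ - 2 * ε) k * wt (χ - ε) k := by
  have hs := l5_summable h w k Y hw
  have h1 : w k - l5_p L P w k = ∑' j, Bp L k j (P (w (k + j + 1))) := by
    unfold l5_p
    abel
  rw [h1]
  refine (norm_tsum_le_tsum_norm hs).trans ?_
  exact Real.tsum_le_of_sum_range_le (fun _ => norm_nonneg _) (l5_sum h w k Y hw)

theorem l5_p_tendsto (h : Tame L P v q C χ ε) (w : ℕ → E) (k : ℕ) (Y : ℝ)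
    (hrec : ∀ i, w i = L i (w (i + 1)) + P (w (i + 1)))
    (hw : ∀ i, k ≤ i → ‖w i‖ ≤ Y * wt (χ - ε) i) :
    Tendsto (fun m : ℕ => Bp L k m (w (k + m))) atTop (𝓝 (l5_p L P w k)) := by
  have hs : Summable (fun j => Bp L k j (P (w (k + j + 1)))) := (l5_summable h w k Y hw).of_norm
  have h1 := (hs.hasSum.tendsto_sum_nat).const_sub (w k)
  have h2 : (fun m : ℕ => Bp L k m (w (k + m)))
      = fun m => w k - ∑ j ∈ Finset.range m, Bp L k j (P (w (k + j + 1))) := by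
    funext m
    have := rep (L := L) (P := P) w k m (fun i _ _ => hrec i)
    rw [eq_sub_iff_add_eq, ← this]
  rw [h2]
  exact h1

theorem l5_p_rec (h : Tame L P v q C χ ε) (w : ℕ → E) (k : ℕ) (Y : ℝ)
    (hrec : ∀ i, w i = L i (w (i + 1)) + P (w (i + 1)))
    (hw : ∀ i, k ≤ i → ‖w i‖ ≤ Y * wt (χ - ε) i) :
    L k (l5_p L P w (k + 1)) = l5_p L P w k := by
  have h1 := l5_p_tendsto h w k Y hrec hw
  rw [← tendsto_add_atTop_iff_nat 1] at h1
  have h2 := l5_p_tendsto h w (k + 1) Y hrec (fun i hi => hw i (by omega))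
  have h3 := ((L k).continuous.tendsto _).comp h2
  have h4 : (fun m : ℕ => Bp L k (m + 1) (w (k + (m + 1))))
      = (fun x => L k x) ∘ fun m : ℕ => Bp L (k + 1) m (w (k + 1 + m)) := by
    funext m
    have e : k + (m + 1) = k + 1 + m := by omega
    simp only [Function.comp]
    rw [Bp_succ', e]
  rw [h4] at h1
  exact tendsto_nhds_unique h3 h1

theorem capture (h : Tame L P v q C χ ε) (w : ℕ → E) (k0 : ℕ) (Y : ℝ) (hY : 0 ≤ Y)
    (hrec : ∀ i, w i = L i (w (i + 1)) + P (w (i + 1)))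
    (hw : ∀ k, k0 ≤ k → ‖w k‖ ≤ Y * wt (χ - ε) k)
    (hsm : 32 * q * Y * K1 C χ ε * wt (χ - 2 * ε) k0 ≤ 1) :
    ∃ t : ℝ, ‖t • v k0‖ ≤ ‖w k0‖ + q * Y ^ 2 * K1 C χ ε * wt (χ - 2 * ε) k0 * wt (χ - ε) k0 ∧
      ∀ k, w k = Gam L P v k t := by
  have hq := h.hq
  have hC := l3_C_pos h
  have hK := K1_pos h
  have hε := h.hε
  have hχ := h.hχ
  obtain ⟨Y', hY'0, hY'⟩ := l4_all (fun k => ‖w k‖) (χ - ε) Y hY k0 (fun _ => norm_nonneg _) hw
  have hw' : ∀ i, ‖w i‖ ≤ Y' * wt (χ - ε) i := hY'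
  -- the linear orbit
  have hpr : ∀ k, L k (l5_p L P w (k + 1)) = l5_p L P w k := fun k =>
    l5_p_rec h w k Y' hrec (fun i _ => hw' i)
  have hp1 : ∀ k, wt (χ - 2 * ε) k ≤ 1 := by
    intro k
    have := wt_anti (α := χ - 2 * ε) (by linarith) (Nat.zero_le k)
    rwa [wt_zero] at this
  have hpb : ∀ k, ‖l5_p L P w k‖ ≤ (Y' + q * Y' ^ 2 * K1 C χ ε) * wt (χ - ε) k := by
    intro k
    have h1 := l5_p_dist h w k Y' (fun i _ => hw' i)
    have h2 : ‖l5_p L P w k‖ ≤ ‖w k‖ + ‖w k - l5_p L P w k‖ := by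
      have := norm_sub_le (w k) (w k - l5_p L P w k)
      rwa [sub_sub_cancel] at this
    have h3 : q * Y' ^ 2 * K1 C χ ε * wt (χ - 2 * ε) k * wt (χ - ε) k
        ≤ q * Y' ^ 2 * K1 C χ ε * wt (χ - ε) k := by
      refine mul_le_mul_of_nonneg_right ?_ (wt_pos _ _).le
      have h0 : 0 ≤ q * Y' ^ 2 * K1 C χ ε := by positivity
      calc q * Y' ^ 2 * K1 C χ ε * wt (χ - 2 * ε) k ≤ q * Y' ^ 2 * K1 C χ ε * 1 :=
            mul_le_mul_of_nonneg_left (hp1 k) h0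
        _ = _ := mul_one _
    have h4 := hw' k
    calc ‖l5_p L P w k‖ ≤ ‖w k‖ + ‖w k - l5_p L P w k‖ := h2
      _ ≤ Y' * wt (χ - ε) k + q * Y' ^ 2 * K1 C χ ε * wt (χ - ε) k := by linarith
      _ = _ := by ring
  obtain ⟨t, ht⟩ := h.uniq (l5_p L P w) hpr ⟨_, hpb⟩
  -- distance of the orbit and the linear orbit
  have hd : ∀ k, k0 ≤ k → ‖w k - t • v k‖
      ≤ q * Y ^ 2 * K1 C χ ε * wt (χ - 2 * ε) k * wt (χ - ε) k := by
    intro k hk
    have := l5_p_dist h w k Y (fun i hi => hw i (hk.trans hi))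
    rwa [ht k] at this
  have htv : ∀ k, ‖t • v k‖ ≤ ‖w k‖ + ‖w k - t • v k‖ := by
    intro k
    have := norm_sub_le (w k) (w k - t • v k)
    rwa [sub_sub_cancel] at this
  refine ⟨t, (htv k0).trans (by have := hd k0 le_rfl; linarith), ?_⟩
  have hanti : ∀ k, k0 ≤ k → wt (χ - 2 * ε) k ≤ wt (χ - 2 * ε) k0 := fun k hk =>
    wt_anti (by linarith) hk
  have hY2 : ∀ k, k0 ≤ k → ‖t • v k‖ ≤ (2 * Y) * wt (χ - ε) k := by
    intro k hk
    have h1 := htv k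
    have h2 := hd k hk
    have h3 := hw k hk
    have h4 : q * Y ^ 2 * K1 C χ ε * wt (χ - 2 * ε) k ≤ Y := by
      have h5 : q * Y * K1 C χ ε * wt (χ - 2 * ε) k ≤ 1 := by
        have h6 : 0 ≤ q * Y * K1 C χ ε := by positivity
        have h7 := mul_le_mul_of_nonneg_left (hanti k hk) h6
        have h8 : 0 ≤ q * Y * K1 C χ ε * wt (χ - 2 * ε) k0 :=
          mul_nonneg h6 (wt_pos _ _).le
        linarith
      have h9 := mul_le_mul_of_nonneg_left h5 hY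
      calc q * Y ^ 2 * K1 C χ ε * wt (χ - 2 * ε) k
          = Y * (q * Y * K1 C χ ε * wt (χ - 2 * ε) k) := by ring
        _ ≤ Y * 1 := h9
        _ = Y := mul_one _
    have h10 := mul_le_mul_of_nonneg_right h4 (wt_pos (χ - ε) k).le
    calc ‖t • v k‖ ≤ ‖w k‖ + ‖w k - t • v k‖ := h1
      _ ≤ Y * wt (χ - ε) k + Y * wt (χ - ε) k := by linarith
      _ = _ := by ring
  have hA : 0 ≤ q * Y * K1 C χ ε * wt (χ - 2 * ε) k0 :=
    mul_nonneg (by positivity) (wt_pos _ _).le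
  have hgs : ∀ k, k0 ≤ k → ‖Gam L P v k t‖ ≤ 2 * (2 * Y) * wt (χ - ε) k := by
    refine gam_small h k0 t (2 * Y) (by positivity) hY2 ?_
    calc 4 * q * (2 * Y) * K1 C χ ε * wt (χ - 2 * ε) k0
        = 8 * (q * Y * K1 C χ ε * wt (χ - 2 * ε) k0) := by ring
      _ ≤ 1 := by linarith
  have hgd : ∀ k, k0 ≤ k → ‖Gam L P v k t - t • v k‖
      ≤ 8 * q * (2 * Y) * (C * |t|) * K1 C χ ε * wt (χ - 2 * ε) k * wt (χ - ε) k := by
    intro k hk
    have h1 := gam_diff h k0 t 0 (2 * Y) (by positivity) hY2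
      (fun k _ => by
        rw [zero_smul, norm_zero]
        exact mul_nonneg (by positivity) (wt_pos _ _).le)
      (by
        calc 8 * q * (2 * Y) * K1 C χ ε * wt (χ - 2 * ε) k0
            = 16 * (q * Y * K1 C χ ε * wt (χ - 2 * ε) k0) := by ring
          _ ≤ 1 := by linarith) k hk
    rwa [gam_zero h, sub_zero, sub_zero] at h1
  -- the end term
  set Z : ℝ := q * Y ^ 2 * K1 C χ ε + 8 * q * (2 * Y) * (C * |t|) * K1 C χ ε with hZ
  have hZ0 : 0 ≤ Z := by positivity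
  have hend : ∀ n, k0 ≤ n → ‖w n - Gam L P v n t‖ ≤ Z * wt (χ + ε + (χ - 4 * ε)) n := by
    intro n hn
    have h1 := hd n hn
    have h2 := hgd n hn
    have h3 : ‖w n - Gam L P v n t‖ ≤ ‖w n - t • v n‖ + ‖Gam L P v n t - t • v n‖ := by
      have := norm_sub_le (w n - t • v n) (Gam L P v n t - t • v n)
      rwa [sub_sub_sub_cancel_right] at this
    have h4 : wt (χ - 2 * ε) n * wt (χ - ε) n = wt (χ + ε + (χ - 4 * ε)) n := by
      rw [wt_mul]
      congr 1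
      ring
    rw [← h4, hZ]
    calc ‖w n - Gam L P v n t‖ ≤ ‖w n - t • v n‖ + ‖Gam L P v n t - t • v n‖ := h3
      _ ≤ q * Y ^ 2 * K1 C χ ε * wt (χ - 2 * ε) n * wt (χ - ε) n
          + 8 * q * (2 * Y) * (C * |t|) * K1 C χ ε * wt (χ - 2 * ε) n * wt (χ - ε) n := by
            linarith
      _ = _ := by ring
  have hbig : ∀ k, k0 ≤ k → w k = Gam L P v k t := by
    intro k hk
    have hbd : ∀ n, k ≤ n → ‖w k - Gam L P v k t‖
        ≤ 2 * (C * Z * wt (χ - 4 * ε) n) * wt (χ - ε) k := by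
      intro n hn
      have hX : 0 ≤ C * Z * wt (χ - 4 * ε) n := mul_nonneg (by positivity) (wt_pos _ _).le
      have hmain := cl1 h w (fun k => Gam L P v k t) k0 n (C * Z * wt (χ - 4 * ε) n) (4 * Y) hX
        (by positivity) (fun i _ _ => hrec i) (fun i _ _ => gam_rec h i t)
        (fun k hk _ => (hw k hk).trans
          (mul_le_mul_of_nonneg_right (by linarith) (wt_pos _ _).le))
        (fun k hk _ => (hgs k hk).trans (le_of_eq (by ring)))
        (fun j hj hjn => end_bd h j n hjn _ Z (χ - 4 * ε) hZ0 (hend n (hj.trans hjn)))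
        (by
          calc 4 * q * (4 * Y) * K1 C χ ε * wt (χ - 2 * ε) k0
              = 16 * (q * Y * K1 C χ ε * wt (χ - 2 * ε) k0) := by ring
            _ ≤ 1 := by linarith)
      exact (hmain k hk hn).1
    have hlim : Tendsto (fun n : ℕ => 2 * (C * Z * wt (χ - 4 * ε) n) * wt (χ - ε) k) atTop
        (𝓝 0) := by
      have h1 := (((wt_tendsto (α := χ - 4 * ε) (by linarith)).const_mul (C * Z)).const_mul
        2).mul_const (wt (χ - ε) k)
      simpa using h1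
    have h0 : ‖w k - Gam L P v k t‖ ≤ 0 :=
      ge_of_tendsto hlim ((eventually_ge_atTop k).mono hbd)
    exact sub_eq_zero.1 (norm_le_zero_iff.1 h0)
  have hall : ∀ j k, k0 ≤ k + j → w k = Gam L P v k t := by
    intro j
    induction j with
    | zero => exact fun k hk => hbig k hk
    | succ j ih =>
      intro k hk
      have h1 := ih (k + 1) (by omega)
      rw [hrec k, gam_rec h k t, h1]
  exact fun k => hall k0 k (by omega)

end MD
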