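import Pool.Agent.Lib.MP_904526_an.A3
import Pool.Agent.Lib.MP_904526_an.L1

/-!
# L6: one step of the bootstrap (positive top exponent)
-/

open Set Filter Topology MeasureTheory

namespace MD

theorem l6_wt_succ (α : ℝ) (k : ℕ) : wt α (k + 1) = wt α k * wt α 1 := wt_add α k 1

theorem l6_wt_neg (α : ℝ) (k : ℕ) : wt (-α) k * wt α k = 1 := by
  rw [wt_mul]; simp [wt]

theorem l6_wt_one (α : ℝ) : wt α 1 = Real.exp (-α) := by
  simp [wt]

/-- backward Gronwall -/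
theorem l6_back {J β γ A B : ℝ} (hJ : 0 < J) (a : ℕ → ℝ) (hB : 0 ≤ B)
    (h1 : ∀ k, J * a k ≤ a (k + 1) + B * wt β k) (h2 : ∀ k, a k ≤ A * wt γ k) (hA : 0 ≤ A)
    (hβ : 0 < Real.log J + β) (hγ : 0 < Real.log J + γ) :
    ∃ C : ℝ, 0 ≤ C ∧ ∀ k, a k ≤ C * wt β k := by
  have hx : Real.exp (-β) < J := by
    have : Real.exp (-β) < Real.exp (Real.log J) := Real.exp_lt_exp.2 (by linarith)
    rwa [Real.exp_log hJ] at this
  have hd : 0 < J - Real.exp (-β) := by linarith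
  set C1 : ℝ := B / (J - Real.exp (-β)) with hC1
  have hC1n : 0 ≤ C1 := div_nonneg hB hd.le
  have hC1e : C1 * (J - Real.exp (-β)) = B := div_mul_cancel₀ B hd.ne'
  refine ⟨C1, hC1n, fun k => ?_⟩
  have step : ∀ k, J * (a k - C1 * wt β k) ≤ a (k + 1) - C1 * wt β (k + 1) := by
    intro k
    rw [l6_wt_succ, l6_wt_one]
    have e1 := h1 k
    have e2 : B * wt β k = C1 * J * wt β k - C1 * (wt β k * Real.exp (-β)) := by
      rw [← hC1e]; ring
    linarith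
  have iter : ∀ n, J ^ n * (a k - C1 * wt β k) ≤ a (k + n) - C1 * wt β (k + n) := by
    intro n
    induction n with
    | zero => simp
    | succ n ih =>
      calc J ^ (n + 1) * (a k - C1 * wt β k) = J * (J ^ n * (a k - C1 * wt β k)) := by ring
        _ ≤ J * (a (k + n) - C1 * wt β (k + n)) := mul_le_mul_of_nonneg_left ih hJ.le
        _ ≤ _ := step (k + n)
  have bd : ∀ n, a k - C1 * wt β k ≤ (A * wt γ k) * wt (Real.log J + γ) n := by
    intro n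
    have e1 := iter n
    have e2 : a (k + n) - C1 * wt β (k + n) ≤ A * wt γ (k + n) := by
      have := h2 (k + n)
      have e3 : 0 ≤ C1 * wt β (k + n) := mul_nonneg hC1n (wt_pos _ _).le
      linarith
    have e4 : J ^ n * (a k - C1 * wt β k) ≤ A * wt γ (k + n) := e1.trans e2
    have e5 : wt (Real.log J) n * J ^ n = 1 := by
      have : J ^ n = Real.exp (Real.log J * n) := by
        rw [mul_comm, Real.exp_nat_mul, Real.exp_log hJ]
      rw [this]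
      unfold wt
      rw [← Real.exp_add]
      simp
    calc a k - C1 * wt β k = wt (Real.log J) n * (J ^ n * (a k - C1 * wt β k)) := by
          rw [← mul_assoc, e5, one_mul]
      _ ≤ wt (Real.log J) n * (A * wt γ (k + n)) :=
          mul_le_mul_of_nonneg_left e4 (wt_pos _ _).le
      _ = (A * wt γ k) * wt (Real.log J + γ) n := by
          rw [wt_add, ← wt_mul]; ring
  have lim : Tendsto (fun n => (A * wt γ k) * wt (Real.log J + γ) n) atTop (𝓝 0) := by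
    have := (wt_tendsto hγ).const_mul (A * wt γ k)
    simpa using this
  have := ge_of_tendsto' lim bd
  linarith

/-- forward sum -/
theorem l6_fwd {θ ε C4 : ℝ} (hθ : 0 ≤ θ) (hε : 0 < ε) (hC4 : 0 ≤ C4) (τ : ℕ → ℝ)
    (h : ∀ k, |τ (k + 1) - τ k| ≤ C4 * wt (-θ) k) :
    ∀ k, |τ k| ≤ (|τ 0| + C4 / ε) * wt (-(θ + ε)) k := by
  intro k
  induction k with
  | zero =>
    rw [wt_zero, mul_one]
    have : 0 ≤ C4 / ε := div_nonneg hC4 hε.le
    linarith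
  | succ k ih =>
    have e1 : |τ (k + 1)| ≤ |τ k| + |τ (k + 1) - τ k| := by
      have := abs_add_le (τ k) (τ (k + 1) - τ k)
      simpa using this
    have e2 : wt (-θ) k ≤ wt (-(θ + ε)) k := wt_mono (by linarith) k
    have e3 := h k
    rw [l6_wt_succ, l6_wt_one, neg_neg]
    have e4 : ε + 1 ≤ Real.exp (θ + ε) :=
      le_trans (by linarith) (Real.add_one_le_exp (θ + ε))
    set W := wt (-(θ + ε)) k with hW
    have hW0 : 0 < W := wt_pos _ _
    have e5 : C4 / ε * ε = C4 := div_mul_cancel₀ _ hε.ne'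
    have e6 : 0 ≤ C4 / ε := div_nonneg hC4 hε.le
    have e7 : (|τ 0| + C4 / ε) * (ε + 1) ≤ (|τ 0| + C4 / ε) * Real.exp (θ + ε) :=
      mul_le_mul_of_nonneg_left e4 (by positivity)
    have e8 : (|τ 0| + C4 / ε) + C4 ≤ (|τ 0| + C4 / ε) * (ε + 1) := by
      have : 0 ≤ |τ 0| * ε := by positivity
      nlinarith
    have e9 : C4 * wt (-θ) k ≤ C4 * W := mul_le_mul_of_nonneg_left e2 hC4
    calc |τ (k + 1)| ≤ (|τ 0| + C4 / ε) * W + C4 * W := by linarith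
      _ = ((|τ 0| + C4 / ε) + C4) * W := by ring
      _ ≤ ((|τ 0| + C4 / ε) * Real.exp (θ + ε)) * W :=
          mul_le_mul_of_nonneg_right (e8.trans e7) hW0.le
      _ = (|τ 0| + C4 / ε) * (W * Real.exp (θ + ε)) := by ring

theorem boot_step {D L : ℕ → E →L[ℝ] E} {J Λ : ℝ} {P : E → E} {q : ℝ} (h : Reg D L J Λ)
    (hJ : 0 < J) (hΛ : 0 < Λ) (hχ : Real.log J < Λ) (hq : 0 < q)
    (hPs : ∀ w, ‖P w‖ ≤ q * ‖w‖ ^ 2) (s : E) (hs : ‖s‖ = 1)
    (hsd : ∀ ε : ℝ, 0 < ε → ∃ C : ℝ, ∀ n : ℕ, ‖Fp D 0 n s‖ ≤ C * wt (Λ - Real.log J - ε) n)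
    (w : ℕ → E) (hrec : ∀ i, w i = L i (w (i + 1)) + P (w (i + 1))) (κ C : ℝ) (hκ : 0 < κ)
    (hw : ∀ k, ‖w k‖ ≤ C * wt κ k) (ε : ℝ) (hε : 0 < ε) (hεΛ : ε < Λ)
    (hεχ : ε < Λ - Real.log J) :
    ∃ C' : ℝ, ∀ k, ‖w k‖ ≤ C' * wt (min (2 * κ - 5 * ε) (Λ - Real.log J - 2 * ε)) k := by
  obtain ⟨M, hM⟩ := h.bdd
  have hM0 : 0 ≤ M := (norm_nonneg _).trans (hM 0).1
  have hC0 : 0 ≤ C := by
    have := hw 0
    rw [wt_zero, mul_one] at this
    exact (norm_nonneg _).trans this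
  obtain ⟨Cv, hCv⟩ := hsd ε hε
  obtain ⟨Cu, hCu⟩ := h.up ε hε
  set χ : ℝ := Λ - Real.log J with hχd
  have hχ0 : 0 < χ := by rw [hχd]; linarith
  set v : ℕ → E := fun k => Fp D 0 k s with hv
  have hCv0 : 0 ≤ Cv := by
    have := hCv 0
    rw [wt_zero, mul_one] at this
    exact (norm_nonneg _).trans this
  have hvs : ∀ k, v (k + 1) = D k (v k) := by
    intro k
    show (D (0 + k)).comp (Fp D 0 k) s = D k (Fp D 0 k s)
    rw [zero_add]; rfl
  set e : ℕ → E := fun k => D k (P (w (k + 1))) with he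
  have hwe : ∀ k, w (k + 1) = D k (w k) - e k := by
    intro k
    have e1 : D k (w k) = D k (L k (w (k + 1))) + D k (P (w (k + 1))) := by
      rw [← map_add, ← hrec k]
    rw [h.right] at e1
    show w (k + 1) = D k (w k) - D k (P (w (k + 1)))
    rw [e1]; abel
  set Ce : ℝ := M * (q * C ^ 2) with hCe
  have hCe0 : 0 ≤ Ce := by positivity
  have heb : ∀ k, ‖e k‖ ≤ Ce * wt (2 * κ) k := by
    intro k
    have e1 : ‖e k‖ ≤ M * ‖P (w (k + 1))‖ :=
      ((D k).le_opNorm _).trans (mul_le_mul_of_nonneg_right (hM k).1 (norm_nonneg _))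
    have e2 : ‖w (k + 1)‖ ≤ C * wt κ k :=
      (hw (k + 1)).trans (mul_le_mul_of_nonneg_left (wt_anti hκ.le (Nat.le_succ k)) hC0)
    have e3 : ‖w (k + 1)‖ ^ 2 ≤ (C * wt κ k) ^ 2 := pow_le_pow_left₀ (norm_nonneg _) e2 2
    have e4 : (C * wt κ k) ^ 2 = C ^ 2 * wt (2 * κ) k := by
      rw [mul_pow, sq (wt κ k), wt_mul, ← two_mul]
    calc ‖e k‖ ≤ M * ‖P (w (k + 1))‖ := e1
      _ ≤ M * (q * ‖w (k + 1)‖ ^ 2) := mul_le_mul_of_nonneg_left (hPs _) hM0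
      _ ≤ M * (q * (C * wt κ k) ^ 2) := by gcongr
      _ = Ce * wt (2 * κ) k := by rw [e4, hCe]; ring
  have hvb : ∀ k, ‖v k‖ ≤ Cv * wt (χ - ε) k := hCv
  -- lower bound of v
  set Cl : ℝ := 2 * max Cu 1 with hCl
  have hCl0 : 0 < Cl := by
    have : (1 : ℝ) ≤ max Cu 1 := le_max_right _ _
    rw [hCl]; linarith
  have hvl : ∀ k, 1 ≤ Cl * wt (-(χ + ε)) k * ‖v k‖ := by
    intro k
    have b1 := (Bp_Fp h 0 k s).1
    have b2 : ‖Bp L 0 k‖ ≤ 2 * ‖Fp D 0 k‖ / |dt (Fp D 0 k)| :=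
      inv_norm_le _ _ (fun x => (Bp_Fp h 0 k x).2) (fun x => (Bp_Fp h 0 k x).1)
    rw [Fp_dt h 0 k] at b2
    have b3 := hCu 0 k
    have b4 : ‖Fp D 0 k‖ ≤ max Cu 1 * Real.exp ((Λ + ε) * k) := by
      refine b3.trans ?_
      have : (Λ + ε) * (k : ℝ) + ε * ((0 : ℕ) : ℝ) = (Λ + ε) * k := by simp
      rw [this]
      exact mul_le_mul_of_nonneg_right (le_max_left _ _) (Real.exp_pos _).le
    have hJk : 0 < J ^ k := pow_pos hJ k
    have b5 : J ^ k = Real.exp (Real.log J * k) := by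
      rw [mul_comm, Real.exp_nat_mul, Real.exp_log hJ]
    have b6 : 2 * ‖Fp D 0 k‖ / J ^ k ≤ Cl * wt (-(χ + ε)) k := by
      rw [div_le_iff₀ hJk]
      have : Cl * wt (-(χ + ε)) k * J ^ k = 2 * (max Cu 1 * Real.exp ((Λ + ε) * k)) := by
        rw [b5]
        unfold wt
        rw [hCl, mul_assoc, ← Real.exp_add]
        have : -(-(χ + ε)) * (k : ℝ) + Real.log J * k = (Λ + ε) * k := by rw [hχd]; ring
        rw [this]; ring
      rw [this]
      linarith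
    calc (1 : ℝ) = ‖s‖ := hs.symm
      _ = ‖Bp L 0 k (v k)‖ := by rw [show Bp L 0 k (v k) = s from b1]
      _ ≤ ‖Bp L 0 k‖ * ‖v k‖ := (Bp L 0 k).le_opNorm _
      _ ≤ Cl * wt (-(χ + ε)) k * ‖v k‖ :=
          mul_le_mul_of_nonneg_right (b2.trans b6) (norm_nonneg _)
  have hvpos : ∀ k, 0 < ‖v k‖ := by
    intro k
    by_contra hc
    have hc : ‖v k‖ = 0 := le_antisymm (not_lt.1 hc) (norm_nonneg _)
    have := hvl k
    rw [hc, mul_zero] at this
    linarith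
  -- step 1
  set Z : ℕ → ℝ := fun k => |wg (w k) (v k)| with hZ
  have hZ1 : ∀ k, J * Z k ≤ Z (k + 1) + (2 * Ce * Cv) * wt (2 * κ + (χ - ε)) k := by
    intro k
    have z1 : wg (D k (w k)) (D k (v k)) = dt (D k) * wg (w k) (v k) := wg_map _ _ _
    have z2 : D k (w k) = w (k + 1) + e k := by rw [hwe k]; abel
    have z3 : wg (w (k + 1) + e k) (v (k + 1)) =
        wg (w (k + 1)) (v (k + 1)) + wg (e k) (v (k + 1)) := by
      simp only [wg, Prod.fst_add, Prod.snd_add]; ring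
    have z4 : J * Z k = |wg (w (k + 1)) (v (k + 1)) + wg (e k) (v (k + 1))| := by
      rw [← z3, ← z2, hvs k, z1, abs_mul, h.det]
    rw [z4]
    have z5 : |wg (e k) (v (k + 1))| ≤ 2 * Ce * Cv * wt (2 * κ + (χ - ε)) k := by
      have y1 := wg_le (e k) (v (k + 1))
      have y2 : ‖v (k + 1)‖ ≤ Cv * wt (χ - ε) k :=
        (hvb (k + 1)).trans (mul_le_mul_of_nonneg_left (wt_anti (by linarith) (Nat.le_succ k)) hCv0)
      have y3 : ‖e k‖ * ‖v (k + 1)‖ ≤ (Ce * wt (2 * κ) k) * (Cv * wt (χ - ε) k) :=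
        mul_le_mul (heb k) y2 (norm_nonneg _) (mul_nonneg hCe0 (wt_pos _ _).le)
      have y4 : (Ce * wt (2 * κ) k) * (Cv * wt (χ - ε) k) =
          Ce * Cv * wt (2 * κ + (χ - ε)) k := by
        rw [← wt_mul]; ring
      calc |wg (e k) (v (k + 1))| ≤ 2 * ‖e k‖ * ‖v (k + 1)‖ := y1
        _ = 2 * (‖e k‖ * ‖v (k + 1)‖) := by ring
        _ ≤ 2 * (Ce * Cv * wt (2 * κ + (χ - ε)) k) := by linarith
        _ = _ := by ring
    calc |wg (w (k + 1)) (v (k + 1)) + wg (e k) (v (k + 1))|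
        ≤ |wg (w (k + 1)) (v (k + 1))| + |wg (e k) (v (k + 1))| := abs_add_le _ _
      _ ≤ _ := by gcongr
  have hZ2 : ∀ k, Z k ≤ (2 * C * Cv) * wt (κ + (χ - ε)) k := by
    intro k
    have y3 : ‖w k‖ * ‖v k‖ ≤ (C * wt κ k) * (Cv * wt (χ - ε) k) :=
      mul_le_mul (hw k) (hvb k) (norm_nonneg _) (mul_nonneg hC0 (wt_pos _ _).le)
    have y4 : (C * wt κ k) * (Cv * wt (χ - ε) k) = C * Cv * wt (κ + (χ - ε)) k := by
      rw [← wt_mul]; ring
    calc Z k ≤ 2 * ‖w k‖ * ‖v k‖ := wg_le _ _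
      _ = 2 * (‖w k‖ * ‖v k‖) := by ring
      _ ≤ 2 * (C * Cv * wt (κ + (χ - ε)) k) := by linarith
      _ = _ := by ring
  obtain ⟨C1, hC10, hC1⟩ := l6_back hJ Z (by positivity) hZ1 hZ2 (by positivity)
    (by rw [hχd]; linarith) (by rw [hχd]; linarith)
  -- step 2
  have hun : ∀ k, ‖(‖v k‖)⁻¹ • v k‖ = 1 := by
    intro k
    rw [norm_smul, norm_inv, norm_norm, inv_mul_cancel₀ (hvpos k).ne']
  choose n hn1 hn2 using fun k => compl_vec ((‖v k‖)⁻¹ • v k) (hun k)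
  set τ : ℕ → ℝ := fun k => wg (w k) (n k) * (‖v k‖)⁻¹ with hτ
  set ζ : ℕ → ℝ := fun k => wg ((‖v k‖)⁻¹ • v k) (w k) with hζ
  have hdec : ∀ k, w k = τ k • v k + ζ k • n k := by
    intro k
    have := hn2 k (w k)
    rw [smul_smul] at this
    exact this
  have hζb : ∀ k, |ζ k| ≤ (Cl * C1) * wt (2 * κ - 2 * ε) k := by
    intro k
    have e1 : ζ k = -((‖v k‖)⁻¹ * wg (w k) (v k)) := by
      show wg ((‖v k‖)⁻¹ • v k) (w k) = _
      simp only [wg, Prod.smul_fst, Prod.smul_snd, smul_eq_mul]; ring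
    have e2 : |ζ k| = (‖v k‖)⁻¹ * Z k := by
      rw [e1, abs_neg, abs_mul, abs_of_pos (inv_pos.2 (hvpos k))]
    have e3 : (‖v k‖)⁻¹ ≤ Cl * wt (-(χ + ε)) k := by
      have := hvl k
      rw [← div_le_iff₀ (hvpos k), one_div] at this
      exact this
    rw [e2]
    calc (‖v k‖)⁻¹ * Z k ≤ (Cl * wt (-(χ + ε)) k) * (C1 * wt (2 * κ + (χ - ε)) k) :=
          mul_le_mul e3 (hC1 k) (abs_nonneg _) (mul_nonneg hCl0.le (wt_pos _ _).le)
      _ = (Cl * C1) * (wt (-(χ + ε)) k * wt (2 * κ + (χ - ε)) k) := by ring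
      _ = _ := by
          rw [wt_mul]
          congr 2
          ring
  -- step 3
  set C3 : ℝ := M * (Cl * C1) + Ce + (Cl * C1) * wt (2 * κ - 2 * ε) 1 with hC3
  have hC30 : 0 ≤ C3 := by
    have := (wt_pos (2 * κ - 2 * ε) 1).le
    positivity
  have hτ1 : ∀ k, |τ (k + 1) - τ k| * ‖v (k + 1)‖ ≤ C3 * wt (2 * κ - 2 * ε) k := by
    intro k
    have e1 : (τ (k + 1) - τ k) • v (k + 1) =
        ζ k • D k (n k) - e k - ζ (k + 1) • n (k + 1) := by
      have a1 := hdec (k + 1)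
      have a2 := hwe k
      have a3 : D k (w k) = τ k • v (k + 1) + ζ k • D k (n k) := by
        conv_lhs => rw [hdec k]
        rw [map_add, map_smul, map_smul, ← hvs]
      rw [a3] at a2
      rw [a1] at a2
      rw [sub_smul]
      have a4 : τ (k + 1) • v (k + 1) = τ k • v (k + 1) + ζ k • D k (n k) - e k -
          ζ (k + 1) • n (k + 1) := by
        rw [← a2]; abel
      rw [a4]; abel
    have e2 : |τ (k + 1) - τ k| * ‖v (k + 1)‖ = ‖(τ (k + 1) - τ k) • v (k + 1)‖ := by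
      rw [norm_smul, Real.norm_eq_abs]
    rw [e2, e1]
    have e3 : ‖ζ k • D k (n k)‖ ≤ (M * (Cl * C1)) * wt (2 * κ - 2 * ε) k := by
      rw [norm_smul, Real.norm_eq_abs]
      have a1 : ‖D k (n k)‖ ≤ M := by
        calc ‖D k (n k)‖ ≤ ‖D k‖ * ‖n k‖ := (D k).le_opNorm _
          _ ≤ M * 1 := mul_le_mul (hM k).1 (hn1 k) (norm_nonneg _) hM0
          _ = M := mul_one _
      calc |ζ k| * ‖D k (n k)‖ ≤ ((Cl * C1) * wt (2 * κ - 2 * ε) k) * M :=
            mul_le_mul (hζb k) a1 (norm_nonneg _)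
              (mul_nonneg (mul_nonneg hCl0.le hC10) (wt_pos _ _).le)
        _ = _ := by ring
    have e4 : ‖e k‖ ≤ Ce * wt (2 * κ - 2 * ε) k :=
      (heb k).trans (mul_le_mul_of_nonneg_left (wt_mono (by linarith) k) hCe0)
    have e5 : ‖ζ (k + 1) • n (k + 1)‖ ≤
        ((Cl * C1) * wt (2 * κ - 2 * ε) 1) * wt (2 * κ - 2 * ε) k := by
      rw [norm_smul, Real.norm_eq_abs]
      have a2 := hζb (k + 1)
      rw [l6_wt_succ] at a2
      calc |ζ (k + 1)| * ‖n (k + 1)‖ ≤ |ζ (k + 1)| * 1 :=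
            mul_le_mul_of_nonneg_left (hn1 _) (abs_nonneg _)
        _ = |ζ (k + 1)| := mul_one _
        _ ≤ _ := a2
        _ = _ := by ring
    calc ‖ζ k • D k (n k) - e k - ζ (k + 1) • n (k + 1)‖
        ≤ ‖ζ k • D k (n k) - e k‖ + ‖ζ (k + 1) • n (k + 1)‖ := norm_sub_le _ _
      _ ≤ ‖ζ k • D k (n k)‖ + ‖e k‖ + ‖ζ (k + 1) • n (k + 1)‖ := by
          gcongr; exact norm_sub_le _ _
      _ ≤ (M * (Cl * C1)) * wt (2 * κ - 2 * ε) k + Ce * wt (2 * κ - 2 * ε) k +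
          ((Cl * C1) * wt (2 * κ - 2 * ε) 1) * wt (2 * κ - 2 * ε) k := by gcongr
      _ = C3 * wt (2 * κ - 2 * ε) k := by rw [hC3]; ring
  set θ : ℝ := max (χ - 2 * κ + 3 * ε) 0 with hθ
  have hθ0 : 0 ≤ θ := le_max_right _ _
  have hθ1 : χ - 2 * κ + 3 * ε ≤ θ := le_max_left _ _
  set C4 : ℝ := Cl * C3 * wt (-(χ + ε)) 1 with hC4
  have hC40 : 0 ≤ C4 := mul_nonneg (mul_nonneg hCl0.le hC30) (wt_pos _ _).le
  have hτ2 : ∀ k, |τ (k + 1) - τ k| ≤ C4 * wt (-θ) k := by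
    intro k
    have a1 := hvl (k + 1)
    have a2 := hτ1 k
    calc |τ (k + 1) - τ k| = |τ (k + 1) - τ k| * 1 := (mul_one _).symm
      _ ≤ |τ (k + 1) - τ k| * (Cl * wt (-(χ + ε)) (k + 1) * ‖v (k + 1)‖) :=
          mul_le_mul_of_nonneg_left a1 (abs_nonneg _)
      _ = (Cl * wt (-(χ + ε)) (k + 1)) * (|τ (k + 1) - τ k| * ‖v (k + 1)‖) := by ring
      _ ≤ (Cl * wt (-(χ + ε)) (k + 1)) * (C3 * wt (2 * κ - 2 * ε) k) :=
          mul_le_mul_of_nonneg_left a2 (mul_nonneg hCl0.le (wt_pos _ _).le)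
      _ = C4 * (wt (-(χ + ε)) k * wt (2 * κ - 2 * ε) k) := by
          rw [l6_wt_succ, hC4]; ring
      _ ≤ C4 * wt (-θ) k := by
          rw [wt_mul]
          exact mul_le_mul_of_nonneg_left (wt_mono (by linarith) k) hC40
  have hτ3 := l6_fwd hθ0 hε hC40 τ hτ2
  set C5 : ℝ := |τ 0| + C4 / ε with hC5
  have hC50 : 0 ≤ C5 := by
    have : 0 ≤ C4 / ε := div_nonneg hC40 hε.le
    positivity
  refine ⟨C5 * Cv + Cl * C1, fun k => ?_⟩
  set m : ℝ := min (2 * κ - 5 * ε) (χ - 2 * ε) with hm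
  have hm1 : m ≤ χ - 2 * ε - θ := by
    rcases max_choice (χ - 2 * κ + 3 * ε) 0 with c | c
    · rw [hθ, c]
      exact (min_le_left _ _).trans (by linarith)
    · rw [hθ, c]
      exact (min_le_right _ _).trans (by linarith)
  have hm2 : m ≤ 2 * κ - 2 * ε := (min_le_left _ _).trans (by linarith)
  have f1 : ‖τ k • v k‖ ≤ (C5 * Cv) * wt m k := by
    rw [norm_smul, Real.norm_eq_abs]
    calc |τ k| * ‖v k‖ ≤ (C5 * wt (-(θ + ε)) k) * (Cv * wt (χ - ε) k) :=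
          mul_le_mul (hτ3 k) (hvb k) (norm_nonneg _) (mul_nonneg hC50 (wt_pos _ _).le)
      _ = (C5 * Cv) * (wt (-(θ + ε)) k * wt (χ - ε) k) := by ring
      _ ≤ _ := by
          rw [wt_mul]
          exact mul_le_mul_of_nonneg_left (wt_mono (by linarith) k) (mul_nonneg hC50 hCv0)
  have f2 : ‖ζ k • n k‖ ≤ (Cl * C1) * wt m k := by
    rw [norm_smul, Real.norm_eq_abs]
    calc |ζ k| * ‖n k‖ ≤ |ζ k| * 1 := mul_le_mul_of_nonneg_left (hn1 _) (abs_nonneg _)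
      _ = |ζ k| := mul_one _
      _ ≤ _ := hζb k
      _ ≤ _ := mul_le_mul_of_nonneg_left (wt_mono hm2 k) (mul_nonneg hCl0.le hC10)
  calc ‖w k‖ = ‖τ k • v k + ζ k • n k‖ := by rw [← hdec k]
    _ ≤ ‖τ k • v k‖ + ‖ζ k • n k‖ := norm_add_le _ _
    _ ≤ (C5 * Cv) * wt m k + (Cl * C1) * wt m k := add_le_add f1 f2
    _ = (C5 * Cv + Cl * C1) * wt m k := by ring

end MD
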