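import Pool.Agent.Lib.MP_904526_an.C1
import Pool.Agent.Lib.MP_904526_an.L4
import Pool.Agent.Lib.MP_904526_an.L5

/-!
# M1 (est. 60 min): the stable curve of a point
orb_rec: Sys.ex at the point g^[k] x with w = g^[k+1] y - g^[k+1] x (g^[k+1] x = g (g^[k] x),
Function.iterate_succ_apply').
gam_orb: induction on k; g.symm (g x_k + Gam (k+1) t) = x_k + L x_k (Gam (k+1) t) + P (..) =
x_k + Gam k t (gam_rec), apply g.
leaf_basic: zero by gam_zero; continuity gam_cont; injective: gam_inj, hinj from Sys.ex: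
L w + P w = g.symm (g x_k + w) - x_k is injective in w. Range: (→) gam_orb and gam_decay. (←) capture
with w k = g^[k] y - g^[k] x (orb_rec), Y (≥ 0, e.g. from k = 0), k0 large (wt_tendsto), then k = 0.
-/

open Set Filter Topology MeasureTheory

namespace MD

variable {g : E ≃ₜ E} {D L : E → E →L[ℝ] E} {P : E → E} {q J M : ℝ} {K : Set E}

theorem m1_step (h : Sys g D L P q J M K) (x w : E) :
    g (x + (L x w + P w)) = g x + w := by
  have h1 := h.ex x w
  rw [add_assoc] at h1
  rw [← h1]
  exact g.apply_symm_apply _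

theorem orb_rec (h : Sys g D L P q J M K) (x y : E) (k : ℕ) :
    g^[k] y - g^[k] x = L (g^[k] x) (g^[k + 1] y - g^[k + 1] x)
      + P (g^[k + 1] y - g^[k + 1] x) := by
  have h1 := h.ex (g^[k] x) (g^[k + 1] y - g^[k + 1] x)
  have h2 : g (g^[k] x) = g^[k + 1] x := (Function.iterate_succ_apply' g k x).symm
  have h3 : g^[k + 1] y = g (g^[k] y) := Function.iterate_succ_apply' g k y
  rw [h2, add_sub_cancel, h3, g.symm_apply_apply] at h1
  rw [← h3] at h1
  rw [h1]
  abel

theorem gam_orb (h : Sys g D L P q J M K) (x : E) (v : ℕ → E) (C χ ε : ℝ)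
    (ht : Tame (fun k => L (g^[k] x)) P v q C χ ε) (t : ℝ) (k : ℕ) :
    g^[k] (x + Gam (fun k => L (g^[k] x)) P v 0 t)
      = g^[k] x + Gam (fun k => L (g^[k] x)) P v k t := by
  induction k with
  | zero => rfl
  | succ k ih =>
    rw [Function.iterate_succ_apply', Function.iterate_succ_apply', ih, gam_rec ht k t]
    exact m1_step h _ _

theorem leaf_basic (h : Sys g D L P q J M K) (x : E) (C χ ε : ℝ)
    (ht : Tame (fun k => L (g^[k] x)) P (fun k => coc D g k x (Sd D g x)) q C χ ε) :
    leaf D L P g x 0 = x ∧ Continuous (leaf D L P g x) ∧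
      Function.Injective (leaf D L P g x) ∧
      ∀ y, y ∈ range (leaf D L P g x) ↔
        ∃ Y : ℝ, ∀ k : ℕ, ‖g^[k] y - g^[k] x‖ ≤ Y * wt (χ - ε) k := by
  have hχε : 0 < χ - 2 * ε := by
    have := ht.hχ
    have := ht.hε
    linarith
  refine ⟨?_, ?_, ?_, ?_⟩
  · unfold leaf
    rw [gam_zero ht 0, add_zero]
  · unfold leaf
    exact continuous_const.add (gam_cont ht)
  · intro t t' htt
    have h1 : x + Gam (fun k => L (g^[k] x)) P (fun k => coc D g k x (Sd D g x)) 0 t =
      x + Gam (fun k => L (g^[k] x)) P (fun k => coc D g k x (Sd D g x)) 0 t' := htt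
    refine gam_inj ht ?_ (add_left_cancel h1)
    intro k w w' hw
    have h2 : L (g^[k] x) w + P w = L (g^[k] x) w' + P w' := hw
    have h3 := m1_step h (g^[k] x) w
    have h4 := m1_step h (g^[k] x) w'
    rw [h2, h4] at h3
    exact (add_left_cancel h3).symm
  · intro y
    constructor
    · rintro ⟨t, rfl⟩
      obtain ⟨Y, hY⟩ := gam_decay ht t
      refine ⟨Y, fun k => ?_⟩
      have h1 := gam_orb h x _ C χ ε ht t k
      have h2 : g^[k] (leaf D L P g x t) - g^[k] x =
          Gam (fun k => L (g^[k] x)) P (fun k => coc D g k x (Sd D g x)) k t := by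
        unfold leaf
        rw [h1]
        abel
      rw [h2]
      exact hY k
    · rintro ⟨Y, hY⟩
      have hY0 : 0 ≤ Y := by
        have h1 := hY 0
        rw [wt_zero, mul_one] at h1
        exact (norm_nonneg _).trans h1
      have hlim : Tendsto (fun k0 : ℕ => 32 * q * Y * K1 C χ ε * wt (χ - 2 * ε) k0) atTop
          (𝓝 (32 * q * Y * K1 C χ ε * 0)) := (wt_tendsto hχε).const_mul _
      rw [mul_zero] at hlim
      obtain ⟨k0, hk0⟩ := (hlim.eventually (gt_mem_nhds (zero_lt_one (α := ℝ)))).exists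
      obtain ⟨t, -, ht2⟩ := capture ht (fun k => g^[k] y - g^[k] x) k0 Y hY0
        (fun i => orb_rec h x y i) (fun k _ => hY k) hk0.le
      refine ⟨t, ?_⟩
      have h1 : y - x = Gam (fun k => L (g^[k] x)) P (fun k => coc D g k x (Sd D g x)) 0 t :=
        ht2 0
      unfold leaf
      rw [← h1]
      abel

end MD
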