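import Pool.Agent.Lib.MP_904526_an.M1

/-!
# M2 (est. 60 min): local description, with constants
v 0 = coc D g 0 x (Sd D g x) = Sd D g x (unit). K = K1 C χ ε, wt _ 0 = 1.
Take r₀ with 32 q (3 A r₀) K ≤ 1, 8 q C (C r₀) K ≤ δ, 8 q (C r₀) K ≤ 1, 18 q A² r₀ K ≤ 1.
near: g^[k] (leaf x t) - g^[k] x = Gam k t (gam_orb) and gam_small with X = C |t|, k0 = 0.
lin: gam_diff with X = C r, k0 = 0, k = 0. cap: capture with w k = g^[k] y - g^[k] x, Y = 3 A r,
k0 = 0: |t| = ‖t • v 0‖ ≤ r/2 + q (3Ar)² K ≤ r.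
-/

open Set Filter Topology MeasureTheory

namespace MD

variable {g : E ≃ₜ E} {D L : E → E →L[ℝ] E} {P : E → E} {q J M : ℝ} {K : Set E}

theorem leaf_loc (h : Sys g D L P q J M K) (x : E) (C χ ε : ℝ)
    (ht : Tame (fun k => L (g^[k] x)) P (fun k => coc D g k x (Sd D g x)) q C χ ε)
    (hs : ‖Sd D g x‖ = 1) (A : ℝ) (hA : 2 * C ≤ A) (δ : ℝ) (hδ : 0 < δ) :
    ∃ r₀ : ℝ, 0 < r₀ ∧ ∀ r : ℝ, 0 < r → r ≤ r₀ →
      LocAt g (leaf D L P g x) (Sd D g x) (χ - ε) A δ r x := by
  have hq := ht.hq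
  have hC : 0 < C := lt_of_lt_of_le one_pos ht.hC
  have hA0 : 0 < A := by linarith
  have hK : 0 < K1 C χ ε := K1_pos ht
  have hv0 : coc D g 0 x (Sd D g x) = Sd D g x := rfl
  set κ := K1 C χ ε with hκ
  have p1 : 0 < 96 * q * A * κ := by positivity
  have p2 : 0 < 8 * q * C * κ := by positivity
  have p3 : 0 < 8 * q * C * C * κ / δ := by positivity
  have p4 : 0 < 18 * q * A ^ 2 * κ := by positivity
  set S := 96 * q * A * κ + 8 * q * C * κ + 8 * q * C * C * κ / δ + 18 * q * A ^ 2 * κ + 1 with hS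
  have hSpos : 0 < S := by positivity
  refine ⟨1 / S, by positivity, fun r hr hr0 => ?_⟩
  have hrS : S * r ≤ 1 := by
    have := mul_le_mul_of_nonneg_left hr0 hSpos.le
    rwa [mul_one_div_cancel hSpos.ne'] at this
  have q1 : 96 * q * A * κ * r ≤ 1 :=
    (mul_le_mul_of_nonneg_right (by rw [hS]; linarith) hr.le).trans hrS
  have q2 : 8 * q * C * κ * r ≤ 1 :=
    (mul_le_mul_of_nonneg_right (by rw [hS]; linarith) hr.le).trans hrS
  have q3 : 8 * q * C * C * κ / δ * r ≤ 1 :=
    (mul_le_mul_of_nonneg_right (by rw [hS]; linarith) hr.le).trans hrS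
  have q4 : 18 * q * A ^ 2 * κ * r ≤ 1 :=
    (mul_le_mul_of_nonneg_right (by rw [hS]; linarith) hr.le).trans hrS
  have q3' : 8 * q * C * C * κ * r ≤ δ := by
    have h1 : 8 * q * C * C * κ / δ * r = (8 * q * C * C * κ * r) / δ := by ring
    rw [h1, div_le_one hδ] at q3
    exact q3
  have hvk : ∀ (t : ℝ) (k : ℕ), ‖t • coc D g k x (Sd D g x)‖ ≤ (C * |t|) * wt (χ - ε) k := by
    intro t k
    rw [norm_smul, Real.norm_eq_abs]
    have h1 := mul_le_mul_of_nonneg_left (ht.vup k) (abs_nonneg t)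
    calc |t| * ‖coc D g k x (Sd D g x)‖ ≤ |t| * (C * wt (χ - ε) k) := h1
      _ = (C * |t|) * wt (χ - ε) k := by ring
  refine ⟨hs, (leaf_basic h x C χ ε ht).1, ?_, ?_, ?_⟩
  · intro t t' htr htr'
    have h1 := gam_diff ht 0 t t' (C * r) (by positivity)
      (fun k _ => (hvk t k).trans (by
        apply mul_le_mul_of_nonneg_right _ (wt_pos _ _).le
        exact mul_le_mul_of_nonneg_left htr hC.le))
      (fun k _ => (hvk t' k).trans (by
        apply mul_le_mul_of_nonneg_right _ (wt_pos _ _).le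
        exact mul_le_mul_of_nonneg_left htr' hC.le))
      (by
        rw [wt_zero, mul_one]
        calc 8 * q * (C * r) * κ = 8 * q * C * κ * r := by ring
          _ ≤ 1 := q2) 0 le_rfl
    rw [wt_zero, wt_zero, mul_one, mul_one] at h1
    have h2 : leaf D L P g x t - leaf D L P g x t' - (t - t') • Sd D g x =
        Gam (fun k => L (g^[k] x)) P (fun k => coc D g k x (Sd D g x)) 0 t -
          Gam (fun k => L (g^[k] x)) P (fun k => coc D g k x (Sd D g x)) 0 t' -
          (t - t') • coc D g 0 x (Sd D g x) := by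
      unfold leaf
      rw [hv0]
      abel
    rw [h2]
    refine h1.trans ?_
    calc 8 * q * (C * r) * (C * |t - t'|) * κ = (8 * q * C * C * κ * r) * |t - t'| := by ring
      _ ≤ δ * |t - t'| := mul_le_mul_of_nonneg_right q3' (abs_nonneg _)
  · intro t htr k
    have h1 := gam_small ht 0 t (C * |t|) (by positivity) (fun k _ => hvk t k)
      (by
        rw [wt_zero, mul_one]
        have h3 : 4 * q * (C * |t|) * κ ≤ 4 * q * (C * r) * κ := by gcongr
        have h4 : 4 * q * (C * r) * κ = 8 * q * C * κ * r / 2 := by ring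
        linarith) k (Nat.zero_le k)
    have h2 : g^[k] (leaf D L P g x t) - g^[k] x =
        Gam (fun k => L (g^[k] x)) P (fun k => coc D g k x (Sd D g x)) k t := by
      have h3 := gam_orb h x _ C χ ε ht t k
      unfold leaf
      rw [h3]
      abel
    rw [h2]
    refine h1.trans ?_
    apply mul_le_mul_of_nonneg_right _ (wt_pos _ _).le
    calc 2 * (C * |t|) = (2 * C) * |t| := by ring
      _ ≤ A * |t| := mul_le_mul_of_nonneg_right hA (abs_nonneg _)
  · intro y hy hyr
    obtain ⟨t, ht1, ht2⟩ := capture ht (fun k => g^[k] y - g^[k] x) 0 (3 * A * r) (by positivity)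
      (fun i => orb_rec h x y i) (fun k _ => hy k)
      (by
        rw [wt_zero, mul_one]
        calc 32 * q * (3 * A * r) * κ = 96 * q * A * κ * r := by ring
          _ ≤ 1 := q1)
    refine ⟨t, ?_, ?_⟩
    · rw [wt_zero, wt_zero, mul_one, mul_one] at ht1
      have h3 : ‖t • coc D g 0 x (Sd D g x)‖ = |t| := by
        rw [hv0, norm_smul, hs, mul_one, Real.norm_eq_abs]
      have h4 : ‖t • coc D g 0 x (Sd D g x)‖ ≤ ‖y - x‖ + q * (3 * A * r) ^ 2 * κ := ht1
      rw [h3] at h4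
      have h5 : q * (3 * A * r) ^ 2 * κ = (18 * q * A ^ 2 * κ * r) * (r / 2) := by ring
      have h6 : (18 * q * A ^ 2 * κ * r) * (r / 2) ≤ 1 * (r / 2) :=
        mul_le_mul_of_nonneg_right q4 (by positivity)
      linarith
    · have h1 : y - x = Gam (fun k => L (g^[k] x)) P (fun k => coc D g k x (Sd D g x)) 0 t :=
        ht2 0
      unfold leaf
      rw [← h1]
      abel

end MD
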