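import Pool.Agent.Lib.MP_904526_an.L4

/-!
# N1: products of perturbed backward maps
-/

open Set Filter Topology MeasureTheory

namespace MD

variable {L : ℕ → E →L[ℝ] E} {P : E → E} {v : ℕ → E} {q C χ ε : ℝ}

/-- variation of constants for a perturbed linear recursion -/
theorem n1_rep (w r : ℕ → E) (k m : ℕ)
    (hrec : ∀ i, k ≤ i → i < k + m → w i = L i (w (i + 1)) + r i) :
    w k = Bp L k m (w (k + m)) + ∑ j ∈ Finset.range m, Bp L k j (r (k + j)) := by
  induction m with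
  | zero => simp [Bp]
  | succ m ih =>
    have h1 := ih (fun i hi1 hi2 => hrec i hi1 (by omega))
    have h2 := hrec (k + m) (by omega) (by omega)
    have h3 : Bp L k (m + 1) (w (k + (m + 1))) = Bp L k m (L (k + m) (w (k + m + 1))) := rfl
    rw [Finset.sum_range_succ, h3]
    conv_lhs => rw [h1]
    rw [h2, map_add]
    abel

theorem n1_geo (h : Tame L P v q C χ ε) (i m : ℕ) :
    ∑ j ∈ Finset.range m, wt (χ - 2 * ε) (i + j + 1)
      ≤ wt (χ - 2 * ε) i * (1 / (1 - Real.exp (-(χ - 2 * ε)))) := by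
  have hα : 0 < χ - 2 * ε := by linarith [h.hε, h.hχ]
  set r := Real.exp (-(χ - 2 * ε)) with hr
  have hr0 : 0 < r := Real.exp_pos _
  have hr1 : r < 1 := by
    rw [hr, Real.exp_lt_one_iff]
    linarith
  have hterm : ∀ j ∈ Finset.range m, wt (χ - 2 * ε) (i + j + 1)
      ≤ wt (χ - 2 * ε) i * r ^ j := by
    intro j _
    have h1 : wt (χ - 2 * ε) (i + j + 1) ≤ wt (χ - 2 * ε) (i + j) := wt_anti hα.le (by omega)
    rw [wt_add (χ - 2 * ε) i j] at h1
    have h2 : wt (χ - 2 * ε) j = r ^ j := by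
      rw [hr, ← Real.exp_nat_mul]
      unfold wt
      congr 1
      ring
    rwa [h2] at h1
  refine (Finset.sum_le_sum hterm).trans ?_
  rw [← Finset.mul_sum]
  apply mul_le_mul_of_nonneg_left _ (wt_pos _ _).le
  have h1 := mul_neg_geom_sum r m
  rw [le_div_iff₀ (by linarith), mul_comm, h1]
  have : 0 ≤ r ^ m := by positivity
  linarith

theorem n1_core (h : Tame L P v q C χ ε) (L' : ℕ → E →L[ℝ] E) (Y : ℝ) (hY : 0 ≤ Y)
    (hL : ∀ i, ‖L' i - L i‖ ≤ Y * wt (χ - ε) (i + 1)) (i0 : ℕ)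
    (hi0 : 2 * C * Y * (1 / (1 - Real.exp (-(χ - 2 * ε)))) * wt (χ - 2 * ε) i0 ≤ 1)
    (k : ℕ) (u : E) :
    ∀ m i : ℕ, i0 ≤ i → i + m = k →
      ‖Bp L' i m u‖ ≤ 2 * C * Real.exp ((χ + ε) * m + ε * i) * ‖u‖ := by
  have hC0 : 0 < C := by linarith [h.hC]
  have hε := h.hε
  have hχ := h.hχ
  intro m
  induction m using Nat.strong_induction_on with
  | _ m ih =>
    intro i hi hik
    set w : ℕ → E := fun l => Bp L' l (k - l) u with hw
    have hrec : ∀ l, i ≤ l → l < i + m → w l = L l (w (l + 1)) + (L' l - L l) (w (l + 1)) := by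
      intro l hl1 hl2
      have h1 : k - l = (k - (l + 1)) + 1 := by omega
      have h2 : w l = L' l (w (l + 1)) := by
        show Bp L' l (k - l) u = L' l (Bp L' (l + 1) (k - (l + 1)) u)
        rw [h1, Bp_succ']
      rw [h2, sub_apply]
      abel
    have hrep := n1_rep (L := L) w (fun l => (L' l - L l) (w (l + 1))) i m hrec
    have hwi : w i = Bp L' i m u := by
      show Bp L' i (k - i) u = _
      rw [show k - i = m by omega]
    have hwk : w (i + m) = u := by
      show Bp L' (i + m) (k - (i + m)) u = u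
      rw [show k - (i + m) = 0 by omega]
      rfl
    rw [hwi, hwk] at hrep
    have hterm : ∀ j ∈ Finset.range m, ‖Bp L i j ((L' (i + j) - L (i + j)) (w (i + j + 1)))‖
        ≤ (C * Real.exp ((χ + ε) * m + ε * i) * ‖u‖ * (2 * C * Y)) *
            wt (χ - 2 * ε) (i + j + 1) := by
      intro j hj
      have hj' := Finset.mem_range.1 hj
      have h1 := ih (m - (j + 1)) (by omega) (i + j + 1) (by omega) (by omega)
      have h2 : w (i + j + 1) = Bp L' (i + j + 1) (m - (j + 1)) u := by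
        show Bp L' (i + j + 1) (k - (i + j + 1)) u = _
        rw [show k - (i + j + 1) = m - (j + 1) by omega]
      rw [← h2] at h1
      have h3 := hL (i + j)
      have h4 := h.bp i j
      have hmj : ((m - (j + 1) : ℕ) : ℝ) = m - (j + 1) := by
        rw [Nat.cast_sub (by omega)]
        push_cast
        ring
      rw [hmj] at h1
      calc ‖Bp L i j ((L' (i + j) - L (i + j)) (w (i + j + 1)))‖
          ≤ ‖Bp L i j‖ * (‖L' (i + j) - L (i + j)‖ * ‖w (i + j + 1)‖) :=
            ((Bp L i j).le_opNorm _).trans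
              (mul_le_mul_of_nonneg_left (ContinuousLinearMap.le_opNorm _ _) (norm_nonneg _))
        _ ≤ (C * Real.exp ((χ + ε) * j + ε * i)) * ((Y * wt (χ - ε) (i + j + 1)) *
              (2 * C * Real.exp ((χ + ε) * (m - (j + 1)) + ε * ((i + j + 1 : ℕ) : ℝ)) * ‖u‖)) := by
            have hw0 := wt_pos (χ - ε) (i + j + 1)
            apply mul_le_mul h4 _ (by positivity) (by positivity)
            exact mul_le_mul h3 h1 (norm_nonneg _) (by positivity)
        _ = (C * ‖u‖ * (2 * C * Y)) * (Real.exp ((χ + ε) * j + ε * i) * wt (χ - ε) (i + j + 1) *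
              Real.exp ((χ + ε) * (m - (j + 1)) + ε * ((i + j + 1 : ℕ) : ℝ))) := by ring
        _ ≤ (C * ‖u‖ * (2 * C * Y)) * (Real.exp ((χ + ε) * m + ε * i) *
              wt (χ - 2 * ε) (i + j + 1)) := by
            apply mul_le_mul_of_nonneg_left _ (by positivity)
            unfold wt
            rw [← Real.exp_add, ← Real.exp_add, ← Real.exp_add]
            apply Real.exp_le_exp.2
            push_cast
            nlinarith
        _ = _ := by ring
    have hsum : ‖∑ j ∈ Finset.range m, Bp L i j ((L' (i + j) - L (i + j)) (w (i + j + 1)))‖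
        ≤ C * Real.exp ((χ + ε) * m + ε * i) * ‖u‖ := by
      refine (norm_sum_le _ _).trans ?_
      refine (Finset.sum_le_sum hterm).trans ?_
      rw [← Finset.mul_sum]
      have h1 := n1_geo h i m
      have h2 : wt (χ - 2 * ε) i ≤ wt (χ - 2 * ε) i0 := wt_anti (by linarith) hi
      have hgeo0 : 0 < 1 - Real.exp (-(χ - 2 * ε)) := by
        have : Real.exp (-(χ - 2 * ε)) < 1 := by
          rw [Real.exp_lt_one_iff]; linarith
        linarith
      have hp : 0 ≤ C * Real.exp ((χ + ε) * m + ε * i) * ‖u‖ := by positivity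
      calc C * Real.exp ((χ + ε) * m + ε * i) * ‖u‖ * (2 * C * Y) *
            ∑ j ∈ Finset.range m, wt (χ - 2 * ε) (i + j + 1)
          ≤ C * Real.exp ((χ + ε) * m + ε * i) * ‖u‖ * (2 * C * Y) *
              (wt (χ - 2 * ε) i0 * (1 / (1 - Real.exp (-(χ - 2 * ε))))) := by
            apply mul_le_mul_of_nonneg_left _ (by positivity)
            refine h1.trans ?_
            exact mul_le_mul_of_nonneg_right h2 (by positivity)
        _ = C * Real.exp ((χ + ε) * m + ε * i) * ‖u‖ *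
              (2 * C * Y * (1 / (1 - Real.exp (-(χ - 2 * ε)))) * wt (χ - 2 * ε) i0) := by ring
        _ ≤ C * Real.exp ((χ + ε) * m + ε * i) * ‖u‖ * 1 :=
            mul_le_mul_of_nonneg_left hi0 hp
        _ = _ := by ring
    have hfirst : ‖Bp L i m u‖ ≤ C * Real.exp ((χ + ε) * m + ε * i) * ‖u‖ :=
      ((Bp L i m).le_opNorm u).trans (mul_le_mul_of_nonneg_right (h.bp i m) (norm_nonneg _))
    rw [hrep]
    refine (norm_add_le _ _).trans ?_
    linarith

theorem n1_gron (h : Tame L P v q C χ ε) (L' : ℕ → E →L[ℝ] E) (Y : ℝ) (hY : 0 ≤ Y)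
    (hL : ∀ i, ‖L' i - L i‖ ≤ Y * wt (χ - ε) (i + 1)) :
    ∃ C' : ℝ, ∀ k : ℕ, ‖Bp L' 0 k‖ ≤ C' * Real.exp ((χ + ε) * k) := by
  have hC0 : 0 < C := by linarith [h.hC]
  have hε := h.hε
  have hχ := h.hχ
  have hα : 0 < χ - 2 * ε := by linarith
  obtain ⟨i0, hi0⟩ : ∃ i0 : ℕ,
      2 * C * Y * (1 / (1 - Real.exp (-(χ - 2 * ε)))) * wt (χ - 2 * ε) i0 ≤ 1 := by
    have h1 := (wt_tendsto hα).const_mul (2 * C * Y * (1 / (1 - Real.exp (-(χ - 2 * ε)))))
    rw [mul_zero] at h1
    obtain ⟨i0, h2⟩ := (h1.eventually (gt_mem_nhds one_pos)).exists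
    exact ⟨i0, h2.le⟩
  refine ⟨(∑ k ∈ Finset.range i0, ‖Bp L' 0 k‖) + ‖Bp L' 0 i0‖ * (2 * C * Real.exp (ε * i0)),
    fun k => ?_⟩
  have hexp : 1 ≤ Real.exp ((χ + ε) * k) := by
    apply Real.one_le_exp
    have : (0 : ℝ) ≤ k := Nat.cast_nonneg k
    have : 0 ≤ χ + ε := by linarith
    positivity
  have hs : 0 ≤ ∑ k ∈ Finset.range i0, ‖Bp L' 0 k‖ :=
    Finset.sum_nonneg fun _ _ => norm_nonneg _
  have hp : 0 ≤ ‖Bp L' 0 i0‖ * (2 * C * Real.exp (ε * i0)) := by positivity
  rcases lt_or_ge k i0 with hk | hk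
  · have h1 : ‖Bp L' 0 k‖ ≤ ∑ k ∈ Finset.range i0, ‖Bp L' 0 k‖ :=
      Finset.single_le_sum (f := fun k => ‖Bp L' 0 k‖) (fun _ _ => norm_nonneg _)
        (Finset.mem_range.2 hk)
    nlinarith
  · obtain ⟨m, rfl⟩ := Nat.exists_eq_add_of_le hk
    have h1 : ‖Bp L' 0 (i0 + m)‖ ≤ ‖Bp L' 0 i0‖ * (2 * C * Real.exp ((χ + ε) * m + ε * i0)) := by
      apply ContinuousLinearMap.opNorm_le_bound _ (by positivity)
      intro u
      rw [Bp_add, zero_add]
      have h2 := n1_core h L' Y hY hL i0 hi0 (i0 + m) u m i0 le_rfl rfl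
      calc ‖Bp L' 0 i0 (Bp L' i0 m u)‖ ≤ ‖Bp L' 0 i0‖ * ‖Bp L' i0 m u‖ :=
            ContinuousLinearMap.le_opNorm _ _
        _ ≤ ‖Bp L' 0 i0‖ * (2 * C * Real.exp ((χ + ε) * m + ε * i0) * ‖u‖) :=
            mul_le_mul_of_nonneg_left h2 (norm_nonneg _)
        _ = _ := by ring
    have h3 : Real.exp ((χ + ε) * m + ε * i0)
        ≤ Real.exp (ε * i0) * Real.exp ((χ + ε) * ((i0 + m : ℕ) : ℝ)) := by
      rw [← Real.exp_add]
      apply Real.exp_le_exp.2
      push_cast
      have : (0 : ℝ) ≤ i0 := Nat.cast_nonneg i0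
      nlinarith
    calc ‖Bp L' 0 (i0 + m)‖ ≤ ‖Bp L' 0 i0‖ * (2 * C * Real.exp ((χ + ε) * m + ε * i0)) := h1
      _ ≤ ‖Bp L' 0 i0‖ * (2 * C *
            (Real.exp (ε * i0) * Real.exp ((χ + ε) * ((i0 + m : ℕ) : ℝ)))) := by
          apply mul_le_mul_of_nonneg_left _ (norm_nonneg _)
          apply mul_le_mul_of_nonneg_left h3 (by positivity)
      _ = (‖Bp L' 0 i0‖ * (2 * C * Real.exp (ε * i0))) *
            Real.exp ((χ + ε) * ((i0 + m : ℕ) : ℝ)) := by ring
      _ ≤ _ := by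
          apply mul_le_mul_of_nonneg_right _ (Real.exp_pos _).le
          linarith

end MD
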