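import Pool.Agent.Lib.MP_904526_an.N1
import Pool.Agent.Lib.MP_904526_an.M1

/-!
# N2: strict differentiability of the inverse map and of its iterates
-/

open Set Filter Topology MeasureTheory

namespace MD

variable {g : E ≃ₜ E} {D L : E → E →L[ℝ] E} {P : E → E} {q J M : ℝ} {K : Set E}

theorem n2_strict (h : Sys g D L P q J M K) (x : E) :
    HasStrictFDerivAt g.symm (L x) (g x) := by
  have hq := h.hq
  rw [hasStrictFDerivAt_iff_isLittleO, Asymptotics.isLittleO_iff]
  intro c hc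
  have hcont : Tendsto (fun p : E × E => q * (‖p.1 - g x‖ + ‖p.2 - g x‖)) (𝓝 (g x, g x))
      (𝓝 0) := by
    have h1 : Continuous (fun p : E × E => q * (‖p.1 - g x‖ + ‖p.2 - g x‖)) := by fun_prop
    have h2 := h1.tendsto (g x, g x)
    simpa using h2
  filter_upwards [hcont.eventually (gt_mem_nhds hc)] with p hp
  have h1 := h.ex x (p.1 - g x)
  have h2 := h.ex x (p.2 - g x)
  rw [add_sub_cancel] at h1 h2
  have h3 : g.symm p.1 - g.symm p.2 - L x (p.1 - p.2)
      = P (p.1 - g x) - P (p.2 - g x) := by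
    rw [h1, h2]
    have : L x (p.1 - p.2) = L x (p.1 - g x) - L x (p.2 - g x) := by
      rw [← map_sub]
      congr 1
      abel
    rw [this]
    abel
  rw [h3]
  have h4 := h.Pl (p.1 - g x) (p.2 - g x)
  have h5 : p.1 - g x - (p.2 - g x) = p.1 - p.2 := by abel
  rw [h5] at h4
  exact h4.trans (mul_le_mul_of_nonneg_right hp.le (norm_nonneg _))

theorem n2_iter (h : Sys g D L P q J M K) (y : E) (k : ℕ) :
    HasStrictFDerivAt (g.symm^[k]) (Bp (fun i => L (g^[i] y)) 0 k) (g^[k] y) := by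
  induction k with
  | zero => exact hasStrictFDerivAt_id _
  | succ k ih =>
    have h1 : (g.symm^[k + 1] : E → E) = g.symm^[k] ∘ g.symm := Function.iterate_succ _ _
    have h2 : g^[k + 1] y = g (g^[k] y) := Function.iterate_succ_apply' _ _ _
    rw [h1, h2]
    have h3 : Bp (fun i => L (g^[i] y)) 0 (k + 1)
        = (Bp (fun i => L (g^[i] y)) 0 k).comp (L (g^[k] y)) := by
      show (Bp (fun i => L (g^[i] y)) 0 k).comp (L (g^[0 + k] y)) = _
      rw [zero_add]
    rw [h3]
    have h4 := n2_strict h (g^[k] y)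
    have h5 : g.symm (g (g^[k] y)) = g^[k] y := g.symm_apply_apply _
    rw [← h5] at ih
    exact ih.comp _ (by rw [h5] at *; exact h4)

theorem n2_diff (h : Sys g D L P q J M K) (x y : E) :
    ‖L y - L x‖ ≤ 2 * q * ‖g y - g x‖ := by
  have hq := h.hq
  apply ContinuousLinearMap.opNorm_le_bound _ (by positivity)
  intro u
  set w := g y - g x with hw
  have key : ∀ s : ℝ, 0 < s → ‖(L y - L x) u‖ ≤ 2 * q * ‖w‖ * ‖u‖ + s * (2 * q * ‖u‖ ^ 2) := by
    intro s hs
    have h1 := h.ex y (s • u)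
    have h2 := h.ex x (w + s • u)
    have h3 := h.ex x w
    have h4 : g x + (w + s • u) = g y + s • u := by rw [hw]; abel
    have h5 : g x + w = g y := by rw [hw]; abel
    rw [h4, h1] at h2
    rw [h5, g.symm_apply_apply] at h3
    have h6 : s • (L y - L x) u = P (w + s • u) - P w - P (s • u) := by
      rw [sub_apply, smul_sub, ← map_smul, ← map_smul]
      have h7 : L y (s • u) + P (s • u) + y = x + L x (w + s • u) + P (w + s • u) := by
        rw [← h2]; abel
      rw [map_add] at h7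
      have h8 : L y (s • u) = x + (L x w + L x (s • u)) + P (w + s • u) - P (s • u) - y := by
        rw [← h7]; abel
      rw [h8]
      conv_lhs => rw [h3]
      abel
    have h7 := h.Pl (w + s • u) w
    have h8 := h.Pl (s • u) 0
    rw [h.P0, sub_zero, sub_zero, norm_zero, add_zero] at h8
    rw [add_sub_cancel_left] at h7
    have h9 : ‖s • u‖ = s * ‖u‖ := by rw [norm_smul, Real.norm_of_nonneg hs.le]
    have h10 : ‖w + s • u‖ ≤ ‖w‖ + s * ‖u‖ := (norm_add_le _ _).trans (by rw [h9])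
    have h11 : s * ‖(L y - L x) u‖ ≤ q * (‖w‖ + s * ‖u‖ + ‖w‖) * (s * ‖u‖)
        + q * (s * ‖u‖) * (s * ‖u‖) := by
      calc s * ‖(L y - L x) u‖ = ‖s • (L y - L x) u‖ := by
            rw [norm_smul, Real.norm_of_nonneg hs.le]
        _ ≤ ‖P (w + s • u) - P w‖ + ‖P (s • u)‖ := by rw [h6]; exact norm_sub_le _ _
        _ ≤ q * (‖w + s • u‖ + ‖w‖) * ‖s • u‖ + q * ‖s • u‖ * ‖s • u‖ := add_le_add h7 h8
        _ ≤ _ := by
            rw [h9]
            have : 0 ≤ s * ‖u‖ := by positivity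
            gcongr
    have h12 : s * ‖(L y - L x) u‖ ≤ s * (2 * q * ‖w‖ * ‖u‖ + s * (2 * q * ‖u‖ ^ 2)) := by
      refine h11.trans (le_of_eq ?_)
      ring
    exact le_of_mul_le_mul_left h12 hs
  apply le_of_forall_pos_le_add
  intro δ hδ
  have hp : 0 < 2 * q * ‖u‖ ^ 2 + 1 := by positivity
  have h1 := key (δ / (2 * q * ‖u‖ ^ 2 + 1)) (by positivity)
  have h2 : δ / (2 * q * ‖u‖ ^ 2 + 1) * (2 * q * ‖u‖ ^ 2) ≤ δ := by
    rw [div_mul_eq_mul_div, div_le_iff₀ hp]
    nlinarith
  linarith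

end MD
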